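import Pool.Agent.Lib.MP_d439b2_co.NK.Base
import Pool.Agent.Lib.MP_d439b2_co.X3.H1T.Base

/-!
# MP_d439b2_co, X3/H1R: large induced matchings in graphs without `K3:0,1,02` (helper94), definitions

`FH G`: `G` has no induced minor `K3:0,1,02`; `FJ t G`: no induced minor `J_t = co(P_3 + t P_2)` (`H1T/Base.lean`).
`Lt G n e`: an induced matching of `n` pairs, the LETTERS `e false i, e true i` (`NK/Base.lean`); `Tc G e v i`: `v`
touches the letter `i`, `Fu G e v i`: `v` is complete to the letter `i`; `Lw G n e v`: `v` touches at most one letter;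
`Fm G n e v`: `v` is complete to all letters except for at most one; `Hf G n e v r`: `v` sees `e r i` and misses
`e (!r) i` for all `i`.  `Rg G n e W` (REG position): at most two vertices `W`, all of them `Hf`, and every other vertex
is `Lw` or `Fm`.

In this file (proved): the engines `engS`, `engV` for models of `K3:0,1,02`, the restriction `Rs G U` of a graph to a set of
vertices, and basic lemmas.
-/

set_option autoImplicit false

namespace Pool.Agent.MPd439b2.H1R

open Pool.Agent.MPd439b2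
open Pool.Agent.MPd439b2.Rep
open Pool.Agent.MPd439b2.NK
open Pool.Agent.MPd439b2.H1T

variable {V : Type}

/-- `v` sees both vertices of the letter `i` -/
def Fu (G : SimpleGraph V) (e : Bool → ℕ → V) (v : V) (i : ℕ) : Prop := ∀ s, G.Adj v (e s i)

/-- `v` is complete to all letters except for at most one -/
def Fm (G : SimpleGraph V) (n : ℕ) (e : Bool → ℕ → V) (v : V) : Prop :=
  ∀ i < n, ∀ j < n, i ≠ j → Fu G e v i ∨ Fu G e v j

/-- `v` sees `e r i` and misses `e (!r) i` -/
def Ha (G : SimpleGraph V) (e : Bool → ℕ → V) (v : V) (r : Bool) (i : ℕ) : Prop :=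
  G.Adj v (e r i) ∧ ¬ G.Adj v (e (!r) i)

/-- `v` is half on all letters, always on the side `r` -/
def Hf (G : SimpleGraph V) (n : ℕ) (e : Bool → ℕ → V) (v : V) (r : Bool) : Prop :=
  ∀ i < n, Ha G e v r i

/-- **REG position**: see the head of the file -/
structure Rg (G : SimpleGraph V) (n : ℕ) (e : Bool → ℕ → V) (W : Set V) : Prop where
  lt : Lt G n e
  card : W.ncard ≤ 2
  half : ∀ w ∈ W, ∃ r, Hf G n e w r
  out : ∀ v, v ∉ W → Lw G n e v ∨ Fm G n e v

/-- no homogeneous sets (consequence of the absence of splits, `Rep.spo_hmg`) -/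
def Pm (G : SimpleGraph V) : Prop := ∀ M : Set V, 2 ≤ M.ncard → 2 ≤ Mᶜ.ncard →
  ∃ v, v ∉ M ∧ (∃ x ∈ M, G.Adj v x) ∧ ∃ y ∈ M, ¬ G.Adj v y

/-! ### The engines -/

/-- `{i, j}` is in the list -/
def adjL (A : List (ℕ × ℕ)) (i j : ℕ) : Bool := A.contains (i, j) || A.contains (j, i)

/-- every element except for the last one is adjacent to a later one -/
def bagc (A : List (ℕ × ℕ)) : List ℕ → Bool
  | [] => false
  | [_] => true
  | a :: b :: l => (b :: l).any (adjL A a) && bagc A (b :: l)

/-- the edges of `K3:0,1,02` -/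
def pat : List (ℕ × ℕ) := [(0, 1), (0, 2), (1, 2), (0, 3), (1, 4), (0, 5), (2, 5)]

def tchB (A : List (ℕ × ℕ)) (l l' : List ℕ) : Bool := l.any fun i => l'.any (adjL A i)

def allB (N : List (ℕ × ℕ)) (l l' : List ℕ) : Bool := l.all fun i => l'.all (adjL N i)

/-- the certificate: bags `L` (six lists), edges `A`, non-edges `N`, disjoint pairs `D` -/
def chk (L : List (List ℕ)) (A N D : List (ℕ × ℕ)) : Bool :=
  L.length == 6 && L.all (bagc A) && (List.range 6).all fun i => (List.range i).all fun j =>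
    (if adjL pat i j then tchB A (L.getD i []) (L.getD j []) else allB N (L.getD i []) (L.getD j []))
      && allB D (L.getD i []) (L.getD j [])

/-- the pairs which are different because of an edge or of a third vertex -/
def dif (A N D : List (ℕ × ℕ)) (i j : ℕ) : Bool :=
  adjL A i j || adjL D i j || (A.map Prod.fst ++ A.map Prod.snd).any fun k =>
    (adjL A i k && adjL N j k) || (adjL A j k && adjL N i k)

/-- the certificate for vertices -/
def chkV (L : List (List ℕ)) (A N D : List (ℕ × ℕ)) : Bool :=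
  L.length == 6 && L.all (bagc A) && (List.range 6).all fun i => (List.range i).all fun j =>
    (if adjL pat i j then tchB A (L.getD i []) (L.getD j []) else allB N (L.getD i []) (L.getD j []))
      && (L.getD i []).all fun a => (L.getD j []).all fun b => dif A N D a b

/-- the union of the sets `X i`, `i ∈ l` -/
def Un (X : ℕ → Set V) (l : List ℕ) : Set V := {x | ∃ i ∈ l, x ∈ X i}

theorem adjL_iff {A : List (ℕ × ℕ)} {i j : ℕ} : adjL A i j = true ↔ (i, j) ∈ A ∨ (j, i) ∈ A := by
  simp [adjL, Bool.or_eq_true]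

theorem un_cons (X : ℕ → Set V) (a : ℕ) (l : List ℕ) : Un X (a :: l) = X a ∪ Un X l := by
  ext x
  simp [Un]

theorem bagc_conn {G : SimpleGraph V} {X : ℕ → Set V} {A : List (ℕ × ℕ)}
    (hA : ∀ p ∈ A, Tch G (X p.1) (X p.2)) :
    ∀ l : List ℕ, (∀ i ∈ l, Conn G (X i)) → bagc A l = true → Conn G (Un X l)
  | [], _, h => absurd h (by simp [bagc])
  | [a], hC, _ => by
    have h1 : Un X [a] = X a := by
      ext x
      simp [Un]
    rw [h1]
    exact hC a (List.mem_singleton.2 rfl)
  | a :: b :: l, hC, h => by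
    simp only [bagc, Bool.and_eq_true, List.any_eq_true] at h
    obtain ⟨⟨c, hc, hac⟩, h2⟩ := h
    rw [un_cons]
    refine Conn.union (hC a (List.mem_cons_self ..))
      (bagc_conn hA (b :: l) (fun i hi => hC i (List.mem_cons_of_mem _ hi)) h2) (Or.inr ?_)
    rw [adjL_iff] at hac
    have h3 : Tch G (X a) (X c) := by
      rcases hac with h3 | h3
      · exact hA _ h3
      · exact (hA _ h3).symm
    obtain ⟨x, hx, y, hy, hxy⟩ := h3
    exact ⟨x, hx, y, ⟨c, hc, hy⟩, hxy⟩

/-- **The engine for sets.** -/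
theorem engS {G : SimpleGraph V} (hG : FH G) (X : ℕ → Set V) (L : List (List ℕ))
    (A N D : List (ℕ × ℕ)) (hC : ∀ l ∈ L, ∀ i ∈ l, Conn G (X i))
    (hA : ∀ p ∈ A, Tch G (X p.1) (X p.2)) (hN : ∀ p ∈ N, ¬ Tch G (X p.1) (X p.2))
    (hD : ∀ p ∈ D, Disjoint (X p.1) (X p.2)) (hc : chk L A N D = true) : False := by
  simp only [chk, Bool.and_eq_true, List.all_eq_true, List.mem_range, beq_iff_eq] at hc
  obtain ⟨⟨hl, hb⟩, hp⟩ := hc
  have hmem : ∀ i < 6, L.getD i [] ∈ L := by
    intro i hi
    rw [List.getD_eq_getElem _ _ (by omega)]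
    exact List.getElem_mem (by omega)
  have hcon : ∀ i < 6, Conn G (Un X (L.getD i [])) := fun i hi =>
    bagc_conn hA _ (hC _ (hmem i hi)) (hb _ (hmem i hi))
  have hdis : ∀ i < 6, ∀ j < i, Disjoint (Un X (L.getD i [])) (Un X (L.getD j [])) := by
    intro i hi j hj
    rw [Set.disjoint_left]
    rintro x ⟨a, ha, hxa⟩ ⟨b, hb', hxb⟩
    have h1 := (hp i hi j hj).2
    simp only [allB, List.all_eq_true] at h1
    have h2 := h1 a ha b hb'
    rw [adjL_iff] at h2
    rcases h2 with h2 | h2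
    · exact Set.disjoint_left.1 (hD _ h2) hxa hxb
    · exact Set.disjoint_left.1 (hD _ h2) hxb hxa
  have ht : ∀ i < 6, ∀ j < i, adjL pat i j = true →
      Tch G (Un X (L.getD i [])) (Un X (L.getD j [])) := by
    intro i hi j hj h
    have h1 := (hp i hi j hj).1
    rw [if_pos h] at h1
    simp only [tchB, List.any_eq_true] at h1
    obtain ⟨a, ha, b, hb', hab⟩ := h1
    rw [adjL_iff] at hab
    have h3 : Tch G (X a) (X b) := by
      rcases hab with h3 | h3
      · exact hA _ h3
      · exact (hA _ h3).symm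
    obtain ⟨x, hx, y, hy, hxy⟩ := h3
    exact ⟨x, ⟨a, ha, hx⟩, y, ⟨b, hb', hy⟩, hxy⟩
  have hn : ∀ i < 6, ∀ j < i, adjL pat i j = false →
      ¬ Tch G (Un X (L.getD i [])) (Un X (L.getD j [])) := by
    intro i hi j hj h
    have h1 := (hp i hi j hj).1
    rw [if_neg (by rw [h]; exact Bool.false_ne_true)] at h1
    simp only [allB, List.all_eq_true] at h1
    rintro ⟨x, ⟨a, ha, hx⟩, y, ⟨b, hb', hy⟩, hxy⟩
    have h2 := h1 a ha b hb'
    rw [adjL_iff] at h2
    rcases h2 with h2 | h2
    · exact hN _ h2 ⟨x, hx, y, hy, hxy⟩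
    · exact hN _ h2 ⟨y, hy, x, hx, hxy.symm⟩
  have nsymm : ∀ {X Y : Set V}, ¬ Tch G X Y → ¬ Tch G Y X := fun h h' => h h'.symm
  exact mdl hG (hcon 0 (by omega)) (hcon 1 (by omega)) (hcon 2 (by omega)) (hcon 3 (by omega))
    (hcon 4 (by omega)) (hcon 5 (by omega))
    (hdis 1 (by omega) 0 (by omega)).symm (hdis 2 (by omega) 0 (by omega)).symm
    (hdis 2 (by omega) 1 (by omega)).symm
    (hdis 3 (by omega) 0 (by omega)).symm (hdis 3 (by omega) 1 (by omega)).symm
    (hdis 3 (by omega) 2 (by omega)).symm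
    (hdis 4 (by omega) 0 (by omega)).symm (hdis 4 (by omega) 1 (by omega)).symm
    (hdis 4 (by omega) 2 (by omega)).symm
    (hdis 5 (by omega) 0 (by omega)).symm (hdis 5 (by omega) 1 (by omega)).symm
    (hdis 5 (by omega) 2 (by omega)).symm
    (hdis 4 (by omega) 3 (by omega)).symm (hdis 5 (by omega) 3 (by omega)).symm
    (hdis 5 (by omega) 4 (by omega)).symm
    (ht 1 (by omega) 0 (by omega) (by decide)).symm (ht 2 (by omega) 0 (by omega) (by decide)).symm
    (ht 2 (by omega) 1 (by omega) (by decide)).symm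
    (ht 3 (by omega) 0 (by omega) (by decide)).symm (nsymm (hn 3 (by omega) 1 (by omega) (by decide)))
    (nsymm (hn 3 (by omega) 2 (by omega) (by decide)))
    (nsymm (hn 4 (by omega) 0 (by omega) (by decide))) (ht 4 (by omega) 1 (by omega) (by decide)).symm
    (nsymm (hn 4 (by omega) 2 (by omega) (by decide)))
    (ht 5 (by omega) 0 (by omega) (by decide)).symm (nsymm (hn 5 (by omega) 1 (by omega) (by decide)))
    (ht 5 (by omega) 2 (by omega) (by decide)).symm
    (nsymm (hn 4 (by omega) 3 (by omega) (by decide)))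
    (nsymm (hn 5 (by omega) 3 (by omega) (by decide)))
    (nsymm (hn 5 (by omega) 4 (by omega) (by decide)))

/-- **The engine for vertices.**  `A`: edges, `N`: non-edges, `D`: pairs of different vertices (only the pairs in
different bags which do not follow from `A`, `N`) -/
theorem engV {G : SimpleGraph V} (hG : FH G) (x : ℕ → V) (L : List (List ℕ))
    (A N D : List (ℕ × ℕ)) (hA : ∀ p ∈ A, G.Adj (x p.1) (x p.2))
    (hN : ∀ p ∈ N, ¬ G.Adj (x p.1) (x p.2)) (hD : ∀ p ∈ D, x p.1 ≠ x p.2)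
    (hc : chkV L A N D = true) : False := by
  have hAa : ∀ i j, adjL A i j = true → G.Adj (x i) (x j) := by
    intro i j h
    rw [adjL_iff] at h
    rcases h with h | h
    · exact hA _ h
    · exact (hA _ h).symm
  have hNn : ∀ i j, adjL N i j = true → ¬ G.Adj (x i) (x j) := by
    intro i j h
    rw [adjL_iff] at h
    rcases h with h | h
    · exact hN _ h
    · exact fun h' => hN _ h h'.symm
  have hdif : ∀ i j, dif A N D i j = true → x i ≠ x j := by
    intro i j h
    simp only [dif, Bool.or_eq_true, List.any_eq_true, Bool.and_eq_true] at h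
    rcases h with (h | h) | ⟨k, _, h | h⟩
    · exact (hAa i j h).ne
    · rw [adjL_iff] at h
      rcases h with h | h
      · exact hD _ h
      · exact (hD _ h).symm
    · intro h'
      exact hNn j k h.2 (h' ▸ hAa i k h.1)
    · intro h'
      exact hNn i k h.2 (h'.symm ▸ hAa j k h.1)
  obtain ⟨D', hD', hD''⟩ : ∃ D' : List (ℕ × ℕ), (∀ p ∈ D', x p.1 ≠ x p.2) ∧
      ∀ i < 6, ∀ j < i, allB D' (L.getD i []) (L.getD j []) = true := by
    have hc' := hc
    simp only [chkV, Bool.and_eq_true, List.all_eq_true, List.mem_range, beq_iff_eq] at hc'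
    refine ⟨(L.flatten.flatMap fun a => L.flatten.map fun b => (a, b)).filter
      fun p => dif A N D p.1 p.2, ?_, ?_⟩
    · intro p hp
      exact hdif _ _ (List.mem_filter.1 hp).2
    · intro i hi j hj
      have hm : ∀ i < 6, ∀ a ∈ L.getD i [], a ∈ L.flatten := by
        intro i hi a ha
        refine List.mem_flatten.2 ⟨L.getD i [], ?_, ha⟩
        rw [List.getD_eq_getElem _ _ (by omega)]
        exact List.getElem_mem (by omega)
      simp only [allB, List.all_eq_true]
      intro a ha b hb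
      rw [adjL_iff]
      left
      rw [List.mem_filter]
      refine ⟨List.mem_flatMap.2 ⟨a, hm i hi a ha, List.mem_map.2 ⟨b, hm j (by omega) b hb, rfl⟩⟩,
        (hc'.2 i hi j hj).2 a ha b hb⟩
  refine engS hG (fun i => {x i}) L A N D' (fun _ _ i _ => Conn.singleton G _) ?_ ?_ ?_ ?_
  · intro p hp
    exact ⟨_, rfl, _, rfl, hA p hp⟩
  · rintro p hp ⟨_, rfl, _, rfl, h⟩
    exact hN p hp h
  · intro p hp
    exact Set.disjoint_singleton.2 (hD' p hp)
  · simp only [chkV, Bool.and_eq_true, List.all_eq_true, List.mem_range, beq_iff_eq] at hc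
    simp only [chk, Bool.and_eq_true, List.all_eq_true, List.mem_range, beq_iff_eq]
    exact ⟨hc.1, fun i hi j hj => ⟨(hc.2 i hi j hj).1, hD'' i hi j hj⟩⟩

/-! ### The restriction to a set of vertices -/

/-- the graph `G` with the edges inside `U` -/
def Rs (G : SimpleGraph V) (U : Set V) : SimpleGraph V where
  Adj u v := G.Adj u v ∧ u ∈ U ∧ v ∈ U
  symm := ⟨fun _ _ h => ⟨h.1.symm, h.2.2, h.2.1⟩⟩
  loopless := ⟨fun u h => G.loopless.irrefl u h.1⟩

section rs

variable {G : SimpleGraph V} {U A B : Set V}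

theorem rs_conn (h : Conn (Rs G U) A) : Conn G A := h.mono_graph fun _ _ _ _ h1 => h1.1

theorem rs_conn_of (h : Conn G A) (hA : A ⊆ U) : Conn (Rs G U) A :=
  h.mono_graph fun _ hu _ hv h1 => ⟨h1, hA hu, hA hv⟩

theorem rs_tch (h : Tch (Rs G U) A B) : Tch G A B := by
  obtain ⟨a, ha, b, hb, h1⟩ := h
  exact ⟨a, ha, b, hb, h1.1⟩

theorem rs_tch_of (h : Tch G A B) (hA : A ⊆ U) (hB : B ⊆ U) : Tch (Rs G U) A B := by
  obtain ⟨a, ha, b, hb, h1⟩ := h
  exact ⟨a, ha, b, hb, h1, hA ha, hB hb⟩

/-- a connected set which contains a vertex of `U` with a neighbour is contained in `U` -/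
theorem rs_sub {x y : V} (hA : Conn (Rs G U) A) (hx : x ∈ A) (h : (Rs G U).Adj x y) : A ⊆ U := by
  by_contra hcon
  obtain ⟨z, hz, hzU⟩ := Set.not_subset.1 hcon
  have hne : ({z} : Set V) ≠ A := by
    intro h2
    rw [← h2, Set.mem_singleton_iff] at hx
    subst hx
    exact hzU h.2.1
  obtain ⟨a, ha, b, _, hab⟩ := hA.2 {z} (Set.singleton_subset_iff.2 hz) ⟨z, rfl⟩ hne
  rw [Set.mem_singleton_iff] at ha
  subst ha
  exact hzU hab.2.1

end rs

/-! ### Sub-families of letters -/

theorem lw_comp {G : SimpleGraph V} {n m : ℕ} {e : Bool → ℕ → V} {σ : ℕ → ℕ} {v : V}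
    (h : Lw G n e v) (h1 : ∀ i < m, σ i < n) (h2 : ∀ i < m, ∀ j < m, σ i = σ j → i = j) :
    Lw G m (fun s i => e s (σ i)) v :=
  fun i hi j hj h3 h4 => h2 i hi j hj (h _ (h1 i hi) _ (h1 j hj) h3 h4)

theorem Fm.comp {G : SimpleGraph V} {n m : ℕ} {e : Bool → ℕ → V} {σ : ℕ → ℕ} {v : V}
    (h : Fm G n e v) (h1 : ∀ i < m, σ i < n) (h2 : ∀ i < m, ∀ j < m, σ i = σ j → i = j) :
    Fm G m (fun s i => e s (σ i)) v :=
  fun i hi j hj hij => h _ (h1 i hi) _ (h1 j hj) fun h3 => hij (h2 i hi j hj h3)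

theorem Rg.comp {G : SimpleGraph V} {n m : ℕ} {e : Bool → ℕ → V} {W : Set V} {σ : ℕ → ℕ}
    (h : Rg G n e W) (h1 : ∀ i < m, σ i < n) (h2 : ∀ i < m, ∀ j < m, σ i = σ j → i = j) :
    Rg G m (fun s i => e s (σ i)) W where
  lt := h.lt.comp σ h1 h2
  card := h.card
  half w hw := by
    obtain ⟨r, hr⟩ := h.half w hw
    exact ⟨r, fun i hi => hr _ (h1 i hi)⟩
  out v hv := (h.out v hv).imp (fun h3 => lw_comp h3 h1 h2) fun h3 => h3.comp h1 h2

/-- a vertex `Fm` is not `Lw` (at least three letters) -/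
theorem Fm.not_lw {G : SimpleGraph V} {n : ℕ} {e : Bool → ℕ → V} {v : V} (h : Fm G n e v)
    (hn : 3 ≤ n) : ¬ Lw G n e v := by
  intro h1
  have key : ∀ i < n, ∀ j < n, i ≠ j → Fu G e v i → Fu G e v j → False := fun i hi j hj hij h2 h3 =>
    hij (h1 i hi j hj ⟨false, h2 false⟩ ⟨false, h3 false⟩)
  rcases h 0 (by omega) 1 (by omega) (by omega) with h2 | h2
  · rcases h 1 (by omega) 2 (by omega) (by omega) with h3 | h3
    · exact key 0 (by omega) 1 (by omega) (by omega) h2 h3
    · exact key 0 (by omega) 2 (by omega) (by omega) h2 h3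
  · rcases h 0 (by omega) 2 (by omega) (by omega) with h3 | h3
    · exact key 1 (by omega) 0 (by omega) (by omega) h2 h3
    · exact key 1 (by omega) 2 (by omega) (by omega) h2 h3

/-- a half vertex touches all letters, so it is not `Lw` -/
theorem Hf.not_lw {G : SimpleGraph V} {n : ℕ} {e : Bool → ℕ → V} {v : V} {r : Bool}
    (h : Hf G n e v r) (hn : 2 ≤ n) : ¬ Lw G n e v := by
  intro h1
  have h2 := h1 0 (by omega) 1 (by omega) ⟨r, (h 0 (by omega)).1⟩ ⟨r, (h 1 (by omega)).1⟩
  omega

end Pool.Agent.MPd439b2.H1R
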