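import Pool.Agent.Lib.MP_d439b2_co.X3.H1R.SpecA

/-!
# MP_d439b2_co, X3/H1R/A1: half vertices (helper34)
-/

set_option autoImplicit false

namespace Pool.Agent.MPd439b2.H1R

open Pool.Agent.MPd439b2 Pool.Agent.MPd439b2.Rep Pool.Agent.MPd439b2.NK Pool.Agent.MPd439b2.H1T

/-- **A1.** -/
theorem rA1 : S_A1 := by
  classical
  intro hK f
  refine ⟨f (max (f 2) 3), ?_⟩
  intro V _ G n e S r hL hG hS hN
  have hset : ∀ (T : Finset ℕ) (v : V), {i | i ∈ T ∧ Ha G e v r i} =
      ((T.filter fun i => Ha G e v r i : Finset ℕ) : Set ℕ) := by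
    intro T v
    ext i
    simp
  by_cases h : ∃ w, max (f 2) 3 ≤ (S.filter fun i => Ha G e w r i).card
  · obtain ⟨w, hw⟩ := h
    refine ⟨S.filter fun i => Ha G e w r i, Finset.filter_subset _ _, 2, {w},
      (le_max_left _ _).trans hw, by simp, ?_, ?_⟩
    · rintro w' rfl i hi
      exact (Finset.mem_filter.1 hi).2
    · intro v hv
      rw [hset, Set.ncard_coe_finset]
      by_contra hcon
      push Not at hcon
      obtain ⟨i, j, k, hi, hj, hk, hij, hik, hjk⟩ := Finset.two_lt_card_iff.1 hcon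
      have key : ∀ l ∈ Finset.filter (fun i => Ha G e v r i) (Finset.filter (fun i => Ha G e w r i) S),
          l ∈ S ∧ Ha G e w r l ∧ Ha G e v r l := by
        intro l hl
        obtain ⟨h1, h2⟩ := Finset.mem_filter.1 hl
        obtain ⟨h3, h4⟩ := Finset.mem_filter.1 h1
        exact ⟨h3, h4, h2⟩
      refine hK V G n e r hL hG v w (fun h1 => hv h1) i (hS i (key i hi).1) j (hS j (key j hj).1)
        k (hS k (key k hk).1) hij hik hjk ?_
      rintro l (rfl | rfl | rfl)
      · exact ⟨(key _ hi).2.2, (key _ hi).2.1⟩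
      · exact ⟨(key _ hj).2.2, (key _ hj).2.1⟩
      · exact ⟨(key _ hk).2.2, (key _ hk).2.1⟩
  · push Not at h
    refine ⟨S, Finset.Subset.refl S, max (f 2) 3, ∅, hN, by simp, fun w hw => absurd hw (by simp), ?_⟩
    intro v _
    rw [hset, Set.ncard_coe_finset]
    exact (h v).le

end Pool.Agent.MPd439b2.H1R
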