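import Pool.Agent.Lib.MP_d439b2_co.X3.H1R.SpecA

/-! # MP_d439b2_co, X3/H1R: the dichotomy (`rDi`) (helper91) -/

set_option autoImplicit false

namespace Pool.Agent.MPd439b2.H1R

open Pool.Agent.MPd439b2
open Pool.Agent.MPd439b2.Rep
open Pool.Agent.MPd439b2.NK
open Pool.Agent.MPd439b2.H1T

theorem rDi : S_Di := by
  intro hR hDc hLd m
  obtain ⟨K₀, hK₀⟩ := hLd hR m
  refine ⟨2 * (K₀ + 1), ?_⟩
  intro M
  obtain ⟨N, hN⟩ := hDc (K₀ + 1) M
  refine ⟨N, ?_⟩
  intro V G n e S hL hG hSn hNS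
  rcases hN V (fun v i => ¬ Tc G e v i) (fun v i => Fu G e v i) S hNS with h | h | h
  · obtain ⟨v, x, hx, hxi, hvx⟩ := h
    left
    have hinj : ∀ i < K₀ + 1, ∀ j < K₀ + 1, x i = x j → i = j := by
      intro i hi j hj h
      rcases lt_trichotomy i j with h2 | h2 | h2
      · exact absurd h (hxi i j h2 hj).ne
      · exact h2
      · exact absurd h (hxi j i h2 hi).ne'
    obtain ⟨v', σ, h1, h2, h3⟩ := hK₀ V G n e v x hL hG (fun i hi => hSn _ (hx i (by omega)))
      (fun i hi j hj h => hinj i (by omega) j (by omega) h)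
      (fun i hi j hj => hvx i (by omega) j (by omega))
    refine ⟨v', σ, fun i hi => ?_, h2, h3⟩
    obtain ⟨j, hj, h4⟩ := h1 i hi
    rw [h4]
    exact hx j (by omega)
  · obtain ⟨v, x, hx, hxi, hvx⟩ := h
    left
    have hinj : ∀ i < K₀ + 1, ∀ j < K₀ + 1, x i = x j → i = j := by
      intro i hi j hj h
      rcases lt_trichotomy i j with h2 | h2 | h2
      · exact absurd h (hxi i j h2 hj).ne
      · exact h2
      · exact absurd h (hxi j i h2 hi).ne'
    obtain ⟨v', σ, h1, h2, h3⟩ := hK₀ V G n e (fun i => v (K₀ - 1 - i)) (fun j => x (K₀ - j)) hL hG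
      (fun i hi => hSn _ (hx _ (by omega)))
      (fun i hi j hj h => by
        have := hinj (K₀ - i) (by omega) (K₀ - j) (by omega) h
        omega)
      (fun i hi j hj => ⟨fun hij => (hvx (K₀ - 1 - i) (by omega) (K₀ - j) (by omega)).2 (by omega),
        fun hij => (hvx (K₀ - 1 - i) (by omega) (K₀ - j) (by omega)).1 (by omega)⟩)
    refine ⟨v', σ, fun i hi => ?_, h2, h3⟩
    obtain ⟨j, hj, h4⟩ := h1 i hi
    rw [h4]
    exact hx (K₀ - j) (by omega)
  · exact Or.inr h

end Pool.Agent.MPd439b2.H1R
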