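import Pool.Agent.Lib.MP_d439b2_co.X3.H1R.SpecA

/-!
# MP_d439b2_co, X3/H1R: Hi, thinning out for vertices which are complete to almost all letters (helper91)
-/

set_option autoImplicit false

namespace Pool.Agent.MPd439b2.H1R

open Pool.Agent.MPd439b2
open Pool.Agent.MPd439b2.Rep
open Pool.Agent.MPd439b2.NK
open Pool.Agent.MPd439b2.H1T

namespace HiM

variable {V : Type} {G : SimpleGraph V} {e : Bool → ℕ → V}

/-- the type of a vertex which is not complete to a letter -/
private theorem ty {u : V} {i : ℕ} (h : ¬ Fu G e u i) : ∃ τ : Option Bool, Tv G e u τ i := by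
  by_cases h1 : Tc G e u i
  · obtain ⟨s, hs⟩ := h1
    refine ⟨some s, hs, fun h2 => h fun t => ?_⟩
    by_cases h3 : t = s
    · rw [h3]
      exact hs
    · have h4 : t = !s := by
        cases s <;> cases t <;> simp_all
      rw [h4]
      exact h2
  · exact ⟨none, h1⟩

private theorem big {S : Finset ℕ} {u : V} {L : ℕ} {T : ℕ → ℕ}
    (h1 : ∀ k < L, T k ∈ S ∧ ¬ Fu G e u (T k)) (h2 : ∀ k < L, ∀ l < L, T k = T l → k = l) :
    L ≤ {i | i ∈ S ∧ ¬ Fu G e u i}.ncard := by
  have h3 : ((Finset.range L).image T : Set ℕ) ⊆ {i | i ∈ S ∧ ¬ Fu G e u i} := by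
    intro x hx
    rw [Finset.mem_coe, Finset.mem_image] at hx
    obtain ⟨k, hk, rfl⟩ := hx
    exact h1 k (Finset.mem_range.1 hk)
  have h4 : {i | i ∈ S ∧ ¬ Fu G e u i}.Finite := S.finite_toSet.subset fun i hi => hi.1
  have h5 := Set.ncard_le_ncard h3 h4
  rw [Set.ncard_coe_finset, Finset.card_image_of_injOn, Finset.card_range] at h5
  · exact h5
  · intro k hk l hl h6
    exact h2 k (Finset.mem_range.1 (Finset.mem_coe.1 hk)) l
      (Finset.mem_range.1 (Finset.mem_coe.1 hl)) h6

private theorem enum (S : Finset ℕ) : ∃ x : ℕ → ℕ, (∀ i < S.card, x i ∈ S) ∧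
    ∀ i < S.card, ∀ j < S.card, x i = x j → i = j := by
  refine ⟨fun i => if h : i < S.card then (S.orderEmbOfFin rfl ⟨i, h⟩ : ℕ) else 0, ?_, ?_⟩
  · intro i hi
    simp only [hi, dif_pos]
    exact Finset.orderEmbOfFin_mem S rfl _
  · intro i hi j hj h
    simp only [hi, hj, dif_pos] at h
    have := (S.orderEmbOfFin rfl).injective h
    exact Fin.mk.inj_iff.1 this

private theorem incr {m : ℕ} {s : ℕ → ℕ} (h : ∀ k l, k < l → l < m → s k < s l) :
    ∀ i < m, ∀ j < m, s i = s j → i = j := by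
  intro i hi j hj h1
  rcases lt_trichotomy i j with h2 | h2 | h2
  · exact absurd h1 (h i j h2 hj).ne
  · exact h2
  · exact absurd h1 (h j i h2 hi).ne'

end HiM

open HiM in
theorem rHi : S_Hi := by
  classical
  intro hR hR3 hHm m L
  obtain ⟨m₃, hm₃⟩ := hR3 (Bool × Bool × Bool) (L + 6)
  obtain ⟨m₂, hm₂⟩ := hR (Option Bool × Option Bool) m₃
  obtain ⟨M, hM⟩ := hR Bool (max m m₂)
  refine ⟨M, ?_⟩
  intro V G n e S Q hlt hSn hMS hG hQ
  obtain ⟨x, hxS, hxi⟩ := enum S
  obtain ⟨σ, c, hσ, hσM, hσc⟩ := hM fun i j => decide (∃ u ∈ Q, ¬ Fu G e u (x i) ∧ ¬ Fu G e u (x j))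
  have hxS' : ∀ i < max m m₂, x (σ i) ∈ S := fun i hi => hxS _ ((hσM i hi).trans_le hMS)
  have hxi' : ∀ i < max m m₂, ∀ j < max m m₂, x (σ i) = x (σ j) → i = j := fun i hi j hj h =>
    incr hσ i hi j hj (hxi _ ((hσM i hi).trans_le hMS) _ ((hσM j hj).trans_le hMS) h)
  cases c with
  | false =>
    refine ⟨fun i => x (σ i), fun i hi => hxS' i (hi.trans_le (le_max_left _ _)), fun i hi j hj =>
      hxi' i (hi.trans_le (le_max_left _ _)) j (hj.trans_le (le_max_left _ _)), ?_⟩
    intro u hu i hi j hj h1 h2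
    by_contra hij
    rcases lt_or_gt_of_ne hij with h3 | h3
    · have h4 := hσc i j h3 (hj.trans_le (le_max_left _ _))
      rw [decide_eq_false_iff_not] at h4
      exact h4 ⟨u, hu, h1, h2⟩
    · have h4 := hσc j i h3 (hi.trans_le (le_max_left _ _))
      rw [decide_eq_false_iff_not] at h4
      exact h4 ⟨u, hu, h2, h1⟩
  | true =>
    exfalso
    have h1 : ∀ i j, ∃ (u : V) (τ τ' : Option Bool), i < j → j < m₂ →
        u ∈ Q ∧ Tv G e u τ (x (σ i)) ∧ Tv G e u τ' (x (σ j)) := by
      intro i j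
      by_cases h : i < j ∧ j < m₂
      · have h4 := hσc i j h.1 (h.2.trans_le (le_max_right _ _))
        rw [decide_eq_true_iff] at h4
        obtain ⟨u, hu, h5, h6⟩ := h4
        obtain ⟨τ, hτ⟩ := ty h5
        obtain ⟨τ', hτ'⟩ := ty h6
        exact ⟨u, τ, τ', fun _ _ => ⟨hu, hτ, hτ'⟩⟩
      · exact ⟨e false 0, none, none, fun h2 h3 => absurd ⟨h2, h3⟩ h⟩
    choose z t t' hz using h1
    obtain ⟨ρ, ⟨κ, κ'⟩, hρ, hρM, hρc⟩ := hm₂ fun i j => (t i j, t' i j)
    have hxS2 : ∀ i < m₃, x (σ (ρ i)) ∈ S := fun i hi =>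
      hxS' _ ((hρM i hi).trans_le (le_max_right _ _))
    have hxi2 : ∀ i < m₃, ∀ j < m₃, x (σ (ρ i)) = x (σ (ρ j)) → i = j := fun i hi j hj h =>
      incr hρ i hi j hj (hxi' _ ((hρM i hi).trans_le (le_max_right _ _)) _
        ((hρM j hj).trans_le (le_max_right _ _)) h)
    have hz2 : ∀ i j, i < j → j < m₃ → z (ρ i) (ρ j) ∈ Q ∧ Tv G e (z (ρ i) (ρ j)) κ (x (σ (ρ i))) ∧
        Tv G e (z (ρ i) (ρ j)) κ' (x (σ (ρ j))) := by
      intro i j hij hj
      have h2 := hz _ _ (hρ i j hij hj) (hρM j hj)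
      have h3 := hρc i j hij hj
      rw [Prod.mk.injEq] at h3
      rw [h3.1, h3.2] at h2
      exact h2
    obtain ⟨τ, c, hτ, hτM, hτc⟩ := hm₃ fun i j k =>
      (decide (¬ Fu G e (z (ρ i) (ρ j)) (x (σ (ρ k)))), decide (¬ Fu G e (z (ρ i) (ρ k)) (x (σ (ρ j)))),
        decide (¬ Fu G e (z (ρ j) (ρ k)) (x (σ (ρ i)))))
    have hyS : ∀ k < L + 6, x (σ (ρ (τ k))) ∈ S := fun k hk => hxS2 _ (hτM k hk)
    have hyi : ∀ k < L + 6, ∀ l < L + 6, x (σ (ρ (τ k))) = x (σ (ρ (τ l))) → k = l :=
      fun i hi j hj h => incr hτ i hi j hj (hxi2 _ (hτM i hi) _ (hτM j hj) h)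
    obtain ⟨c1, c2, c3⟩ := c
    have hc : ∀ i j k, i < j → j < k → k < L + 6 →
        (decide (¬ Fu G e (z (ρ (τ i)) (ρ (τ j))) (x (σ (ρ (τ k))))) = c1) ∧
        (decide (¬ Fu G e (z (ρ (τ i)) (ρ (τ k))) (x (σ (ρ (τ j))))) = c2) ∧
        (decide (¬ Fu G e (z (ρ (τ j)) (ρ (τ k))) (x (σ (ρ (τ i))))) = c3) := by
      intro i j k hij hjk hk
      have h2 := hτc i j k hij hjk hk
      rw [Prod.mk.injEq, Prod.mk.injEq] at h2
      exact h2
    have hzQ : ∀ i j, i < j → j < L + 6 → z (ρ (τ i)) (ρ (τ j)) ∈ Q := fun i j hij hj =>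
      (hz2 _ _ (hτ i j hij hj) (hτM j hj)).1
    -- the three components are false
    have e1 : c1 = false := by
      cases hc1 : c1 with
      | false => rfl
      | true =>
        exfalso
        have h3 : L ≤ {i | i ∈ S ∧ ¬ Fu G e (z (ρ (τ 0)) (ρ (τ 1))) i}.ncard := by
          apply big (T := fun k => x (σ (ρ (τ (k + 2)))))
          · intro k hk
            refine ⟨hyS _ (by omega), ?_⟩
            have h4 := (hc 0 1 (k + 2) (by omega) (by omega) (by omega)).1
            rw [hc1, decide_eq_true_iff] at h4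
            exact h4
          · intro k hk l hl h4
            have := hyi _ (by omega) _ (by omega) h4
            omega
        have h5 := hQ _ (hzQ 0 1 (by omega) (by omega))
        omega
    have e2 : c2 = false := by
      cases hc2 : c2 with
      | false => rfl
      | true =>
        exfalso
        have h3 : L ≤ {i | i ∈ S ∧ ¬ Fu G e (z (ρ (τ 0)) (ρ (τ (L + 5)))) i}.ncard := by
          apply big (T := fun k => x (σ (ρ (τ (k + 1)))))
          · intro k hk
            refine ⟨hyS _ (by omega), ?_⟩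
            have h4 := (hc 0 (k + 1) (L + 5) (by omega) (by omega) (by omega)).2.1
            rw [hc2, decide_eq_true_iff] at h4
            exact h4
          · intro k hk l hl h4
            have := hyi _ (by omega) _ (by omega) h4
            omega
        have h5 := hQ _ (hzQ 0 (L + 5) (by omega) (by omega))
        omega
    have e3 : c3 = false := by
      cases hc3 : c3 with
      | false => rfl
      | true =>
        exfalso
        have h3 : L ≤ {i | i ∈ S ∧ ¬ Fu G e (z (ρ (τ (L + 4))) (ρ (τ (L + 5)))) i}.ncard := by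
          apply big (T := fun k => x (σ (ρ (τ k))))
          · intro k hk
            refine ⟨hyS _ (by omega), ?_⟩
            have h4 := (hc k (L + 4) (L + 5) (by omega) (by omega) (by omega)).2.2
            rw [hc3, decide_eq_true_iff] at h4
            exact h4
          · intro k hk l hl h4
            exact hyi _ (by omega) _ (by omega) h4
        have h5 := hQ _ (hzQ (L + 4) (L + 5) (by omega) (by omega))
        omega
    subst e1 e2 e3
    refine hHm V G n e (fun k => x (σ (ρ (τ k)))) (fun i j => z (ρ (τ i)) (ρ (τ j))) κ κ' hlt hG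
      (fun k hk => hSn _ (hyS k (by omega))) (fun k hk l hl h => hyi k (by omega) l (by omega) h) ?_
    intro p q hpq hq
    refine ⟨(hz2 _ _ (hτ p q hpq (by omega)) (hτM q (by omega))).2.1,
      (hz2 _ _ (hτ p q hpq (by omega)) (hτM q (by omega))).2.2, ?_⟩
    intro k hk hkp hkq
    rcases lt_or_gt_of_ne hkp with h3 | h3
    · have h4 := (hc k p q h3 hpq (by omega)).2.2
      rw [decide_eq_false_iff_not, not_not] at h4
      exact h4
    · rcases lt_or_gt_of_ne hkq with h5 | h5
      · have h4 := (hc p k q h3 h5 (by omega)).2.1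
        rw [decide_eq_false_iff_not, not_not] at h4
        exact h4
      · have h4 := (hc p q k hpq h5 (by omega)).1
        rw [decide_eq_false_iff_not, not_not] at h4
        exact h4

end Pool.Agent.MPd439b2.H1R
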