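import Pool.Agent.Lib.MP_d439b2_co.X3.H1R.SpecA

/-! # MP_d439b2_co, X3/H1R: the models for vertices which are not complete to two of four letters (`rHm`) (helper91) -/

set_option autoImplicit false

namespace Pool.Agent.MPd439b2.H1R

open Pool.Agent.MPd439b2
open Pool.Agent.MPd439b2.Rep
open Pool.Agent.MPd439b2.NK
open Pool.Agent.MPd439b2.H1T

namespace HmM

variable {V : Type} {G : SimpleGraph V} {n : ℕ} {e : Bool → ℕ → V} {y : ℕ → ℕ} {z : ℕ → ℕ → V}


private theorem cnn (r : Bool) (hL : Lt G n e) (hG : FH G) (hy : ∀ k < 4, y k < n)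
    (hne : ∀ k < 4, ∀ l < 4, k ≠ l → y k ≠ y l)
    (hz : ∀ i j, i < j → j < 4 → (¬ Tc G e (z i j) (y i)) ∧ (¬ Tc G e (z i j) (y j)) ∧
      ∀ k < 4, k ≠ i → k ≠ j → Fu G e (z i j) (y k)) : False := by
    refine engV hG (fun k => [e (!r) (y 1), z 0 2, z 0 3, e r (y 3), z 1 2, e (!r) (y 2), z 0 1, e r (y 1), e (!r) (y 0), e r (y 2)].getD k (z 0 1))
      [[1, 0, 2], [3, 4], [5, 6], [7], [8], [9]]
      [(0, 1), (0, 2), (0, 7), (1, 3), (1, 7), (2, 5), (2, 7), (2, 9), (3, 4), (3, 6), (4, 8), (5, 6), (5, 9), (6, 9)]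
      [(0, 3), (0, 4), (0, 5), (0, 6), (0, 8), (0, 9), (1, 5), (1, 8), (1, 9), (2, 3), (2, 8), (3, 5), (3, 7), (3, 8), (3, 9), (4, 5), (4, 7), (4, 9), (5, 7), (5, 8), (6, 7), (6, 8), (7, 8), (7, 9), (8, 9)]
      [] ?_ ?_ ?_ (by decide)
    · intro p hp
      simp only [List.mem_cons, List.not_mem_nil, or_false] at hp
      rcases hp with rfl | rfl | rfl | rfl | rfl | rfl | rfl | rfl | rfl | rfl | rfl | rfl | rfl | rfl
      · exact ((hz 0 2 (by decide) (by decide)).2.2 1 (by decide) (by decide) (by decide) (!r)).symm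
      · exact ((hz 0 3 (by decide) (by decide)).2.2 1 (by decide) (by decide) (by decide) (!r)).symm
      · exact (hL.adj (hy 1 (by decide)) r).symm
      · exact (hz 0 2 (by decide) (by decide)).2.2 3 (by decide) (by decide) (by decide) r
      · exact (hz 0 2 (by decide) (by decide)).2.2 1 (by decide) (by decide) (by decide) r
      · exact (hz 0 3 (by decide) (by decide)).2.2 2 (by decide) (by decide) (by decide) (!r)
      · exact (hz 0 3 (by decide) (by decide)).2.2 1 (by decide) (by decide) (by decide) r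
      · exact (hz 0 3 (by decide) (by decide)).2.2 2 (by decide) (by decide) (by decide) r
      · exact ((hz 1 2 (by decide) (by decide)).2.2 3 (by decide) (by decide) (by decide) r).symm
      · exact ((hz 0 1 (by decide) (by decide)).2.2 3 (by decide) (by decide) (by decide) r).symm
      · exact (hz 1 2 (by decide) (by decide)).2.2 0 (by decide) (by decide) (by decide) (!r)
      · exact ((hz 0 1 (by decide) (by decide)).2.2 2 (by decide) (by decide) (by decide) (!r)).symm
      · exact (hL.adj (hy 2 (by decide)) r).symm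
      · exact (hz 0 1 (by decide) (by decide)).2.2 2 (by decide) (by decide) (by decide) r
    · intro p hp
      simp only [List.mem_cons, List.not_mem_nil, or_false] at hp
      rcases hp with rfl | rfl | rfl | rfl | rfl | rfl | rfl | rfl | rfl | rfl | rfl | rfl | rfl | rfl | rfl | rfl | rfl | rfl | rfl | rfl | rfl | rfl | rfl | rfl | rfl
      · exact hL.nadj (hy 1 (by decide)) (hy 3 (by decide)) (hne 1 (by decide) 3 (by decide) (by decide)) _ _
      · exact fun h => (fun h => (hz 1 2 (by decide) (by decide)).1 ⟨(!r), h⟩) h.symm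
      · exact hL.nadj (hy 1 (by decide)) (hy 2 (by decide)) (hne 1 (by decide) 2 (by decide) (by decide)) _ _
      · exact fun h => (fun h => (hz 0 1 (by decide) (by decide)).2.1 ⟨(!r), h⟩) h.symm
      · exact hL.nadj (hy 1 (by decide)) (hy 0 (by decide)) (hne 1 (by decide) 0 (by decide) (by decide)) _ _
      · exact hL.nadj (hy 1 (by decide)) (hy 2 (by decide)) (hne 1 (by decide) 2 (by decide) (by decide)) _ _
      · exact fun h => (hz 0 2 (by decide) (by decide)).2.1 ⟨(!r), h⟩
      · exact fun h => (hz 0 2 (by decide) (by decide)).1 ⟨(!r), h⟩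
      · exact fun h => (hz 0 2 (by decide) (by decide)).2.1 ⟨r, h⟩
      · exact fun h => (hz 0 3 (by decide) (by decide)).2.1 ⟨r, h⟩
      · exact fun h => (hz 0 3 (by decide) (by decide)).1 ⟨(!r), h⟩
      · exact hL.nadj (hy 3 (by decide)) (hy 2 (by decide)) (hne 3 (by decide) 2 (by decide) (by decide)) _ _
      · exact hL.nadj (hy 3 (by decide)) (hy 1 (by decide)) (hne 3 (by decide) 1 (by decide) (by decide)) _ _
      · exact hL.nadj (hy 3 (by decide)) (hy 0 (by decide)) (hne 3 (by decide) 0 (by decide) (by decide)) _ _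
      · exact hL.nadj (hy 3 (by decide)) (hy 2 (by decide)) (hne 3 (by decide) 2 (by decide) (by decide)) _ _
      · exact fun h => (hz 1 2 (by decide) (by decide)).2.1 ⟨(!r), h⟩
      · exact fun h => (hz 1 2 (by decide) (by decide)).1 ⟨r, h⟩
      · exact fun h => (hz 1 2 (by decide) (by decide)).2.1 ⟨r, h⟩
      · exact hL.nadj (hy 2 (by decide)) (hy 1 (by decide)) (hne 2 (by decide) 1 (by decide) (by decide)) _ _
      · exact hL.nadj (hy 2 (by decide)) (hy 0 (by decide)) (hne 2 (by decide) 0 (by decide) (by decide)) _ _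
      · exact fun h => (hz 0 1 (by decide) (by decide)).2.1 ⟨r, h⟩
      · exact fun h => (hz 0 1 (by decide) (by decide)).1 ⟨(!r), h⟩
      · exact hL.nadj (hy 1 (by decide)) (hy 0 (by decide)) (hne 1 (by decide) 0 (by decide) (by decide)) _ _
      · exact hL.nadj (hy 1 (by decide)) (hy 2 (by decide)) (hne 1 (by decide) 2 (by decide) (by decide)) _ _
      · exact hL.nadj (hy 0 (by decide)) (hy 2 (by decide)) (hne 0 (by decide) 2 (by decide) (by decide)) _ _
    · intro p hp
      simp at hp

private theorem crn (r : Bool) (hL : Lt G n e) (hG : FH G) (hy : ∀ k < 4, y k < n)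
    (hne : ∀ k < 4, ∀ l < 4, k ≠ l → y k ≠ y l)
    (hz : ∀ i j, i < j → j < 4 → (Ha G e (z i j) r (y i)) ∧ (¬ Tc G e (z i j) (y j)) ∧
      ∀ k < 4, k ≠ i → k ≠ j → Fu G e (z i j) (y k)) : False := by
    refine engV hG (fun k => [e r (y 0), z 0 1, e r (y 1), z 0 2, z 1 2, e r (y 2), e (!r) (y 1), e (!r) (y 0)].getD k (z 0 1))
      [[0, 1], [2, 3], [4], [5], [6], [7]]
      [(0, 1), (0, 3), (0, 4), (0, 7), (1, 5), (2, 3), (2, 4), (2, 6), (3, 6), (4, 7)]
      [(0, 2), (0, 5), (0, 6), (1, 2), (1, 6), (1, 7), (2, 5), (2, 7), (3, 5), (3, 7), (4, 5), (4, 6), (5, 6), (5, 7), (6, 7)]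
      [] ?_ ?_ ?_ (by decide)
    · intro p hp
      simp only [List.mem_cons, List.not_mem_nil, or_false] at hp
      rcases hp with rfl | rfl | rfl | rfl | rfl | rfl | rfl | rfl | rfl | rfl
      · exact ((hz 0 1 (by decide) (by decide)).1.1).symm
      · exact ((hz 0 2 (by decide) (by decide)).1.1).symm
      · exact ((hz 1 2 (by decide) (by decide)).2.2 0 (by decide) (by decide) (by decide) r).symm
      · exact hL.adj (hy 0 (by decide)) r
      · exact (hz 0 1 (by decide) (by decide)).2.2 2 (by decide) (by decide) (by decide) r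
      · exact ((hz 0 2 (by decide) (by decide)).2.2 1 (by decide) (by decide) (by decide) r).symm
      · exact ((hz 1 2 (by decide) (by decide)).1.1).symm
      · exact hL.adj (hy 1 (by decide)) r
      · exact (hz 0 2 (by decide) (by decide)).2.2 1 (by decide) (by decide) (by decide) (!r)
      · exact (hz 1 2 (by decide) (by decide)).2.2 0 (by decide) (by decide) (by decide) (!r)
    · intro p hp
      simp only [List.mem_cons, List.not_mem_nil, or_false] at hp
      rcases hp with rfl | rfl | rfl | rfl | rfl | rfl | rfl | rfl | rfl | rfl | rfl | rfl | rfl | rfl | rfl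
      · exact hL.nadj (hy 0 (by decide)) (hy 1 (by decide)) (hne 0 (by decide) 1 (by decide) (by decide)) _ _
      · exact hL.nadj (hy 0 (by decide)) (hy 2 (by decide)) (hne 0 (by decide) 2 (by decide) (by decide)) _ _
      · exact hL.nadj (hy 0 (by decide)) (hy 1 (by decide)) (hne 0 (by decide) 1 (by decide) (by decide)) _ _
      · exact fun h => (hz 0 1 (by decide) (by decide)).2.1 ⟨r, h⟩
      · exact fun h => (hz 0 1 (by decide) (by decide)).2.1 ⟨(!r), h⟩
      · exact (hz 0 1 (by decide) (by decide)).1.2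
      · exact hL.nadj (hy 1 (by decide)) (hy 2 (by decide)) (hne 1 (by decide) 2 (by decide) (by decide)) _ _
      · exact hL.nadj (hy 1 (by decide)) (hy 0 (by decide)) (hne 1 (by decide) 0 (by decide) (by decide)) _ _
      · exact fun h => (hz 0 2 (by decide) (by decide)).2.1 ⟨r, h⟩
      · exact (hz 0 2 (by decide) (by decide)).1.2
      · exact fun h => (hz 1 2 (by decide) (by decide)).2.1 ⟨r, h⟩
      · exact (hz 1 2 (by decide) (by decide)).1.2
      · exact hL.nadj (hy 2 (by decide)) (hy 1 (by decide)) (hne 2 (by decide) 1 (by decide) (by decide)) _ _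
      · exact hL.nadj (hy 2 (by decide)) (hy 0 (by decide)) (hne 2 (by decide) 0 (by decide) (by decide)) _ _
      · exact hL.nadj (hy 1 (by decide)) (hy 0 (by decide)) (hne 1 (by decide) 0 (by decide) (by decide)) _ _
    · intro p hp
      simp at hp

private theorem cnr (r : Bool) (hL : Lt G n e) (hG : FH G) (hy : ∀ k < 4, y k < n)
    (hne : ∀ k < 4, ∀ l < 4, k ≠ l → y k ≠ y l)
    (hz : ∀ i j, i < j → j < 4 → (¬ Tc G e (z i j) (y i)) ∧ (Ha G e (z i j) r (y j)) ∧
      ∀ k < 4, k ≠ i → k ≠ j → Fu G e (z i j) (y k)) : False := by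
    refine engV hG (fun k => [e r (y 2), z 1 2, e r (y 1), z 0 2, z 0 1, e r (y 0), e (!r) (y 1), e (!r) (y 2)].getD k (z 0 1))
      [[0, 1], [2, 3], [4], [5], [6], [7]]
      [(0, 1), (0, 3), (0, 4), (0, 7), (1, 5), (2, 3), (2, 4), (2, 6), (3, 6), (4, 7)]
      [(0, 2), (0, 5), (0, 6), (1, 2), (1, 6), (1, 7), (2, 5), (2, 7), (3, 5), (3, 7), (4, 5), (4, 6), (5, 6), (5, 7), (6, 7)]
      [] ?_ ?_ ?_ (by decide)
    · intro p hp
      simp only [List.mem_cons, List.not_mem_nil, or_false] at hp
      rcases hp with rfl | rfl | rfl | rfl | rfl | rfl | rfl | rfl | rfl | rfl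
      · exact ((hz 1 2 (by decide) (by decide)).2.1.1).symm
      · exact ((hz 0 2 (by decide) (by decide)).2.1.1).symm
      · exact ((hz 0 1 (by decide) (by decide)).2.2 2 (by decide) (by decide) (by decide) r).symm
      · exact hL.adj (hy 2 (by decide)) r
      · exact (hz 1 2 (by decide) (by decide)).2.2 0 (by decide) (by decide) (by decide) r
      · exact ((hz 0 2 (by decide) (by decide)).2.2 1 (by decide) (by decide) (by decide) r).symm
      · exact ((hz 0 1 (by decide) (by decide)).2.1.1).symm
      · exact hL.adj (hy 1 (by decide)) r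
      · exact (hz 0 2 (by decide) (by decide)).2.2 1 (by decide) (by decide) (by decide) (!r)
      · exact (hz 0 1 (by decide) (by decide)).2.2 2 (by decide) (by decide) (by decide) (!r)
    · intro p hp
      simp only [List.mem_cons, List.not_mem_nil, or_false] at hp
      rcases hp with rfl | rfl | rfl | rfl | rfl | rfl | rfl | rfl | rfl | rfl | rfl | rfl | rfl | rfl | rfl
      · exact hL.nadj (hy 2 (by decide)) (hy 1 (by decide)) (hne 2 (by decide) 1 (by decide) (by decide)) _ _
      · exact hL.nadj (hy 2 (by decide)) (hy 0 (by decide)) (hne 2 (by decide) 0 (by decide) (by decide)) _ _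
      · exact hL.nadj (hy 2 (by decide)) (hy 1 (by decide)) (hne 2 (by decide) 1 (by decide) (by decide)) _ _
      · exact fun h => (hz 1 2 (by decide) (by decide)).1 ⟨r, h⟩
      · exact fun h => (hz 1 2 (by decide) (by decide)).1 ⟨(!r), h⟩
      · exact (hz 1 2 (by decide) (by decide)).2.1.2
      · exact hL.nadj (hy 1 (by decide)) (hy 0 (by decide)) (hne 1 (by decide) 0 (by decide) (by decide)) _ _
      · exact hL.nadj (hy 1 (by decide)) (hy 2 (by decide)) (hne 1 (by decide) 2 (by decide) (by decide)) _ _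
      · exact fun h => (hz 0 2 (by decide) (by decide)).1 ⟨r, h⟩
      · exact (hz 0 2 (by decide) (by decide)).2.1.2
      · exact fun h => (hz 0 1 (by decide) (by decide)).1 ⟨r, h⟩
      · exact (hz 0 1 (by decide) (by decide)).2.1.2
      · exact hL.nadj (hy 0 (by decide)) (hy 1 (by decide)) (hne 0 (by decide) 1 (by decide) (by decide)) _ _
      · exact hL.nadj (hy 0 (by decide)) (hy 2 (by decide)) (hne 0 (by decide) 2 (by decide) (by decide)) _ _
      · exact hL.nadj (hy 1 (by decide)) (hy 2 (by decide)) (hne 1 (by decide) 2 (by decide) (by decide)) _ _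
    · intro p hp
      simp at hp

private theorem crr (r : Bool) (hL : Lt G n e) (hG : FH G) (hy : ∀ k < 4, y k < n)
    (hne : ∀ k < 4, ∀ l < 4, k ≠ l → y k ≠ y l)
    (hz : ∀ i j, i < j → j < 4 → (Ha G e (z i j) r (y i)) ∧ (Ha G e (z i j) r (y j)) ∧
      ∀ k < 4, k ≠ i → k ≠ j → Fu G e (z i j) (y k)) : False := by
    refine engV hG (fun k => [e r (y 0), z 0 2, z 0 1, e r (y 1), e (!r) (y 0), e (!r) (y 2), e (!r) (y 1)].getD k (z 0 1))
      [[0, 1], [2], [3], [4], [5], [6]]
      [(0, 1), (0, 2), (0, 4), (1, 3), (1, 6), (2, 3), (2, 5), (3, 6)]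
      [(0, 3), (0, 5), (0, 6), (1, 4), (1, 5), (2, 4), (2, 6), (3, 4), (3, 5), (4, 5), (4, 6), (5, 6)]
      [] ?_ ?_ ?_ (by decide)
    · intro p hp
      simp only [List.mem_cons, List.not_mem_nil, or_false] at hp
      rcases hp with rfl | rfl | rfl | rfl | rfl | rfl | rfl | rfl
      · exact ((hz 0 2 (by decide) (by decide)).1.1).symm
      · exact ((hz 0 1 (by decide) (by decide)).1.1).symm
      · exact hL.adj (hy 0 (by decide)) r
      · exact (hz 0 2 (by decide) (by decide)).2.2 1 (by decide) (by decide) (by decide) r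
      · exact (hz 0 2 (by decide) (by decide)).2.2 1 (by decide) (by decide) (by decide) (!r)
      · exact (hz 0 1 (by decide) (by decide)).2.1.1
      · exact (hz 0 1 (by decide) (by decide)).2.2 2 (by decide) (by decide) (by decide) (!r)
      · exact hL.adj (hy 1 (by decide)) r
    · intro p hp
      simp only [List.mem_cons, List.not_mem_nil, or_false] at hp
      rcases hp with rfl | rfl | rfl | rfl | rfl | rfl | rfl | rfl | rfl | rfl | rfl | rfl
      · exact hL.nadj (hy 0 (by decide)) (hy 1 (by decide)) (hne 0 (by decide) 1 (by decide) (by decide)) _ _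
      · exact hL.nadj (hy 0 (by decide)) (hy 2 (by decide)) (hne 0 (by decide) 2 (by decide) (by decide)) _ _
      · exact hL.nadj (hy 0 (by decide)) (hy 1 (by decide)) (hne 0 (by decide) 1 (by decide) (by decide)) _ _
      · exact (hz 0 2 (by decide) (by decide)).1.2
      · exact (hz 0 2 (by decide) (by decide)).2.1.2
      · exact (hz 0 1 (by decide) (by decide)).1.2
      · exact (hz 0 1 (by decide) (by decide)).2.1.2
      · exact hL.nadj (hy 1 (by decide)) (hy 0 (by decide)) (hne 1 (by decide) 0 (by decide) (by decide)) _ _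
      · exact hL.nadj (hy 1 (by decide)) (hy 2 (by decide)) (hne 1 (by decide) 2 (by decide) (by decide)) _ _
      · exact hL.nadj (hy 0 (by decide)) (hy 2 (by decide)) (hne 0 (by decide) 2 (by decide) (by decide)) _ _
      · exact hL.nadj (hy 0 (by decide)) (hy 1 (by decide)) (hne 0 (by decide) 1 (by decide) (by decide)) _ _
      · exact hL.nadj (hy 2 (by decide)) (hy 1 (by decide)) (hne 2 (by decide) 1 (by decide) (by decide)) _ _
    · intro p hp
      simp at hp

private theorem crx (r : Bool) (hL : Lt G n e) (hG : FH G) (hy : ∀ k < 4, y k < n)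
    (hne : ∀ k < 4, ∀ l < 4, k ≠ l → y k ≠ y l)
    (hz : ∀ i j, i < j → j < 4 → (Ha G e (z i j) r (y i)) ∧ (Ha G e (z i j) (!r) (y j)) ∧
      ∀ k < 4, k ≠ i → k ≠ j → Fu G e (z i j) (y k)) : False := by
    refine engV hG (fun k => [e (!r) (y 2), z 0 1, e r (y 0), z 0 2, e r (y 2), e (!r) (y 0), e (!r) (y 1)].getD k (z 0 1))
      [[0, 1], [2], [3], [4], [5], [6]]
      [(0, 1), (0, 3), (0, 4), (1, 2), (1, 4), (1, 6), (2, 3), (2, 5), (3, 6)]
      [(0, 2), (0, 5), (0, 6), (1, 5), (2, 4), (2, 6), (3, 4), (3, 5), (4, 5), (4, 6), (5, 6)]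
      [] ?_ ?_ ?_ (by decide)
    · intro p hp
      simp only [List.mem_cons, List.not_mem_nil, or_false] at hp
      rcases hp with rfl | rfl | rfl | rfl | rfl | rfl | rfl | rfl | rfl
      · exact ((hz 0 1 (by decide) (by decide)).2.2 2 (by decide) (by decide) (by decide) (!r)).symm
      · exact ((hz 0 2 (by decide) (by decide)).2.1.1).symm
      · exact (hL.adj (hy 2 (by decide)) r).symm
      · exact (hz 0 1 (by decide) (by decide)).1.1
      · exact (hz 0 1 (by decide) (by decide)).2.2 2 (by decide) (by decide) (by decide) r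
      · exact (hz 0 1 (by decide) (by decide)).2.1.1
      · exact ((hz 0 2 (by decide) (by decide)).1.1).symm
      · exact hL.adj (hy 0 (by decide)) r
      · exact (hz 0 2 (by decide) (by decide)).2.2 1 (by decide) (by decide) (by decide) (!r)
    · intro p hp
      simp only [List.mem_cons, List.not_mem_nil, or_false] at hp
      rcases hp with rfl | rfl | rfl | rfl | rfl | rfl | rfl | rfl | rfl | rfl | rfl
      · exact hL.nadj (hy 2 (by decide)) (hy 0 (by decide)) (hne 2 (by decide) 0 (by decide) (by decide)) _ _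
      · exact hL.nadj (hy 2 (by decide)) (hy 0 (by decide)) (hne 2 (by decide) 0 (by decide) (by decide)) _ _
      · exact hL.nadj (hy 2 (by decide)) (hy 1 (by decide)) (hne 2 (by decide) 1 (by decide) (by decide)) _ _
      · exact (hz 0 1 (by decide) (by decide)).1.2
      · exact hL.nadj (hy 0 (by decide)) (hy 2 (by decide)) (hne 0 (by decide) 2 (by decide) (by decide)) _ _
      · exact hL.nadj (hy 0 (by decide)) (hy 1 (by decide)) (hne 0 (by decide) 1 (by decide) (by decide)) _ _
      · exact (by simpa using (hz 0 2 (by decide) (by decide)).2.1.2)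
      · exact (hz 0 2 (by decide) (by decide)).1.2
      · exact hL.nadj (hy 2 (by decide)) (hy 0 (by decide)) (hne 2 (by decide) 0 (by decide) (by decide)) _ _
      · exact hL.nadj (hy 2 (by decide)) (hy 1 (by decide)) (hne 2 (by decide) 1 (by decide) (by decide)) _ _
      · exact hL.nadj (hy 0 (by decide)) (hy 1 (by decide)) (hne 0 (by decide) 1 (by decide) (by decide)) _ _
    · intro p hp
      simp at hp

end HmM

open HmM in
theorem rHm : S_Hm := by
  intro V G n e y z τ τ' hL hG hy hyi hz
  have hne : ∀ k < 4, ∀ l < 4, k ≠ l → y k ≠ y l := fun k hk l hl h h' => h (hyi k hk l hl h')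
  match τ, τ', hz with
  | none, none, hz => exact cnn false hL hG hy hne hz
  | some r, none, hz => exact crn r hL hG hy hne hz
  | none, some r, hz => exact cnr r hL hG hy hne hz
  | some r, some r', hz =>
    by_cases h : r' = r
    · subst h
      exact crr _ hL hG hy hne hz
    · have h' : r' = !r := by
        cases r <;> cases r' <;> simp_all
      subst h'
      exact crx r hL hG hy hne hz

end Pool.Agent.MPd439b2.H1R
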