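import Pool.Agent.Lib.MP_d439b2_co.X3.H1R.SpecA

/-!
# MP_d439b2_co, X3/H1R/K23: two vertices which are half on three letters on the same side (helper34)
-/

set_option autoImplicit false

namespace Pool.Agent.MPd439b2.H1R

open Pool.Agent.MPd439b2 Pool.Agent.MPd439b2.Rep Pool.Agent.MPd439b2.NK Pool.Agent.MPd439b2.H1T

/-- **K23.** -/
theorem rK23 : S_K23 := by
  intro V G n e r hL hG v w hvw i hi j hj k hk hij hik hjk h
  have hv : ∀ l, (l = i ∨ l = j ∨ l = k) → Ha G e v r l := fun l hl => (h l hl).1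
  have hw : ∀ l, (l = i ∨ l = j ∨ l = k) → Ha G e w r l := fun l hl => (h l hl).2
  have vi := hv i (Or.inl rfl)
  have vj := hv j (Or.inr (Or.inl rfl))
  have vk := hv k (Or.inr (Or.inr rfl))
  have wi := hw i (Or.inl rfl)
  have wj := hw j (Or.inr (Or.inl rfl))
  have wk := hw k (Or.inr (Or.inr rfl))
  have vne : ∀ l < n, ∀ s, v ≠ e s l := fun l hl s =>
    hL.ne_of hi hj hl hij ⟨r, vi.1⟩ ⟨r, vj.1⟩ s
  have wne : ∀ l < n, ∀ s, w ≠ e s l := fun l hl s =>
    hL.ne_of hi hj hl hij ⟨r, wi.1⟩ ⟨r, wj.1⟩ s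
  -- 0 = v, 1 = w, 2 = s_i, 3 = s_j, 4 = s_k, 5 = t_i, 6 = t_k
  let x : ℕ → V := fun a => match a with
    | 0 => v
    | 1 => w
    | 2 => e r i
    | 3 => e r j
    | 4 => e r k
    | 5 => e (!r) i
    | _ => e (!r) k
  refine engV hG x [[0, 4], [2], [1], [6], [5], [3]]
    [(0, 4), (0, 2), (4, 1), (2, 1), (6, 4), (5, 2), (3, 0), (3, 1)]
    [(6, 2), (6, 1), (5, 0), (5, 4), (5, 1), (3, 2), (6, 5), (3, 6), (3, 5)]
    [(0, 1), (0, 6), (0, 5), (1, 5), (1, 6), (4, 2), (4, 5), (4, 3), (2, 6), (3, 6), (5, 6), (3, 5), (2, 3)]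
    ?_ ?_ ?_ (by decide)
  · intro p hp
    fin_cases hp
    · exact vk.1
    · exact vi.1
    · exact wk.1.symm
    · exact wi.1.symm
    · exact (hL.adj hk r).symm
    · exact (hL.adj hi r).symm
    · exact vj.1.symm
    · exact wj.1.symm
  · intro p hp
    fin_cases hp
    · exact hL.nadj hk hi hik.symm _ _
    · exact fun h1 => wk.2 h1.symm
    · exact fun h1 => vi.2 h1.symm
    · exact hL.nadj hi hk hik _ _
    · exact fun h1 => wi.2 h1.symm
    · exact hL.nadj hj hi hij.symm _ _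
    · exact hL.nadj hk hi hik.symm _ _
    · exact hL.nadj hj hk hjk _ _
    · exact hL.nadj hj hi hij.symm _ _
  · intro p hp
    fin_cases hp
    · exact hvw
    · exact vne k hk _
    · exact vne i hi _
    · exact wne i hi _
    · exact wne k hk _
    · exact hL.ne hk hi hik.symm _ _
    · exact hL.ne hk hi hik.symm _ _
    · exact hL.ne hk hj hjk.symm _ _
    · exact hL.ne hi hk hik _ _
    · exact hL.ne hj hk hjk _ _
    · exact hL.ne hi hk hik _ _
    · exact hL.ne hj hi hij.symm _ _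
    · exact hL.ne hi hj hij _ _

end Pool.Agent.MPd439b2.H1R
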