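import Pool.Agent.Lib.MP_d439b2_co.X3.H1R.SpecA

/-! # MP_d439b2_co, X3/H1R: from a ladder of traces to a ladder (`rLd`) (helper91) -/

set_option autoImplicit false

namespace Pool.Agent.MPd439b2.H1R

open Pool.Agent.MPd439b2
open Pool.Agent.MPd439b2.Rep
open Pool.Agent.MPd439b2.NK
open Pool.Agent.MPd439b2.H1T

namespace LdM

variable {V : Type} {G : SimpleGraph V} {v f : ℕ → V}

/-- the model for pairwise non-adjacent `v i` -/
private theorem mod (hG : FH G) (hvv : ∀ i j, i < j → j < 6 → ¬ G.Adj (v i) (v j))
    (hva : ∀ i j, i < j → j < 6 → G.Adj (v i) (f j))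
    (hvn : ∀ i j, j ≤ i → i < 6 → ¬ G.Adj (v i) (f j))
    (hss : ∀ i j, i ≠ j → i < 6 → j < 6 → ¬ G.Adj (f i) (f j))
    (hsn : ∀ i j, i ≠ j → i < 6 → j < 6 → f i ≠ f j) : False := by
  refine engV hG (fun k => [v 0, f 5, v 1, f 2, f 1, v 4, f 3].getD k (v 0))
    [[0], [1], [2, 3], [4], [5], [6]]
    [(0, 1), (0, 3), (0, 4), (0, 6), (1, 2), (1, 5), (2, 3), (2, 6)]
    [(0, 2), (0, 5), (1, 3), (1, 4), (1, 6), (2, 4), (2, 5), (3, 4), (3, 5), (3, 6), (4, 5), (4, 6), (5, 6)]
    [(6, 3)] ?_ ?_ ?_ (by decide)
  · intro p hp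
    simp only [List.mem_cons, List.not_mem_nil, or_false] at hp
    rcases hp with rfl | rfl | rfl | rfl | rfl | rfl | rfl | rfl
    · exact hva 0 5 (by decide) (by decide)
    · exact hva 0 2 (by decide) (by decide)
    · exact hva 0 1 (by decide) (by decide)
    · exact hva 0 3 (by decide) (by decide)
    · exact (hva 1 5 (by decide) (by decide)).symm
    · exact (hva 4 5 (by decide) (by decide)).symm
    · exact hva 1 2 (by decide) (by decide)
    · exact hva 1 3 (by decide) (by decide)
  · intro p hp
    simp only [List.mem_cons, List.not_mem_nil, or_false] at hp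
    rcases hp with rfl | rfl | rfl | rfl | rfl | rfl | rfl | rfl | rfl | rfl | rfl | rfl | rfl
    · exact hvv 0 1 (by decide) (by decide)
    · exact hvv 0 4 (by decide) (by decide)
    · exact hss 5 2 (by decide) (by decide) (by decide)
    · exact hss 5 1 (by decide) (by decide) (by decide)
    · exact hss 5 3 (by decide) (by decide) (by decide)
    · exact hvn 1 1 (by decide) (by decide)
    · exact hvv 1 4 (by decide) (by decide)
    · exact hss 2 1 (by decide) (by decide) (by decide)
    · exact fun h => (hvn 4 2 (by decide) (by decide)) h.symm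
    · exact hss 2 3 (by decide) (by decide) (by decide)
    · exact fun h => (hvn 4 1 (by decide) (by decide)) h.symm
    · exact hss 1 3 (by decide) (by decide) (by decide)
    · exact hvn 4 3 (by decide) (by decide)
  · intro p hp
    simp only [List.mem_cons, List.not_mem_nil, or_false] at hp
    subst hp
    · exact hsn 3 2 (by decide) (by decide) (by decide)

end LdM

open LdM in
theorem rLd : S_Ld := by
  classical
  intro hR m
  obtain ⟨K, hK⟩ := hR Bool (max m 6)
  refine ⟨K, ?_⟩
  intro V G n e v x hL hG hx hxi hvx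
  obtain ⟨s, c, hs, hsK, hc⟩ := hK fun i j => decide (G.Adj (v i) (v j))
  have hsi : ∀ i < max m 6, ∀ j < max m 6, s i = s j → i = j := by
    intro i hi j hj h
    rcases lt_trichotomy i j with h2 | h2 | h2
    · exact absurd h (hs i j h2 hj).ne
    · exact h2
    · exact absurd h (hs j i h2 hi).ne'
  have hsl : ∀ i < max m 6, ∀ j < max m 6, (s i < s j ↔ i < j) := by
    intro i hi j hj
    refine ⟨fun h => ?_, fun h => hs i j h hj⟩
    by_contra h'
    rcases Nat.lt_or_ge j i with h2 | h2
    · have := hs j i h2 hi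
      omega
    · have : i = j := by omega
      subst this
      omega
  cases c with
  | true =>
    have hm : ∀ {i : ℕ}, i < m → i < max m 6 := fun h => h.trans_le (le_max_left _ _)
    refine ⟨fun i => v (s i), fun i => x (s i), fun i hi => ⟨s i, hsK i (hm hi), rfl⟩, ?_, ?_⟩
    · intro i hi j hj h
      exact hsi i (hm hi) j (hm hj) (hxi _ (hsK i (hm hi)) _ (hsK j (hm hj)) h)
    · refine ch_of ?_ ?_ ?_
      · refine hL.comp _ (fun i hi => hx _ (hsK i (hm hi))) ?_
        intro i hi j hj h
        exact hsi i (hm hi) j (hm hj) (hxi _ (hsK i (hm hi)) _ (hsK j (hm hj)) h)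
      · intro i hi j hj hij
        rcases lt_or_gt_of_ne hij with h | h
        · have := hc i j h (hm hj)
          rwa [decide_eq_true_iff] at this
        · have := hc j i h (hm hi)
          rw [decide_eq_true_iff] at this
          exact this.symm
      · intro i hi j hj t
        have h1 := hvx _ (hsK i (hm hi)) _ (hsK j (hm hj))
        show G.Adj (v (s i)) (e t (x (s j))) ↔ i < j
        rw [← hsl i (hm hi) j (hm hj)]
        constructor
        · intro h2
          by_contra h3
          exact h1.1 (by omega) ⟨t, h2⟩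
        · intro h2
          exact h1.2 h2 t
  | false =>
    exfalso
    have hm : ∀ {i : ℕ}, i < 6 → i < max m 6 := fun h => h.trans_le (le_max_right _ _)
    refine mod (v := fun i => v (s i)) (f := fun i => e false (x (s i))) hG ?_ ?_ ?_ ?_ ?_
    · intro i j hij hj
      have := hc i j hij (hm hj)
      rwa [decide_eq_false_iff_not] at this
    · intro i j hij hj
      exact (hvx _ (hsK i (hm (by omega))) _ (hsK j (hm hj))).2 (hs i j hij (hm hj)) false
    · intro i j hij hi h
      refine (hvx _ (hsK i (hm hi)) _ (hsK j (hm (by omega)))).1 ?_ ⟨false, h⟩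
      by_contra h2
      have := (hsl i (hm hi) j (hm (by omega))).1 (by omega)
      omega
    · intro i j hij hi hj
      exact hL.nadj (hx _ (hsK i (hm hi))) (hx _ (hsK j (hm hj)))
        (fun h => hij (hsi i (hm hi) j (hm hj) (hxi _ (hsK i (hm hi)) _ (hsK j (hm hj)) h))) _ _
    · intro i j hij hi hj
      exact hL.ne (hx _ (hsK i (hm hi))) (hx _ (hsK j (hm hj)))
        (fun h => hij (hsi i (hm hi) j (hm hj) (hxi _ (hsK i (hm hi)) _ (hsK j (hm hj)) h))) _ _

end Pool.Agent.MPd439b2.H1R
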