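import Pool.Agent.Lib.MP_d439b2_co.X3.H1R.SpecA

/-!
# MP_d439b2_co, X3/H1R: Lo1, thinning out (helper91)

As `NK/Six.lean`, with another model at the end.
-/

set_option autoImplicit false

namespace Pool.Agent.MPd439b2.H1R

open Pool.Agent.MPd439b2
open Pool.Agent.MPd439b2.Rep
open Pool.Agent.MPd439b2.NK
open Pool.Agent.MPd439b2.H1T

namespace Lo1M

variable {V : Type} {G : SimpleGraph V} {n : ℕ} {e : Bool → ℕ → V}

/-- a letter and some of the vertices `Z p q` -/
private def BS (e : Bool → ℕ → V) (y : ℕ → ℕ) (Z : ℕ → ℕ → V) (p : ℕ) (F : Finset ℕ) : Set V :=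
  Pr e (y p) ∪ {u | ∃ q ∈ F, p < q ∧ q < 6 ∧ u = Z p q}

private structure Six (G : SimpleGraph V) (n : ℕ) (e : Bool → ℕ → V) (y : ℕ → ℕ) (Z : ℕ → ℕ → V) :
    Prop where
  lt : Lt G n e
  yn : ∀ p < 6, y p < n
  yi : ∀ p < 6, ∀ q < 6, p ≠ q → y p ≠ y q
  zt : ∀ p q, p < q → q < 6 → Tc G e (Z p q) (y p) ∧ Tc G e (Z p q) (y q)
  zn : ∀ p q, p < q → q < 6 → ∀ k < 6, k ≠ p → k ≠ q → ¬ Tc G e (Z p q) (y k)

private theorem conn_many {A : Set V} (hA : Conn G A) {F : Set V} (hF : ∀ u ∈ F, ∃ a ∈ A, G.Adj a u) :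
    Conn G (A ∪ F) := by
  refine ⟨hA.1.mono Set.subset_union_left, ?_⟩
  intro B hB hBn hBne
  by_cases h1 : A ⊆ B
  · -- some vertex of F is not in B
    have h2 : ∃ u ∈ A ∪ F, u ∉ B := by
      by_contra hcon
      push Not at hcon
      exact hBne (Set.Subset.antisymm hB hcon)
    obtain ⟨u, hu, huB⟩ := h2
    have huF : u ∈ F := by
      rcases hu with hu | hu
      · exact absurd (h1 hu) huB
      · exact hu
    obtain ⟨a, ha, hau⟩ := hF u huF
    exact ⟨a, h1 ha, u, ⟨Or.inr huF, huB⟩, hau⟩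
  · by_cases h2 : (B ∩ A).Nonempty
    · have h3 : B ∩ A ≠ A := fun h => h1 (by
        intro x hx
        rw [← h] at hx
        exact hx.1)
      obtain ⟨b, hb, a, ha, hab⟩ := hA.2 (B ∩ A) Set.inter_subset_right h2 h3
      exact ⟨b, hb.1, a, ⟨Or.inl ha.1, fun h => ha.2 ⟨h, ha.1⟩⟩, hab⟩
    · obtain ⟨b, hb⟩ := hBn
      have hbF : b ∈ F := by
        rcases hB hb with h | h
        · exact absurd ⟨b, hb, h⟩ h2
        · exact h
      obtain ⟨a, ha, hau⟩ := hF b hbF
      exact ⟨b, hb, a, ⟨Or.inl ha, fun h => h2 ⟨a, h, ha⟩⟩, hau.symm⟩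

private theorem tcadj {u : V} {i : ℕ} (h : Tc G e u i) : ∃ a ∈ Pr e i, G.Adj a u := by
  obtain ⟨s, hs⟩ := h
  exact ⟨e s i, mem_Pr s i, hs.symm⟩

variable {y : ℕ → ℕ} {Z : ℕ → ℕ → V}

private theorem Six.cn (h : Six G n e y Z) {p : ℕ} (hp : p < 6) (F : Finset ℕ) :
    Conn G (BS e y Z p F) := by
  refine conn_many (h.lt.conn (h.yn p hp)) ?_
  rintro u ⟨q, _, hpq, hq, rfl⟩
  exact tcadj (h.zt p q hpq hq).1

private theorem Six.zl (h : Six G n e y Z) {p q k : ℕ} (hpq : p < q) (hq : q < 6) (hk : k < 6)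
    (s : Bool) : Z p q ≠ e s (y k) :=
  h.lt.ne_of (h.yn p (by omega)) (h.yn q hq) (h.yn k hk) (h.yi p (by omega) q hq (by omega))
    (h.zt p q hpq hq).1 (h.zt p q hpq hq).2 s

private theorem Six.ds (h : Six G n e y Z) {p q : ℕ} (hp : p < 6) (hq : q < 6) (hpq : p ≠ q)
    (F F' : Finset ℕ) : Disjoint (BS e y Z p F) (BS e y Z q F') := by
  rw [Set.disjoint_left]
  rintro x (hx | ⟨r, _, hr, hr6, rfl⟩) (hy | ⟨r', _, hr', hr6', h2⟩)
  · exact Set.disjoint_left.1 (h.lt.dis (h.yn p hp) (h.yn q hq) (h.yi p hp q hq hpq)) hx hy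
  · obtain ⟨s, rfl⟩ := hx
    exact h.zl hr' hr6' hp s h2.symm
  · obtain ⟨s, hs⟩ := hy
    exact h.zl hr hr6 hq s hs
  · -- Z p r = Z q r'
    have h3 := h.zt p r hr hr6
    have h4 := h.zt q r' hr' hr6'
    by_cases h5 : r = q
    · -- p < q = r < r'
      have h6 := h.zn q r' hr' hr6' p hp hpq (by omega)
      rw [← h2] at h6
      exact h6 h3.1
    · have h6 := h.zn p r hr hr6 q hq (Ne.symm hpq) (Ne.symm h5)
      rw [h2] at h6
      exact h6 h4.1

private theorem Six.tc (h : Six G n e y Z) {p q : ℕ} (hpq : p < q) (hq : q < 6) {F : Finset ℕ}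
    (hF : q ∈ F) (F' : Finset ℕ) : Tch G (BS e y Z p F) (BS e y Z q F') := by
  obtain ⟨s, hs⟩ := (h.zt p q hpq hq).2
  exact ⟨Z p q, Or.inr ⟨q, hF, hpq, hq, rfl⟩, e s (y q), Or.inl (mem_Pr s _), hs⟩

private theorem Six.nt (h : Six G n e y Z) {p q : ℕ} (hp : p < 6) (hq : q < 6) (hpq : p ≠ q)
    {F : Finset ℕ} (hF : q ∉ F) : ¬ Tch G (BS e y Z p F) (BS e y Z q ∅) := by
  rintro ⟨x, hx, z, hz | ⟨r, hr, _⟩, hxz⟩
  · rcases hx with hx | ⟨r, hr, hr1, hr2, rfl⟩
    · exact h.lt.ntch (h.yn p hp) (h.yn q hq) (h.yi p hp q hq hpq) ⟨x, hx, z, hz, hxz⟩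
    · obtain ⟨s, rfl⟩ := hz
      exact h.zn p r hr1 hr2 q hq (Ne.symm hpq) (fun h' => hF (h' ▸ hr)) ⟨s, hxz⟩
  · simp at hr

private theorem Six.mod (hG : FH G) (h : Six G n e y Z) : False := by
  exact mdl hG (P := BS e y Z 0 {1, 2, 3, 5}) (Q := BS e y Z 1 {2, 4}) (R := BS e y Z 2 {5})
    (X := BS e y Z 3 ∅) (Y := BS e y Z 4 ∅) (Z := BS e y Z 5 ∅)
    (h.cn (by decide) _) (h.cn (by decide) _) (h.cn (by decide) _) (h.cn (by decide) _)
    (h.cn (by decide) _) (h.cn (by decide) _)
    (h.ds (by decide) (by decide) (by decide) _ _) (h.ds (by decide) (by decide) (by decide) _ _)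
    (h.ds (by decide) (by decide) (by decide) _ _) (h.ds (by decide) (by decide) (by decide) _ _)
    (h.ds (by decide) (by decide) (by decide) _ _) (h.ds (by decide) (by decide) (by decide) _ _)
    (h.ds (by decide) (by decide) (by decide) _ _) (h.ds (by decide) (by decide) (by decide) _ _)
    (h.ds (by decide) (by decide) (by decide) _ _) (h.ds (by decide) (by decide) (by decide) _ _)
    (h.ds (by decide) (by decide) (by decide) _ _) (h.ds (by decide) (by decide) (by decide) _ _)
    (h.ds (by decide) (by decide) (by decide) _ _) (h.ds (by decide) (by decide) (by decide) _ _)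
    (h.ds (by decide) (by decide) (by decide) _ _)
    -- tPQ tPR tQR
    (h.tc (by decide) (by decide) (by decide) _) (h.tc (by decide) (by decide) (by decide) _)
    (h.tc (by decide) (by decide) (by decide) _)
    -- tPX tQX tRX
    (h.tc (by decide) (by decide) (by decide) _)
    (h.nt (by decide) (by decide) (by decide) (by decide))
    (h.nt (by decide) (by decide) (by decide) (by decide))
    -- tPY tQY tRY
    (h.nt (by decide) (by decide) (by decide) (by decide))
    (h.tc (by decide) (by decide) (by decide) _)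
    (h.nt (by decide) (by decide) (by decide) (by decide))
    -- tPZ tQZ tRZ
    (h.tc (by decide) (by decide) (by decide) _)
    (h.nt (by decide) (by decide) (by decide) (by decide))
    (h.tc (by decide) (by decide) (by decide) _)
    -- tXY tXZ tYZ
    (h.nt (by decide) (by decide) (by decide) (by decide))
    (h.nt (by decide) (by decide) (by decide) (by decide))
    (h.nt (by decide) (by decide) (by decide) (by decide))

private theorem big {S : Finset ℕ} {u : V} {L : ℕ} {T : ℕ → ℕ}
    (h1 : ∀ k < L, T k ∈ S ∧ Tc G e u (T k)) (h2 : ∀ k < L, ∀ l < L, T k = T l → k = l) :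
    L ≤ {i | i ∈ S ∧ Tc G e u i}.ncard := by
  have h3 : ((Finset.range L).image T : Set ℕ) ⊆ {i | i ∈ S ∧ Tc G e u i} := by
    intro x hx
    rw [Finset.mem_coe, Finset.mem_image] at hx
    obtain ⟨k, hk, rfl⟩ := hx
    exact h1 k (Finset.mem_range.1 hk)
  have h4 : {i | i ∈ S ∧ Tc G e u i}.Finite := S.finite_toSet.subset fun i hi => hi.1
  have h5 := Set.ncard_le_ncard h3 h4
  rw [Set.ncard_coe_finset, Finset.card_image_of_injOn, Finset.card_range] at h5
  · exact h5
  · intro k hk l hl h6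
    exact h2 k (Finset.mem_range.1 (Finset.mem_coe.1 hk)) l
      (Finset.mem_range.1 (Finset.mem_coe.1 hl)) h6

private theorem enum (S : Finset ℕ) : ∃ x : ℕ → ℕ, (∀ i < S.card, x i ∈ S) ∧
    ∀ i < S.card, ∀ j < S.card, x i = x j → i = j := by
  refine ⟨fun i => if h : i < S.card then (S.orderEmbOfFin rfl ⟨i, h⟩ : ℕ) else 0, ?_, ?_⟩
  · intro i hi
    simp only [hi, dif_pos]
    exact Finset.orderEmbOfFin_mem S rfl _
  · intro i hi j hj h
    simp only [hi, hj, dif_pos] at h
    have := (S.orderEmbOfFin rfl).injective h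
    exact Fin.mk.inj_iff.1 this

end Lo1M

open Lo1M in
theorem rLo1 : S_Lo1 := by
  classical
  intro hR hR3 m L
  obtain ⟨m₃, hm₃⟩ := hR3 (Bool × Bool × Bool) (L + 6)
  obtain ⟨M, hM⟩ := hR Bool (max m m₃)
  refine ⟨M, ?_⟩
  intro V G n e S Q hlt hSn hMS hims hQ
  obtain ⟨x, hxS, hxi⟩ := enum S
  obtain ⟨σ, c, hσ, hσM, hσc⟩ := hM fun i j => decide (∃ u ∈ Q, Tc G e u (x i) ∧ Tc G e u (x j))
  have hxS' : ∀ i < max m m₃, x (σ i) ∈ S := fun i hi => hxS _ ((hσM i hi).trans_le hMS)
  have hxi' : ∀ i < max m m₃, ∀ j < max m m₃, x (σ i) = x (σ j) → i = j := by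
    intro i hi j hj h
    have h1 := hxi _ ((hσM i hi).trans_le hMS) _ ((hσM j hj).trans_le hMS) h
    rcases lt_trichotomy i j with h2 | h2 | h2
    · exact absurd h1 (hσ i j h2 hj).ne
    · exact h2
    · exact absurd h1 (hσ j i h2 hi).ne'
  cases c with
  | false =>
    refine ⟨fun i => x (σ i), fun i hi => hxS' i (hi.trans_le (le_max_left _ _)), fun i hi j hj =>
      hxi' i (hi.trans_le (le_max_left _ _)) j (hj.trans_le (le_max_left _ _)), ?_⟩
    intro u hu i hi j hj h1 h2
    by_contra hij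
    rcases lt_or_gt_of_ne hij with h3 | h3
    · have h4 := hσc i j h3 (hj.trans_le (le_max_left _ _))
      rw [decide_eq_false_iff_not] at h4
      exact h4 ⟨u, hu, h1, h2⟩
    · have h4 := hσc j i h3 (hi.trans_le (le_max_left _ _))
      rw [decide_eq_false_iff_not] at h4
      exact h4 ⟨u, hu, h2, h1⟩
  | true =>
    exfalso
    have h1 : ∀ i j, ∃ u, i < j → j < m₃ →
        u ∈ Q ∧ Tc G e u (x (σ i)) ∧ Tc G e u (x (σ j)) := by
      intro i j
      by_cases h : i < j ∧ j < m₃
      · have h4 := hσc i j h.1 (h.2.trans_le (le_max_right _ _))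
        rw [decide_eq_true_iff] at h4
        obtain ⟨u, hu, h5⟩ := h4
        exact ⟨u, fun _ _ => ⟨hu, h5⟩⟩
      · exact ⟨e false 0, fun h2 h3 => absurd ⟨h2, h3⟩ h⟩
    choose z hz using h1
    obtain ⟨τ, c, hτ, hτM, hτc⟩ := hm₃ fun i j k =>
      (decide (Tc G e (z i j) (x (σ k))), decide (Tc G e (z i k) (x (σ j))),
        decide (Tc G e (z j k) (x (σ i))))
    have hlt' : ∀ k < L + 6, τ k < max m m₃ := fun k hk => (hτM k hk).trans_le (le_max_right _ _)
    have hyS : ∀ k < L + 6, x (σ (τ k)) ∈ S := fun k hk => hxS' _ (hlt' k hk)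
    have hyi : ∀ k < L + 6, ∀ l < L + 6, x (σ (τ k)) = x (σ (τ l)) → k = l := by
      intro i hi j hj h
      have h1 := hxi' _ (hlt' i hi) _ (hlt' j hj) h
      rcases lt_trichotomy i j with h2 | h2 | h2
      · exact absurd h1 (hτ i j h2 hj).ne
      · exact h2
      · exact absurd h1 (hτ j i h2 hi).ne'
    obtain ⟨c1, c2, c3⟩ := c
    have hc : ∀ i j k, i < j → j < k → k < L + 6 →
        (decide (Tc G e (z (τ i) (τ j)) (x (σ (τ k)))) = c1) ∧
        (decide (Tc G e (z (τ i) (τ k)) (x (σ (τ j)))) = c2) ∧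
        (decide (Tc G e (z (τ j) (τ k)) (x (σ (τ i)))) = c3) := by
      intro i j k hij hjk hk
      have h2 := hτc i j k hij hjk hk
      rw [Prod.mk.injEq, Prod.mk.injEq] at h2
      exact h2
    have hzQ : ∀ i j, i < j → j < L + 6 → z (τ i) (τ j) ∈ Q := fun i j hij hj =>
      (hz _ _ (hτ i j hij hj) (hτM j hj)).1
    -- the three components are false
    have e1 : c1 = false := by
      cases hc1 : c1 with
      | false => rfl
      | true =>
        exfalso
        have h3 : L ≤ {i | i ∈ S ∧ Tc G e (z (τ 0) (τ 1)) i}.ncard := by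
          apply big (T := fun k => x (σ (τ (k + 2))))
          · intro k hk
            refine ⟨hyS _ (by omega), ?_⟩
            have h4 := (hc 0 1 (k + 2) (by omega) (by omega) (by omega)).1
            rw [hc1, decide_eq_true_iff] at h4
            exact h4
          · intro k hk l hl h4
            have := hyi _ (by omega) _ (by omega) h4
            omega
        have h5 := hQ _ (hzQ 0 1 (by omega) (by omega))
        omega
    have e2 : c2 = false := by
      cases hc2 : c2 with
      | false => rfl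
      | true =>
        exfalso
        have h3 : L ≤ {i | i ∈ S ∧ Tc G e (z (τ 0) (τ (L + 5))) i}.ncard := by
          apply big (T := fun k => x (σ (τ (k + 1))))
          · intro k hk
            refine ⟨hyS _ (by omega), ?_⟩
            have h4 := (hc 0 (k + 1) (L + 5) (by omega) (by omega) (by omega)).2.1
            rw [hc2, decide_eq_true_iff] at h4
            exact h4
          · intro k hk l hl h4
            have := hyi _ (by omega) _ (by omega) h4
            omega
        have h5 := hQ _ (hzQ 0 (L + 5) (by omega) (by omega))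
        omega
    have e3 : c3 = false := by
      cases hc3 : c3 with
      | false => rfl
      | true =>
        exfalso
        have h3 : L ≤ {i | i ∈ S ∧ Tc G e (z (τ (L + 4)) (τ (L + 5))) i}.ncard := by
          apply big (T := fun k => x (σ (τ k)))
          · intro k hk
            refine ⟨hyS _ (by omega), ?_⟩
            have h4 := (hc k (L + 4) (L + 5) (by omega) (by omega) (by omega)).2.2
            rw [hc3, decide_eq_true_iff] at h4
            exact h4
          · intro k hk l hl h4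
            exact hyi _ (by omega) _ (by omega) h4
        have h5 := hQ _ (hzQ (L + 4) (L + 5) (by omega) (by omega))
        omega
    subst e1 e2 e3
    refine Six.mod (n := n) (e := e) (y := fun k => x (σ (τ k)))
      (Z := fun p q => z (τ p) (τ q)) hims ⟨hlt, ?_, ?_, ?_, ?_⟩
    · exact fun p hp => hSn _ (hyS p (by omega))
    · exact fun p hp q hq hpq h => hpq (hyi p (by omega) q (by omega) h)
    · exact fun p q hpq hq => (hz _ _ (hτ p q hpq (by omega)) (hτM q (by omega))).2
    · intro p q hpq hq k hk hkp hkq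
      rcases lt_or_gt_of_ne hkp with h3 | h3
      · have h4 := (hc k p q h3 hpq (by omega)).2.2
        rw [decide_eq_false_iff_not] at h4
        exact h4
      · rcases lt_or_gt_of_ne hkq with h5 | h5
        · have h4 := (hc p k q h3 h5 (by omega)).2.1
          rw [decide_eq_false_iff_not] at h4
          exact h4
        · have h4 := (hc p q k hpq h5 (by omega)).1
          rw [decide_eq_false_iff_not] at h4
          exact h4

end Pool.Agent.MPd439b2.H1R
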