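import Pool.Agent.Lib.MP_d439b2_co.X3.H1R.SpecA

/-!
# MP_d439b2_co, X3/H1R/Tr: ladders of traces (helper34)
-/

set_option autoImplicit false

namespace Pool.Agent.MPd439b2.H1R

open Pool.Agent.MPd439b2 Pool.Agent.MPd439b2.Rep Pool.Agent.MPd439b2.NK Pool.Agent.MPd439b2.H1T

open Classical in
private theorem tr_enum (S : Finset ℕ) : ∃ h : ℕ → ℕ, (∀ i < S.card, h i ∈ S) ∧
    ∀ i j, i < j → j < S.card → h i < h j := by
  refine ⟨fun i => if hi : i < S.card then S.orderEmbOfFin rfl ⟨i, hi⟩ else i, ?_, ?_⟩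
  · intro i hi
    beta_reduce
    rw [dif_pos hi]
    exact Finset.orderEmbOfFin_mem _ _ _
  · intro i j hij hj
    beta_reduce
    rw [dif_pos hj, dif_pos (hij.trans hj)]
    exact (S.orderEmbOfFin rfl).strictMono (by simpa using hij)

private theorem tr_ram (k M : ℕ) : ∃ L : ℕ, ∀ S : Finset ℕ, L ≤ S.card →
    ∀ f : Finset ℕ → Bool × Bool, ∃ H : Finset ℕ, H ⊆ S ∧ H.card = M ∧
      ∃ c : Bool × Bool, ∀ D : Finset ℕ, D ⊆ H → D.card = k → f D = c := by
  classical
  obtain ⟨L, hL⟩ := Pool.Agent.Lib.MP_577a3c26_an.ramsey k M (Bool × Bool)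
  refine ⟨L, fun S hS f => ?_⟩
  obtain ⟨h, h1, h2⟩ := tr_enum S
  obtain ⟨H, hH, hc, c, hf⟩ := hL fun D => f (D.image h)
  have hinj : Set.InjOn h (Finset.range L : Finset ℕ) := by
    intro i hi j hj hij
    rw [Finset.coe_range, Set.mem_Iio] at hi hj
    rcases lt_trichotomy i j with h3 | h3 | h3
    · exact absurd hij (h2 i j h3 (hj.trans_le hS)).ne
    · exact h3
    · exact absurd hij (h2 j i h3 (hi.trans_le hS)).ne'
  have hinjH : Set.InjOn h (H : Set ℕ) := hinj.mono (Finset.coe_subset.2 hH)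
  refine ⟨H.image h, ?_, ?_, c, ?_⟩
  · intro x hx
    obtain ⟨i, hi, rfl⟩ := Finset.mem_image.1 hx
    exact h1 i ((Finset.mem_range.1 (hH hi)).trans_le hS)
  · rw [Finset.card_image_of_injOn hinjH, hc]
  · intro D hD hDc
    have h3 : (H.filter fun i => h i ∈ D).image h = D := by
      ext x
      rw [Finset.mem_image]
      constructor
      · rintro ⟨i, hi, rfl⟩
        exact (Finset.mem_filter.1 hi).2
      · intro hx
        obtain ⟨i, hi, rfl⟩ := Finset.mem_image.1 (hD hx)
        exact ⟨i, Finset.mem_filter.2 ⟨hi, hx⟩, rfl⟩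
    have h4 := hf (H.filter fun i => h i ∈ D) (Finset.filter_subset _ _) (by
      rw [← hDc, ← h3]
      rw [Finset.card_image_of_injOn (hinjH.mono (Finset.coe_subset.2 (Finset.filter_subset _ _)))]
      rw [h3])
    simp only [h3] at h4
    exact h4

variable {V : Type}

private def TP (K : ℕ) (A B : V → ℕ → Prop) (D : Finset ℕ) : Prop :=
  ∃ (v : V) (a : ℕ), (D.filter (· < a)).card = K ∧ (∀ d ∈ D, d < a → A v d) ∧
    ∀ d ∈ D, a ≤ d → B v d

private theorem tr_cut (T : Finset ℕ) (K : ℕ) (hK : K ≤ T.card) :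
    ∃ a, (T.filter (· < a)).card = K := by
  classical
  have hex : ∃ a, K ≤ (T.filter (· < a)).card := by
    refine ⟨T.sup id + 1, ?_⟩
    rw [Finset.filter_true_of_mem]
    · exact hK
    · intro x hx
      exact Nat.lt_succ_of_le (Finset.le_sup (f := id) hx)
  refine ⟨Nat.find hex, le_antisymm ?_ (Nat.find_spec hex)⟩
  rcases Nat.eq_zero_or_pos (Nat.find hex) with h0 | h0
  · rw [h0]
    simp
  · obtain ⟨b, hb⟩ : ∃ b, Nat.find hex = b + 1 := ⟨Nat.find hex - 1, by omega⟩
    have h1 : ¬ K ≤ (T.filter (· < b)).card := Nat.find_min hex (by omega)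
    rw [hb]
    have h2 : T.filter (· < b + 1) ⊆ insert b (T.filter (· < b)) := by
      intro x hx
      obtain ⟨h3, h4⟩ := Finset.mem_filter.1 hx
      rw [Finset.mem_insert, Finset.mem_filter]
      by_cases h5 : x = b
      · exact Or.inl h5
      · exact Or.inr ⟨h3, by omega⟩
    have h3 := (Finset.card_le_card h2).trans (Finset.card_insert_le _ _)
    omega

private theorem tr_mix {K : ℕ} {A B : V → ℕ → Prop} {H T1 T2 : Finset ℕ} {v : V} {a : ℕ}
    (h1 : ∀ d ∈ T1, d ∈ H ∧ d < a ∧ A v d) (h2 : ∀ d ∈ T2, d ∈ H ∧ a ≤ d ∧ B v d)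
    (c1 : T1.card = K) (c2 : T2.card = K) :
    T1 ∪ T2 ⊆ H ∧ (T1 ∪ T2).card = 2 * K ∧ TP K A B (T1 ∪ T2) := by
  classical
  have hdis : Disjoint T1 T2 := by
    rw [Finset.disjoint_left]
    intro x hx hx'
    have := (h1 x hx).2.1
    have := (h2 x hx').2.1
    omega
  refine ⟨?_, ?_, v, a, ?_, ?_, ?_⟩
  · intro x hx
    rcases Finset.mem_union.1 hx with h | h
    · exact (h1 x h).1
    · exact (h2 x h).1
  · rw [Finset.card_union_of_disjoint hdis, c1, c2]
    omega
  · rw [← c1]
    congr 1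
    ext x
    rw [Finset.mem_filter, Finset.mem_union]
    constructor
    · rintro ⟨h | h, h3⟩
      · exact h
      · have := (h2 x h).2.1
        omega
    · intro h
      exact ⟨Or.inl h, (h1 x h).2.1⟩
  · intro d hd hda
    rcases Finset.mem_union.1 hd with h | h
    · exact (h1 d h).2.2
    · have := (h2 d h).2.1
      omega
  · intro d hd hda
    rcases Finset.mem_union.1 hd with h | h
    · have := (h1 d h).2.1
      omega
    · exact (h2 d h).2.2

private theorem tr_x {K : ℕ} {A B : V → ℕ → Prop} {H : Finset ℕ} {v : V}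
    [DecidablePred (A v)] [DecidablePred (B v)]
    (hA : 2 * K ≤ (H.filter (A v)).card) (hB : 2 * K ≤ (H.filter (B v)).card) :
    ∃ D ⊆ H, D.card = 2 * K ∧ (TP K A B D ∨ TP K B A D) := by
  classical
  obtain ⟨a, ha⟩ := tr_cut (H.filter (A v)) K (by omega)
  have hsplit : ∀ T : Finset ℕ, (T.filter (· < a)).card + (T.filter (a ≤ ·)).card = T.card := by
    intro T
    rw [← Finset.card_filter_add_card_filter_not (s := T) (fun x => x < a)]
    congr 2
    ext x
    simp
  by_cases h1 : K ≤ ((H.filter (B v)).filter (a ≤ ·)).card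
  · obtain ⟨T, hT, hTc⟩ := Finset.exists_subset_card_eq h1
    have h2 := tr_mix (K := K) (A := A) (B := B) (H := H) (T1 := (H.filter (A v)).filter (· < a))
      (T2 := T) (v := v) (a := a) ?_ ?_ ha hTc
    · exact ⟨_, h2.1, h2.2.1, Or.inl h2.2.2⟩
    · intro d hd
      obtain ⟨h3, h4⟩ := Finset.mem_filter.1 hd
      obtain ⟨h5, h6⟩ := Finset.mem_filter.1 h3
      exact ⟨h5, h4, h6⟩
    · intro d hd
      obtain ⟨h3, h4⟩ := Finset.mem_filter.1 (hT hd)
      obtain ⟨h5, h6⟩ := Finset.mem_filter.1 h3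
      exact ⟨h5, h4, h6⟩
  · have e1 := hsplit (H.filter (A v))
    have e2 := hsplit (H.filter (B v))
    obtain ⟨T1, hT1, hc1⟩ := Finset.exists_subset_card_eq
      (show K ≤ ((H.filter (B v)).filter (· < a)).card by omega)
    obtain ⟨T2, hT2, hc2⟩ := Finset.exists_subset_card_eq
      (show K ≤ ((H.filter (A v)).filter (a ≤ ·)).card by omega)
    have h2 := tr_mix (K := K) (A := B) (B := A) (H := H) (T1 := T1)
      (T2 := T2) (v := v) (a := a) ?_ ?_ hc1 hc2
    · exact ⟨_, h2.1, h2.2.1, Or.inr h2.2.2⟩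
    · intro d hd
      obtain ⟨h3, h4⟩ := Finset.mem_filter.1 (hT1 hd)
      obtain ⟨h5, h6⟩ := Finset.mem_filter.1 h3
      exact ⟨h5, h4, h6⟩
    · intro d hd
      obtain ⟨h3, h4⟩ := Finset.mem_filter.1 (hT2 hd)
      obtain ⟨h5, h6⟩ := Finset.mem_filter.1 h3
      exact ⟨h5, h4, h6⟩

private theorem tr_y {K : ℕ} {A B : V → ℕ → Prop} {H : Finset ℕ} [Nonempty V]
    (hH : K * (K + 1) ≤ H.card) (hP : ∀ D ⊆ H, D.card = 2 * K → TP K A B D) :
    ∃ (v : ℕ → V) (x : ℕ → ℕ), (∀ i < K, x i ∈ H) ∧ (∀ i j, i < j → j < K → x i < x j) ∧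
      ∀ i < K, ∀ j < K, (j ≤ i → A (v i) (x j)) ∧ (i < j → B (v i) (x j)) := by
  classical
  obtain ⟨h, h1, h2⟩ := tr_enum H
  have hidx : ∀ j < K, ∀ l ≤ K, j * (K + 1) + l < H.card := by
    intro j hj l hl
    have h3 : (j + 1) * (K + 1) ≤ K * (K + 1) := Nat.mul_le_mul_right _ hj
    have h4 : (j + 1) * (K + 1) = j * (K + 1) + K + 1 := by ring
    omega
  have hx0 : ∀ j < K, j * (K + 1) < H.card := fun j hj => by simpa using hidx j hj 0 (by omega)
  have hinj : ∀ i < H.card, ∀ j < H.card, h i = h j → i = j := by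
    intro i hi j hj hij
    rcases lt_trichotomy i j with h3 | h3 | h3
    · exact absurd hij (h2 i j h3 hj).ne
    · exact h3
    · exact absurd hij (h2 j i h3 hi).ne'
  have hmono : ∀ i j, i < j → j < K → h (i * (K + 1)) < h (j * (K + 1)) := by
    intro i j hij hj
    refine h2 _ _ ?_ (hx0 j hj)
    exact Nat.mul_lt_mul_of_pos_right hij (by omega)
  have key : ∀ i < K, ∃ v : V, ∀ j < K, (j ≤ i → A v (h (j * (K + 1)))) ∧
      (i < j → B v (h (j * (K + 1)))) := by
    intro i hi
    -- the two parts of the set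
    obtain ⟨D1, hD1⟩ : ∃ D1, D1 = (Finset.range K).image fun j => h (j * (K + 1)) := ⟨_, rfl⟩
    obtain ⟨D2, hD2⟩ : ∃ D2, D2 = (Finset.range K).image fun l => h (i * (K + 1) + (l + 1)) :=
      ⟨_, rfl⟩
    have m1 : ∀ x, x ∈ D1 ↔ ∃ j < K, h (j * (K + 1)) = x := by
      intro x
      rw [hD1]
      simp
    have m2 : ∀ x, x ∈ D2 ↔ ∃ l < K, h (i * (K + 1) + (l + 1)) = x := by
      intro x
      rw [hD2]
      simp
    have c1 : D1.card = K := by
      rw [hD1, Finset.card_image_of_injOn, Finset.card_range]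
      intro j hj l hl hjl
      rw [Finset.coe_range, Set.mem_Iio] at hj hl
      have h3 := hinj _ (hx0 j hj) _ (hx0 l hl) hjl
      exact Nat.eq_of_mul_eq_mul_right (by omega) h3
    have c2 : D2.card = K := by
      rw [hD2, Finset.card_image_of_injOn, Finset.card_range]
      intro j hj l hl hjl
      rw [Finset.coe_range, Set.mem_Iio] at hj hl
      have h3 := hinj _ (hidx i hi (j + 1) hj) _ (hidx i hi (l + 1) hl) hjl
      omega
    -- comparison of the two parts
    have lo : ∀ j ≤ i, ∀ l < K, h (j * (K + 1)) < h (i * (K + 1) + (l + 1)) := by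
      intro j hj l hl
      refine h2 _ _ ?_ (hidx i hi (l + 1) hl)
      have h3 : j * (K + 1) ≤ i * (K + 1) := Nat.mul_le_mul_right _ hj
      omega
    have hg : ∀ j, i < j → j < K → ∀ l < K, h (i * (K + 1) + (l + 1)) < h (j * (K + 1)) := by
      intro j hij hj l hl
      refine h2 _ _ ?_ (hx0 j hj)
      have h3 : (i + 1) * (K + 1) ≤ j * (K + 1) := Nat.mul_le_mul_right _ hij
      have h4 : (i + 1) * (K + 1) = i * (K + 1) + K + 1 := by ring
      omega
    have hdis : Disjoint D1 D2 := by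
      rw [Finset.disjoint_left]
      intro x hx hx'
      obtain ⟨j, hj, rfl⟩ := (m1 x).1 hx
      obtain ⟨l, hl, h3⟩ := (m2 _).1 hx'
      by_cases hij : j ≤ i
      · exact (lo j hij l hl).ne h3.symm
      · exact (hg j (by omega) hj l hl).ne h3
    have hsub : D1 ∪ D2 ⊆ H := by
      intro x hx
      rcases Finset.mem_union.1 hx with h3 | h3
      · obtain ⟨j, hj, rfl⟩ := (m1 x).1 h3
        exact h1 _ (hx0 j hj)
      · obtain ⟨l, hl, rfl⟩ := (m2 x).1 h3
        exact h1 _ (hidx i hi (l + 1) hl)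
    obtain ⟨v, a, ha, hvA, hvB⟩ := hP (D1 ∪ D2) hsub (by
      rw [Finset.card_union_of_disjoint hdis, c1, c2]
      omega)
    refine ⟨v, fun j hj => ⟨fun hji => ?_, fun hij => ?_⟩⟩
    · refine hvA _ (Finset.mem_union_left _ ((m1 _).2 ⟨j, hj, rfl⟩)) ?_
      by_contra hcon
      push Not at hcon
      have hsub' : (D1 ∪ D2).filter (· < a) ⊆ (Finset.range j).image fun j => h (j * (K + 1)) := by
        intro x hx
        obtain ⟨h3, h4⟩ := Finset.mem_filter.1 hx
        rcases Finset.mem_union.1 h3 with h5 | h5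
        · obtain ⟨j', hj', rfl⟩ := (m1 x).1 h5
          refine Finset.mem_image.2 ⟨j', ?_, rfl⟩
          rw [Finset.mem_range]
          by_contra h6
          push Not at h6
          rcases Nat.lt_or_ge j j' with h7 | h7
          · have := hmono j j' h7 hj'
            omega
          · have h8 : j' = j := by omega
            subst h8
            omega
        · obtain ⟨l, hl, rfl⟩ := (m2 x).1 h5
          have := lo j hji l hl
          omega
      have h3 := (Finset.card_le_card hsub').trans Finset.card_image_le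
      rw [Finset.card_range, ha] at h3
      omega
    · refine hvB _ (Finset.mem_union_left _ ((m1 _).2 ⟨j, hj, rfl⟩)) ?_
      by_contra hcon
      push Not at hcon
      have hsub' : insert (h (j * (K + 1))) D2 ⊆ (D1 ∪ D2).filter (· < a) := by
        intro x hx
        rcases Finset.mem_insert.1 hx with rfl | h3
        · exact Finset.mem_filter.2 ⟨Finset.mem_union_left _ ((m1 _).2 ⟨j, hj, rfl⟩), hcon⟩
        · obtain ⟨l, hl, rfl⟩ := (m2 x).1 h3
          refine Finset.mem_filter.2 ⟨Finset.mem_union_right _ h3, ?_⟩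
          have := hg j hij hj l hl
          omega
      have h3 := Finset.card_le_card hsub'
      rw [ha, Finset.card_insert_of_notMem, c2] at h3
      · omega
      · intro h4
        obtain ⟨l, hl, h5⟩ := (m2 _).1 h4
        exact (hg j hij hj l hl).ne h5
  choose! v hv using key
  exact ⟨v, fun j => h (j * (K + 1)), fun i hi => h1 _ (hx0 i hi), hmono,
    fun i hi j hj => hv i hi j hj⟩

/-- **Tr.** -/
theorem rTr : S_Tr := by
  classical
  intro K M
  obtain ⟨L, hL⟩ := tr_ram (2 * K) (max M (K * (K + 1)))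
  refine ⟨max L M, fun V A B S hS => ?_⟩
  have hset : ∀ (T : Finset ℕ) (Q : V → ℕ → Prop) (v : V), {i | i ∈ T ∧ Q v i}.ncard =
      (T.filter (Q v)).card := by
    intro T Q v
    rw [← Set.ncard_coe_finset]
    congr 1
    ext i
    simp
  rcases isEmpty_or_nonempty V with hV | hV
  · exact Or.inr (Or.inr ⟨S, Finset.Subset.refl S, (le_max_right _ _).trans hS,
      fun v => (IsEmpty.false v).elim⟩)
  obtain ⟨H, hHS, hHc, c, hf⟩ := hL S ((le_max_left _ _).trans hS)
    fun D => (decide (TP K A B D), decide (TP K B A D))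
  by_cases h3 : ∀ v, {i | i ∈ H ∧ A v i}.ncard < 2 * K ∨ {i | i ∈ H ∧ B v i}.ncard < 2 * K
  · exact Or.inr (Or.inr ⟨H, hHS, by rw [hHc]; exact le_max_left _ _, h3⟩)
  push Not at h3
  obtain ⟨v, hvA, hvB⟩ := h3
  rw [hset] at hvA hvB
  obtain ⟨D, hD, hDc, hTP⟩ := tr_x (A := A) (B := B) hvA hvB
  have hcard : K * (K + 1) ≤ H.card := by
    rw [hHc]
    exact le_max_right _ _
  rcases hTP with hTP | hTP
  · left
    obtain ⟨v', x, g1, g2, g3⟩ := tr_y (A := A) (B := B) hcard (fun D' hD' hDc' => by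
      have e1 := hf D hD hDc
      have e2 := hf D' hD' hDc'
      rw [← e2, Prod.mk.injEq] at e1
      have e3 := e1.1
      rw [decide_eq_decide] at e3
      exact e3.1 hTP)
    exact ⟨v', x, fun i hi => hHS (g1 i hi), g2, g3⟩
  · right
    left
    obtain ⟨v', x, g1, g2, g3⟩ := tr_y (A := B) (B := A) hcard (fun D' hD' hDc' => by
      have e1 := hf D hD hDc
      have e2 := hf D' hD' hDc'
      rw [← e2, Prod.mk.injEq] at e1
      have e3 := e1.2
      rw [decide_eq_decide] at e3
      exact e3.1 hTP)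
    exact ⟨v', x, fun i hi => hHS (g1 i hi), g2, g3⟩

end Pool.Agent.MPd439b2.H1R
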