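import Pool.Agent.Lib.MP_d439b2_co.X3.H1R.FinalR
import Pool.Agent.Lib.MP_d439b2_co.X3.H1R.K23
import Pool.Agent.Lib.MP_d439b2_co.X3.H1R.A1
import Pool.Agent.Lib.MP_d439b2_co.X3.H1R.Tr
import Pool.Agent.Lib.MP_d439b2_co.X3.H1R.Ld
import Pool.Agent.Lib.MP_d439b2_co.X3.H1R.Di
import Pool.Agent.Lib.MP_d439b2_co.X3.H1R.Lo1
import Pool.Agent.Lib.MP_d439b2_co.X3.H1R.Hm
import Pool.Agent.Lib.MP_d439b2_co.X3.H1R.Hi
import Pool.Agent.Lib.MP_d439b2_co.X3.H1R.PA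
import Pool.Agent.Lib.MP_d439b2_co.X2.Ram3

/-!
# MP_d439b2_co, X3/H1R: large induced matchings contain long ladders (assembly)

`oPA`: every large induced matching in a graph without `K3:0,1,02` contains a ladder of length `m` or `n'` letters in REG
position.  `oLad`: if the graph has also no `J_t`, no homogeneous sets and is linked then it contains a ladder of length `m`.
-/

set_option autoImplicit false

namespace Pool.Agent.MPd439b2.H1R

open Pool.Agent.MPd439b2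
open Pool.Agent.MPd439b2.Rep
open Pool.Agent.MPd439b2.NK
open Pool.Agent.MPd439b2.H1T

/-- **Part A.** -/
theorem oPA : ∀ m n' : ℕ, ∃ N : ℕ, ∀ (V : Type) [Finite V] (G : SimpleGraph V) (e : Bool → ℕ → V),
    FH G → Lt G N e →
    (∃ (v : ℕ → V) (σ : ℕ → ℕ), (∀ i < m, σ i < N) ∧ (∀ i < m, ∀ j < m, σ i = σ j → i = j) ∧
      CH.Ch G m v (fun s i => e s (σ i))) ∨
    ∃ (σ : ℕ → ℕ) (W : Set V), (∀ i < n', σ i < N) ∧ (∀ i < n', ∀ j < n', σ i = σ j → i = j) ∧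
      Rg G n' (fun s i => e s (σ i)) W :=
  rPA (rA1 rK23) (rDi W.ramC rTr rLd) (rLo1 W.ramC (X2.ram3 W.ramC))
    (rHi W.ramC (X2.ram3 W.ramC) rHm)

/-- **Long ladders.** -/
theorem oLad : ∀ (t : ℕ) (β : ℕ → ℕ), ∃ c₀ : ℕ, ∀ m : ℕ, ∃ N : ℕ, ∀ (V : Type) [Finite V]
    (G : SimpleGraph V) (e : Bool → ℕ → V), FH G → FJ t G → Pm G → Link β c₀ G → Lt G N e →
    ∃ (v : ℕ → V) (σ : ℕ → ℕ), (∀ i < m, σ i < N) ∧ (∀ i < m, ∀ j < m, σ i = σ j → i = j) ∧
      CH.Ch G m v (fun s i => e s (σ i)) := by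
  intro t β
  obtain ⟨c₀, n', hRE⟩ := oRE t β
  refine ⟨c₀, fun m => ?_⟩
  obtain ⟨N, hN⟩ := oPA m n'
  refine ⟨N, ?_⟩
  intro V _ G e hG hJ hP hL he
  rcases hN V G e hG he with h | ⟨σ, W, -, -, hR⟩
  · exact h
  · exact absurd hR (hRE V G _ W hG hJ hP hL)

/-- graphs without splits have no homogeneous sets -/
theorem pm_of_spo {V : Type} [Finite V] {G : SimpleGraph V} (h : H3.SPo G Set.univ) : Pm G := by
  intro M h1 h2
  by_contra hcon
  push Not at hcon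
  have h3 : Mᶜ.ncard ≤ 1 := spo_hmg h (M := M) (fun v _ hv => by
    by_cases h4 : ∃ x ∈ M, G.Adj v x
    · left
      intro y hy
      obtain ⟨x, hx, hvx⟩ := h4
      exact hcon v hv ⟨x, hx, hvx⟩ y hy
    · right
      intro y hy h5
      exact h4 ⟨y, hy, h5⟩) h1
  omega

end Pool.Agent.MPd439b2.H1R
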