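import Pool.Agent.Lib.MP_d439b2_co.X3.H1R.SpecQ

/-!
# MP_d439b2_co, X3/H1R: auxiliary lemmas for the models with arms (helper20)
-/

set_option autoImplicit false

namespace Pool.Agent.MPd439b2.H1R

open Pool.Agent.MPd439b2
open Pool.Agent.MPd439b2.Rep
open Pool.Agent.MPd439b2.NK
open Pool.Agent.MPd439b2.H1T

namespace AxQ

theorem fc {α : Type} {P : α → Prop} {a : α} {l : List α} (h : P a) (t : ∀ p ∈ l, P p) :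
    ∀ p ∈ a :: l, P p := List.forall_mem_cons.2 ⟨h, t⟩

theorem fn {α : Type} {P : α → Prop} : ∀ p ∈ ([] : List α), P p := fun _ h => absurd h (by simp)

/-- a further index -/
theorem pk1 {k : ℕ} (hk : 2 ≤ k) (a : ℕ) : ∃ m < k, m ≠ a := by
  rcases (by omega : 0 ≠ a ∨ 1 ≠ a) with h | h
  · exact ⟨0, by omega, h⟩
  · exact ⟨1, by omega, h⟩

theorem pk2 {k : ℕ} (hk : 3 ≤ k) (a b : ℕ) : ∃ m < k, m ≠ a ∧ m ≠ b := by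
  rcases (by omega : (0 ≠ a ∧ 0 ≠ b) ∨ (1 ≠ a ∧ 1 ≠ b) ∨ (2 ≠ a ∧ 2 ≠ b)) with h | h | h
  · exact ⟨0, by omega, h⟩
  · exact ⟨1, by omega, h⟩
  · exact ⟨2, by omega, h⟩

theorem pk3 {k : ℕ} (hk : 4 ≤ k) (a b c : ℕ) : ∃ m < k, m ≠ a ∧ m ≠ b ∧ m ≠ c := by
  rcases (by omega : (0 ≠ a ∧ 0 ≠ b ∧ 0 ≠ c) ∨ (1 ≠ a ∧ 1 ≠ b ∧ 1 ≠ c) ∨
    (2 ≠ a ∧ 2 ≠ b ∧ 2 ≠ c) ∨ (3 ≠ a ∧ 3 ≠ b ∧ 3 ≠ c)) with h | h | h | h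
  · exact ⟨0, by omega, h⟩
  · exact ⟨1, by omega, h⟩
  · exact ⟨2, by omega, h⟩
  · exact ⟨3, by omega, h⟩

theorem pk4 {k : ℕ} (hk : 5 ≤ k) (a b c d : ℕ) :
    ∃ m < k, m ≠ a ∧ m ≠ b ∧ m ≠ c ∧ m ≠ d := by
  rcases (by omega : (0 ≠ a ∧ 0 ≠ b ∧ 0 ≠ c ∧ 0 ≠ d) ∨ (1 ≠ a ∧ 1 ≠ b ∧ 1 ≠ c ∧ 1 ≠ d) ∨
    (2 ≠ a ∧ 2 ≠ b ∧ 2 ≠ c ∧ 2 ≠ d) ∨ (3 ≠ a ∧ 3 ≠ b ∧ 3 ≠ c ∧ 3 ≠ d) ∨
    (4 ≠ a ∧ 4 ≠ b ∧ 4 ≠ c ∧ 4 ≠ d)) with h | h | h | h | h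
  · exact ⟨0, by omega, h⟩
  · exact ⟨1, by omega, h⟩
  · exact ⟨2, by omega, h⟩
  · exact ⟨3, by omega, h⟩
  · exact ⟨4, by omega, h⟩

variable {V : Type} {G : SimpleGraph V} {k : ℕ} {e : Bool → ℕ → V} {W : Set V} {q : ℕ → V}
  {E : ℕ → Set V}

/-- the conclusion of `S_Qb` -/
structure QB (G : SimpleGraph V) (k : ℕ) (e : Bool → ℕ → V) (q : ℕ → V) (E : ℕ → Set V) :
    Prop where
  c : ∀ i < k, Conn G (Yi e E i)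
  qy : ∀ i < k, ∃ x ∈ Yi e E i, G.Adj (q i) x
  qn : ∀ i < k, ∀ j < k, q i ∉ Yi e E j
  nq : ∀ i < k, ∀ j < k, i ≠ j → ∀ x ∈ Yi e E j, ¬ G.Adj (q i) x
  yy : ∀ i < k, ∀ j < k, i ≠ j → ∀ x ∈ Yi e E i, ∀ y ∈ Yi e E j, x ≠ y ∧ ¬ G.Adj x y
  lw : ∀ i < k, ∀ x ∈ Yi e E i, Lw G k e x

theorem qb (h : S_Qb) (hL : Lt G k e) (hA : Ar G k e W q E) : QB G k e q E := by
  obtain ⟨h1, h2, h3, h4⟩ := h V G k e W q E hL hA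
  exact ⟨fun i hi => (h1 i hi).1, fun i hi => (h1 i hi).2, fun i hi j hj => (h2 i hi j hj).1,
    fun i hi j hj => (h2 i hi j hj).2, h3, h4⟩

theorem tch_ss {u v : V} (h : G.Adj u v) : Tch G {u} {v} := ⟨u, rfl, v, rfl, h⟩

theorem tch_sS {u : V} {S : Set V} (h : ∃ x ∈ S, G.Adj u x) : Tch G {u} S := by
  obtain ⟨x, hx, h⟩ := h
  exact ⟨u, rfl, x, hx, h⟩

theorem tch_Ss {u : V} {S : Set V} (h : ∃ x ∈ S, G.Adj x u) : Tch G S {u} := by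
  obtain ⟨x, hx, h⟩ := h
  exact ⟨x, hx, u, rfl, h⟩

theorem nt_sS {u : V} {S : Set V} (h : ∀ x ∈ S, ¬ G.Adj u x) : ¬ Tch G {u} S := by
  rintro ⟨_, rfl, x, hx, h1⟩
  exact h x hx h1

theorem nt_Ss {u : V} {S : Set V} (h : ∀ x ∈ S, ¬ G.Adj u x) : ¬ Tch G S {u} := by
  rintro ⟨x, hx, _, rfl, h1⟩
  exact h x hx h1.symm

theorem nt_SS {S T : Set V} (h : ∀ x ∈ S, ∀ y ∈ T, ¬ G.Adj x y) : ¬ Tch G S T := by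
  rintro ⟨x, hx, y, hy, h1⟩
  exact h x hx y hy h1

theorem dj_ss {u v : V} (h : u ≠ v) : Disjoint ({u} : Set V) {v} := Set.disjoint_singleton.2 h

theorem dj_sS {u : V} {S : Set V} (h : u ∉ S) : Disjoint ({u} : Set V) S :=
  Set.disjoint_singleton_left.2 h

theorem dj_SS {S T : Set V} (h : ∀ x ∈ S, ∀ y ∈ T, x ≠ y) : Disjoint S T :=
  Set.disjoint_left.2 fun x hx hy => h x hx x hy rfl

/-- the extension of a connected set which touches the arm `i` so that it touches `q i` -/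
theorem clo (hB : QB G k e q E) {i : ℕ} (hi : i < k) {D : Set V} (hD : Conn G D)
    (h : ∃ x ∈ D, At G e q E x i) :
    ∃ D', D ⊆ D' ∧ D' ⊆ D ∪ Yi e E i ∧ Conn G D' ∧ ∃ x ∈ D', G.Adj (q i) x := by
  by_cases h1 : ∃ x ∈ D, G.Adj (q i) x
  · exact ⟨D, subset_rfl, Set.subset_union_left, hD, h1⟩
  · obtain ⟨x, hx, hxi⟩ := h
    rcases hxi with h2 | ⟨y, hy, hxy⟩
    · exact absurd ⟨x, hx, h2.symm⟩ h1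
    · refine ⟨D ∪ Yi e E i, Set.subset_union_left, subset_rfl,
        hD.union (hB.c i hi) (Or.inr ⟨x, hx, y, hy, hxy⟩), ?_⟩
      obtain ⟨z, hz, hz'⟩ := hB.qy i hi
      exact ⟨z, Or.inr hz, hz'⟩

end AxQ

end Pool.Agent.MPd439b2.H1R
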