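import Pool.Agent.Lib.MP_d439b2_co.X3.H1R.SpecR

/-!
# MP_d439b2_co, X3/H1R/CK: the cell position
-/

set_option autoImplicit false

namespace Pool.Agent.MPd439b2.H1R

open Pool.Agent.MPd439b2
open Pool.Agent.MPd439b2.Rep
open Pool.Agent.MPd439b2.NK
open Pool.Agent.MPd439b2.H1T

section

variable {V : Type} {G : SimpleGraph V} {m : ℕ} {e : Bool → ℕ → V} {W : Set V}

private theorem CK_let (hR : Rg G m e W) (hm : 3 ≤ m) {i : ℕ} (hi : i < m) (s : Bool) :
    e s i ∈ {v | v ∉ W ∧ Lw G m e v} := by
  refine ⟨fun h => ?_, hR.lt.lw hi s⟩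
  obtain ⟨r, hr⟩ := hR.half _ h
  exact hr.not_lw (by omega) (hR.lt.lw hi s)

private theorem CK_pr (hR : Rg G m e W) (hm : 3 ≤ m) {Q K : Set V}
    (hK : Cl (Rs G {v | v ∉ W ∧ Lw G m e v}) Q K) {i : ℕ} (hi : i < m) (h : e false i ∈ K)
    (h' : e true i ∉ Q) : Pr e i ⊆ K := by
  have h1 : (Rs G {v | v ∉ W ∧ Lw G m e v}).Adj (e false i) (e true i) :=
    ⟨hR.lt.adj hi false, CK_let hR hm hi false, CK_let hR hm hi true⟩
  rintro x ⟨s, rfl⟩
  cases s
  · exact h
  · exact (hK.2.2 _ h _ h1).resolve_right h'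

private theorem CK_inj (hR : Rg G m e W) (s : Bool) {i j : ℕ} (hi : i < m) (hj : j < m)
    (h : e s i = e s j) : i = j := by
  by_contra hij
  exact hR.lt.ne hi hj hij s s h

/-- the indices whose second vertex is in `Q` -/
private theorem CK_cnt [Finite V] (hR : Rg G m e W) {Q : Set V} {q : ℕ} (hQ : Q.ncard ≤ q)
    (A : Finset ℕ) (l : ℕ → ℕ) (hl : ∀ a ∈ A, l a < m)
    (hli : ∀ a ∈ A, ∀ b ∈ A, l a = l b → a = b) (hA : ∀ a ∈ A, e true (l a) ∈ Q) :
    A.card ≤ q := by
  classical
  have h1 : (A.image fun a => e true (l a)).card = A.card := by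
    refine Finset.card_image_of_injOn fun a ha b hb hab => ?_
    exact hli a ha b hb (CK_inj hR true (hl a ha) (hl b hb) hab)
  rw [← h1, ← Set.ncard_coe_finset]
  refine (Set.ncard_le_ncard ?_ (Set.toFinite _)).trans hQ
  intro x hx
  rw [Finset.mem_coe] at hx
  obtain ⟨a, ha, rfl⟩ := Finset.mem_image.1 hx
  exact hA a ha

private theorem CK_enum (S : Finset ℕ) {k : ℕ} (hk : k ≤ S.card) : ∃ σ : ℕ → ℕ,
    (∀ i < k, σ i ∈ S) ∧ ∀ i < k, ∀ j < k, σ i = σ j → i = j := by
  refine ⟨fun i => if h : i < S.card then S.orderEmbOfFin rfl ⟨i, h⟩ else 0, ?_, ?_⟩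
  · intro i hi
    simp only [dif_pos (hi.trans_le hk)]
    exact S.orderEmbOfFin_mem rfl _
  · intro i hi j hj h
    simp only [dif_pos (hi.trans_le hk), dif_pos (hj.trans_le hk)] at h
    have := (S.orderEmbOfFin rfl).injective h
    simpa using this

end

theorem rCK : S_CK := by
  classical
  intro hSk hCq hCu hHu k w n M
  refine ⟨4 ^ k * ((n + k * w + 1) * (M + k * w) + 4 * w + k * w + 2) + 3, ?_⟩
  intro V _ G m e W hR hm hno
  set U : Set V := {v | v ∉ W ∧ Lw G m e v} with hU
  set S : Set V := {x | ∃ i < m, x = e false i} with hS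
  have hm3 : 3 ≤ m := by omega
  have hScard : S.ncard = m := by
    have h1 : S = (((Finset.range m).image (e false) : Finset V) : Set V) := by
      ext x
      simp only [hS, Set.mem_ofPred_eq, Finset.coe_image, Finset.coe_range, Set.mem_image,
        Set.mem_Iio]
      constructor
      · rintro ⟨i, hi, rfl⟩
        exact ⟨i, hi, rfl⟩
      · rintro ⟨i, hi, rfl⟩
        exact ⟨i, hi, rfl⟩
    rw [h1, Set.ncard_coe_finset, Finset.card_image_of_injOn, Finset.card_range]
    intro i hi j hj h
    simp only [Finset.coe_range, Set.mem_Iio] at hi hj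
    exact CK_inj hR false hi hj h
  have h4 : 0 < 4 ^ k := by positivity
  have big : ∀ c : ℕ, m ≤ 4 ^ k * c →
      (n + k * w + 1) * (M + k * w) + 4 * w + k * w + 2 ≤ c := by
    intro c hc
    by_contra hcon
    push Not at hcon
    have h1 : 4 ^ k * c ≤ 4 ^ k * ((n + k * w + 1) * (M + k * w) + 4 * w + k * w + 2) :=
      Nat.mul_le_mul_left _ hcon.le
    omega
  rcases hSk V (Rs G U) S w 4 k (by norm_num) with ⟨S₀, hS₀, hS₀c, hUs⟩ | ⟨Q, D, hQ, hDQ, hDD,
    hDcl, hDS⟩
  · exfalso
    rw [hScard] at hS₀c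
    have h1 := big _ hS₀c
    refine hno S₀ (fun s hs => hS₀ hs) ?_
    exact hHu V (Rs G U) S₀ w (by omega) (by omega) hUs
  · have hDbig : ∀ i ≤ k, (n + k * w + 1) * (M + k * w) < (S ∩ D i).ncard := by
      intro i hi
      have h1 := hDS i hi
      rw [hScard] at h1
      have h2 := big _ h1
      omega
    have hQW : (Q ∪ W).ncard ≤ k * w + 2 := by
      have h1 := Set.ncard_union_le Q W
      have h2 := hR.card
      omega
    by_cases hA : ∃ i < k, ∃ K : ℕ → Set V, (∀ a < n + k * w + 1, Cl (Rs G U) Q (K a) ∧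
        K a ⊆ D i ∧ (S ∩ K a).Nonempty) ∧
        ∀ a < n + k * w + 1, ∀ b < n + k * w + 1, a ≠ b → Disjoint (K a) (K b)
    · obtain ⟨i, hi, K, hK, hKd⟩ := hA
      have hex : ∀ a : ℕ, ∃ l : ℕ, a < n + k * w + 1 → l < m ∧ e false l ∈ K a := by
        intro a
        by_cases ha : a < n + k * w + 1
        · obtain ⟨x, ⟨l, hl, rfl⟩, hx⟩ := (hK a ha).2.2
          exact ⟨l, fun _ => ⟨hl, hx⟩⟩
        · exact ⟨0, fun h => absurd h ha⟩
      choose l hl using hex
      have hli : ∀ a < n + k * w + 1, ∀ b < n + k * w + 1, l a = l b → a = b := by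
        intro a ha b hb hab
        by_contra hne
        refine Set.disjoint_left.1 (hKd a ha b hb hne) (hl a ha).2 ?_
        rw [hab]
        exact (hl b hb).2
      set Bd := (Finset.range (n + k * w + 1)).filter fun a => e true (l a) ∈ Q with hBd
      have hBc : Bd.card ≤ k * w := by
        refine CK_cnt hR hQ Bd l ?_ ?_ ?_
        · intro a ha
          exact (hl a (Finset.mem_range.1 (Finset.mem_filter.1 ha).1)).1
        · intro a ha b hb
          exact hli a (Finset.mem_range.1 (Finset.mem_filter.1 ha).1) b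
            (Finset.mem_range.1 (Finset.mem_filter.1 hb).1)
        · intro a ha
          exact (Finset.mem_filter.1 ha).2
      have hGc : n ≤ (Finset.range (n + k * w + 1) \ Bd).card := by
        have h1 := Finset.le_card_sdiff Bd (Finset.range (n + k * w + 1))
        rw [Finset.card_range] at h1
        omega
      obtain ⟨σ, hσ, hσi⟩ := CK_enum _ hGc
      have hσn : ∀ a < n, σ a < n + k * w + 1 := fun a ha =>
        Finset.mem_range.1 (Finset.mem_sdiff.1 (hσ a ha)).1
      have hσQ : ∀ a < n, e true (l (σ a)) ∉ Q := by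
        intro a ha h
        exact (Finset.mem_sdiff.1 (hσ a ha)).2 (Finset.mem_filter.2
          ⟨Finset.mem_range.2 (hσn a ha), h⟩)
      refine ⟨Q ∪ W, fun a => K (σ a), fun a => l (σ a), hQW, Or.inr ?_⟩
      refine hCu V G m n e W Q (fun a => K (σ a)) (fun a => l (σ a)) hR hm3
        (fun a ha => (hl _ (hσn a ha)).1)
        (fun a ha b hb h => hσi a ha b hb (hli _ (hσn a ha) _ (hσn b hb) h)) ?_ ?_
      · intro a ha
        have h1 := (hK _ (hσn a ha)).1
        exact ⟨h1, CK_pr hR hm3 h1 (hl _ (hσn a ha)).1 (hl _ (hσn a ha)).2 (hσQ a ha)⟩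
      · intro a ha b hb hab
        exact hKd _ (hσn a ha) _ (hσn b hb) fun h => hab (hσi a ha b hb h)
    · have hB : ∀ i : ℕ, ∃ K : Set V, i < k → Cl (Rs G U) Q K ∧ K ⊆ D i ∧
          M + k * w < (S ∩ K).ncard := by
        intro i
        by_cases hi : i < k
        · rcases hCq V (Rs G U) S (D i) Q (n + k * w + 1) (M + k * w) (hDQ i hi.le)
            (hDcl i hi.le) (hDbig i hi.le) with h1 | ⟨K, h1⟩
          · exact absurd ⟨i, hi, h1⟩ hA
          · exact ⟨K, fun _ => h1⟩
        · exact ⟨∅, fun h => absurd h hi⟩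
      choose K hK using hB
      have hKd : ∀ i < k, ∀ j < k, i ≠ j → Disjoint (K i) (K j) := fun i hi j hj hij =>
        (hDD i hi.le j hj.le hij).mono (hK i hi).2.1 (hK j hj).2.1
      have hex : ∀ i : ℕ, ∃ j : ℕ, i < k → j < m ∧ e false j ∈ K i ∧ e true j ∉ Q := by
        intro i
        by_cases hi : i < k
        · by_contra hcon
          push Not at hcon
          have hcon' : ∀ j < m, e false j ∈ K i → e true j ∈ Q := fun j hj h =>
            (hcon j).2 hj h
          set A := (Finset.range m).filter fun j => e false j ∈ K i with hAdef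
          have h1 : A.card ≤ k * w := by
            refine CK_cnt hR hQ A id ?_ ?_ ?_
            · intro a ha
              exact Finset.mem_range.1 (Finset.mem_filter.1 ha).1
            · intro a _ b _ h
              exact h
            · intro a ha
              exact hcon' a (Finset.mem_range.1 (Finset.mem_filter.1 ha).1)
                (Finset.mem_filter.1 ha).2
          have h2 : (S ∩ K i).ncard ≤ A.card := by
            have h3 : S ∩ K i ⊆ ((A.image (e false) : Finset V) : Set V) := by
              rintro x ⟨⟨j, hj, rfl⟩, hx⟩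
              rw [Finset.mem_coe]
              exact Finset.mem_image.2 ⟨j, Finset.mem_filter.2 ⟨Finset.mem_range.2 hj, hx⟩, rfl⟩
            refine (Set.ncard_le_ncard h3 (Set.toFinite _)).trans ?_
            rw [Set.ncard_coe_finset]
            exact Finset.card_image_le
          have h3 := (hK i hi).2.2
          omega
        · exact ⟨0, fun h => absurd h hi⟩
      choose ι hι using hex
      refine ⟨Q ∪ W, K, ι, hQW, Or.inl ⟨?_, ?_⟩⟩
      · refine hCu V G m k e W Q K ι hR hm3 (fun i hi => (hι i hi).1) ?_ ?_ hKd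
        · intro i hi j hj hij
          by_contra hne
          refine Set.disjoint_left.1 (hKd i hi j hj hne) (hι i hi).2.1 ?_
          rw [hij]
          exact (hι j hj).2.1
        · intro i hi
          exact ⟨(hK i hi).1, CK_pr hR hm3 (hK i hi).1 (hι i hi).1 (hι i hi).2.1 (hι i hi).2.2⟩
      · intro i hi
        have h1 := (hK i hi).2.2
        have h2 : (S ∩ K i).ncard ≤ (K i).ncard :=
          Set.ncard_le_ncard Set.inter_subset_right (Set.toFinite _)
        omega

end Pool.Agent.MPd439b2.H1R
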