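import Pool.Agent.Lib.MP_d439b2_co.X3.H1R.SpecC

/-!
# MP_d439b2_co, X3/H1R/CX: cells are impossible
-/

set_option autoImplicit false

namespace Pool.Agent.MPd439b2.H1R

open Pool.Agent.MPd439b2
open Pool.Agent.MPd439b2.Rep
open Pool.Agent.MPd439b2.NK
open Pool.Agent.MPd439b2.H1T

theorem rCX : S_CX := by
  intro hDig hCt hCs hCa hCb hCd hCe1 hCe2 hCf hCg hCi hDw hGx V _ G n t a q M e K Q β hG hJ hPm
    hL hP hQ h1 h2 h3 hm hn hor
  classical
  have hB14 : 14 ≤ a + 14 := by omega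
  have haB : a ≤ a + 14 := by omega
  have hmB : (2 * (a + 14) + 1) * 5 ≤ (2 * (a + 14) + 1) * (3 * t + 2 * a + 5) :=
    Nat.mul_le_mul_left _ (by omega)
  have h2B : 2 * (a + 14) ≤ n := by omega
  have hn2 : 2 ≤ n := by omega
  -- the good cells
  obtain ⟨I, hI, hIc⟩ : ∃ I : Finset ℕ, (∀ i ∈ I, i < n ∧ ∃ f, FF G n e K Q f ∧ Mxd G f (K i)) ∧
      (2 * (a + 14) + 1) * (3 * t + 2 * a + 5) ≤ I.card := by
    rcases hor with hbig | hmany
    · refine ⟨Finset.range n, fun i hi => ⟨Finset.mem_range.1 hi, ?_⟩, by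
        rw [Finset.card_range]
        exact hn⟩
      exact hCe1 V G n e K Q β (q + t + 2) q hP hL hQ (by omega) hn2
        (fun i hi => lt_of_le_of_lt h1 (hbig i hi)) i (Finset.mem_range.1 hi)
    · refine ⟨(Finset.range n).filter fun i => ∃ f, FF G n e K Q f ∧ Mxd G f (K i),
        fun i hi => ?_, ?_⟩
      · rw [Finset.mem_filter, Finset.mem_range] at hi
        exact hi
      · have h4 := hCe2 hCb V G n e K Q β (q + t + 2) q a (a + 14) hG hPm hP hL hQ (by omega)
          (by omega) haB h2B (fun I hI hIa => lt_of_le_of_lt h1 (hm I hI hIa))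
          ((Finset.range n).filter fun i => ¬ ∃ f, FF G n e K Q f ∧ Mxd G f (K i))
          (fun i hi => by
            rw [Finset.mem_filter, Finset.mem_range] at hi
            exact hi)
        have h5 := Finset.card_filter_add_card_filter_not (s := Finset.range n)
          (fun i => ∃ f, FF G n e K Q f ∧ Mxd G f (K i))
        rw [Finset.card_range] at h5
        omega
  have hfew : ∀ f, FF G n e K Q f → ∀ I : Finset ℕ, (∀ i ∈ I, i < n ∧ Mxd G f (K i)) →
      I.card < a + 14 :=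
    hCd hCt hCs hCa hCb V G n e K Q β (q + t + 2) q a (a + 14) hG hP hL hQ (by omega) hB14 haB h2B
      (fun I hI hIa => lt_of_le_of_lt h2 (hm I hI hIa))
  obtain ⟨J, f, hJI, hJc, hJf, hJJ⟩ := hCf hDig V G n e K Q (a + 14) (3 * t + 2 * a + 5) I hP hfew
    hI hIc
  have hJn : ∀ i ∈ J, i < n := fun i hi => (hI i (hJI hi)).1
  have hCgg := hCg hCb V G n e K Q J f hG hP hJn (by omega) hJf hJJ
  obtain ⟨σ, p, r, hσ, hinj, hCA⟩ := hCi V G n e K Q J f (3 * t + 2 * a + 5) hP hJn hJc hJf hJJ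
    hCgg
  have hCE := hDw V G (3 * t + 2 * a + 5) _ Q p r _ hG hCA (by omega)
  refine hGx V G (3 * t + 2 * a + 5) t a q (q + t + 2) _ _ Q β hCE hJ hL hQ le_rfl ?_ (by omega)
  intro I' hI' hIa
  have h6 : (I'.image σ).card = I'.card := by
    refine Finset.card_image_of_injOn fun i hi j hj hij => ?_
    exact hinj i (hI' i hi) j (hI' j hj) hij
  have h7 := hm (I'.image σ) (fun j hj => by
    obtain ⟨i, hi, rfl⟩ := Finset.mem_image.1 hj
    exact hJn _ (hσ i (hI' i hi))) (by rw [h6]; exact hIa)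
  refine lt_of_le_of_lt h3 (lt_of_lt_of_le h7 ?_)
  refine Set.ncard_le_ncard (fun x hx => ?_) (Set.toFinite _)
  simp only [Set.mem_iUnion, Finset.mem_image, exists_prop] at hx ⊢
  obtain ⟨_, ⟨i, hi, rfl⟩, hx⟩ := hx
  exact ⟨i, hi, Or.inl hx⟩

end Pool.Agent.MPd439b2.H1R
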