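import Pool.Agent.Lib.MP_d439b2_co.X3.H1R.SpecC

/-! # MP_d439b2_co, X3/H1R: two vertices incomplete to at most ten common cells (`rCa`) (helper99) -/

set_option autoImplicit false

namespace Pool.Agent.MPd439b2.H1R

open Pool.Agent.MPd439b2
open Pool.Agent.MPd439b2.Rep
open Pool.Agent.MPd439b2.NK
open Pool.Agent.MPd439b2.H1T

theorem rCa : S_Ca := by
  classical
  intro hCt hCs V G n K f h I hG hfh hcon hant hfhK hIn hI
  have key : ∀ P : Set V → Prop, (∀ K' : ℕ → Set V,
      (∀ i < 3, ∀ j < 3, i ≠ j → ∀ x ∈ K' i, ∀ y ∈ K' j, x ≠ y ∧ ¬ G.Adj x y) →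
      (∀ i < 3, f ∉ K' i ∧ h ∉ K' i) → ¬ ∀ i < 3, P (K' i)) →
      (I.filter fun i => P (K i)).card ≤ 2 := by
    intro P hP
    by_contra hcard
    obtain ⟨a, b, c, ha, hb, hc, hab, hac, hbc⟩ := Finset.two_lt_card_iff.1 (not_le.1 hcard)
    rw [Finset.mem_filter] at ha hb hc
    have hlt : ∀ i < 3, i = 0 ∨ i = 1 ∨ i = 2 := by
      intro i hi
      omega
    let s : ℕ → ℕ := fun i => if i = 0 then a else if i = 1 then b else c
    have hs : ∀ i < 3, s i ∈ I ∧ P (K (s i)) := by
      intro i hi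
      rcases hlt i hi with rfl | rfl | rfl
      · exact ha
      · exact hb
      · exact hc
    have hinj : ∀ i < 3, ∀ j < 3, i ≠ j → s i ≠ s j := by
      intro i hi j hj hij
      rcases hlt i hi with rfl | rfl | rfl <;> rcases hlt j hj with rfl | rfl | rfl
      · exact absurd rfl hij
      · exact hab
      · exact hac
      · exact hab.symm
      · exact absurd rfl hij
      · exact hbc
      · exact hac.symm
      · exact hbc.symm
      · exact absurd rfl hij
    refine hP (fun i => K (s i)) ?_ ?_ ?_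
    · intro i hi j hj hij
      exact hant _ (hIn _ (hs i hi).1) _ (hIn _ (hs j hj).1) (hinj i hi j hj hij)
    · intro i hi
      exact hfhK _ (hIn _ (hs i hi).1)
    · intro i hi
      exact (hs i hi).2
  have hsw : ∀ K' : ℕ → Set V, (∀ i < 3, f ∉ K' i ∧ h ∉ K' i) → ∀ i < 3, h ∉ K' i ∧ f ∉ K' i :=
    fun _ h1 i hi => ⟨(h1 i hi).2, (h1 i hi).1⟩
  have k1 := key (fun A => TS G f h A) fun K' h1 h2 => (hCs V G f h K' hG hfh h1 h2).1
  have k2 := key (fun A => TO G f h A) fun K' h1 h2 => (hCs V G f h K' hG hfh h1 h2).2.1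
  have k3 := key (fun A => TP' G f h A) fun K' h1 h2 => (hCs V G f h K' hG hfh h1 h2).2.2
  have k4 := key (fun A => TO G h f A) fun K' h1 h2 =>
    (hCs V G h f K' hG hfh.symm h1 (hsw K' h2)).2.1
  have k5 := key (fun A => TP' G h f A) fun K' h1 h2 =>
    (hCs V G h f K' hG hfh.symm h1 (hsw K' h2)).2.2
  have hsub : I ⊆ (I.filter fun i => TS G f h (K i)) ∪ ((I.filter fun i => TO G f h (K i)) ∪
      ((I.filter fun i => TP' G f h (K i)) ∪ ((I.filter fun i => TO G h f (K i)) ∪
        (I.filter fun i => TP' G h f (K i))))) := by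
    intro i hi
    have h1 := hCt V G f h (K i) (hcon i (hIn i hi)) (hfhK i (hIn i hi)).1 (hfhK i (hIn i hi)).2
      (hI i hi).1 (hI i hi).2.1 (hI i hi).2.2
    simp only [Finset.mem_union, Finset.mem_filter]
    rcases h1 with h1 | h1 | h1 | h1 | h1
    · exact Or.inl ⟨hi, h1⟩
    · exact Or.inr (Or.inl ⟨hi, h1⟩)
    · exact Or.inr (Or.inr (Or.inl ⟨hi, h1⟩))
    · exact Or.inr (Or.inr (Or.inr (Or.inl ⟨hi, h1⟩)))
    · exact Or.inr (Or.inr (Or.inr (Or.inr ⟨hi, h1⟩)))
  have c1 := (Finset.card_le_card hsub).trans (Finset.card_union_le _ _)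
  have c2 := Finset.card_union_le (I.filter fun i => TO G f h (K i))
    ((I.filter fun i => TP' G f h (K i)) ∪ ((I.filter fun i => TO G h f (K i)) ∪
        (I.filter fun i => TP' G h f (K i))))
  have c3 := Finset.card_union_le (I.filter fun i => TP' G f h (K i))
    ((I.filter fun i => TO G h f (K i)) ∪ (I.filter fun i => TP' G h f (K i)))
  have c4 := Finset.card_union_le (I.filter fun i => TO G h f (K i))
    (I.filter fun i => TP' G h f (K i))
  omega

end Pool.Agent.MPd439b2.H1R
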