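import Pool.Agent.Lib.MP_d439b2_co.X3.H1R.SpecC

/-!
# MP_d439b2_co, X3/H1R/Cb: a vertex mixed on two cells, a vertex complete to them
-/

set_option autoImplicit false

namespace Pool.Agent.MPd439b2.H1R

open Pool.Agent.MPd439b2
open Pool.Agent.MPd439b2.Rep
open Pool.Agent.MPd439b2.NK
open Pool.Agent.MPd439b2.H1T

/-- a vertex which is mixed on a connected set is mixed on an edge -/
theorem Cb_edge {V : Type} {G : SimpleGraph V} {f : V} {K : Set V} (hK : Conn G K)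
    (h : Mxd G f K) : ∃ s ∈ K, ∃ t ∈ K, G.Adj s t ∧ G.Adj f s ∧ ¬ G.Adj f t := by
  obtain ⟨h1, h2⟩ := h
  simp only [Cpl, Nul, not_forall, exists_prop, not_not] at h1 h2
  obtain ⟨x, hx, hfx⟩ := h1
  obtain ⟨y, hy, hfy⟩ := h2
  obtain ⟨s, hs, t, ht, hst⟩ := hK.2 {z | z ∈ K ∧ G.Adj f z} (fun z hz => hz.1) ⟨y, hy, hfy⟩
    (fun h3 => hfx (by
      have h4 : x ∈ {z | z ∈ K ∧ G.Adj f z} := by
        rw [h3]
        exact hx
      exact h4.2))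
  exact ⟨s, hs.1, t, ht.1, hst, hs.2, fun h5 => ht.2 ⟨ht.1, h5⟩⟩

theorem rCb : S_Cb := by
  intro V G f h K₀ K₁ L hG c0 c1 cL d01 d0L d1L f0 f1 fL h0 h1 hL m0 m1 p0 p1
  by_contra hcon
  rw [not_or] at hcon
  obtain ⟨n1, n2⟩ := hcon
  obtain ⟨s₀, hs0, t₀, ht0, a0, b0, e0⟩ := Cb_edge c0 m0
  obtain ⟨s₁, hs1, t₁, ht1, a1, b1, e1⟩ := Cb_edge c1 m1
  by_cases hc : ∃ x ∈ L, G.Adj f x ∧ ¬ G.Adj h x
  · obtain ⟨x, hx, hfx, hhx⟩ := hc
    refine engV hG (fun i => match i with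
      | 0 => h | 1 => s₁ | 2 => f | 3 => s₀ | 4 => t₁ | 5 => x | _ => t₀)
      [[0, 1], [2], [3], [4], [5], [6]]
      [(0, 1), (1, 2), (0, 3), (2, 3), (0, 4), (2, 5), (0, 6), (3, 6), (1, 4)]
      [(4, 2), (4, 3), (5, 0), (5, 1), (5, 3), (6, 2), (4, 5), (4, 6), (5, 6)] [] ?_ ?_ ?_
      (by decide +kernel)
    · simp only [List.forall_mem_cons, List.not_mem_nil, false_imp_iff, implies_true, and_true]
      exact ⟨p1 _ hs1, b1.symm, p0 _ hs0, b0, p1 _ ht1, hfx, p0 _ ht0, a0, a1⟩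
    · simp only [List.forall_mem_cons, List.not_mem_nil, false_imp_iff, implies_true, and_true]
      exact ⟨fun h' => e1 h'.symm, fun h' => (d01 _ hs0 _ ht1).2 h'.symm, fun h' => hhx h'.symm,
        fun h' => (d1L _ hs1 _ hx).2 h'.symm, fun h' => (d0L _ hs0 _ hx).2 h'.symm,
        fun h' => e0 h'.symm, (d1L _ ht1 _ hx).2, fun h' => (d01 _ ht0 _ ht1).2 h'.symm,
        fun h' => (d0L _ ht0 _ hx).2 h'.symm⟩
    · simp
  · push Not at hc
    simp only [Cpl, Nul, not_forall, exists_prop, not_not] at n1 n2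
    obtain ⟨z, hz, hhz⟩ := n1
    obtain ⟨x₀, hx0, hfx0⟩ := n2
    obtain ⟨S, hS, hxS, hSc, hSn⟩ := exists_comp G
      (show x₀ ∈ {x | x ∈ L ∧ G.Adj h x} from ⟨hx0, hc _ hx0 hfx0⟩)
    obtain ⟨x, hx, y, hy, hxy⟩ := cL.2 S (fun u hu => (hS hu).1) ⟨x₀, hxS⟩ (fun h3 => hhz (by
      have h4 : z ∈ S := by
        rw [h3]
        exact hz
      exact (hS h4).2))
    have hhy : ¬ G.Adj h y := fun h5 => hSn y ⟨hy.1, h5⟩ ⟨hy.2, x, hx, hxy⟩
    have hfy : ¬ G.Adj f y := fun h5 => hhy (hc _ hy.1 h5)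
    refine engS hG (fun i => match i with
      | 0 => {h} | 1 => {s₀} | 2 => S | 3 => {f} | 4 => {t₀} | 5 => {y} | _ => {s₁})
      [[0, 1], [2], [3], [4], [5], [6]]
      [(0, 1), (0, 2), (1, 3), (2, 3), (0, 4), (2, 5), (0, 6), (3, 6)]
      [(4, 2), (4, 3), (5, 0), (5, 1), (5, 3), (6, 2), (4, 5), (4, 6), (5, 6)]
      [(0, 2), (1, 2), (0, 3), (1, 3), (2, 3), (0, 4), (1, 4), (2, 4), (3, 4), (0, 5), (1, 5),
        (2, 5), (3, 5), (4, 5), (0, 6), (1, 6), (2, 6), (3, 6), (4, 6), (5, 6)] ?_ ?_ ?_ ?_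
      (by decide +kernel)
    · simp only [List.forall_mem_cons, List.not_mem_nil, false_imp_iff, implies_true, and_true]
      exact ⟨⟨Conn.singleton _ _, Conn.singleton _ _⟩, hSc, Conn.singleton _ _,
        Conn.singleton _ _, Conn.singleton _ _, Conn.singleton _ _⟩
    · simp only [List.forall_mem_cons, List.not_mem_nil, false_imp_iff, implies_true, and_true]
      exact ⟨⟨_, rfl, _, rfl, p0 _ hs0⟩, ⟨_, rfl, x₀, hxS, (hS hxS).2⟩,
        ⟨_, rfl, _, rfl, b0.symm⟩, ⟨x₀, hxS, _, rfl, hfx0.symm⟩, ⟨_, rfl, _, rfl, p0 _ ht0⟩,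
        ⟨x, hx, _, rfl, hxy⟩, ⟨_, rfl, _, rfl, p1 _ hs1⟩, ⟨_, rfl, _, rfl, b1⟩⟩
    · simp only [List.forall_mem_cons, List.not_mem_nil, false_imp_iff, implies_true, and_true]
      refine ⟨?_, ?_, ?_, ?_, ?_, ?_, ?_, ?_, ?_⟩
      · rintro ⟨_, rfl, u, hu, h'⟩
        exact (d0L _ ht0 _ (hS hu).1).2 h'
      · rintro ⟨_, rfl, _, rfl, h'⟩
        exact e0 h'.symm
      · rintro ⟨_, rfl, _, rfl, h'⟩
        exact hhy h'.symm
      · rintro ⟨_, rfl, _, rfl, h'⟩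
        exact (d0L _ hs0 _ hy.1).2 h'.symm
      · rintro ⟨_, rfl, _, rfl, h'⟩
        exact hfy h'.symm
      · rintro ⟨_, rfl, u, hu, h'⟩
        exact (d1L _ hs1 _ (hS hu).1).2 h'
      · rintro ⟨_, rfl, _, rfl, h'⟩
        exact (d0L _ ht0 _ hy.1).2 h'
      · rintro ⟨_, rfl, _, rfl, h'⟩
        exact (d01 _ ht0 _ hs1).2 h'
      · rintro ⟨_, rfl, _, rfl, h'⟩
        exact (d1L _ hs1 _ hy.1).2 h'.symm
    · have dd : ∀ {u v : V}, u ≠ v → Disjoint ({u} : Set V) {v} := fun h' =>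
        Set.disjoint_singleton.2 h'
      have dS : ∀ {u : V}, u ∉ S → Disjoint ({u} : Set V) S := fun h' =>
        Set.disjoint_singleton_left.2 h'
      simp only [List.forall_mem_cons, List.not_mem_nil, false_imp_iff, implies_true, and_true]
      exact ⟨dS fun h' => hL (hS h').1, dS fun h' => (d0L _ hs0 _ (hS h').1).1 rfl,
        dd fun h' => e0 (h' ▸ p0 _ ht0),
        dd fun h' => f0 (h' ▸ hs0), (dS fun h' => fL (hS h').1).symm,
        dd fun h' => h0 (h'.symm ▸ ht0), dd a0.ne,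
        (dS fun h' => (d0L _ ht0 _ (hS h').1).1 rfl).symm,
        dd fun h' => f0 (h'.symm ▸ ht0), dd fun h' => hL (h'.symm ▸ hy.1),
        dd (d0L _ hs0 _ hy.1).1, (dS hy.2).symm, dd fun h' => fL (h'.symm ▸ hy.1),
        dd (d0L _ ht0 _ hy.1).1, dd fun h' => h1 (h'.symm ▸ hs1), dd (d01 _ hs0 _ hs1).1,
        (dS fun h' => (d1L _ hs1 _ (hS h').1).1 rfl).symm, dd fun h' => f1 (h'.symm ▸ hs1),
        dd (d01 _ ht0 _ hs1).1, dd fun h' => (d1L _ hs1 _ hy.1).1 h'.symm⟩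

end Pool.Agent.MPd439b2.H1R
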