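import Pool.Agent.Lib.MP_d439b2_co.X3.H1R.SpecC

/-!
# MP_d439b2_co, X3/H1R/Cd: a vertex `FF` is mixed on few cells
-/

set_option autoImplicit false

namespace Pool.Agent.MPd439b2.H1R

open Pool.Agent.MPd439b2
open Pool.Agent.MPd439b2.Rep
open Pool.Agent.MPd439b2.NK
open Pool.Agent.MPd439b2.H1T

/-- at most one letter is not completely seen by a vertex `Fm` -/
theorem Cd_fm {V : Type} {G : SimpleGraph V} {n : ℕ} {e : Bool → ℕ → V} {v : V}
    (h : Fm G n e v) {I : Finset ℕ} (hI : ∀ i ∈ I, i < n) (hN : ∀ i ∈ I, ¬ Fu G e v i) :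
    I.card ≤ 1 := by
  rw [Finset.card_le_one]
  intro i hi j hj
  by_contra hij
  rcases h i (hI i hi) j (hI j hj) hij with h1 | h1
  · exact hN i hi h1
  · exact hN j hj h1

theorem rCd : S_Cd := by
  intro hCt hCs hCa hCb V _ G n e K Q β c₀ q a B hF hC hL hQ hq hB ha hn hm f hf I₀ hI₀
  classical
  by_contra hcon
  push Not at hcon
  obtain ⟨I, hII, hIc⟩ := Finset.exists_subset_card_eq hcon
  have hI : ∀ i ∈ I, i < n ∧ Mxd G f (K i) := fun i hi => hI₀ i (hII hi)
  have hef : ∀ s, ∀ i < n, e s i ∈ K i := fun s i hi => hC.sub i hi ⟨s, rfl⟩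
  -- the claim
  have key : ∀ h, FF G n e K Q h → h ≠ f → ∀ i ∈ I, Cpl G h (K i) := by
    intro h hh hne
    set I1 := I.filter fun i => ¬ Fu G e f i with hI1
    set I2 := I.filter fun i => ¬ Fu G e h i with hI2
    have c1 : I1.card ≤ 1 := Cd_fm hf.2.2 (fun i hi => (hI i (Finset.mem_filter.1 hi).1).1)
      fun i hi => (Finset.mem_filter.1 hi).2
    have c2 : I2.card ≤ 1 := Cd_fm hh.2.2 (fun i hi => (hI i (Finset.mem_filter.1 hi).1).1)
      fun i hi => (Finset.mem_filter.1 hi).2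
    set I' := I \ (I1 ∪ I2) with hI'
    have hI'm : ∀ i ∈ I', i ∈ I ∧ Fu G e f i ∧ Fu G e h i := by
      intro i hi
      rw [hI', Finset.mem_sdiff, Finset.mem_union, hI1, hI2, Finset.mem_filter,
        Finset.mem_filter] at hi
      obtain ⟨h1, h2⟩ := hi
      push Not at h2
      exact ⟨h1, h2.1 h1, h2.2 h1⟩
    have c3 : 12 ≤ I'.card := by
      have h1 := Finset.le_card_sdiff (I1 ∪ I2) I
      have h2 := Finset.card_union_le I1 I2
      rw [← hI'] at h1
      omega
    have c4 : (I'.filter fun i => ¬ Cpl G h (K i)).card ≤ 10 := by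
      refine hCa hCt hCs V G n K f h _ hF (fun h' => hne h'.symm) hC.con hC.ant
        (fun i hi => ⟨hf.2.1 i hi, hh.2.1 i hi⟩) ?_ ?_
      · intro i hi
        exact (hI i (hI'm i (Finset.mem_filter.1 hi).1).1).1
      · intro i hi
        obtain ⟨h1, h2⟩ := Finset.mem_filter.1 hi
        obtain ⟨h3, h4, h5⟩ := hI'm i h1
        exact ⟨⟨e false i, hef false i (hI i h3).1, h4 false, h5 false⟩, (hI i h3).2.1, h2⟩
    have c5 : 1 < (I'.filter fun i => Cpl G h (K i)).card := by
      have h1 := Finset.card_filter_add_card_filter_not (s := I') fun i => Cpl G h (K i)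
      omega
    obtain ⟨i, hi, j, hj, hij⟩ := Finset.one_lt_card.1 c5
    obtain ⟨hi1, hi2⟩ := Finset.mem_filter.1 hi
    obtain ⟨hj1, hj2⟩ := Finset.mem_filter.1 hj
    have hi3 := (hI'm i hi1).1
    have hj3 := (hI'm j hj1).1
    intro l hl
    by_cases hli : l = i
    · subst hli; exact hi2
    by_cases hlj : l = j
    · subst hlj; exact hj2
    obtain ⟨hin, hiM⟩ := hI i hi3
    obtain ⟨hjn, hjM⟩ := hI j hj3
    obtain ⟨hln, hlM⟩ := hI l hl
    rcases hCb V G f h (K i) (K j) (K l) hF (hC.con i hin) (hC.con j hjn) (hC.con l hln)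
      (hC.ant i hin j hjn hij) (hC.ant i hin l hln (Ne.symm hli))
      (hC.ant j hjn l hln (Ne.symm hlj)) (hf.2.1 i hin) (hf.2.1 j hjn) (hf.2.1 l hln)
      (hh.2.1 i hin) (hh.2.1 j hjn) (hh.2.1 l hln) hiM hjM hi2 hj2 with h1 | h1
    · exact h1
    · exact absurd h1 hlM.2
  -- the cut
  set X : Set V := ⋃ i ∈ I, K i with hX
  have hXm : ∀ x, x ∈ X ↔ ∃ i ∈ I, x ∈ K i := by
    intro x
    simp [hX]
  have hcr : LK.cr G X ≤ q + 2 := by
    set Y : Set V := Xᶜ \ (Q ∪ {f}) with hY
    have h1 : LK.rk G X Y ≤ 1 := by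
      refine rk_col G fun v hv => ?_
      have hvX : v ∉ X := hv.1
      have hvQ : v ∉ Q := fun h => hv.2 (Or.inl h)
      have hvf : v ≠ f := fun h => hv.2 (Or.inr h)
      by_cases hvK : ∃ j < n, v ∈ K j
      · obtain ⟨j, hj, hvj⟩ := hvK
        right
        intro x hx hxv
        obtain ⟨i, hi, hxi⟩ := (hXm x).1 hx
        have hij : i ≠ j := by
          rintro rfl
          exact hvX ((hXm v).2 ⟨i, hi, hvj⟩)
        exact (hC.ant i (hI i hi).1 j hj hij x hxi v hvj).2 hxv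
      · push Not at hvK
        rcases hC.out v hvQ hvK with h2 | h2
        · right
          intro x hx hxv
          obtain ⟨i, hi, hxi⟩ := (hXm x).1 hx
          exact h2 i (hI i hi).1 x hxi hxv.symm
        · left
          intro x hx
          obtain ⟨i, hi, hxi⟩ := (hXm x).1 hx
          exact (key v ⟨hvQ, hvK, h2⟩ hvf i hi x hxi).symm
    have h2 : LK.rk G X (Q ∪ {f}) ≤ q + 1 := by
      refine (rk_card_right G _ _).trans ((Set.ncard_union_le _ _).trans ?_)
      rw [Set.ncard_singleton]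
      omega
    have h3 : LK.cr G X ≤ LK.rk G X (Y ∪ (Q ∪ {f})) := by
      refine rk_mono G (Set.Subset.refl X) fun x hx => ?_
      by_cases h : x ∈ Q ∪ {f}
      · exact Or.inr h
      · exact Or.inl ⟨hx, h⟩
    have h4 := rk_union_right G X Y (Q ∪ {f})
    omega
  refine link_false hL hq hcr (hm I (fun i hi => (hI i hi).1) (by omega)) ?_
  have h1 := hm (Finset.range n \ I) (fun i hi => Finset.mem_range.1 (Finset.mem_sdiff.1 hi).1)
    (by
      have := Finset.le_card_sdiff I (Finset.range n)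
      rw [Finset.card_range] at this
      omega)
  refine h1.trans_le (Set.ncard_le_ncard ?_ (Set.toFinite _))
  intro x hx hxX
  simp only [Set.mem_iUnion] at hx
  obtain ⟨j, hj, hxj⟩ := hx
  obtain ⟨i, hi, hxi⟩ := (hXm x).1 hxX
  rw [Finset.mem_sdiff, Finset.mem_range] at hj
  have hij : i ≠ j := by
    rintro rfl
    exact hj.2 hi
  exact (hC.ant i (hI i hi).1 j hj.1 hij x hxi x hxj).1 rfl

end Pool.Agent.MPd439b2.H1R
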