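import Pool.Agent.Lib.MP_d439b2_co.X3.H1R.SpecQ

/-!
# MP_d439b2_co, X3/H1R/Ce: from `Cp` to `Cm`
-/

set_option autoImplicit false

namespace Pool.Agent.MPd439b2.H1R

open Pool.Agent.MPd439b2
open Pool.Agent.MPd439b2.Rep
open Pool.Agent.MPd439b2.NK
open Pool.Agent.MPd439b2.H1T

section

variable {V : Type} {G : SimpleGraph V} {k : ℕ} {e : Bool → ℕ → V} {W : Set V} {T : ℕ → Set V}

/-- `D` is a component of `T i \ Pr e i` -/
private def CeC (G : SimpleGraph V) (e : Bool → ℕ → V) (T : ℕ → Set V) (i : ℕ) (D : Set V) :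
    Prop := D ⊆ T i \ Pr e i ∧ Conn G D ∧ ∀ u ∈ T i \ Pr e i, u ∉ nb G D

private theorem CeC.sub {i : ℕ} {D : Set V} (h : CeC G e T i D) : D ⊆ T i :=
  fun _ hx => (h.1 hx).1

private theorem CeC.dp {i : ℕ} {D : Set V} (h : CeC G e T i D) : Disjoint D (Pr e i) :=
  Set.disjoint_left.2 fun _ hx hx' => (h.1 hx).2 hx'

private theorem CeC.tp (hT : Cp G k e W T) {i : ℕ} (hi : i < k) {D : Set V}
    (h : CeC G e T i D) : Tch G D (Pr e i) := by
  obtain ⟨b, hb, a, ha, hab⟩ := (hT.con i hi).2 D h.sub h.2.1.1 (by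
    rintro rfl
    exact (h.1 (hT.sub i hi (mem_Pr false i))).2 (mem_Pr false i))
  by_cases haP : a ∈ Pr e i
  · exact ⟨b, hb, a, haP, hab⟩
  · exact absurd ⟨ha.2, b, hb, hab⟩ (h.2.2 a ⟨ha.1, haP⟩)

/-- two components are equal or do not touch -/
private theorem CeC.eq {i : ℕ} {D D' : Set V} (h : CeC G e T i D) (h' : CeC G e T i D')
    (ht : (D ∩ D').Nonempty) : D = D' := by
  have h1 : Conn G (D ∪ D') := h.2.1.union h'.2.1 (Or.inl ht)
  have hsub : D ∪ D' ⊆ T i \ Pr e i := Set.union_subset h.1 h'.1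
  have h2 : D = D ∪ D' := h1.eq_of_nb Set.subset_union_left h.2.1.1
    fun v hv => h.2.2 v (hsub hv)
  have h3 : D' = D ∪ D' := h1.eq_of_nb Set.subset_union_right h'.2.1.1
    fun v hv => h'.2.2 v (hsub hv)
  exact h2.trans h3.symm

/-- the component of a vertex of `T i` which touches `T j` -/
private theorem CeC_ex (hT : Cp G k e W T) {i j : ℕ} (hi : i < k) (hj : j < k) (hij : i ≠ j)
    {x y : V} (hx : x ∈ T i) (hy : y ∈ T j) (hxy : G.Adj x y) :
    ∃ D, CeC G e T i D ∧ x ∈ D := by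
  have hxP : x ∉ Pr e i := by
    rintro ⟨s, rfl⟩
    exact hT.tn j hj i hi hij.symm y hy ⟨s, hxy.symm⟩
  obtain ⟨C, hC, hxC, hCc, hn⟩ := exists_comp G (show x ∈ T i \ Pr e i from ⟨hx, hxP⟩)
  exact ⟨C, ⟨hC, hCc, hn⟩, hxC⟩

private theorem CeC_act (hT : Cp G k e W T) {i j : ℕ} (hi : i < k) (hj : j < k) (hij : i ≠ j) :
    ∃ D, CeC G e T i D ∧ Tch G D (T j) := by
  obtain ⟨x, hx, y, hy, hxy⟩ := hT.tt i hi j hj hij
  obtain ⟨D, hD, hxD⟩ := CeC_ex hT hi hj hij hx hy hxy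
  exact ⟨D, hD, x, hxD, y, hy, hxy⟩

private theorem Ce_tn (hT : Cp G k e W T) {i j : ℕ} (hi : i < k) (hj : j < k) (hij : i ≠ j) :
    ¬ Tch G (T i) (Pr e j) := by
  intro h
  obtain ⟨u, hu, h1⟩ := tch_Pr.1 h
  exact hT.tn i hi j hj hij u hu h1

/-- choice of further indices -/
private theorem Ce_pick (hk : 6 ≤ k) (i j l : ℕ) : ∃ a < k, ∃ b < k, ∃ c < k,
    (a ≠ i ∧ a ≠ j ∧ a ≠ l) ∧ (b ≠ i ∧ b ≠ j ∧ b ≠ l) ∧ (c ≠ i ∧ c ≠ j ∧ c ≠ l) ∧
    a ≠ b ∧ a ≠ c ∧ b ≠ c := by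
  classical
  have h1 : 2 < ((Finset.range k) \ {i, j, l}).card := by
    have h2 := Finset.le_card_sdiff {i, j, l} (Finset.range k)
    have h3 := Finset.card_le_three (a := i) (b := j) (c := l)
    rw [Finset.card_range] at h2
    omega
  obtain ⟨a, ha, b, hb, c, hc, hab, hac, hbc⟩ := Finset.two_lt_card.1 h1
  simp only [Finset.mem_sdiff, Finset.mem_range, Finset.mem_insert, Finset.mem_singleton,
    not_or] at ha hb hc
  exact ⟨a, ha.1, b, hb.1, c, hc.1, ha.2, hb.2, hc.2, hab, hac, hbc⟩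

private theorem Ce_claim (hG : FH G) (hL : Lt G k e) (hk : 6 ≤ k) (hT : Cp G k e W T) {i a b : ℕ}
    (hi : i < k) (ha : a < k) (hb : b < k) (hai : a ≠ i) (hbi : b ≠ i) {D D' : Set V}
    (hD : CeC G e T i D) (hD' : CeC G e T i D') (hne : D ≠ D') (hDa : Tch G D (T a))
    (hDb : Tch G D' (T b)) : a = b := by
  by_contra hab
  obtain ⟨c, hc, l, hl, m, hm, ⟨hci, hca, hcb⟩, ⟨hli, hla, hlb⟩, ⟨hmi, hma, hmb⟩, hcl, hcm, hlm⟩ :=
    Ce_pick hk i a b
  obtain ⟨E, hE, hEa⟩ := CeC_act hT hl ha hla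
  obtain ⟨F, hF, hFc⟩ := CeC_act hT hm hc hcm.symm
  have hDD : Disjoint D D' := by
    rw [Set.disjoint_iff_inter_eq_empty]
    by_contra h
    exact hne (hD.eq hD' (Set.nonempty_iff_ne_empty.2 h))
  set X : ℕ → Set V := fun n => match n with
    | 0 => D | 1 => T a | 2 => E | 3 => T c | 4 => F | 5 => D' | 6 => T b | 7 => Pr e l
    | 8 => Pr e m | _ => Pr e i with hX
  have sD := hD.sub
  have sD' := hD'.sub
  have sE := hE.sub
  have sF := hF.sub
  have pl := hT.sub l hl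
  have pm := hT.sub m hm
  have pi := hT.sub i hi
  have dis : ∀ {x y : ℕ} {A B : Set V}, x < k → y < k → x ≠ y → A ⊆ T x → B ⊆ T y →
      Disjoint A B := fun hx hy hxy hA hB => (hT.dis _ hx _ hy hxy).mono hA hB
  have ntc : ∀ {x y : ℕ} {A : Set V}, x < k → y < k → x ≠ y → A ⊆ T x →
      ¬ Tch G A (Pr e y) := fun hx hy hxy hA h =>
    Ce_tn hT hx hy hxy (h.mono hA (Set.Subset.refl _))
  refine engS hG X [[0, 1, 2], [3, 4], [5, 6], [7], [8], [9]]
    [(0, 1), (1, 2), (3, 4), (5, 6), (1, 3), (1, 6), (3, 6), (2, 7), (4, 8), (0, 9), (5, 9)]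
    [(3, 7), (4, 7), (5, 7), (6, 7), (0, 8), (1, 8), (2, 8), (5, 8), (6, 8), (3, 9), (4, 9),
      (7, 8), (7, 9), (8, 9)]
    [(0, 3), (0, 4), (0, 5), (0, 6), (0, 7), (0, 8), (0, 9), (1, 3), (1, 4), (1, 5), (1, 6),
      (1, 7), (1, 8), (1, 9), (2, 3), (2, 4), (2, 5), (2, 6), (2, 7), (2, 8), (2, 9), (3, 5),
      (3, 6), (3, 7), (3, 8), (3, 9), (4, 5), (4, 6), (4, 7), (4, 8), (4, 9), (5, 7), (5, 8),
      (5, 9), (6, 7), (6, 8), (6, 9), (7, 8), (7, 9), (8, 9)] ?_ ?_ ?_ ?_ (by decide)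
  · intro L hL' j hj
    have h0 : ∀ n, Conn G (X n) := by
      intro n
      rcases n with _ | _ | _ | _ | _ | _ | _ | _ | _ | n
      · exact hD.2.1
      · exact hT.con a ha
      · exact hE.2.1
      · exact hT.con c hc
      · exact hF.2.1
      · exact hD'.2.1
      · exact hT.con b hb
      · exact hL.conn hl
      · exact hL.conn hm
      · exact hL.conn hi
    exact h0 j
  · intro p hp
    simp only [List.mem_cons, List.not_mem_nil, or_false] at hp
    rcases hp with rfl | rfl | rfl | rfl | rfl | rfl | rfl | rfl | rfl | rfl | rfl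
    · exact hDa
    · exact hEa.symm
    · exact hFc.symm
    · exact hDb
    · exact hT.tt a ha c hc (Ne.symm hca)
    · exact hT.tt a ha b hb hab
    · exact hT.tt c hc b hb hcb
    · exact hE.tp hT hl
    · exact hF.tp hT hm
    · exact hD.tp hT hi
    · exact hD'.tp hT hi
  · intro p hp
    simp only [List.mem_cons, List.not_mem_nil, or_false] at hp
    rcases hp with rfl | rfl | rfl | rfl | rfl | rfl | rfl | rfl | rfl | rfl | rfl | rfl | rfl | rfl
    · exact Ce_tn hT hc hl hcl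
    · exact ntc hm hl hlm.symm sF
    · exact ntc hi hl (Ne.symm hli) sD'
    · exact Ce_tn hT hb hl (Ne.symm hlb)
    · exact ntc hi hm (Ne.symm hmi) sD
    · exact Ce_tn hT ha hm (Ne.symm hma)
    · exact ntc hl hm hlm sE
    · exact ntc hi hm (Ne.symm hmi) sD'
    · exact Ce_tn hT hb hm (Ne.symm hmb)
    · exact Ce_tn hT hc hi hci
    · exact ntc hm hi hmi sF
    · exact hL.ntch hl hm hlm
    · exact hL.ntch hl hi hli
    · exact hL.ntch hm hi hmi
  · intro p hp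
    simp only [List.mem_cons, List.not_mem_nil, or_false] at hp
    rcases hp with rfl | rfl | rfl | rfl | rfl | rfl | rfl | rfl | rfl | rfl | rfl | rfl | rfl |
      rfl | rfl | rfl | rfl | rfl | rfl | rfl | rfl | rfl | rfl | rfl | rfl | rfl | rfl | rfl |
      rfl | rfl | rfl | rfl | rfl | rfl | rfl | rfl | rfl | rfl | rfl | rfl
    · exact dis hi hc (Ne.symm hci) sD (Set.Subset.refl _)
    · exact dis hi hm (Ne.symm hmi) sD sF
    · exact hDD
    · exact dis hi hb (Ne.symm hbi) sD (Set.Subset.refl _)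
    · exact dis hi hl (Ne.symm hli) sD pl
    · exact dis hi hm (Ne.symm hmi) sD pm
    · exact hD.dp
    · exact dis ha hc (Ne.symm hca) (Set.Subset.refl _) (Set.Subset.refl _)
    · exact dis ha hm (Ne.symm hma) (Set.Subset.refl _) sF
    · exact dis ha hi hai (Set.Subset.refl _) sD'
    · exact dis ha hb hab (Set.Subset.refl _) (Set.Subset.refl _)
    · exact dis ha hl (Ne.symm hla) (Set.Subset.refl _) pl
    · exact dis ha hm (Ne.symm hma) (Set.Subset.refl _) pm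
    · exact dis ha hi hai (Set.Subset.refl _) pi
    · exact dis hl hc hcl.symm sE (Set.Subset.refl _)
    · exact dis hl hm hlm sE sF
    · exact dis hl hi hli sE sD'
    · exact dis hl hb hlb sE (Set.Subset.refl _)
    · exact hE.dp
    · exact dis hl hm hlm sE pm
    · exact dis hl hi hli sE pi
    · exact dis hc hi hci (Set.Subset.refl _) sD'
    · exact dis hc hb hcb (Set.Subset.refl _) (Set.Subset.refl _)
    · exact dis hc hl hcl (Set.Subset.refl _) pl
    · exact dis hc hm hcm (Set.Subset.refl _) pm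
    · exact dis hc hi hci (Set.Subset.refl _) pi
    · exact dis hm hi hmi sF sD'
    · exact dis hm hb hmb sF (Set.Subset.refl _)
    · exact dis hm hl hlm.symm sF pl
    · exact hF.dp
    · exact dis hm hi hmi sF pi
    · exact dis hi hl (Ne.symm hli) sD' pl
    · exact dis hi hm (Ne.symm hmi) sD' pm
    · exact hD'.dp
    · exact dis hb hl (Ne.symm hlb) (Set.Subset.refl _) pl
    · exact dis hb hm (Ne.symm hmb) (Set.Subset.refl _) pm
    · exact dis hb hi hbi (Set.Subset.refl _) pi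
    · exact hL.dis hl hm hlm
    · exact hL.dis hl hi hli
    · exact hL.dis hm hi hmi

end

theorem rCe : S_Ce := by
  intro V _ G k e W T hG hL hk hT
  have hex : ∀ i : ℕ, ∃ D : Set V, i < k → CeC G e T i D ∧ (∀ j < k, j ≠ i → Tch G D (T j)) ∧
      ∀ D', CeC G e T i D' → ∀ j < k, j ≠ i → Tch G D' (T j) → D' = D := by
    intro i
    by_cases hi : i < k
    · obtain ⟨a, ha, -, -, -, -, ⟨hai, -, -⟩, -, -, -, -, -⟩ := Ce_pick hk i i i
      obtain ⟨D, hD, hDa⟩ := CeC_act hT hi ha (Ne.symm hai)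
      have h1 : ∀ j < k, j ≠ i → Tch G D (T j) := by
        intro j hj hji
        by_cases hja : j = a
        · rw [hja]; exact hDa
        obtain ⟨D', hD', hDj⟩ := CeC_act hT hi hj (Ne.symm hji)
        by_cases h : D = D'
        · rw [h]; exact hDj
        · exact absurd (Ce_claim hG hL hk hT hi ha hj hai hji hD hD' h hDa hDj).symm hja
      refine ⟨D, fun _ => ⟨hD, h1, ?_⟩⟩
      intro D' hD' j hj hji hDj
      by_contra hne
      obtain ⟨c, hc, -, -, -, -, ⟨hci, hcj, -⟩, -, -, -, -, -⟩ := Ce_pick hk i j j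
      exact hcj (Ce_claim hG hL hk hT hi hj hc hji hci hD' hD hne hDj (h1 c hc hci)).symm
    · exact ⟨∅, fun h => absurd h hi⟩
  choose D hD using hex
  have hsub : ∀ i < k, D i ⊆ T i := fun i hi => (hD i hi).1.sub
  refine ⟨D, ?_, ?_, ?_, ?_, ?_, ?_, ?_⟩
  · intro i hi x hx
    exact hT.R i hi x (hsub i hi hx)
  · intro i hi
    exact (hD i hi).1.2.1
  · intro i hi j hj hij
    exact (hT.dis i hi j hj hij).mono (hsub i hi) (hsub j hj)
  · intro i hi j hj hij
    obtain ⟨x, hx, y, hy, hxy⟩ := (hD i hi).2.1 j hj (Ne.symm hij)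
    obtain ⟨D', hD', hyD'⟩ := CeC_ex hT hj hi (Ne.symm hij) hy (hsub i hi hx) hxy.symm
    have h1 := (hD j hj).2.2 D' hD' i hi hij ⟨y, hyD', x, hsub i hi hx, hxy.symm⟩
    exact ⟨x, hx, y, h1 ▸ hyD', hxy⟩
  · intro i hi
    exact tch_Pr.1 ((hD i hi).1.tp hT hi)
  · intro i hi j hj hij x hx
    exact hT.tn i hi j hj hij x (hsub i hi hx)
  · intro i hi j hj x hx s h
    by_cases hij : i = j
    · subst hij
      exact ((hD i hi).1.1 hx).2 ⟨s, h⟩
    · exact Set.disjoint_left.1 (hT.dis i hi j hj hij) (hsub i hi hx) (hT.sub j hj ⟨s, h⟩)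

end Pool.Agent.MPd439b2.H1R
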