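import Pool.Agent.Lib.MP_d439b2_co.X3.H1R.SpecC

/-!
# MP_d439b2_co, X3/H1R/Ce1: cells on which no vertex `FF` is mixed, large cells
-/

set_option autoImplicit false

namespace Pool.Agent.MPd439b2.H1R

open Pool.Agent.MPd439b2
open Pool.Agent.MPd439b2.Rep
open Pool.Agent.MPd439b2.NK
open Pool.Agent.MPd439b2.H1T

theorem rCe1 : S_Ce1 := by
  intro V _ G n e K Q β c₀ q hP hL hQ hc hn hK i hi
  by_contra hcon
  push Not at hcon
  have hcr : LK.cr G (K i) ≤ q + 1 := by
    show LK.rk G (K i) (K i)ᶜ ≤ q + 1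
    have h1 : (K i)ᶜ ⊆ Q ∪ ((K i)ᶜ \ Q) := by
      intro x hx
      by_cases h : x ∈ Q
      · exact Or.inl h
      · exact Or.inr ⟨hx, h⟩
    have h2 : LK.rk G (K i) ((K i)ᶜ \ Q) ≤ 1 := by
      refine rk_col G fun b hb => ?_
      by_cases h3 : ∃ j < n, b ∈ K j
      · obtain ⟨j, hj, hbj⟩ := h3
        have hij : i ≠ j := fun h => hb.1 (h ▸ hbj)
        exact Or.inr fun a ha => (hP.ant i hi j hj hij a ha b hbj).2
      · push Not at h3
        rcases hP.out b hb.2 h3 with h4 | h4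
        · exact Or.inr fun a ha h5 => h4 i hi a ha h5.symm
        · have h5 := hcon b ⟨hb.2, h3, h4⟩
          by_cases h6 : Cpl G b (K i)
          · exact Or.inl fun a ha => (h6 a ha).symm
          · by_cases h7 : Nul G b (K i)
            · exact Or.inr fun a ha h8 => h7 a ha h8.symm
            · exact absurd ⟨h6, h7⟩ h5
    have h3 := rk_mono G (Set.Subset.refl (K i)) h1
    have h4 := rk_union_right G (K i) Q ((K i)ᶜ \ Q)
    have h5 := rk_card_right G (K i) Q
    omega
  obtain ⟨j, hj, hji⟩ : ∃ j < n, j ≠ i := by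
    by_cases h : i = 0
    · exact ⟨1, by omega, by omega⟩
    · exact ⟨0, by omega, by omega⟩
  refine link_false hL hc hcr (hK i hi) (lt_of_lt_of_le (hK j hj) ?_)
  refine Set.ncard_le_ncard (fun x hx hxi => ?_) (Set.toFinite _)
  exact (hP.ant j hj i hi hji x hx x hxi).1 rfl

end Pool.Agent.MPd439b2.H1R
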