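import Pool.Agent.Lib.MP_d439b2_co.X3.H1R.SpecC

/-!
# MP_d439b2_co, X3/H1R, Ce2: cells on which no vertex `FF` is mixed, many cells
-/

set_option autoImplicit false

namespace Pool.Agent.MPd439b2.H1R

open Pool.Agent.MPd439b2 Pool.Agent.MPd439b2.Rep Pool.Agent.MPd439b2.NK Pool.Agent.MPd439b2.H1T

namespace Ce2Aux

/-- two further elements of a set with at least three elements -/
theorem two {I : Finset ℕ} {l : ℕ} (h : 3 ≤ I.card) : ∃ i ∈ I, ∃ j ∈ I, i ≠ l ∧ j ≠ l ∧ i ≠ j := by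
  classical
  have h1 : 2 ≤ (I.erase l).card := by
    have := Finset.pred_card_le_card_erase (s := I) (a := l)
    omega
  obtain ⟨i, hi, j, hj, hij⟩ := Finset.one_lt_card.1 (show 1 < (I.erase l).card by omega)
  exact ⟨i, Finset.mem_of_mem_erase hi, j, Finset.mem_of_mem_erase hj, Finset.ne_of_mem_erase hi,
    Finset.ne_of_mem_erase hj, hij⟩

variable {V : Type} {G : SimpleGraph V} {n : ℕ} {e : Bool → ℕ → V} {K : ℕ → Set V} {Q : Set V}

theorem mem (h : CP G n e K Q) {i : ℕ} (hi : i < n) (s : Bool) : e s i ∈ K i := h.sub i hi ⟨s, rfl⟩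

theorem two_le [Finite V] (h : CP G n e K Q) {i : ℕ} (hi : i < n) : 2 ≤ (K i).ncard :=
  (Set.one_lt_ncard (Set.toFinite _)).2 ⟨_, mem h hi false, _, mem h hi true, h.lt.ft hi false⟩

/-- a vertex which is mixed on a cell and neither in the cell nor `FF` is in `Q` -/
theorem inQ (h : CP G n e K Q) {i : ℕ} (hi : i < n)
    (hI : ¬ ∃ f, FF G n e K Q f ∧ Mxd G f (K i)) {v : V} (hv : v ∉ K i) (h1 : ∃ x ∈ K i, G.Adj v x)
    (h2 : ∃ y ∈ K i, ¬ G.Adj v y) : v ∈ Q := by
  by_contra hQ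
  obtain ⟨x, hx, hvx⟩ := h1
  obtain ⟨y, hy, hvy⟩ := h2
  by_cases h3 : ∃ j < n, v ∈ K j
  · obtain ⟨j, hj, hvj⟩ := h3
    have hji : j ≠ i := fun h4 => hv (h4 ▸ hvj)
    exact (h.ant j hj i hi hji v hvj x hx).2 hvx
  · push Not at h3
    rcases h.out v hQ h3 with h4 | h4
    · exact h4 i hi x hx hvx
    · exact hI ⟨v, ⟨hQ, h3, h4⟩, fun h5 => hvy (h5 y hy), fun h5 => h5 x hx hvx⟩

end Ce2Aux

open Ce2Aux in
/-- **Ce2.** -/
theorem rCe2 : S_Ce2 := by
  classical
  intro hCb V _ G n e K Q β c₀ q a B hG hPm hC hL hQ hq hB ha hn hm I hI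
  by_contra hcon
  push Not at hcon
  -- the vertices `v i`
  have hv : ∀ i ∈ I, ∃ v, v ∈ Q ∧ Mxd G v (K i) := by
    intro i hi
    obtain ⟨hin, hFF⟩ := hI i hi
    have h2 : 2 ≤ (K i)ᶜ.ncard := by
      obtain ⟨j, hj, hji⟩ : ∃ j < n, j ≠ i := by
        by_cases h : i = 0
        · exact ⟨1, by omega, by omega⟩
        · exact ⟨0, by omega, by omega⟩
      refine (two_le hC hj).trans (Set.ncard_le_ncard (fun x hx hxi => ?_) (Set.toFinite _))
      exact (hC.ant j hj i hin hji x hx x hxi).1 rfl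
    obtain ⟨v, hvK, h3, h4⟩ := hPm (K i) (two_le hC hin) h2
    refine ⟨v, inQ hC hin hFF hvK h3 h4, ?_, ?_⟩
    · intro h5
      obtain ⟨y, hy, hvy⟩ := h4
      exact hvy (h5 y hy)
    · intro h5
      obtain ⟨x, hx, hvx⟩ := h3
      exact h5 x hx hvx
  have hne : Nonempty V := ⟨e false 0⟩
  choose! v hvQ hvM using hv
  -- pigeonhole
  obtain ⟨w, hwQ, hwc⟩ := Finset.exists_lt_card_fiber_of_mul_lt_card_of_maps_to
    (s := I) (t := (Set.toFinite Q).toFinset) (f := v) (n := B)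
    (fun i hi => (Set.Finite.mem_toFinset _).2 (hvQ i hi)) (by
      rw [← Set.ncard_eq_toFinset_card Q]
      exact lt_of_le_of_lt (Nat.mul_le_mul_right B hQ) hcon)
  rw [Set.Finite.mem_toFinset] at hwQ
  obtain ⟨J, hJ, hJc⟩ := Finset.exists_subset_card_eq hwc.le
  have hJI : ∀ i ∈ J, i ∈ I := fun i hi => (Finset.mem_filter.1 (hJ hi)).1
  have hJn : ∀ i ∈ J, i < n := fun i hi => (hI i (hJI i hi)).1
  have hwM : ∀ i ∈ J, Mxd G w (K i) := by
    intro i hi
    have h1 := hvM i (hJI i hi)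
    rwa [(Finset.mem_filter.1 (hJ hi)).2] at h1
  have hwK : ∀ i < n, w ∉ K i := fun i hi h => Set.disjoint_left.1 (hC.kq i hi) h hwQ
  -- every vertex `FF` is complete to the cells
  have key : ∀ h, FF G n e K Q h → ∀ l ∈ J, Cpl G h (K l) := by
    intro h hh l hl
    have hdi : ∀ i ∈ J, Cpl G h (K i) ∨ Nul G h (K i) := by
      intro i hi
      by_contra h1
      push Not at h1
      exact (hI i (hJI i hi)).2 ⟨h, hh, h1⟩
    rcases hdi l hl with h1 | h1
    · exact h1
    · exfalso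
      obtain ⟨i, hi, j, hj, hil, hjl, hij⟩ := two (l := l) (by omega : 3 ≤ J.card)
      have hcp : ∀ i ∈ J, i ≠ l → Cpl G h (K i) := by
        intro i hi hil
        rcases hdi i hi with h2 | h2
        · exact h2
        · exfalso
          rcases hh.2.2 i (hJn i hi) l (hJn l hl) hil with h3 | h3
          · exact h2 _ (mem hC (hJn i hi) false) (h3 false)
          · exact h1 _ (mem hC (hJn l hl) false) (h3 false)
      rcases hCb V G w h (K i) (K j) (K l) hG (hC.con i (hJn i hi)) (hC.con j (hJn j hj))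
        (hC.con l (hJn l hl)) (hC.ant i (hJn i hi) j (hJn j hj) hij)
        (hC.ant i (hJn i hi) l (hJn l hl) hil) (hC.ant j (hJn j hj) l (hJn l hl) hjl)
        (hwK i (hJn i hi)) (hwK j (hJn j hj)) (hwK l (hJn l hl)) (hh.2.1 i (hJn i hi))
        (hh.2.1 j (hJn j hj)) (hh.2.1 l (hJn l hl)) (hwM i hi) (hwM j hj) (hcp i hi hil)
        (hcp j hj hjl) with h2 | h2
      · exact h1 _ (mem hC (hJn l hl) false) (h2 _ (mem hC (hJn l hl) false))
      · exact (hwM l hl).2 h2
  -- the cut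
  have hcr : LK.cr G (⋃ i ∈ J, K i) ≤ q + 1 := by
    set X : Set V := ⋃ i ∈ J, K i with hX
    have h1 : LK.rk G X (Q ∪ (Xᶜ \ Q)) ≤ q + 1 := by
      refine (rk_union_right G X Q (Xᶜ \ Q)).trans (Nat.add_le_add ?_ ?_)
      · exact (rk_card_right G X Q).trans hQ
      · refine rk_col G fun b hb => ?_
        obtain ⟨hbX, hbQ⟩ := hb
        have hbX' : ∀ i ∈ J, b ∉ K i := fun i hi h => hbX (Set.mem_biUnion hi h)
        by_cases h3 : ∃ j < n, b ∈ K j
        · right
          obtain ⟨j, hj, hbj⟩ := h3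
          intro x hx hxb
          obtain ⟨i, hi, hxi⟩ := Set.mem_iUnion₂.1 hx
          have hij : i ≠ j := fun h => hbX' i hi (h ▸ hbj)
          exact (hC.ant i (hJn i hi) j hj hij x hxi b hbj).2 hxb
        · push Not at h3
          rcases hC.out b hbQ h3 with h4 | h4
          · right
            intro x hx hxb
            obtain ⟨i, hi, hxi⟩ := Set.mem_iUnion₂.1 hx
            exact h4 i (hJn i hi) x hxi hxb.symm
          · left
            intro x hx
            obtain ⟨i, hi, hxi⟩ := Set.mem_iUnion₂.1 hx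
            exact (key b ⟨hbQ, h3, h4⟩ i hi x hxi).symm
    refine le_trans (rk_mono G (Set.Subset.refl X) fun x hx => ?_) h1
    by_cases hxQ : x ∈ Q
    · exact Or.inl hxQ
    · exact Or.inr ⟨hx, hxQ⟩
  refine link_false hL hq hcr (hm J hJn (by omega)) ?_
  have h5 := hm (Finset.range n \ J) (fun i hi => Finset.mem_range.1 (Finset.mem_sdiff.1 hi).1) (by
    have h6 := Finset.le_card_sdiff J (Finset.range n)
    rw [Finset.card_range] at h6
    omega)
  refine h5.trans_le (Set.ncard_le_ncard (fun x hx hxJ => ?_) (Set.toFinite _))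
  obtain ⟨i, hi, hxi⟩ := Set.mem_iUnion₂.1 hx
  obtain ⟨j, hj, hxj⟩ := Set.mem_iUnion₂.1 hxJ
  rw [Finset.mem_sdiff, Finset.mem_range] at hi
  have hij : i ≠ j := fun h => hi.2 (h ▸ hj)
  exact (hC.ant i hi.1 j (hJn j hj) hij x hxi x hxj).1 rfl

end Pool.Agent.MPd439b2.H1R
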