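import Pool.Agent.Lib.MP_d439b2_co.X3.H1R.SpecC

/-! # MP_d439b2_co, X3/H1R: an independent family of private vertices (`rCf`) (helper99) -/

set_option autoImplicit false

namespace Pool.Agent.MPd439b2.H1R

open Pool.Agent.MPd439b2
open Pool.Agent.MPd439b2.Rep
open Pool.Agent.MPd439b2.NK
open Pool.Agent.MPd439b2.H1T

theorem rCf : S_Cf := by
  classical
  intro hDig V G n e K Q B m I hCP hmx hI hcard
  let f : ℕ → V := fun i => if h : i ∈ I then (hI i h).2.choose else e false 0
  have hf : ∀ i ∈ I, FF G n e K Q (f i) ∧ Mxd G (f i) (K i) := by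
    intro i hi
    have h1 : f i = (hI i hi).2.choose := dif_pos hi
    rw [h1]
    exact (hI i hi).2.choose_spec
  obtain ⟨J, hJI, hJc, hJ⟩ := hDig B m I (fun i j => ¬ Cpl G (f i) (K j)) (by
    intro i hi J hJI hJ
    have h1 : (J.filter fun j => Mxd G (f i) (K j)).card < B := by
      refine hmx (f i) (hf i hi).1 _ fun j hj => ?_
      rw [Finset.mem_filter] at hj
      exact ⟨(hI j (hJI hj.1)).1, hj.2⟩
    have h2 : (J.filter fun j => Nul G (f i) (K j)).card ≤ 1 := by
      rw [Finset.card_le_one]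
      intro j hj l hl
      rw [Finset.mem_filter] at hj hl
      by_contra hjl
      have hjn := (hI j (hJI hj.1)).1
      have hln := (hI l (hJI hl.1)).1
      rcases (hf i hi).1.2.2 j hjn l hln hjl with h3 | h3
      · exact hj.2 _ (hCP.sub j hjn (mem_Pr false j)) (h3 false)
      · exact hl.2 _ (hCP.sub l hln (mem_Pr false l)) (h3 false)
    have h3 : J ⊆ (J.filter fun j => Mxd G (f i) (K j)) ∪ (J.filter fun j => Nul G (f i) (K j)) := by
      intro j hj
      rw [Finset.mem_union, Finset.mem_filter, Finset.mem_filter]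
      by_cases h4 : Nul G (f i) (K j)
      · exact Or.inr ⟨hj, h4⟩
      · exact Or.inl ⟨hj, (hJ j hj).2, h4⟩
    have h4 := (Finset.card_le_card h3).trans (Finset.card_union_le _ _)
    omega) hcard
  exact ⟨J, f, hJI, hJc, fun i hi => hf i (hJI hi), fun i hi j hj hij =>
    not_not.1 (hJ i hi j hj hij)⟩

end Pool.Agent.MPd439b2.H1R
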