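import Pool.Agent.Lib.MP_d439b2_co.X3.H1R.SpecC

/-!
# MP_d439b2_co, X3/H1R/Cg: the vertices `FF` are complete to all cells of the subfamily except for at most one
-/

set_option autoImplicit false

namespace Pool.Agent.MPd439b2.H1R

open Pool.Agent.MPd439b2
open Pool.Agent.MPd439b2.Rep
open Pool.Agent.MPd439b2.NK
open Pool.Agent.MPd439b2.H1T

private theorem Cg_edge {V : Type} {G : SimpleGraph V} {f : V} {K : Set V} (hK : Conn G K)
    (h : Mxd G f K) : ∃ s ∈ K, ∃ t ∈ K, G.Adj s t ∧ G.Adj f s ∧ ¬ G.Adj f t := by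
  obtain ⟨h1, h2⟩ := h
  simp only [Cpl, Nul, not_forall, exists_prop, not_not] at h1 h2
  obtain ⟨x, hx, hfx⟩ := h1
  obtain ⟨y, hy, hfy⟩ := h2
  obtain ⟨s, hs, t, ht, hst⟩ := hK.2 {z | z ∈ K ∧ G.Adj f z} (fun z hz => hz.1) ⟨y, hy, hfy⟩
    (fun h3 => hfx (by
      have h4 : x ∈ {z | z ∈ K ∧ G.Adj f z} := by
        rw [h3]
        exact hx
      exact h4.2))
  exact ⟨s, hs.1, t, ht.1, hst, hs.2, fun h5 => ht.2 ⟨ht.1, h5⟩⟩

private theorem Cg_pick {J : Finset ℕ} (h : 5 ≤ J.card) (a b c : ℕ) :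
    ∃ l ∈ J, l ≠ a ∧ l ≠ b ∧ l ≠ c := by
  have h1 : ({a, b, c} : Finset ℕ).card < J.card := lt_of_le_of_lt Finset.card_le_three (by omega)
  obtain ⟨l, hl, h2⟩ := Finset.exists_mem_notMem_of_card_lt_card h1
  simp only [Finset.mem_insert, Finset.mem_singleton, not_or] at h2
  exact ⟨l, hl, h2⟩

theorem rCg : S_Cg := by
  intro hCb V G n e K Q J f hG hP hJ h5 hf hfc u hu
  have hmem : ∀ i ∈ J, ∀ s, e s i ∈ K i := fun i hi s => hP.sub i (hJ i hi) ⟨s, rfl⟩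
  -- not anticomplete to two cells
  have nn : ∀ i ∈ J, ∀ j ∈ J, i ≠ j → Nul G u (K i) → Nul G u (K j) → False := by
    intro i hi j hj hij h1 h2
    rcases hu.2.2 i (hJ i hi) j (hJ j hj) hij with h3 | h3
    · exact h1 _ (hmem i hi false) (h3 false)
    · exact h2 _ (hmem j hj false) (h3 false)
  have uK : ∀ i ∈ J, u ∉ K i := fun i hi => hu.2.1 i (hJ i hi)
  have fK : ∀ l ∈ J, ∀ i ∈ J, f l ∉ K i := fun l hl i hi => (hf l hl).1.2.1 i (hJ i hi)
  have ant : ∀ i ∈ J, ∀ j ∈ J, i ≠ j → ∀ x ∈ K i, ∀ y ∈ K j, x ≠ y ∧ ¬ G.Adj x y :=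
    fun i hi j hj hij => hP.ant i (hJ i hi) j (hJ j hj) hij
  have con : ∀ i ∈ J, Conn G (K i) := fun i hi => hP.con i (hJ i hi)
  -- mixed on at most one cell
  have mm : ∀ i ∈ J, ∀ j ∈ J, i ≠ j → Mxd G u (K i) → Mxd G u (K j) → False := by
    intro i hi j hj hij m1 m2
    have key : ∀ l ∈ J, l ≠ i → l ≠ j → Nul G u (K l) := by
      intro l hl hli hlj
      rcases hCb V G u (f l) (K i) (K j) (K l) hG (con i hi) (con j hj) (con l hl)
        (ant i hi j hj hij) (ant i hi l hl hli.symm) (ant j hj l hl hlj.symm) (uK i hi) (uK j hj)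
        (uK l hl) (fK l hl i hi) (fK l hl j hj) (fK l hl l hl) m1 m2 (hfc l hl i hi hli)
        (hfc l hl j hj hlj) with h1 | h1
      · exact absurd h1 (hf l hl).2.1
      · exact h1
    obtain ⟨l, hl, a1, a2, _⟩ := Cg_pick h5 i j j
    obtain ⟨l', hl', b1, b2, b3⟩ := Cg_pick h5 i j l
    exact nn l hl l' hl' b3.symm (key l hl a1 a2) (key l' hl' b1 b2)
  have mn : ∀ i ∈ J, ∀ j ∈ J, i ≠ j → Mxd G u (K i) → Nul G u (K j) → False := by
    intro i hi j hj hij m1 m2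
    obtain ⟨l, hl, a1, a2, _⟩ := Cg_pick h5 i j j
    have hul : Cpl G u (K l) := by
      by_contra h1
      by_cases h2 : Nul G u (K l)
      · exact nn l hl j hj a2 h2 m2
      · exact mm i hi l hl a1.symm m1 ⟨h1, h2⟩
    obtain ⟨si, hsi, ti, hti, q1, q2, q3⟩ := Cg_edge (con i hi) m1
    obtain ⟨sl, hsl, tl, htl, r1, r2, r3⟩ := Cg_edge (con l hl) (hf l hl).2
    obtain ⟨tj, htj⟩ := (con j hj).1
    refine engV hG (fun i => match i with
      | 0 => f l | 1 => sl | 2 => u | 3 => si | 4 => tj | 5 => tl | _ => ti)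
      [[0], [1, 2], [3], [4], [5], [6]]
      [(0, 1), (0, 3), (2, 3), (1, 2), (0, 4), (1, 5), (0, 6), (3, 6), (2, 5)]
      [(4, 1), (4, 2), (4, 3), (5, 0), (5, 3), (6, 1), (6, 2), (4, 5), (4, 6), (5, 6)] [] ?_ ?_ ?_
      (by decide +kernel)
    · simp only [List.forall_mem_cons, List.not_mem_nil, false_imp_iff, implies_true, and_true]
      exact ⟨r2, hfc l hl i hi a1 _ hsi, q2, (hul _ hsl).symm, hfc l hl j hj a2 _ htj, r1,
        hfc l hl i hi a1 _ hti, q1, hul _ htl⟩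
    · simp only [List.forall_mem_cons, List.not_mem_nil, false_imp_iff, implies_true, and_true]
      exact ⟨(ant j hj l hl a2.symm _ htj _ hsl).2, fun h' => m2 _ htj h'.symm,
        (ant j hj i hi hij.symm _ htj _ hsi).2, fun h' => r3 h'.symm,
        (ant l hl i hi a1 _ htl _ hsi).2, (ant i hi l hl a1.symm _ hti _ hsl).2,
        fun h' => q3 h'.symm, (ant j hj l hl a2.symm _ htj _ htl).2,
        (ant j hj i hi hij.symm _ htj _ hti).2, (ant l hl i hi a1 _ htl _ hti).2⟩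
    · simp
  intro i hi j hj hij
  by_contra hcon
  rw [not_or] at hcon
  obtain ⟨h1, h2⟩ := hcon
  by_cases h3 : Nul G u (K i) <;> by_cases h4 : Nul G u (K j)
  · exact nn i hi j hj hij h3 h4
  · exact mn j hj i hi hij.symm ⟨h2, h4⟩ h3
  · exact mn i hi j hj hij ⟨h1, h3⟩ h4
  · exact mm i hi j hj hij ⟨h1, h3⟩ ⟨h2, h4⟩

end Pool.Agent.MPd439b2.H1R
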