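import Pool.Agent.Lib.MP_d439b2_co.X3.H1R.SpecC

/-! # MP_d439b2_co, X3/H1R: the structure `CA` (`rCi`) (helper99) -/

set_option autoImplicit false

namespace Pool.Agent.MPd439b2.H1R

open Pool.Agent.MPd439b2
open Pool.Agent.MPd439b2.Rep
open Pool.Agent.MPd439b2.NK
open Pool.Agent.MPd439b2.H1T

variable {V : Type}

/-- an edge on which a mixed vertex changes -/
theorem Ci_edge {G : SimpleGraph V} {f : V} {K : Set V} (hK : Conn G K) (h : Mxd G f K) :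
    ∃ p : V × V, p.1 ∈ K ∧ p.2 ∈ K ∧ G.Adj p.1 p.2 ∧ G.Adj f p.1 ∧ ¬ G.Adj f p.2 := by
  obtain ⟨h1, h2⟩ := h
  obtain ⟨y, hy, hfy⟩ : ∃ y ∈ K, ¬ G.Adj f y := by
    by_contra hcon
    exact h1 fun x hx => by_contra fun h3 => hcon ⟨x, hx, h3⟩
  obtain ⟨x, hx, hfx⟩ : ∃ x ∈ K, G.Adj f x := by
    by_contra hcon
    exact h2 fun x hx h3 => hcon ⟨x, hx, h3⟩
  obtain ⟨a, ha, b, hb, hab⟩ := hK.2 {x | x ∈ K ∧ G.Adj f x} (fun x hx => hx.1) ⟨x, hx, hfx⟩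
    (fun h3 => hfy (by
      rw [← h3] at hy
      exact hy.2))
  exact ⟨(a, b), ha.1, hb.1, hab, ha.2, fun h3 => hb.2 ⟨hb.1, h3⟩⟩

theorem rCi : S_Ci := by
  classical
  intro V G n e K Q J f m hCP hJn hJc hf hfc hu
  let σ : ℕ → ℕ := fun i => if h : i < m then J.orderEmbOfFin hJc ⟨i, h⟩ else 0
  have hσ : ∀ i (h : i < m), σ i = J.orderEmbOfFin hJc ⟨i, h⟩ := fun i h => dif_pos h
  have hσJ : ∀ i < m, σ i ∈ J := by
    intro i hi
    rw [hσ i hi]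
    exact J.orderEmbOfFin_mem hJc _
  have hσi : ∀ i < m, ∀ j < m, σ i = σ j → i = j := by
    intro i hi j hj h
    rw [hσ i hi, hσ j hj] at h
    have h1 := (J.orderEmbOfFin hJc).injective h
    exact congrArg Fin.val h1
  have hσs : ∀ j ∈ J, ∃ i < m, σ i = j := by
    intro j hj
    have h1 : j ∈ Set.range (J.orderEmbOfFin hJc) := by
      rw [Finset.range_orderEmbOfFin]
      exact hj
    obtain ⟨⟨i, hi⟩, h2⟩ := h1
    exact ⟨i, hi, (hσ i hi).trans h2⟩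
  have hp : ∀ i, ∃ p : V × V, i < m → p.1 ∈ K (σ i) ∧ p.2 ∈ K (σ i) ∧ G.Adj p.1 p.2 ∧
      G.Adj (f (σ i)) p.1 ∧ ¬ G.Adj (f (σ i)) p.2 := by
    intro i
    by_cases hi : i < m
    · obtain ⟨p, hp⟩ := Ci_edge (hCP.con _ (hJn _ (hσJ i hi))) (hf _ (hσJ i hi)).2
      exact ⟨p, fun _ => hp⟩
    · exact ⟨(f 0, f 0), fun h => absurd h hi⟩
  choose p hp using hp
  refine ⟨σ, fun i => (p i).1, fun i => (p i).2, hσJ, hσi, ?_⟩
  refine ⟨?_, ?_, ?_, ?_, ?_, ?_, ?_⟩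
  · exact fun i hi => hCP.con _ (hJn _ (hσJ i hi))
  · exact fun i hi j hj hij => hCP.ant _ (hJn _ (hσJ i hi)) _ (hJn _ (hσJ j hj))
      fun h => hij (hσi i hi j hj h)
  · exact fun i hi => hCP.kq _ (hJn _ (hσJ i hi))
  · exact fun i hi => hp i hi
  · exact fun i hi => ⟨(hf _ (hσJ i hi)).1.1, fun j hj =>
      (hf _ (hσJ i hi)).1.2.1 _ (hJn _ (hσJ j hj))⟩
  · exact fun i hi j hj hij => hfc _ (hσJ i hi) _ (hσJ j hj) fun h => hij (hσi i hi j hj h)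
  · intro v hvQ hvK
    by_cases hv : ∃ j < n, v ∈ K j
    · obtain ⟨j, hj, hvj⟩ := hv
      left
      intro i hi x hx
      have hne : j ≠ σ i := by
        rintro rfl
        exact hvK i hi hvj
      exact (hCP.ant j hj (σ i) (hJn _ (hσJ i hi)) hne v hvj x hx).2
    · have hv' : ∀ j < n, v ∉ K j := fun j hj h => hv ⟨j, hj, h⟩
      rcases hCP.out v hvQ hv' with h | h
      · exact Or.inl fun i hi => h _ (hJn _ (hσJ i hi))
      · exact Or.inr fun i hi j hj hij => hu v ⟨hvQ, hv', h⟩ _ (hσJ i hi) _ (hσJ j hj)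
          fun h => hij (hσi i hi j hj h)

end Pool.Agent.MPd439b2.H1R
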