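import Pool.Agent.Lib.MP_d439b2_co.X3.H1R.SpecR

/-!
# MP_d439b2_co, X3/H1R/Cq: many components with elements of `S`, or a large one
-/

set_option autoImplicit false

namespace Pool.Agent.MPd439b2.H1R

open Pool.Agent.MPd439b2
open Pool.Agent.MPd439b2.Rep
open Pool.Agent.MPd439b2.NK
open Pool.Agent.MPd439b2.H1T

/-- components which meet -/
private theorem Cq_sub {V : Type} {G : SimpleGraph V} {Q K K' : Set V} (h : Cl G Q K)
    (h' : Cl G Q K') {z : V} (hz : z ∈ K) (hz' : z ∈ K') : K ⊆ K' := by
  have h1 : K ∩ K' = K := by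
    refine h.1.eq_of_nb Set.inter_subset_left ⟨z, hz, hz'⟩ ?_
    rintro v hv ⟨hv1, a, ha, hav⟩
    rcases h'.2.2 a ha.2 v hav with h2 | h2
    · exact hv1 ⟨hv, h2⟩
    · exact Set.disjoint_left.1 h.2.1 hv h2
  rw [← h1]
  exact Set.inter_subset_right

theorem rCq : S_Cq := by
  intro V _ G S D Q n M hd hc hn
  by_contra hcon
  rw [not_or] at hcon
  obtain ⟨h1, h2⟩ := hcon
  push Not at h2
  have key : ∀ m ≤ n, ∃ K : ℕ → Set V, (∀ i < m, Cl G Q (K i) ∧ K i ⊆ D ∧ (S ∩ K i).Nonempty) ∧
      ∀ i < m, ∀ j < m, i ≠ j → Disjoint (K i) (K j) := by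
    intro m
    induction m with
    | zero =>
      intro _
      exact ⟨fun _ => ∅, fun i hi => absurd hi (Nat.not_lt_zero i),
        fun i hi => absurd hi (Nat.not_lt_zero i)⟩
    | succ m ih =>
      intro hm
      obtain ⟨K, hK, hKd⟩ := ih (by omega)
      have h3 : ∃ x ∈ S ∩ D, ∀ i < m, x ∉ K i := by
        by_contra hcon
        push Not at hcon
        have h4 : S ∩ D ⊆ ⋃ i ∈ Finset.range m, (S ∩ K i) := by
          intro x hx
          obtain ⟨i, hi, hxi⟩ := hcon x hx
          exact Set.mem_iUnion₂.2 ⟨i, Finset.mem_range.2 hi, hx.1, hxi⟩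
        have h5 := Set.ncard_le_ncard h4 (Set.toFinite _)
        have h6 : (⋃ i ∈ Finset.range m, (S ∩ K i)).ncard ≤ ∑ i ∈ Finset.range m,
            (S ∩ K i).ncard := Finset.set_ncard_biUnion_le _ _
        have h7 : ∑ i ∈ Finset.range m, (S ∩ K i).ncard ≤ ∑ _i ∈ Finset.range m, M :=
          Finset.sum_le_sum fun i hi => by
            obtain ⟨a1, a2, _⟩ := hK i (Finset.mem_range.1 hi)
            exact h2 (K i) a1 a2
        rw [Finset.sum_const, Finset.card_range, smul_eq_mul] at h7
        have h8 : m * M ≤ n * M := Nat.mul_le_mul_right _ (by omega)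
        omega
      obtain ⟨x, hx, hxK⟩ := h3
      obtain ⟨C, hCD, hxC, hCc, hCn⟩ := exists_comp G hx.2
      have hCl : Cl G Q C := by
        refine ⟨hCc, Set.disjoint_of_subset_left hCD hd, fun u hu v huv => ?_⟩
        rcases hc u (hCD hu) v huv with h4 | h4
        · left
          by_contra h5
          exact hCn v h4 ⟨h5, u, hu, huv⟩
        · exact Or.inr h4
      have hdis : ∀ i < m, Disjoint C (K i) := by
        intro i hi
        rw [Set.disjoint_left]
        intro z hz hz'
        exact hxK i hi (Cq_sub hCl (hK i hi).1 hz hz' hxC)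
      refine ⟨fun i => if i < m then K i else C, fun i hi => ?_, fun i hi j hj hij => ?_⟩
      · by_cases h4 : i < m
        · simp only [if_pos h4]
          exact hK i h4
        · simp only [if_neg h4]
          exact ⟨hCl, hCD, x, hx.1, hxC⟩
      · by_cases h4 : i < m <;> by_cases h5 : j < m
        · simp only [if_pos h4, if_pos h5]
          exact hKd i h4 j h5 hij
        · simp only [if_pos h4, if_neg h5]
          exact (hdis i h4).symm
        · simp only [if_neg h4, if_pos h5]
          exact hdis j h5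
        · omega
  exact h1 (key n le_rfl)

end Pool.Agent.MPd439b2.H1R
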