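import Pool.Agent.Lib.MP_d439b2_co.X3.H1R.SpecC

/-!
# MP_d439b2_co, X3/H1R, Cs (helper69): three cells of the same type
-/

set_option autoImplicit false

namespace Pool.Agent.MPd439b2.H1R

open Pool.Agent.MPd439b2
open Pool.Agent.MPd439b2.Rep
open Pool.Agent.MPd439b2.NK
open Pool.Agent.MPd439b2.H1T

private theorem cs_s {V : Type} {G : SimpleGraph V} {f h : V} {K : ℕ → Set V} (hG : FH G)
    (hfh : f ≠ h)
    (hK : ∀ i < 3, ∀ j < 3, i ≠ j → ∀ x ∈ K i, ∀ y ∈ K j, x ≠ y ∧ ¬ G.Adj x y)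
    (ho : ∀ i < 3, f ∉ K i ∧ h ∉ K i) (hT : ∀ i < 3, TS G f h (K i)) : False := by
  obtain ⟨c₀, hc0, z₀, hz0, e0, fc0, hhc0, fz0, hhz0⟩ := hT 0 (by omega)
  obtain ⟨c₁, hc1, z₁, hz1, e1, fc1, hhc1, fz1, hhz1⟩ := hT 1 (by omega)
  obtain ⟨c₂, hc2, z₂, hz2, e2, fc2, hhc2, fz2, hhz2⟩ := hT 2 (by omega)
  have k01 := hK 0 (by omega) 1 (by omega) (by omega)
  have k02 := hK 0 (by omega) 2 (by omega) (by omega)
  have k12 := hK 1 (by omega) 2 (by omega) (by omega)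
  have nf : ∀ i < 3, ∀ x ∈ K i, f ≠ x := fun i hi x hx h' => (ho i hi).1 (h' ▸ hx)
  have nh : ∀ i < 3, ∀ x ∈ K i, h ≠ x := fun i hi x hx h' => (ho i hi).2 (h' ▸ hx)
  let x : ℕ → V := fun i => match i with
    | 0 => f | 1 => h | 2 => c₀ | 3 => c₁ | 4 => c₂ | 5 => z₀ | _ => z₁
  refine engV hG x [[0, 2], [3], [1], [5], [6], [4]]
    [(0, 2), (0, 3), (1, 2), (1, 3), (2, 5), (3, 6), (0, 4), (1, 4)]
    [(0, 6), (2, 6), (3, 5), (3, 4), (1, 5), (1, 6), (5, 6), (5, 4), (6, 4)]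
    [(0, 1), (0, 3), (0, 5), (0, 6), (0, 4), (2, 3), (2, 1), (2, 5), (2, 6), (2, 4), (3, 1), (3, 5),
      (3, 6), (3, 4), (1, 5), (1, 6), (1, 4), (5, 6), (5, 4), (6, 4)] ?_ ?_ ?_ (by decide)
  · intro p hp
    simp only [List.mem_cons, List.not_mem_nil, or_false] at hp
    rcases hp with rfl | rfl | rfl | rfl | rfl | rfl | rfl | rfl
    · exact fc0
    · exact fc1
    · exact hhc0
    · exact hhc1
    · exact e0
    · exact e1
    · exact fc2
    · exact hhc2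
  · intro p hp
    simp only [List.mem_cons, List.not_mem_nil, or_false] at hp
    rcases hp with rfl | rfl | rfl | rfl | rfl | rfl | rfl | rfl | rfl
    · exact fz1
    · exact (k01 _ hc0 _ hz1).2
    · exact fun h' => (k01 _ hz0 _ hc1).2 h'.symm
    · exact (k12 _ hc1 _ hc2).2
    · exact hhz0
    · exact hhz1
    · exact (k01 _ hz0 _ hz1).2
    · exact (k02 _ hz0 _ hc2).2
    · exact (k12 _ hz1 _ hc2).2
  · intro p hp
    simp only [List.mem_cons, List.not_mem_nil, or_false] at hp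
    rcases hp with rfl | rfl | rfl | rfl | rfl | rfl | rfl | rfl | rfl | rfl | rfl | rfl | rfl |
      rfl | rfl | rfl | rfl | rfl | rfl | rfl
    · exact hfh
    · exact nf 1 (by omega) _ hc1
    · exact nf 0 (by omega) _ hz0
    · exact nf 1 (by omega) _ hz1
    · exact nf 2 (by omega) _ hc2
    · exact (k01 _ hc0 _ hc1).1
    · exact (nh 0 (by omega) _ hc0).symm
    · exact e0.ne
    · exact (k01 _ hc0 _ hz1).1
    · exact (k02 _ hc0 _ hc2).1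
    · exact (nh 1 (by omega) _ hc1).symm
    · exact (k01 _ hz0 _ hc1).1.symm
    · exact e1.ne
    · exact (k12 _ hc1 _ hc2).1
    · exact nh 0 (by omega) _ hz0
    · exact nh 1 (by omega) _ hz1
    · exact nh 2 (by omega) _ hc2
    · exact (k01 _ hz0 _ hz1).1
    · exact (k02 _ hz0 _ hc2).1
    · exact (k12 _ hz1 _ hc2).1

private theorem cs_o {V : Type} {G : SimpleGraph V} {f h : V} {K : ℕ → Set V} (hG : FH G)
    (hfh : f ≠ h)
    (hK : ∀ i < 3, ∀ j < 3, i ≠ j → ∀ x ∈ K i, ∀ y ∈ K j, x ≠ y ∧ ¬ G.Adj x y)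
    (ho : ∀ i < 3, f ∉ K i ∧ h ∉ K i) (hT : ∀ i < 3, TO G f h (K i)) : False := by
  obtain ⟨c₀, hc0, z₀, hz0, y₀, hy0, e0, fc0, hhc0, fz0, hhz0, fy0, hhy0⟩ := hT 0 (by omega)
  obtain ⟨c₁, hc1, z₁, hz1, y₁, hy1, e1, fc1, hhc1, fz1, hhz1, fy1, hhy1⟩ := hT 1 (by omega)
  obtain ⟨c₂, hc2, z₂, hz2, y₂, hy2, e2, fc2, hhc2, fz2, hhz2, fy2, hhy2⟩ := hT 2 (by omega)
  have k01 := hK 0 (by omega) 1 (by omega) (by omega)
  have k02 := hK 0 (by omega) 2 (by omega) (by omega)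
  have k12 := hK 1 (by omega) 2 (by omega) (by omega)
  have nf : ∀ i < 3, ∀ x ∈ K i, f ≠ x := fun i hi x hx h' => (ho i hi).1 (h' ▸ hx)
  have nh : ∀ i < 3, ∀ x ∈ K i, h ≠ x := fun i hi x hx h' => (ho i hi).2 (h' ▸ hx)
  let x : ℕ → V := fun i => match i with
    | 0 => f | 1 => h | 2 => c₀ | 3 => c₁ | 4 => z₀ | 5 => y₂ | _ => z₁
  refine engV hG x [[0, 2], [1], [3], [4], [5], [6]]
    [(0, 2), (1, 2), (0, 3), (1, 3), (0, 4), (1, 5), (0, 6), (3, 6)]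
    [(0, 5), (2, 5), (1, 4), (1, 6), (3, 4), (3, 5), (4, 5), (4, 6), (5, 6)]
    [(0, 1), (0, 3), (0, 4), (0, 5), (0, 6), (2, 1), (2, 3), (2, 4), (2, 5), (2, 6), (1, 3), (1, 4),
      (1, 5), (1, 6), (3, 4), (3, 5), (3, 6), (4, 5), (4, 6), (5, 6)] ?_ ?_ ?_ (by decide)
  · intro p hp
    simp only [List.mem_cons, List.not_mem_nil, or_false] at hp
    rcases hp with rfl | rfl | rfl | rfl | rfl | rfl | rfl | rfl
    · exact fc0
    · exact hhc0
    · exact fc1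
    · exact hhc1
    · exact fz0
    · exact hhy2
    · exact fz1
    · exact e1
  · intro p hp
    simp only [List.mem_cons, List.not_mem_nil, or_false] at hp
    rcases hp with rfl | rfl | rfl | rfl | rfl | rfl | rfl | rfl | rfl
    · exact fy2
    · exact (k02 _ hc0 _ hy2).2
    · exact hhz0
    · exact hhz1
    · exact fun h' => (k01 _ hz0 _ hc1).2 h'.symm
    · exact (k12 _ hc1 _ hy2).2
    · exact (k02 _ hz0 _ hy2).2
    · exact (k01 _ hz0 _ hz1).2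
    · exact fun h' => (k12 _ hz1 _ hy2).2 h'.symm
  · intro p hp
    simp only [List.mem_cons, List.not_mem_nil, or_false] at hp
    rcases hp with rfl | rfl | rfl | rfl | rfl | rfl | rfl | rfl | rfl | rfl | rfl | rfl | rfl |
      rfl | rfl | rfl | rfl | rfl | rfl | rfl
    · exact hfh
    · exact nf 1 (by omega) _ hc1
    · exact nf 0 (by omega) _ hz0
    · exact nf 2 (by omega) _ hy2
    · exact nf 1 (by omega) _ hz1
    · exact (nh 0 (by omega) _ hc0).symm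
    · exact (k01 _ hc0 _ hc1).1
    · exact e0.ne
    · exact (k02 _ hc0 _ hy2).1
    · exact (k01 _ hc0 _ hz1).1
    · exact nh 1 (by omega) _ hc1
    · exact nh 0 (by omega) _ hz0
    · exact nh 2 (by omega) _ hy2
    · exact nh 1 (by omega) _ hz1
    · exact (k01 _ hz0 _ hc1).1.symm
    · exact (k12 _ hc1 _ hy2).1
    · exact e1.ne
    · exact (k02 _ hz0 _ hy2).1
    · exact (k01 _ hz0 _ hz1).1
    · exact (k12 _ hz1 _ hy2).1.symm

private theorem cs_t1 {V : Type} {G : SimpleGraph V} {a : V} {B : Set V} (h : ∃ b ∈ B, G.Adj a b) :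
    Tch G {a} B := by
  obtain ⟨b, hb, h⟩ := h
  exact ⟨a, rfl, b, hb, h⟩

private theorem cs_n1 {V : Type} {G : SimpleGraph V} {a : V} {B : Set V} (h : ∀ b ∈ B, ¬ G.Adj a b) :
    ¬ Tch G {a} B := by
  rintro ⟨x, hx, b, hb, h'⟩
  rw [Set.mem_singleton_iff] at hx
  subst hx
  exact h b hb h'

private theorem cs_n2 {V : Type} {G : SimpleGraph V} {a b : V} (h : ¬ G.Adj a b) :
    ¬ Tch G {a} {b} := by
  rintro ⟨x, hx, y, hy, h'⟩
  rw [Set.mem_singleton_iff] at hx hy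
  subst hx hy
  exact h h'

private theorem cs_d1 {V : Type} {a : V} {B : Set V} (h : a ∉ B) : Disjoint ({a} : Set V) B :=
  Set.disjoint_singleton_left.2 h

private theorem cs_p {V : Type} {G : SimpleGraph V} {f h : V} {K : ℕ → Set V} (hG : FH G)
    (hfh : f ≠ h)
    (hK : ∀ i < 3, ∀ j < 3, i ≠ j → ∀ x ∈ K i, ∀ y ∈ K j, x ≠ y ∧ ¬ G.Adj x y)
    (ho : ∀ i < 3, f ∉ K i ∧ h ∉ K i) (hT : ∀ i < 3, TP' G f h (K i)) : False := by
  obtain ⟨c₀, hc0, Z₀, hZ0, y₀, hy0, cn0, cz0, yz0, cy0, fc0, hhc0, fy0, hhy0, z0⟩ :=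
    hT 0 (by omega)
  obtain ⟨c₁, hc1, Z₁, hZ1, y₁, hy1, cn1, cz1, yz1, cy1, fc1, hhc1, fy1, hhy1, z1⟩ :=
    hT 1 (by omega)
  have k01 := hK 0 (by omega) 1 (by omega) (by omega)
  have nf : ∀ i < 3, ∀ x ∈ K i, f ≠ x := fun i hi x hx h' => (ho i hi).1 (h' ▸ hx)
  have nh : ∀ i < 3, ∀ x ∈ K i, h ≠ x := fun i hi x hx h' => (ho i hi).2 (h' ▸ hx)
  have c0Z : c₀ ∉ Z₀ := fun h' => (z0 _ h').2 hhc0
  have y0Z : y₀ ∉ Z₀ := fun h' => fy0 (z0 _ h').1
  obtain ⟨w₀, hw0, hcw0⟩ := cz0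
  obtain ⟨v₀, hv0, hyv0⟩ := yz0
  obtain ⟨w₁, hw1, hcw1⟩ := cz1
  let X : ℕ → Set V := fun i => match i with
    | 0 => {f} | 1 => {h} | 2 => {c₀} | 3 => {c₁} | 4 => Z₀ | 5 => Z₁ | _ => {y₀}
  refine engS hG X [[0, 3], [4], [2], [5], [6], [1]]
    [(0, 3), (0, 4), (0, 2), (2, 4), (0, 5), (6, 4), (1, 3), (1, 2)]
    [(0, 6), (3, 6), (4, 5), (1, 4), (2, 5), (2, 6), (6, 5), (1, 5), (6, 1)]
    [(0, 4), (0, 2), (0, 5), (0, 6), (0, 1), (3, 4), (3, 2), (3, 5), (3, 6), (3, 1), (2, 4), (4, 5),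
      (6, 4), (1, 4), (2, 5), (2, 6), (2, 1), (6, 5), (1, 5), (6, 1)] ?_ ?_ ?_ ?_ (by decide)
  · intro l hl i hi
    simp only [List.mem_cons, List.not_mem_nil, or_false] at hl
    rcases hl with rfl | rfl | rfl | rfl | rfl | rfl <;>
      simp only [List.mem_cons, List.not_mem_nil, or_false] at hi
    · rcases hi with rfl | rfl
      · exact Conn.singleton G _
      · exact Conn.singleton G _
    · subst hi; exact cn0
    · subst hi; exact Conn.singleton G _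
    · subst hi; exact cn1
    · subst hi; exact Conn.singleton G _
    · subst hi; exact Conn.singleton G _
  · intro p hp
    simp only [List.mem_cons, List.not_mem_nil, or_false] at hp
    rcases hp with rfl | rfl | rfl | rfl | rfl | rfl | rfl | rfl
    · exact cs_t1 ⟨_, rfl, fc1⟩
    · exact cs_t1 ⟨w₀, hw0, (z0 _ hw0).1⟩
    · exact cs_t1 ⟨_, rfl, fc0⟩
    · exact cs_t1 ⟨w₀, hw0, hcw0⟩
    · exact cs_t1 ⟨w₁, hw1, (z1 _ hw1).1⟩
    · exact cs_t1 ⟨v₀, hv0, hyv0⟩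
    · exact cs_t1 ⟨_, rfl, hhc1⟩
    · exact cs_t1 ⟨_, rfl, hhc0⟩
  · intro p hp
    simp only [List.mem_cons, List.not_mem_nil, or_false] at hp
    rcases hp with rfl | rfl | rfl | rfl | rfl | rfl | rfl | rfl | rfl
    · exact cs_n2 fy0
    · exact cs_n2 fun h' => (k01 _ hy0 _ hc1).2 h'.symm
    · rintro ⟨x, hx, y, hy, h'⟩
      exact (k01 _ (hZ0 hx) _ (hZ1 hy)).2 h'
    · exact cs_n1 fun b hb => (z0 b hb).2
    · exact cs_n1 fun b hb => (k01 _ hc0 _ (hZ1 hb)).2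
    · exact cs_n2 cy0
    · exact cs_n1 fun b hb => (k01 _ hy0 _ (hZ1 hb)).2
    · exact cs_n1 fun b hb => (z1 b hb).2
    · exact cs_n2 fun h' => hhy0 h'.symm
  · intro p hp
    simp only [List.mem_cons, List.not_mem_nil, or_false] at hp
    rcases hp with rfl | rfl | rfl | rfl | rfl | rfl | rfl | rfl | rfl | rfl | rfl | rfl | rfl |
      rfl | rfl | rfl | rfl | rfl | rfl | rfl
    · exact cs_d1 fun h' => nf 0 (by omega) _ (hZ0 h') rfl
    · exact cs_d1 (nf 0 (by omega) _ hc0)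
    · exact cs_d1 fun h' => nf 1 (by omega) _ (hZ1 h') rfl
    · exact cs_d1 (nf 0 (by omega) _ hy0)
    · exact cs_d1 hfh
    · exact cs_d1 fun h' => (k01 _ (hZ0 h') _ hc1).1 rfl
    · exact cs_d1 (k01 _ hc0 _ hc1).1.symm
    · exact cs_d1 fun h' => (z1 _ h').2 hhc1
    · exact cs_d1 (k01 _ hy0 _ hc1).1.symm
    · exact cs_d1 (nh 1 (by omega) _ hc1).symm
    · exact cs_d1 c0Z
    · exact Set.disjoint_left.2 fun x hx hx' => (k01 _ (hZ0 hx) _ (hZ1 hx')).1 rfl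
    · exact cs_d1 y0Z
    · exact cs_d1 fun h' => nh 0 (by omega) _ (hZ0 h') rfl
    · exact cs_d1 fun h' => (k01 _ hc0 _ (hZ1 h')).1 rfl
    · exact cs_d1 fun h' => fy0 (h' ▸ fc0)
    · exact cs_d1 (nh 0 (by omega) _ hc0).symm
    · exact cs_d1 fun h' => (k01 _ hy0 _ (hZ1 h')).1 rfl
    · exact cs_d1 fun h' => nh 1 (by omega) _ (hZ1 h') rfl
    · exact cs_d1 (nh 0 (by omega) _ hy0).symm

theorem rCs : S_Cs := fun _ _ _ _ _ hG hfh hK ho =>
  ⟨cs_s hG hfh hK ho, cs_o hG hfh hK ho, cs_p hG hfh hK ho⟩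

end Pool.Agent.MPd439b2.H1R
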