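import Pool.Agent.Lib.MP_d439b2_co.X3.H1R.SpecC

/-!
# MP_d439b2_co, X3/H1R, Ct (helper69): the types of two vertices on a cell
-/

set_option autoImplicit false

namespace Pool.Agent.MPd439b2.H1R

open Pool.Agent.MPd439b2
open Pool.Agent.MPd439b2.Rep
open Pool.Agent.MPd439b2.NK
open Pool.Agent.MPd439b2.H1T

private theorem ct1 {V : Type} {G : SimpleGraph V} {f h : V} {K : Set V} (hK : Conn G K)
    (hf : ¬ Cpl G f K) {x z : V} (hx : x ∈ K) (hz : z ∈ K) (xz : G.Adj x z) (fx : G.Adj f x)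
    (hhx : G.Adj h x) (fz : G.Adj f z) (hhz : ¬ G.Adj h z) :
    TS G f h K ∨ TO G f h K ∨ TP' G f h K := by
  obtain ⟨D, hDA, hxD, hDc, hDn⟩ := exists_comp G (A := {u | u ∈ K ∧ G.Adj f u}) (v := x) ⟨hx, fx⟩
  have hDK : D ≠ K := by
    intro h'
    apply hf
    intro u hu
    rw [← h'] at hu
    exact (hDA hu).2
  obtain ⟨v, hv, y, hy, vy⟩ := hK.2 D (fun u hu => (hDA hu).1) ⟨x, hxD⟩ hDK
  have fy : ¬ G.Adj f y := fun h' => hDn y ⟨hy.1, h'⟩ ⟨hy.2, v, hv, vy⟩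
  by_cases hhy : G.Adj h y
  · exact Or.inr (Or.inl ⟨x, hx, z, hz, y, hy.1, xz, fx, hhx, fz, hhz, fy, hhy⟩)
  by_cases hhv : G.Adj h v
  · exact Or.inl ⟨v, (hDA hv).1, y, hy.1, vy, (hDA hv).2, hhv, fy, hhy⟩
  obtain ⟨Z, hZA, hvZ, hZc, hZn⟩ := exists_comp G (A := {u | u ∈ K ∧ G.Adj f u ∧ ¬ G.Adj h u})
    (v := v) ⟨(hDA hv).1, (hDA hv).2, hhv⟩
  have hZD : Z ⊆ D := by
    by_contra hcon
    have hne : Z ∩ D ≠ Z := fun h' => hcon fun u hu => by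
      rw [← h'] at hu
      exact hu.2
    obtain ⟨b, hb, a, ha, hab⟩ := hZc.2 (Z ∩ D) Set.inter_subset_left ⟨v, hvZ, hv⟩ hne
    have haD : a ∉ D := fun h' => ha.2 ⟨ha.1, h'⟩
    exact hDn a ⟨(hZA ha.1).1, (hZA ha.1).2.1⟩ ⟨haD, b, hb.2, hab⟩
  have hZD' : Z ≠ D := by
    intro h'
    rw [← h'] at hxD
    exact (hZA hxD).2.2 hhx
  obtain ⟨z', hz', c, hc, zc⟩ := hDc.2 Z hZD ⟨v, hvZ⟩ hZD'
  have fc : G.Adj f c := (hDA hc.1).2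
  have hhc : G.Adj h c := by
    by_contra h'
    exact hZn c ⟨(hDA hc.1).1, fc, h'⟩ ⟨hc.2, z', hz', zc⟩
  by_cases cy : G.Adj c y
  · exact Or.inl ⟨c, (hDA hc.1).1, y, hy.1, cy, fc, hhc, fy, hhy⟩
  · exact Or.inr (Or.inr ⟨c, (hDA hc.1).1, Z, fun u hu => (hZA hu).1, y, hy.1, hZc,
      ⟨z', hz', zc.symm⟩, ⟨v, hvZ, vy.symm⟩, cy, fc, hhc, fy, hhy, fun u hu => (hZA hu).2⟩)

theorem rCt : S_Ct := by
  intro V G f h K hK _ _ hx hf hh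
  obtain ⟨x₀, hx₀, fx₀, hhx₀⟩ := hx
  obtain ⟨c, hcA, hxc, _, hcn⟩ := exists_comp G (A := {u | u ∈ K ∧ G.Adj f u ∧ G.Adj h u})
    (v := x₀) ⟨hx₀, fx₀, hhx₀⟩
  have hcK : c ≠ K := by
    intro h'
    apply hf
    intro u hu
    rw [← h'] at hu
    exact (hcA hu).2.1
  obtain ⟨x, hx, z, hz, xz⟩ := hK.2 c (fun u hu => (hcA hu).1) ⟨x₀, hxc⟩ hcK
  have hzn : ¬ (G.Adj f z ∧ G.Adj h z) := fun h' => hcn z ⟨hz.1, h'⟩ ⟨hz.2, x, hx, xz⟩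
  obtain ⟨hxK, fx, hhx⟩ := hcA hx
  by_cases fz : G.Adj f z
  · have hhz : ¬ G.Adj h z := fun h' => hzn ⟨fz, h'⟩
    rcases ct1 hK hf hxK hz.1 xz fx hhx fz hhz with h1 | h1 | h1
    · exact Or.inl h1
    · exact Or.inr (Or.inl h1)
    · exact Or.inr (Or.inr (Or.inl h1))
  · by_cases hhz : G.Adj h z
    · rcases ct1 hK hh hxK hz.1 xz hhx fx hhz fz with h1 | h1 | h1
      · obtain ⟨a, ha, b, hb, ab, h1a, h2a, h1b, h2b⟩ := h1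
        exact Or.inl ⟨a, ha, b, hb, ab, h2a, h1a, h2b, h1b⟩
      · exact Or.inr (Or.inr (Or.inr (Or.inl h1)))
      · exact Or.inr (Or.inr (Or.inr (Or.inr h1)))
    · exact Or.inl ⟨x, hxK, z, hz.1, xz, fx, hhx, fz, hhz⟩

end Pool.Agent.MPd439b2.H1R
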