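import Pool.Agent.Lib.MP_d439b2_co.X3.H1R.SpecR

/-!
# MP_d439b2_co, X3/H1R/Cu: from components of `G[U] - Q` to cells
-/

set_option autoImplicit false

namespace Pool.Agent.MPd439b2.H1R

open Pool.Agent.MPd439b2
open Pool.Agent.MPd439b2.Rep
open Pool.Agent.MPd439b2.NK
open Pool.Agent.MPd439b2.H1T

theorem rCu : S_Cu := by
  intro V G n m e W Q K ι hR hn h1 h2 hK hd
  have hW : ∀ i < n, ∀ s, e s i ∉ W := by
    intro i hi s h
    obtain ⟨r, hr⟩ := hR.half _ h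
    exact hr.not_lw (by omega) (hR.lt.lw hi s)
  have hU : ∀ i < n, ∀ s, e s i ∈ {v | v ∉ W ∧ Lw G n e v} := fun i hi s =>
    ⟨hW i hi s, hR.lt.lw hi s⟩
  have hKU : ∀ i < m, K i ⊆ {v | v ∉ W ∧ Lw G n e v} := by
    intro i hi
    refine rs_sub (x := e false (ι i)) (y := e true (ι i)) (hK i hi).1.1
      ((hK i hi).2 (mem_Pr _ _)) ⟨hR.lt.adj (h1 i hi) false, hU _ (h1 i hi) _, hU _ (h1 i hi) _⟩
  refine ⟨hR.lt.comp ι h1 h2, fun i hi => (hK i hi).2, fun i hi => rs_conn (hK i hi).1.1,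
    fun i hi j hj hij x hx y hy => ⟨?_, ?_⟩, fun i hi => ?_, fun v hv hvK => ?_⟩
  · exact fun h => Set.disjoint_left.1 (hd i hi j hj hij) hx (h ▸ hy)
  · intro h
    rcases (hK i hi).1.2.2 x hx y ⟨h, hKU i hi hx, hKU j hj hy⟩ with h3 | h3
    · exact Set.disjoint_left.1 (hd i hi j hj hij) h3 hy
    · exact Set.disjoint_left.1 (hK j hj).1.2.1 hy h3
  · rw [Set.disjoint_union_right]
    exact ⟨(hK i hi).1.2.1, Set.disjoint_left.2 fun x hx => (hKU i hi hx).1⟩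
  · have hvW : v ∉ W := fun h => hv (Or.inr h)
    rcases hR.out v hvW with h3 | h3
    · left
      intro i hi x hx h
      rcases (hK i hi).1.2.2 x hx v ⟨h.symm, hKU i hi hx, hvW, h3⟩ with h4 | h4
      · exact hvK i hi h4
      · exact hv (Or.inl h4)
    · exact Or.inr (h3.comp h1 h2)

end Pool.Agent.MPd439b2.H1R
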