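import Pool.Agent.Lib.MP_d439b2_co.X3.H1R.SpecC

/-!
# MP_d439b2_co, X3/H1R/Da: a vertex `Re` is `R1` or `R0`
-/

set_option autoImplicit false

namespace Pool.Agent.MPd439b2.H1R

open Pool.Agent.MPd439b2
open Pool.Agent.MPd439b2.Rep
open Pool.Agent.MPd439b2.NK
open Pool.Agent.MPd439b2.H1T

private theorem Da_edge {V : Type} {G : SimpleGraph V} {f : V} {K : Set V} (hK : Conn G K)
    (h : Mxd G f K) : ∃ s ∈ K, ∃ t ∈ K, G.Adj s t ∧ G.Adj f s ∧ ¬ G.Adj f t := by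
  obtain ⟨h1, h2⟩ := h
  simp only [Cpl, Nul, not_forall, exists_prop, not_not] at h1 h2
  obtain ⟨x, hx, hfx⟩ := h1
  obtain ⟨y, hy, hfy⟩ := h2
  obtain ⟨s, hs, t, ht, hst⟩ := hK.2 {z | z ∈ K ∧ G.Adj f z} (fun z hz => hz.1) ⟨y, hy, hfy⟩
    (fun h3 => hfx (by
      have h4 : x ∈ {z | z ∈ K ∧ G.Adj f z} := by
        rw [h3]
        exact hx
      exact h4.2))
  exact ⟨s, hs.1, t, ht.1, hst, hs.2, fun h5 => ht.2 ⟨ht.1, h5⟩⟩

private theorem Da_third {n : ℕ} (h : 3 ≤ n) (i j : ℕ) : ∃ l < n, l ≠ i ∧ l ≠ j := by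
  by_cases h0 : 0 ≠ i ∧ 0 ≠ j
  · exact ⟨0, by omega, h0⟩
  · by_cases h1 : 1 ≠ i ∧ 1 ≠ j
    · exact ⟨1, by omega, h1⟩
    · exact ⟨2, by omega, by omega⟩

theorem rDa : S_Da := by
  intro V G n K Q a b f hG hC hn r hr
  -- a vertex which is not complete to `K i` is complete to the others
  have cp : ∀ i < n, ∀ u, Al G n K Q i u → ∀ j < n, j ≠ i → Cpl G u (K j) := by
    intro i hi u hu j hj hji
    rcases hu.1.2.2 i hi j hj hji.symm with h1 | h1
    · exact absurd h1 hu.2.1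
    · exact h1
  have claim : ∀ i < n, ∀ j < n, i ≠ j → ∀ u u', Al G n K Q i u → Al G n K Q j u' →
      G.Adj r u → G.Adj r u' := by
    intro i hi j hj hij u u' hu hu' hru
    by_contra hcon
    obtain ⟨s, hs, t, ht, q1, q2, q3⟩ := Da_edge (hC.con j hj) hu'.2
    have h1 := hu.2.1
    simp only [Cpl, not_forall, exists_prop] at h1
    obtain ⟨t', ht', h2⟩ := h1
    obtain ⟨l, hl, hli, hlj⟩ := Da_third hn i j
    obtain ⟨x, hx⟩ := (hC.con l hl).1
    refine engV hG (fun i => match i with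
      | 0 => u | 1 => x | 2 => u' | 3 => s | 4 => r | 5 => t' | _ => t)
      [[0, 1], [2], [3], [4], [5], [6]]
      [(0, 1), (1, 2), (0, 3), (2, 3), (0, 4), (2, 5), (0, 6), (3, 6)]
      [(4, 2), (4, 3), (5, 0), (5, 1), (5, 3), (6, 2), (4, 5), (4, 6), (5, 6), (4, 1), (1, 6)]
      [] ?_ ?_ ?_ (by decide +kernel)
    · simp only [List.forall_mem_cons, List.not_mem_nil, false_imp_iff, implies_true, and_true]
      exact ⟨cp i hi u hu l hl hli _ hx, (cp j hj u' hu' l hl hlj _ hx).symm,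
        cp i hi u hu j hj hij.symm _ hs, q2, hru.symm, cp j hj u' hu' i hi hij _ ht',
        cp i hi u hu j hj hij.symm _ ht, q1⟩
    · simp only [List.forall_mem_cons, List.not_mem_nil, false_imp_iff, implies_true, and_true]
      exact ⟨hcon, hr.2.2 j hj _ hs, fun h' => h2 h'.symm,
        (hC.ant i hi l hl hli.symm _ ht' _ hx).2, (hC.ant i hi j hj hij _ ht' _ hs).2,
        fun h' => q3 h'.symm, hr.2.2 i hi _ ht', hr.2.2 j hj _ ht,
        (hC.ant i hi j hj hij _ ht' _ ht).2, hr.2.2 l hl _ hx,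
        (hC.ant l hl j hj hlj _ hx _ ht).2⟩
    · simp
  by_cases h0 : R0 G n K Q r
  · exact Or.inr h0
  left
  have h1 : ∃ i < n, ∃ u, Al G n K Q i u ∧ G.Adj r u := by
    by_contra hcon
    push Not at hcon
    exact h0 ⟨hr, fun i hi u hu => hcon i hi u hu⟩
  obtain ⟨i, hi, u, hu, hru⟩ := h1
  refine ⟨hr, fun j hj u' hu' => ?_⟩
  by_cases hij : i = j
  · subst hij
    obtain ⟨l, hl, hli, _⟩ := Da_third hn i i
    have hf : Al G n K Q l (f l) := by
      refine ⟨⟨(hC.fo l hl).1, (hC.fo l hl).2, ?_⟩, ?_, ?_⟩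
      · intro i' hi' j' hj' hij'
        by_cases h2 : l = i'
        · exact Or.inr (hC.fc l hl j' hj' (fun h3 => hij' (h2.symm.trans h3)))
        · exact Or.inl (hC.fc l hl i' hi' h2)
      · exact fun h2 => (hC.ed l hl).2.2.2.2 (h2 _ (hC.ed l hl).2.1)
      · exact fun h2 => h2 _ (hC.ed l hl).1 (hC.ed l hl).2.2.2.1
    exact claim l hl i hi hli _ _ hf hu' (claim i hi l hl hli.symm _ _ hu hf hru)
  · exact claim i hi j hj hij _ _ hu hu' hru

end Pool.Agent.MPd439b2.H1R
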