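import Pool.Agent.Lib.MP_d439b2_co.X3.H1R.SpecC

/-!
# MP_d439b2_co, X3/H1R: `S_Db`
-/

set_option autoImplicit false

namespace Pool.Agent.MPd439b2.H1R

open Pool.Agent.MPd439b2
open Pool.Agent.MPd439b2.Rep
open Pool.Agent.MPd439b2.NK
open Pool.Agent.MPd439b2.H1T

private theorem db_two {n i : ℕ} (hn : 3 ≤ n) : ∃ j l, j < n ∧ l < n ∧ j ≠ i ∧ l ≠ i ∧ j ≠ l := by
  rcases Nat.lt_or_ge i 1 with h | h
  · exact ⟨1, 2, by omega, by omega, by omega, by omega, by omega⟩
  · rcases Nat.lt_or_ge i 2 with h2 | h2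
    · exact ⟨0, 2, by omega, by omega, by omega, by omega, by omega⟩
    · exact ⟨0, 1, by omega, by omega, by omega, by omega, by omega⟩

theorem rDb : S_Db := by
  intro V G n K Q a b f hG hC hn x hx i hi g hg hxg
  obtain ⟨j, l, hj, hl, hji, hli, hjl⟩ := db_two (i := i) hn
  -- `f l` is in `α l`
  have hAl : Al G n K Q l (f l) := by
    refine ⟨⟨(hC.fo l hl).1, (hC.fo l hl).2, ?_⟩, ?_, ?_⟩
    · intro p hp q hq hpq
      rcases eq_or_ne l p with h | h
      · right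
        exact hC.fc l hl q hq (h ▸ hpq)
      · left
        exact hC.fc l hl p hp h
    · intro h
      exact (hC.ed l hl).2.2.2.2 (h _ (hC.ed l hl).2.1)
    · intro h
      exact h _ (hC.ed l hl).1 (hC.ed l hl).2.2.2.1
  have hgc : ∀ p < n, p ≠ i → Cpl G g (K p) := by
    intro p hp hpi
    rcases hg.1.2.2 p hp i hi hpi with h | h
    · exact h
    · exact absurd (h _ (hC.ed i hi).1) (hg.2 _ (hC.ed i hi).1)
  have hxn := hx.1.2.2
  have ai := (hC.ed i hi).1
  have bi := (hC.ed i hi).2.1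
  have bj := (hC.ed j hj).2.1
  have al := (hC.ed l hl).1
  have bl := (hC.ed l hl).2.1
  refine engV hG (fun k => match k with
      | 0 => b j | 1 => g | 2 => f l | 3 => a l | 4 => x | 5 => b i | _ => b l)
    [[0, 1], [2], [3], [4], [5], [6]]
    [(0, 1), (0, 2), (1, 3), (2, 3), (1, 4), (2, 5), (1, 6), (3, 6)]
    [(0, 5), (1, 5), (2, 4), (2, 6), (3, 4), (3, 5), (0, 4), (4, 5), (4, 6), (5, 6), (0, 6)]
    [] ?_ ?_ ?_ (by decide)
  · simp only [List.forall_mem_cons]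
    exact ⟨(hgc j hj hji _ bj).symm, (hC.fc l hl j hj hjl.symm _ bj).symm, hgc l hl hli _ al,
      (hC.ed l hl).2.2.2.1, hxg.symm, hC.fc l hl i hi hli _ bi, hgc l hl hli _ bl,
      (hC.ed l hl).2.2.1, List.forall_mem_nil _⟩
  · simp only [List.forall_mem_cons]
    exact ⟨(hC.ant j hj i hi hji _ bj _ bi).2, hg.2 _ bi,
      fun h => hx.2 l hl _ hAl h.symm, (hC.ed l hl).2.2.2.2, fun h => hxn l hl _ al h.symm,
      (hC.ant l hl i hi hli _ al _ bi).2, fun h => hxn j hj _ bj h.symm, hxn i hi _ bi,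
      hxn l hl _ bl, (hC.ant i hi l hl hli.symm _ bi _ bl).2, (hC.ant j hj l hl hjl _ bj _ bl).2,
      List.forall_mem_nil _⟩
  · exact List.forall_mem_nil _

end Pool.Agent.MPd439b2.H1R
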