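import Pool.Agent.Lib.MP_d439b2_co.X3.H1R.SpecC

/-!
# MP_d439b2_co, X3/H1R/Dc: a vertex `R1` is incomplete to at most one `ν i` (helper10)
-/

set_option autoImplicit false

namespace Pool.Agent.MPd439b2.H1R

open Pool.Agent.MPd439b2 Pool.Agent.MPd439b2.Rep Pool.Agent.MPd439b2.NK Pool.Agent.MPd439b2.H1T

/-- **Dc.** -/
theorem rDc : S_Dc := by
  intro V G n K Q a b f hG hC hn r hr i hi j hj hij g g' hg hg'
  by_contra hcon
  push Not at hcon
  obtain ⟨hrg, hrg'⟩ := hcon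
  obtain ⟨l, hl, hli, hlj⟩ : ∃ l, l < n ∧ l ≠ i ∧ l ≠ j := by
    by_cases h0 : (0 : ℕ) ≠ i ∧ (0 : ℕ) ≠ j
    · exact ⟨0, by omega, h0.1, h0.2⟩
    · by_cases h1 : (1 : ℕ) ≠ i ∧ (1 : ℕ) ≠ j
      · exact ⟨1, by omega, h1.1, h1.2⟩
      · exact ⟨2, by omega, by omega, by omega⟩
  obtain ⟨hai, hbi, habi, hfai, hfbi⟩ := hC.ed i hi
  obtain ⟨haj, hbj, habj, hfaj, hfbj⟩ := hC.ed j hj
  obtain ⟨hal, hbl, habl, hfal, hfbl⟩ := hC.ed l hl
  -- `g` and `g'`
  have hgc : ∀ m < n, m ≠ i → Cpl G g (K m) := by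
    intro m hm hmi
    rcases hg.1.2.2 m hm i hi hmi with h | h
    · exact h
    · exact absurd (h _ hai) (hg.2 _ hai)
  have hgc' : ∀ m < n, m ≠ j → Cpl G g' (K m) := by
    intro m hm hmj
    rcases hg'.1.2.2 m hm j hj hmj with h | h
    · exact h
    · exact absurd (h _ haj) (hg'.2 _ haj)
  -- `f i` is in `α i`
  have hfi : Al G n K Q i (f i) := by
    refine ⟨⟨(hC.fo i hi).1, (hC.fo i hi).2, ?_⟩, fun h => hfbi (h _ hbi), fun h => h _ hai hfai⟩
    intro p hp q hq hpq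
    by_cases h : p = i
    · right
      exact hC.fc i hi q hq (by rw [← h]; exact hpq)
    · left
      exact hC.fc i hi p hp (fun h' => h h'.symm)
  have hrf : G.Adj r (f i) := hr.2 i hi _ hfi
  have hrK : ∀ m < n, Nul G r (K m) := hr.1.2.2
  let x : ℕ → V := fun m => match m with
    | 0 => f i
    | 1 => a l
    | 2 => g'
    | 3 => a j
    | 4 => g
    | 5 => r
    | 6 => b i
    | _ => b j
  refine engV hG x [[0], [1, 2], [3, 4], [5], [6], [7]]
    [(1, 2), (3, 4), (0, 1), (0, 3), (1, 4), (0, 5), (2, 6), (0, 7), (3, 7)]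
    [(1, 5), (2, 5), (3, 5), (4, 5), (0, 6), (3, 6), (4, 6), (5, 6), (1, 7), (2, 7), (5, 7), (6, 7)]
    [] ?_ ?_ ?_ (by decide)
  · intro p hp
    simp only [List.mem_cons, List.not_mem_nil, or_false] at hp
    rcases hp with rfl | rfl | rfl | rfl | rfl | rfl | rfl | rfl | rfl
    · exact (hgc' l hl hlj _ hal).symm
    · exact (hgc j hj (Ne.symm hij) _ haj).symm
    · exact hC.fc i hi l hl (Ne.symm hli) _ hal
    · exact hC.fc i hi j hj hij _ haj
    · exact (hgc l hl hli _ hal).symm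
    · exact hrf.symm
    · exact hgc' i hi hij _ hbi
    · exact hC.fc i hi j hj hij _ hbj
    · exact habj
  · intro p hp
    simp only [List.mem_cons, List.not_mem_nil, or_false] at hp
    rcases hp with rfl | rfl | rfl | rfl | rfl | rfl | rfl | rfl | rfl | rfl | rfl | rfl
    · exact fun h => hrK l hl _ hal h.symm
    · exact fun h => hrg' h.symm
    · exact fun h => hrK j hj _ haj h.symm
    · exact fun h => hrg h.symm
    · exact hfbi
    · exact (hC.ant j hj i hi (Ne.symm hij) _ haj _ hbi).2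
    · exact hg.2 _ hbi
    · exact hrK i hi _ hbi
    · exact (hC.ant l hl j hj hlj _ hal _ hbj).2
    · exact hg'.2 _ hbj
    · exact hrK j hj _ hbj
    · exact (hC.ant i hi j hj hij _ hbi _ hbj).2
  · intro p hp
    simp at hp

end Pool.Agent.MPd439b2.H1R
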