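import Pool.Agent.Lib.MP_d439b2_co.X3.H1R.SpecC

/-! # MP_d439b2_co, X3/H1R: no edges between `R0` and `R1`, and between `Om i` and the rest of `R1` (`rDd`)
(helper99) -/

set_option autoImplicit false

namespace Pool.Agent.MPd439b2.H1R

open Pool.Agent.MPd439b2
open Pool.Agent.MPd439b2.Rep
open Pool.Agent.MPd439b2.NK
open Pool.Agent.MPd439b2.H1T

theorem rDd : S_Dd := by
  intro V G n K Q a b f hG hCA hn
  have fFe : ∀ i < n, Fe G n K Q (f i) := by
    intro i hi
    refine ⟨(hCA.fo i hi).1, (hCA.fo i hi).2, ?_⟩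
    rcases hCA.out (f i) (hCA.fo i hi).1 (hCA.fo i hi).2 with h | h
    · exact absurd (hCA.ed i hi).2.2.2.1 (h i hi _ (hCA.ed i hi).1)
    · exact h
  have fAl : ∀ i < n, Al G n K Q i (f i) := fun i hi =>
    ⟨fFe i hi, fun h => (hCA.ed i hi).2.2.2.2 (h _ (hCA.ed i hi).2.1),
      fun h => h _ (hCA.ed i hi).1 (hCA.ed i hi).2.2.2.1⟩
  refine ⟨?_, ?_⟩
  · intro x hx y hy hxy
    have hi : 0 < n := by omega
    have hj : 1 < n := by omega
    obtain ⟨ai, bi, eab, fa, fb⟩ := hCA.ed 0 hi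
    obtain ⟨aj, bj, eab', fa', fb'⟩ := hCA.ed 1 hj
    -- `0: f 1, 1: y, 2: f 0, 3: a 0, 4: x, 5: b 1, 6: b 0`
    refine engV hG (fun k => [f 1, y, f 0, a 0, x, b 1, b 0].getD k y)
      [[0, 1], [2], [3], [4], [5], [6]]
      [(0, 1), (1, 2), (0, 3), (2, 3), (1, 4), (2, 5), (0, 6), (3, 6)]
      [(2, 4), (3, 4), (0, 5), (1, 5), (3, 5), (2, 6), (4, 5), (4, 6), (5, 6), (1, 3), (1, 6)]
      [] ?_ ?_ ?_ (by decide)
    · intro p hp
      simp only [List.mem_cons, List.not_mem_nil, or_false] at hp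
      rcases hp with rfl | rfl | rfl | rfl | rfl | rfl | rfl | rfl
      · exact (hy.2 1 hj _ (fAl 1 hj)).symm
      · exact hy.2 0 hi _ (fAl 0 hi)
      · exact hCA.fc 1 hj 0 hi (by omega) _ ai
      · exact fa
      · exact hxy.symm
      · exact hCA.fc 0 hi 1 hj (by omega) _ bj
      · exact hCA.fc 1 hj 0 hi (by omega) _ bi
      · exact eab
    · intro p hp
      simp only [List.mem_cons, List.not_mem_nil, or_false] at hp
      rcases hp with rfl | rfl | rfl | rfl | rfl | rfl | rfl | rfl | rfl | rfl | rfl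
      · exact fun h => hx.2 0 hi _ (fAl 0 hi) h.symm
      · exact fun h => hx.1.2.2 0 hi _ ai h.symm
      · exact fb'
      · exact hy.1.2.2 1 hj _ bj
      · exact (hCA.ant 0 hi 1 hj (by omega) _ ai _ bj).2
      · exact fb
      · exact hx.1.2.2 1 hj _ bj
      · exact hx.1.2.2 0 hi _ bi
      · exact (hCA.ant 1 hj 0 hi (by omega) _ bj _ bi).2
      · exact hy.1.2.2 0 hi _ ai
      · exact hy.1.2.2 0 hi _ bi
    · intro p hp
      simp at hp
  · intro i hi r hr y hy hyo hyr
    obtain ⟨hr1, g, hg, hrg⟩ := hr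
    have hyg : G.Adj y g := by
      by_contra h
      exact hyo ⟨hy, g, hg, h⟩
    obtain ⟨j, hj, hij⟩ : ∃ j < n, i ≠ j := by
      by_cases h0 : i = 0
      · exact ⟨1, by omega, by omega⟩
      · exact ⟨0, by omega, h0⟩
    obtain ⟨ai, bi, eab, fa, fb⟩ := hCA.ed i hi
    obtain ⟨aj, bj, eab', fa', fb'⟩ := hCA.ed j hj
    have gj : Cpl G g (K j) := by
      rcases hg.1.2.2 i hi j hj hij with h | h
      · exact absurd (h _ ai) (hg.2 _ ai)
      · exact h
    -- `0: f j, 1: a j, 2: g, 3: y, 4: b i, 5: b j, 6: r`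
    refine engV hG (fun k => [f j, a j, g, y, b i, b j, r].getD k y)
      [[0], [1, 2], [3], [4], [5], [6]]
      [(1, 2), (0, 1), (0, 3), (2, 3), (0, 4), (1, 5), (0, 6), (3, 6)]
      [(1, 4), (2, 4), (3, 4), (0, 5), (3, 5), (1, 6), (2, 6), (4, 5), (4, 6), (5, 6)]
      [] ?_ ?_ ?_ (by decide)
    · intro p hp
      simp only [List.mem_cons, List.not_mem_nil, or_false] at hp
      rcases hp with rfl | rfl | rfl | rfl | rfl | rfl | rfl | rfl
      · exact (gj _ aj).symm
      · exact fa'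
      · exact (hy.2 j hj _ (fAl j hj)).symm
      · exact hyg.symm
      · exact hCA.fc j hj i hi hij.symm _ bi
      · exact eab'
      · exact (hr1.2 j hj _ (fAl j hj)).symm
      · exact hyr
    · intro p hp
      simp only [List.mem_cons, List.not_mem_nil, or_false] at hp
      rcases hp with rfl | rfl | rfl | rfl | rfl | rfl | rfl | rfl | rfl | rfl
      · exact (hCA.ant j hj i hi hij.symm _ aj _ bi).2
      · exact hg.2 _ bi
      · exact hy.1.2.2 i hi _ bi
      · exact fb'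
      · exact hy.1.2.2 j hj _ bj
      · exact fun h => hr1.1.2.2 j hj _ aj h.symm
      · exact fun h => hrg h.symm
      · exact (hCA.ant i hi j hj hij _ bi _ bj).2
      · exact fun h => hr1.1.2.2 i hi _ bi h.symm
      · exact fun h => hr1.1.2.2 j hj _ bj h.symm
    · intro p hp
      simp at hp

end Pool.Agent.MPd439b2.H1R
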