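import Pool.Agent.Lib.MP_d439b2_co.X3.H1R.SpecC

/-!
# MP_d439b2_co, X3/H1R, De: the vertices which are complete to all cells
-/

set_option autoImplicit false

namespace Pool.Agent.MPd439b2.H1R

open Pool.Agent.MPd439b2 Pool.Agent.MPd439b2.Rep Pool.Agent.MPd439b2.NK Pool.Agent.MPd439b2.H1T

namespace DeAux

theorem nil {α : Type} {P : α → Prop} : ∀ p ∈ ([] : List α), P p := fun _ h => absurd h List.not_mem_nil

theorem cons {α : Type} {P : α → Prop} {a : α} {l : List α} (h : P a) (h' : ∀ p ∈ l, P p) :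
    ∀ p ∈ a :: l, P p := List.forall_mem_cons.2 ⟨h, h'⟩

theorem two {n : ℕ} (i : ℕ) (hn : 3 ≤ n) : ∃ j < n, ∃ l < n, j ≠ i ∧ l ≠ i ∧ j ≠ l := by
  by_cases h0 : i = 0
  · exact ⟨1, by omega, 2, by omega, by omega, by omega, by omega⟩
  · by_cases h1 : i = 1
    · exact ⟨0, by omega, 2, by omega, by omega, by omega, by omega⟩
    · exact ⟨0, by omega, 1, by omega, by omega, by omega, by omega⟩

end DeAux

open DeAux in
/-- **De.** -/
theorem rDe : S_De := by
  intro hDd V G n K Q a b f hG hC hn u _hu hK r hr hur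
  obtain ⟨hD1, hD2⟩ := hDd V G n K Q a b f hG hC hn
  have hAl : ∀ i < n, Al G n K Q i (f i) := by
    intro i hi
    obtain ⟨ha, hb, _, hfa, hfb⟩ := hC.ed i hi
    refine ⟨⟨(hC.fo i hi).1, (hC.fo i hi).2, fun j hj l hl hjl => ?_⟩, fun h => hfb (h _ hb),
      fun h => h _ ha hfa⟩
    by_cases hij : i = j
    · subst hij
      exact Or.inr (hC.fc _ hi l hl hjl)
    · exact Or.inl (hC.fc i hi j hj hij)
  refine ⟨fun x hx hux => ?_, fun i hi hOm0 r' hr' hOm' => ?_⟩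
  · obtain ⟨a0, b0, e0, fa0, fb0⟩ := hC.ed 0 (by omega)
    obtain ⟨a1, -, -, -, -⟩ := hC.ed 1 (by omega)
    have i0 : 0 < n := by omega
    have i1 : 1 < n := by omega
    exact engV hG (fun k => [u, a 1, f 0, a 0, x, r, b 0].getD k u)
      [[0, 1], [2], [3], [4], [5], [6]]
      [(0, 1), (1, 2), (0, 3), (2, 3), (4, 0), (5, 2), (6, 0), (6, 3)]
      [(4, 2), (4, 3), (5, 0), (5, 1), (5, 3), (6, 2), (4, 5), (4, 6), (5, 6)]
      [(1, 3)]
      (cons (hK 1 i1 _ a1) <| cons (hC.fc 0 i0 1 i1 (by omega) _ a1).symm <| cons (hK 0 i0 _ a0) <|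
        cons fa0 <| cons hux.symm <| cons (hr.2 0 i0 _ (hAl 0 i0)) <| cons (hK 0 i0 _ b0).symm <|
        cons e0.symm nil)
      (cons (hx.2 0 i0 _ (hAl 0 i0)) <| cons (hx.1.2.2 0 i0 _ a0) <| cons (fun h => hur h.symm) <|
        cons (hr.1.2.2 1 i1 _ a1) <| cons (hr.1.2.2 0 i0 _ a0) <| cons (fun h => fb0 (SimpleGraph.Adj.symm h)) <| cons (hD1 x hx r hr) <| cons (hx.1.2.2 0 i0 _ b0) <| cons (hr.1.2.2 0 i0 _ b0)
        nil)
      (cons (hC.ant 1 i1 0 i0 (by omega) _ a1 _ a0).1 nil)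
      (by decide)
  · by_contra hur'
    obtain ⟨j, hj, l, hl, hji, hli, hjl⟩ := two i hn
    obtain ⟨ai, bi, ei, fai, fbi⟩ := hC.ed i hi
    obtain ⟨aj, -, -, -, -⟩ := hC.ed j hj
    obtain ⟨al, -, -, -, -⟩ := hC.ed l hl
    obtain ⟨-, g, hg, hrg⟩ := hOm0
    have hgK : ∀ k < n, k ≠ i → Cpl G g (K k) := by
      intro k hk hki
      rcases hg.1.2.2 i hi k hk (Ne.symm hki) with h | h
      · exact absurd (h _ ai) (hg.2 _ ai)
      · exact h
    have hr'g : G.Adj r' g := by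
      by_contra h
      exact hOm' ⟨hr', g, hg, h⟩
    exact engV hG (fun k => [f i, a l, u, a j, g, r, b i, r'].getD k u)
      [[0, 1], [2, 3], [4], [5], [6], [7]]
      [(0, 1), (2, 3), (0, 3), (1, 4), (3, 4), (5, 0), (6, 2), (7, 0), (7, 4), (1, 2)]
      [(5, 2), (5, 3), (5, 4), (6, 0), (6, 1), (6, 4), (7, 2), (7, 3), (5, 6), (5, 7), (6, 7)]
      [(1, 3)]
      (cons (hC.fc i hi l hl hli.symm _ al) <| cons (hK j hj _ aj) <|
        cons (hC.fc i hi j hj hji.symm _ aj) <| cons (hgK l hl hli _ al).symm <|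
        cons (hgK j hj hji _ aj).symm <| cons (hr.2 i hi _ (hAl i hi)) <| cons (hK i hi _ bi).symm <|
        cons (hr'.2 i hi _ (hAl i hi)) <| cons hr'g <| cons (hK l hl _ al).symm nil)
      (cons (fun h => hur h.symm) <| cons (hr.1.2.2 j hj _ aj) <| cons hrg <|
        cons (fun h => fbi h.symm) <| cons (hC.ant i hi l hl hli.symm _ bi _ al).2 <|
        cons (fun h => hg.2 _ bi h.symm) <| cons (fun h => hur' h.symm) <|
        cons (hr'.1.2.2 j hj _ aj) <| cons (hr.1.2.2 i hi _ bi) <|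
        cons (fun h => hD2 i hi r ⟨hr, g, hg, hrg⟩ r' hr' hOm' h.symm) <|
        cons (fun h => hr'.1.2.2 i hi _ bi h.symm) nil)
      (cons (hC.ant l hl j hj hjl.symm _ al _ aj).1 nil)
      (by decide)

end Pool.Agent.MPd439b2.H1R
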