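import Pool.Agent.Lib.MP_d439b2_co.X3.H1R.SpecC

/-!
# MP_d439b2_co, X3/H1R/Dw: the structure `CE`
-/

set_option autoImplicit false

namespace Pool.Agent.MPd439b2.H1R

open Pool.Agent.MPd439b2
open Pool.Agent.MPd439b2.Rep
open Pool.Agent.MPd439b2.NK
open Pool.Agent.MPd439b2.H1T

section

variable {V : Type} {G : SimpleGraph V} {n : ℕ} {K : ℕ → Set V} {Q : Set V} {a b f : ℕ → V}

private theorem Dw_tri (i : ℕ) {u : V} (hu : Fe G n K Q u) :
    Cpl G u (K i) ∨ Al G n K Q i u ∨ Nl G n K Q i u := by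
  by_cases h1 : Cpl G u (K i)
  · exact Or.inl h1
  · by_cases h2 : Nul G u (K i)
    · exact Or.inr (Or.inr ⟨hu, h2⟩)
    · exact Or.inr (Or.inl ⟨hu, h1, h2⟩)

private theorem Dw_miss {i : ℕ} {u : V} (hu : u ∈ Ei G n K Q i) :
    ∃ w ∈ Wi G n K Q i, ¬ G.Adj u w := by
  have h := hu.2
  unfold Cpl at h
  push Not at h
  exact h

/-- `u ∈ E i` complete to `K i` misses an element of `Om i` -/
private theorem Dw_missOm {i : ℕ} {u : V} (hu : u ∈ Ei G n K Q i) (hc : Cpl G u (K i)) :
    ∃ r, Om G n K Q i r ∧ ¬ G.Adj u r := by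
  obtain ⟨w, hw, huw⟩ := Dw_miss hu
  rcases hw with hw | hw
  · exact absurd (hc w hw) huw
  · exact ⟨w, hw, huw⟩

end

theorem rDw : S_Dw := by
  intro hDa hDb hDc hDd hDe V G n K Q a b f hF hC hn
  have hOm : ∀ i < n, ∀ j < n, ∀ r, Om G n K Q i r → Om G n K Q j r → i = j := by
    intro i hi j hj r ⟨h1, g, hg, hrg⟩ ⟨_, g', hg', hrg'⟩
    by_contra hij
    rcases hDc V G n K Q a b f hF hC hn r h1 i hi j hj hij g g' hg hg' with h2 | h2
    · exact hrg h2
    · exact hrg' h2
  have hDd' := hDd V G n K Q a b f hF hC hn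
  have hDe' := hDe hDd V G n K Q a b f hF hC hn
  have hDb' := hDb V G n K Q a b f hF hC hn
  have hDa' := hDa V G n K Q a b f hF hC hn
  have stepA : ∀ i < n, ∀ j < n, i ≠ j → ∀ u, u ∈ Ei G n K Q i → u ∈ Ei G n K Q j →
      Cpl G u (K i) := by
    intro i hi j hj hij u hui huj
    by_contra hc
    have hcj : Cpl G u (K j) := (hui.1.2.2 i hi j hj hij).resolve_left hc
    obtain ⟨r, hr, hur⟩ := Dw_missOm huj hcj
    rcases Dw_tri i hui.1 with h1 | h1 | h1
    · exact hc h1
    · exact hur (hr.1.2 i hi u h1).symm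
    · exact hij (hOm i hi j hj r ⟨hr.1, u, h1, fun h2 => hur h2.symm⟩ hr)
  have claim : ∀ i < n, ∀ j < n, i ≠ j → ∀ u, u ∈ Ei G n K Q i → Cpl G u (Wi G n K Q j) := by
    intro i hi j hj hij u hui
    by_contra hcon
    have huj : u ∈ Ei G n K Q j := ⟨hui.1, hcon⟩
    have hci := stepA i hi j hj hij u hui huj
    have hcj := stepA j hj i hi hij.symm u huj hui
    obtain ⟨r, hr, hur⟩ := Dw_missOm hui hci
    obtain ⟨r', hr', hur'⟩ := Dw_missOm huj hcj
    have hall : ∀ l < n, Cpl G u (K l) := by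
      intro l hl
      rcases Dw_tri l hui.1 with h1 | h1 | h1
      · exact h1
      · exact absurd (hr.1.2 l hl u h1).symm hur
      · have : l = i := hOm l hl i hi r ⟨hr.1, u, h1, fun h2 => hur h2.symm⟩ hr
        rw [this]
        exact hci
    exact hur' ((hDe' u hui.1 hall r hr.1 hur).2 i hi hr r' hr'.1
      fun h => hij (hOm i hi j hj r' h hr'))
  have hKn : ∀ i < n, a i ∈ K i := fun i hi => (hC.ed i hi).1
  refine ⟨?_, ?_, ?_, ?_, ?_, ?_, ?_⟩
  · intro i hi
    exact ⟨a i, Or.inl (hKn i hi)⟩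
  · intro i hi
    refine ⟨f i, ⟨(hC.fo i hi).1, (hC.fo i hi).2, ?_⟩, ?_⟩
    · intro j hj l hl hjl
      by_cases h : i = j
      · right
        exact hC.fc i hi l hl fun h2 => hjl (h.symm.trans h2)
      · left
        exact hC.fc i hi j hj h
    · intro h
      exact (hC.ed i hi).2.2.2.2 (h (b i) (Or.inl (hC.ed i hi).2.1))
  · intro i hi u hu
    exact Dw_miss hu
  · intro i hi u hu hw
    rcases hw with hw | hw
    · exact hu.1.2.1 i hi hw
    · -- `u` is complete to some cell
      have h1 : Re G n K Q u := hw.1.1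
      rcases hu.1.2.2 0 (by omega) 1 (by omega) (by omega) with h2 | h2
      · exact h1.2.2 0 (by omega) (a 0) (hKn 0 (by omega)) (h2 _ (hKn 0 (by omega)))
      · exact h1.2.2 1 (by omega) (a 1) (hKn 1 (by omega)) (h2 _ (hKn 1 (by omega)))
  · intro i hi j hj hij x hx y hy
    rcases hx with hx | hx
    · rcases hy with hy | hy
      · exact hC.ant i hi j hj hij x hx y hy
      · have h1 : Re G n K Q y := hy.1.1
        refine ⟨?_, fun h => h1.2.2 i hi x hx h.symm⟩
        rintro rfl
        exact h1.2.1 i hi hx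
    · have h1 : Re G n K Q x := hx.1.1
      rcases hy with hy | hy
      · refine ⟨?_, fun h => h1.2.2 j hj y hy h⟩
        rintro rfl
        exact h1.2.1 j hj hy
      · have h2 : ¬ Om G n K Q i y := fun h => hij (hOm i hi j hj y h hy)
        refine ⟨?_, fun h => hDd'.2 i hi x hx y hy.1 h2 h.symm⟩
        rintro rfl
        exact h2 hx
  · intro i hi j hj hij u hu w hw
    exact claim i hi j hj hij u hu w hw
  · intro v hvQ hv
    have hvK : ∀ i < n, v ∉ K i := fun i hi h => (hv i hi).1 (Or.inl h)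
    rcases hC.out v hvQ hvK with h1 | h1
    · have hRe : Re G n K Q v := ⟨hvQ, hvK, h1⟩
      right
      rcases hDa' v hRe with h2 | h2
      · -- `R1 v`
        have hvO : ∀ i < n, ¬ Om G n K Q i v := fun i hi h => (hv i hi).1 (Or.inr h)
        refine ⟨?_, Or.inl ?_⟩
        · rintro i hi w (hw | hw)
          · exact h1 i hi w hw
          · exact hDd'.2 i hi w hw v h2 (hvO i hi)
        · intro i hi u hu
          by_cases hall : ∀ l < n, Cpl G u (K l)
          · obtain ⟨r, hr, hur⟩ := Dw_missOm hu (hall i hi)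
            exact ((hDe' u hu.1 hall r hr.1 hur).2 i hi hr v h2 (hvO i hi)).symm
          · push Not at hall
            obtain ⟨l, hl, hcl⟩ := hall
            rcases Dw_tri l hu.1 with h3 | h3 | h3
            · exact absurd h3 hcl
            · exact h2.2 l hl u h3
            · by_contra hvu
              exact hvO l hl ⟨h2, u, h3, hvu⟩
      · -- `R0 v`
        refine ⟨?_, Or.inr ?_⟩
        · rintro i hi w (hw | hw)
          · exact h1 i hi w hw
          · exact hDd'.1 v h2 w hw.1
        · intro i hi u hu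
          by_cases hall : ∀ l < n, Cpl G u (K l)
          · obtain ⟨r, hr, hur⟩ := Dw_missOm hu (hall i hi)
            exact fun h => (hDe' u hu.1 hall r hr.1 hur).1 v h2 h.symm
          · push Not at hall
            obtain ⟨l, hl, hcl⟩ := hall
            rcases Dw_tri l hu.1 with h3 | h3 | h3
            · exact absurd h3 hcl
            · exact h2.2 l hl u h3
            · exact hDb' v h2 l hl u h3
    · have hFe : Fe G n K Q v := ⟨hvQ, hvK, h1⟩
      left
      intro i hi w hw
      by_contra hvw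
      exact (hv i hi).2 ⟨hFe, fun h => hvw (h w hw)⟩

end Pool.Agent.MPd439b2.H1R
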