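import Pool.Agent.Lib.MP_d439b2_co.X3.H1R.SpecC
import Pool.Agent.Lib.MP_d439b2_co.ON.JB

/-!
# MP_d439b2_co, X3/H1R/Gk: the second model of `J_t`
-/

set_option autoImplicit false

namespace Pool.Agent.MPd439b2.H1R

open Pool.Agent.MPd439b2
open Pool.Agent.MPd439b2.Rep
open Pool.Agent.MPd439b2.NK
open Pool.Agent.MPd439b2.H1T

private theorem Gk_three {P : ℕ → Prop} (h0 : P 0) (h1 : P 1) (h2 : P 2) : ∀ a < 3, P a := by
  intro a ha
  rcases (by omega : a = 0 ∨ a = 1 ∨ a = 2) with h | h | h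
  · rw [h]; exact h0
  · rw [h]; exact h1
  · rw [h]; exact h2

private theorem Gk_tt {V : Type} {G : SimpleGraph V} {a b : V} :
    Tch G {a} {b} ↔ G.Adj a b := by
  constructor
  · rintro ⟨_, rfl, _, rfl, h⟩
    exact h
  · intro h
    exact ⟨_, rfl, _, rfl, h⟩

private theorem Gk_tp {V : Type} {G : SimpleGraph V} {a b c : V} :
    Tch G {a} {b, c} ↔ G.Adj a b ∨ G.Adj a c := by
  constructor
  · rintro ⟨_, rfl, _, (rfl | rfl), h⟩
    · exact Or.inl h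
    · exact Or.inr h
  · rintro (h | h)
    · exact ⟨_, rfl, _, Or.inl rfl, h⟩
    · exact ⟨_, rfl, _, Or.inr rfl, h⟩

private theorem Gk_dp {V : Type} {a b c : V} (h1 : a ≠ b) (h2 : a ≠ c) :
    Disjoint ({a} : Set V) {b, c} := by
  rw [Set.disjoint_singleton_left]
  rintro (h | h)
  · exact h1 h
  · exact h2 h

theorem rGk : S_Gk := by
  intro V G n t W E Q hC hJ hE x v p p' hx hne hv hp hp' hpp hxp hcon
  obtain ⟨u, hu⟩ := hC.en p hp
  obtain ⟨z, hz, huz⟩ := hC.ew p hp u hu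
  obtain ⟨z', hz'⟩ := hC.wn p' hp'
  have : Nonempty V := ⟨u⟩
  choose! e he hev using hcon
  have hw : ∀ k < t, ∃ w ∈ W (x k), ¬ G.Adj (e k) w := fun k hk =>
    hC.ew _ (hx k hk).1 _ (he k hk)
  choose! w hw hew using hw
  -- adjacencies and non-adjacencies
  have ez : ∀ k < t, G.Adj (e k) z := fun k hk =>
    hC.ec _ (hx k hk).1 p hp (hxp k hk).1.symm _ (he k hk) _ hz
  have ez' : ∀ k < t, G.Adj (e k) z' := fun k hk =>
    hC.ec _ (hx k hk).1 p' hp' (hxp k hk).2.symm _ (he k hk) _ hz'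
  have eu : ∀ k < t, G.Adj (e k) u := fun k hk =>
    hE _ (hx k hk).1 p hp (hxp k hk).1.symm _ (he k hk) _ hu
  have uw : ∀ k < t, G.Adj u (w k) := fun k hk =>
    hC.ec p hp _ (hx k hk).1 (hxp k hk).1 _ hu _ (hw k hk)
  have uz' : G.Adj u z' := hC.ec p hp p' hp' hpp _ hu _ hz'
  have vz : ∀ k < t, G.Adj (v k) z := fun k hk => hv k hk p hp _ hz
  have vz' : ∀ k < t, G.Adj (v k) z' := fun k hk => hv k hk p' hp' _ hz'
  have vw : ∀ k < t, ∀ l < t, G.Adj (v k) (w l) := fun k hk l hl =>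
    hv k hk _ (hx l hl).1 _ (hw l hl)
  have ee : ∀ k < t, ∀ l < t, k ≠ l → G.Adj (e k) (e l) := fun k hk l hl hkl =>
    hE _ (hx k hk).1 _ (hx l hl).1 (hne k hk l hl hkl).1 _ (he k hk) _ (he l hl)
  have ew : ∀ k < t, ∀ l < t, k ≠ l → G.Adj (e k) (w l) := fun k hk l hl hkl =>
    hC.ec _ (hx k hk).1 _ (hx l hl).1 (hne k hk l hl hkl).1 _ (he k hk) _ (hw l hl)
  have zz : z ≠ z' ∧ ¬ G.Adj z z' := hC.ww p hp p' hp' hpp _ hz _ hz'
  have zw : ∀ k < t, z ≠ w k := fun k hk =>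
    (hC.ww p hp _ (hx k hk).1 (hxp k hk).1 _ hz _ (hw k hk)).1
  have zw' : ∀ k < t, z' ≠ w k := fun k hk =>
    (hC.ww p' hp' _ (hx k hk).1 (hxp k hk).2 _ hz' _ (hw k hk)).1
  have ww : ∀ k < t, ∀ l < t, k ≠ l → w k ≠ w l := fun k hk l hl hkl =>
    (hC.ww _ (hx k hk).1 _ (hx l hl).1 (hne k hk l hl hkl).1 _ (hw k hk) _ (hw l hl)).1
  have vW : ∀ k < t, ∀ i < n, ∀ y ∈ W i, y ≠ v k := fun k hk i hi y hy h =>
    ((hx k hk).2 i hi).1 (h ▸ hy)
  have vE : ∀ k < t, ∀ i < n, ∀ y ∈ E i, y ≠ v k := fun k hk i hi y hy h =>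
    ((hx k hk).2 i hi).2 (h ▸ hy)
  refine hJ (ON.oJB t V G (fun a => match a with | 0 => {z} | 1 => {u} | _ => {z'})
    (fun k => {e k}) (fun k => {v k, w k}) ?_ ?_ ?_ ?_ ?_ ?_ ?_ ?_ ?_ ?_ ?_ ?_)
  · exact Gk_three (Conn.singleton _ _) (Conn.singleton _ _) (Conn.singleton _ _)
  · exact fun k hk => ⟨Conn.singleton _ _, Conn.pair (vw k hk k hk)⟩
  · have h01 : Disjoint ({z} : Set V) {u} := Set.disjoint_singleton.2 fun h =>
      hC.we p hp u hu (h ▸ hz)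
    have h02 : Disjoint ({z} : Set V) {z'} := Set.disjoint_singleton.2 zz.1
    have h12 : Disjoint ({u} : Set V) {z'} := Set.disjoint_singleton.2 uz'.ne
    exact Gk_three (Gk_three (fun h => absurd rfl h) (fun _ => h01) fun _ => h02)
      (Gk_three (fun _ => h01.symm) (fun h => absurd rfl h) fun _ => h12)
      (Gk_three (fun _ => h02.symm) (fun _ => h12.symm) fun h => absurd rfl h)
  · refine Gk_three (fun k hk => ?_) (fun k hk => ?_) fun k hk => ?_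
    · exact ⟨Set.disjoint_singleton.2 (ez k hk).ne', Gk_dp (vz k hk).ne' (zw k hk)⟩
    · exact ⟨Set.disjoint_singleton.2 (eu k hk).ne', Gk_dp (vE k hk p hp u hu) (uw k hk).ne⟩
    · exact ⟨Set.disjoint_singleton.2 (ez' k hk).ne', Gk_dp (vz' k hk).ne' (zw' k hk)⟩
  · exact fun k hk => Gk_dp (vE k hk _ (hx k hk).1 _ (he k hk)) fun h =>
      hC.we _ (hx k hk).1 _ (he k hk) (h ▸ hw k hk)
  · intro k hk l hl hkl
    refine ⟨Set.disjoint_singleton.2 (ee k hk l hl hkl).ne,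
      Gk_dp (vE l hl _ (hx k hk).1 _ (he k hk)) (ew k hk l hl hkl).ne, ?_⟩
    rw [Set.insert_eq, Set.disjoint_union_left]
    exact ⟨Gk_dp (hne k hk l hl hkl).2 (vw k hk l hl).ne,
      Gk_dp (vw l hl k hk).ne' (ww k hk l hl hkl)⟩
  · exact fun h => huz (Gk_tt.1 h).symm
  · exact fun h => zz.2 (Gk_tt.1 h)
  · exact Gk_tt.2 uz'
  · refine Gk_three (fun k hk => ?_) (fun k hk => ?_) fun k hk => ?_
    · exact ⟨Gk_tt.2 (ez k hk).symm, Gk_tp.2 (Or.inl (vz k hk).symm)⟩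
    · exact ⟨Gk_tt.2 (eu k hk).symm, Gk_tp.2 (Or.inr (uw k hk))⟩
    · exact ⟨Gk_tt.2 (ez' k hk).symm, Gk_tp.2 (Or.inl (vz' k hk).symm)⟩
  · intro k hk h
    rcases Gk_tp.1 h with h1 | h1
    · exact hev k hk h1
    · exact hew k hk h1
  · intro k hk l hl hkl
    exact ⟨Gk_tt.2 (ee k hk l hl hkl), Gk_tp.2 (Or.inr (ew k hk l hl hkl)),
      ⟨v k, Or.inl rfl, w l, Or.inr rfl, vw k hk l hl⟩⟩

end Pool.Agent.MPd439b2.H1R
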