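import Pool.Agent.Lib.MP_d439b2_co.X3.H1R.SpecC

/-!
# MP_d439b2_co, X3/H1R: `S_Gm`
-/

set_option autoImplicit false

namespace Pool.Agent.MPd439b2.H1R

open Pool.Agent.MPd439b2
open Pool.Agent.MPd439b2.Rep
open Pool.Agent.MPd439b2.NK
open Pool.Agent.MPd439b2.H1T

theorem rGm : S_Gm := by
  classical
  intro α γ R t
  induction t with
  | zero =>
    by_cases hα : Nonempty α
    · by_cases hγ : Nonempty γ
      · left
        exact ⟨fun _ => hα.some, fun _ => hγ.some, fun i hi => absurd hi (Nat.not_lt_zero _),
          fun i hi => absurd hi (Nat.not_lt_zero _)⟩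
      · right
        exact ⟨∅, ∅, by simp, by simp, fun _ v => absurd ⟨v⟩ hγ⟩
    · right
      exact ⟨∅, ∅, by simp, by simp, fun u _ => absurd ⟨u⟩ hα⟩
  | succ t ih =>
    rcases ih with ⟨x, y, h1, h2⟩ | ⟨A, B, hA, hB, h⟩
    · by_cases hex : ∃ u v, R u v ∧ (∀ i < t, x i ≠ u) ∧ ∀ i < t, y i ≠ v
      · obtain ⟨u, v, huv, hu, hv⟩ := hex
        left
        refine ⟨fun i => if i < t then x i else u, fun i => if i < t then y i else v, ?_, ?_⟩
        · intro i hi
          by_cases hit : i < t
          · simp only [hit, if_true]
            exact h1 i hit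
          · simp only [hit, if_false]
            exact huv
        · intro i hi j hj hij
          by_cases hit : i < t
          · by_cases hjt : j < t
            · simp only [hit, hjt, if_true]
              exact h2 i hit j hjt hij
            · simp only [hit, hjt, if_true, if_false]
              exact ⟨hu i hit, hv i hit⟩
          · by_cases hjt : j < t
            · simp only [hit, hjt, if_true, if_false]
              exact ⟨(hu j hjt).symm, (hv j hjt).symm⟩
            · omega
      · right
        refine ⟨(Finset.range t).image x, (Finset.range t).image y, ?_, ?_, ?_⟩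
        · exact (Finset.card_image_le).trans (by simp)
        · exact (Finset.card_image_le).trans (by simp)
        · intro u v huv
          by_contra hcon
          rw [not_or] at hcon
          refine hex ⟨u, v, huv, fun i hi h => hcon.1 ?_, fun i hi h => hcon.2 ?_⟩
          · exact Finset.mem_image.2 ⟨i, Finset.mem_range.2 hi, h⟩
          · exact Finset.mem_image.2 ⟨i, Finset.mem_range.2 hi, h⟩
    · right
      exact ⟨A, B, by omega, by omega, h⟩

end Pool.Agent.MPd439b2.H1R
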