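import Pool.Agent.Lib.MP_d439b2_co.X3.H1R.SpecC

/-! # MP_d439b2_co, X3/H1R: matchings and covers in a graph on the indices (`rGn`) (helper99) -/

set_option autoImplicit false

namespace Pool.Agent.MPd439b2.H1R

open Pool.Agent.MPd439b2
open Pool.Agent.MPd439b2.Rep
open Pool.Agent.MPd439b2.NK
open Pool.Agent.MPd439b2.H1T

theorem rGn : S_Gn := by
  classical
  intro R S t hR
  induction t with
  | zero =>
    left
    exact ⟨id, id, fun i hi => absurd hi (by omega), fun i hi => absurd hi (by omega),
      fun i hi => absurd hi (by omega)⟩
  | succ t ih =>
    rcases ih with ⟨x, y, h1, h2, h3⟩ | ⟨A, hA, h⟩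
    · let A : Finset ℕ := (Finset.range t).image x ∪ (Finset.range t).image y
      have hAc : A.card ≤ 2 * t := by
        refine (Finset.card_union_le _ _).trans ?_
        have e1 : ((Finset.range t).image x).card ≤ t := by
          simpa using Finset.card_image_le (s := Finset.range t) (f := x)
        have e2 : ((Finset.range t).image y).card ≤ t := by
          simpa using Finset.card_image_le (s := Finset.range t) (f := y)
        omega
      have hx : ∀ i < t, x i ∈ A := fun i hi =>
        Finset.mem_union_left _ (Finset.mem_image_of_mem _ (Finset.mem_range.2 hi))
      have hy : ∀ i < t, y i ∈ A := fun i hi =>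
        Finset.mem_union_right _ (Finset.mem_image_of_mem _ (Finset.mem_range.2 hi))
      by_cases hex : ∃ i ∈ S, ∃ j ∈ S, R i j ∧ i ∉ A ∧ j ∉ A
      · obtain ⟨a, ha, b, hb, hab, haA, hbA⟩ := hex
        left
        refine ⟨Function.update x t a, Function.update y t b, ?_, ?_, ?_⟩
        · intro i hi
          rcases Nat.lt_succ_iff_lt_or_eq.1 hi with h | rfl
          · rw [Function.update_of_ne h.ne, Function.update_of_ne h.ne]
            exact h1 i h
          · rw [Function.update_self, Function.update_self]
            exact ⟨hab, ha, hb⟩
        · intro i hi j hj hij
          rcases Nat.lt_succ_iff_lt_or_eq.1 hi with h | rfl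
          · rcases Nat.lt_succ_iff_lt_or_eq.1 hj with h' | rfl
            · rw [Function.update_of_ne h.ne, Function.update_of_ne h.ne,
                Function.update_of_ne h'.ne, Function.update_of_ne h'.ne]
              exact h2 i h j h' hij
            · rw [Function.update_of_ne h.ne, Function.update_of_ne h.ne,
                Function.update_self, Function.update_self]
              exact ⟨fun h4 => haA (h4 ▸ hx i h), fun h4 => hbA (h4 ▸ hy i h)⟩
          · rcases Nat.lt_succ_iff_lt_or_eq.1 hj with h' | rfl
            · rw [Function.update_of_ne h'.ne, Function.update_of_ne h'.ne,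
                Function.update_self, Function.update_self]
              exact ⟨fun h4 => haA (h4 ▸ hx j h'), fun h4 => hbA (h4 ▸ hy j h')⟩
            · exact absurd rfl hij
        · intro i hi j hj
          rcases Nat.lt_succ_iff_lt_or_eq.1 hi with h | rfl
          · rcases Nat.lt_succ_iff_lt_or_eq.1 hj with h' | rfl
            · rw [Function.update_of_ne h.ne, Function.update_of_ne h'.ne]
              exact h3 i h j h'
            · rw [Function.update_of_ne h.ne, Function.update_self]
              exact fun h4 => hbA (h4 ▸ hx i h)
          · rcases Nat.lt_succ_iff_lt_or_eq.1 hj with h' | rfl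
            · rw [Function.update_of_ne h'.ne, Function.update_self]
              exact fun h4 => haA (h4 ▸ hy j h')
            · rw [Function.update_self, Function.update_self]
              exact fun h4 => hR a (by
                have h5 := hab
                rw [← h4] at h5
                exact h5)
      · right
        refine ⟨A, by omega, ?_⟩
        intro i hi j hj hij
        by_contra hcon
        exact hex ⟨i, hi, j, hj, hij, fun h => hcon (Or.inl h), fun h => hcon (Or.inr h)⟩
    · right
      exact ⟨A, by omega, h⟩

end Pool.Agent.MPd439b2.H1R
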