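import Pool.Agent.Lib.MP_d439b2_co.X3.H1R.SpecC

/-!
# MP_d439b2_co, X3/H1R/Gr: `CE` for a subfamily (helper10)
-/

set_option autoImplicit false

namespace Pool.Agent.MPd439b2.H1R

open Pool.Agent.MPd439b2 Pool.Agent.MPd439b2.Rep Pool.Agent.MPd439b2.NK Pool.Agent.MPd439b2.H1T

/-- **Gr.** -/
theorem rGr : S_Gr := by
  intro V G n m W E Q σ hC hσ hinj
  refine ⟨fun i hi => hC.wn _ (hσ i hi), fun i hi => hC.en _ (hσ i hi), fun i hi => hC.ew _ (hσ i hi),
    fun i hi => hC.we _ (hσ i hi), fun i hi j hj hij => hC.ww _ (hσ i hi) _ (hσ j hj)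
      fun h => hij (hinj i hi j hj h), fun i hi j hj hij => hC.ec _ (hσ i hi) _ (hσ j hj)
      fun h => hij (hinj i hi j hj h), ?_⟩
  intro v hvQ hv
  by_cases hW : ∃ j < n, v ∈ W j
  · obtain ⟨j, hj, hvj⟩ := hW
    right
    have hne : ∀ i < m, j ≠ σ i := by
      intro i hi h
      exact (hv i hi).1 (h ▸ hvj)
    refine ⟨fun i hi w hw h => (hC.ww j hj _ (hσ i hi) (hne i hi) v hvj w hw).2 h, Or.inl ?_⟩
    intro i hi u hu
    exact (hC.ec _ (hσ i hi) j hj (Ne.symm (hne i hi)) u hu v hvj).symm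
  · by_cases hE : ∃ j < n, v ∈ E j
    · obtain ⟨j, hj, hvj⟩ := hE
      left
      have hne : ∀ i < m, j ≠ σ i := by
        intro i hi h
        exact (hv i hi).2 (h ▸ hvj)
      intro i hi w hw
      exact hC.ec j hj _ (hσ i hi) (hne i hi) v hvj w hw
    · push Not at hW hE
      rcases hC.out v hvQ fun i hi => ⟨hW i hi, hE i hi⟩ with h | ⟨h1, h2 | h2⟩
      · left
        exact fun i hi => h _ (hσ i hi)
      · right
        exact ⟨fun i hi => h1 _ (hσ i hi), Or.inl fun i hi => h2 _ (hσ i hi)⟩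
      · right
        exact ⟨fun i hi => h1 _ (hσ i hi), Or.inr fun i hi => h2 _ (hσ i hi)⟩

end Pool.Agent.MPd439b2.H1R
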