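import Pool.Agent.Lib.MP_d439b2_co.X3.H1R.SpecC

/-!
# MP_d439b2_co, X3/H1R/Gx: the cut
-/

set_option autoImplicit false

namespace Pool.Agent.MPd439b2.H1R

open Pool.Agent.MPd439b2
open Pool.Agent.MPd439b2.Rep
open Pool.Agent.MPd439b2.NK
open Pool.Agent.MPd439b2.H1T

private theorem Gx_enum (S : Finset ℕ) : ∃ σ : ℕ → ℕ, (∀ i < S.card, σ i ∈ S) ∧
    ∀ i < S.card, ∀ j < S.card, σ i = σ j → i = j := by
  refine ⟨fun i => if h : i < S.card then S.orderEmbOfFin rfl ⟨i, h⟩ else 0, ?_, ?_⟩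
  · intro i hi
    simp only [dif_pos hi]
    exact S.orderEmbOfFin_mem rfl _
  · intro i hi j hj h
    simp only [dif_pos hi, dif_pos hj] at h
    have := (S.orderEmbOfFin rfl).injective h
    simpa using this

theorem rGx : S_Gx := by
  classical
  intro hGr hGm hGn hGj hGk V _ G n t a q c₀ W E Q β hC hJ hL hQ hc hm hn
  -- (1)
  obtain ⟨A, hA, hAR⟩ : ∃ A : Finset ℕ, A.card ≤ 2 * t ∧ ∀ i ∈ Finset.range n,
      ∀ j ∈ Finset.range n, (i ≠ j ∧ ∃ u ∈ E i, ∃ v ∈ E j, ¬ G.Adj u v) → i ∈ A ∨ j ∈ A := by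
    rcases hGn (fun i j => i ≠ j ∧ ∃ u ∈ E i, ∃ v ∈ E j, ¬ G.Adj u v) (Finset.range n) t
      (fun i h => h.1 rfl) with ⟨x, y, h1, h2, h3⟩ | h1
    · exfalso
      have hcard : 1 < (Finset.range n \ ((Finset.range t).image x ∪
          (Finset.range t).image y)).card := by
        have h4 := Finset.le_card_sdiff ((Finset.range t).image x ∪ (Finset.range t).image y)
          (Finset.range n)
        have h5 := Finset.card_union_le ((Finset.range t).image x) ((Finset.range t).image y)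
        have h6 : ((Finset.range t).image x).card ≤ t := by
          simpa using Finset.card_image_le (s := Finset.range t) (f := x)
        have h7 : ((Finset.range t).image y).card ≤ t := by
          simpa using Finset.card_image_le (s := Finset.range t) (f := y)
        rw [Finset.card_range] at h4
        omega
      obtain ⟨p, hp, p', hp', hpp⟩ := Finset.one_lt_card.1 hcard
      simp only [Finset.mem_sdiff, Finset.mem_range, Finset.mem_union, Finset.mem_image,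
        not_or, not_exists, not_and] at hp hp'
      exact hGj V G n t W E Q hC hJ x y p p'
        (fun k hk => ⟨Finset.mem_range.1 (h1 k hk).2.1, Finset.mem_range.1 (h1 k hk).2.2⟩)
        h2 h3 hp.1 hp'.1 hpp
        (fun k hk => ⟨fun h => hp.2.1 k hk h.symm, fun h => hp.2.2 k hk h.symm,
          fun h => hp'.2.1 k hk h.symm, fun h => hp'.2.2 k hk h.symm⟩)
        (fun k hk => (h1 k hk).1.2)
    · exact h1
  -- (2)
  set S₁ := Finset.range n \ A with hS₁
  set m₁ := S₁.card with hm₁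
  have hm₁n : n - 2 * t ≤ m₁ := by
    have := Finset.le_card_sdiff A (Finset.range n)
    rw [Finset.card_range, ← hS₁] at this
    omega
  obtain ⟨σ, hσ, hσi⟩ := Gx_enum S₁
  have hσn : ∀ i < m₁, σ i < n := fun i hi =>
    Finset.mem_range.1 (Finset.mem_sdiff.1 (hσ i hi)).1
  have hC' : CE G m₁ (fun i => W (σ i)) (fun i => E (σ i)) Q := hGr V G n m₁ W E Q σ hC hσn hσi
  set W' : ℕ → Set V := fun i => W (σ i) with hW'
  set E' : ℕ → Set V := fun i => E (σ i) with hE'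
  have hEE : ∀ i < m₁, ∀ j < m₁, i ≠ j → ∀ u ∈ E' i, ∀ v ∈ E' j, G.Adj u v := by
    intro i hi j hj hij u hu v hv
    by_contra huv
    have h1 := hσ i hi
    have h2 := hσ j hj
    rw [hS₁, Finset.mem_sdiff] at h1 h2
    rcases hAR _ h1.1 _ h2.1 ⟨fun h => hij (hσi i hi j hj h), u, hu, v, hv, huv⟩ with h3 | h3
    · exact h1.2 h3
    · exact h2.2 h3
  -- (3)
  obtain ⟨A', B', hA', hB', hAB⟩ : ∃ (A' : Finset ℕ) (B' : Finset V), A'.card ≤ t ∧
      B'.card ≤ t ∧ ∀ i v, (i < m₁ ∧ (∀ i < m₁, v ∉ W' i ∧ v ∉ E' i) ∧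
        (∀ i < m₁, ∀ w ∈ W' i, G.Adj v w) ∧ ∃ u ∈ E' i, ¬ G.Adj u v) → i ∈ A' ∨ v ∈ B' := by
    rcases hGm ℕ V (fun i v => i < m₁ ∧ (∀ i < m₁, v ∉ W' i ∧ v ∉ E' i) ∧
        (∀ i < m₁, ∀ w ∈ W' i, G.Adj v w) ∧ ∃ u ∈ E' i, ¬ G.Adj u v) t with ⟨x, y, h1, h2⟩ | h1
    · exfalso
      have hcard : 1 < (Finset.range m₁ \ (Finset.range t).image x).card := by
        have h4 := Finset.le_card_sdiff ((Finset.range t).image x) (Finset.range m₁)
        have h6 : ((Finset.range t).image x).card ≤ t := by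
          simpa using Finset.card_image_le (s := Finset.range t) (f := x)
        rw [Finset.card_range] at h4
        omega
      obtain ⟨p, hp, p', hp', hpp⟩ := Finset.one_lt_card.1 hcard
      simp only [Finset.mem_sdiff, Finset.mem_range, Finset.mem_image, not_exists,
        not_and] at hp hp'
      exact hGk V G m₁ t W' E' Q hC' hJ hEE x y p p'
        (fun k hk => ⟨(h1 k hk).1, (h1 k hk).2.1⟩) h2 (fun k hk => (h1 k hk).2.2.1)
        hp.1 hp'.1 hpp (fun k hk => ⟨fun h => hp.2 k hk h.symm, fun h => hp'.2 k hk h.symm⟩)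
        (fun k hk => (h1 k hk).2.2.2)
    · exact h1
  set S₂ := Finset.range m₁ \ A' with hS₂
  have hS₂c : 2 * a ≤ S₂.card := by
    have := Finset.le_card_sdiff A' (Finset.range m₁)
    rw [Finset.card_range, ← hS₂] at this
    omega
  obtain ⟨S₃, hS₃, hS₃c⟩ := Finset.exists_subset_card_eq (s := S₂) (n := a) (by omega)
  have hS₂m : ∀ i ∈ S₂, i < m₁ ∧ i ∉ A' := fun i hi => by
    rw [hS₂, Finset.mem_sdiff, Finset.mem_range] at hi
    exact hi
  have hS₃m : ∀ i ∈ S₃, i < m₁ ∧ i ∉ A' := fun i hi => hS₂m i (hS₃ hi)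
  set XW : Set V := ⋃ i ∈ S₃, W' i with hXW
  set XE : Set V := ⋃ i ∈ S₃, E' i with hXE
  have hXWm : ∀ x, x ∈ XW ↔ ∃ i ∈ S₃, x ∈ W' i := by
    intro x; simp [hXW]
  have hXEm : ∀ x, x ∈ XE ↔ ∃ i ∈ S₃, x ∈ E' i := by
    intro x; simp [hXE]
  set Z : Set V := Q ∪ (B' : Set V) with hZ
  set Y : Set V := (XW ∪ XE)ᶜ \ Z with hY
  have hYm : ∀ v ∈ Y, (∀ i ∈ S₃, v ∉ W' i ∧ v ∉ E' i) ∧ v ∉ Q ∧ v ∉ B' := by
    intro v hv
    refine ⟨fun i hi => ⟨fun h => hv.1 (Or.inl ((hXWm v).2 ⟨i, hi, h⟩)),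
      fun h => hv.1 (Or.inr ((hXEm v).2 ⟨i, hi, h⟩))⟩, fun h => hv.2 (Or.inl h),
      fun h => hv.2 (Or.inr (Finset.mem_coe.2 h))⟩
  have r1 : LK.rk G XW Y ≤ 1 := by
    refine rk_col G fun v hv => ?_
    obtain ⟨hv1, hv2, hv3⟩ := hYm v hv
    by_cases h1 : ∃ j < m₁, v ∈ W' j
    · obtain ⟨j, hj, hvj⟩ := h1
      right
      intro x hx
      obtain ⟨i, hi, hxi⟩ := (hXWm x).1 hx
      have hij : i ≠ j := by
        rintro rfl
        exact (hv1 i hi).1 hvj
      exact (hC'.ww i (hS₃m i hi).1 j hj hij x hxi v hvj).2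
    by_cases h2 : ∃ j < m₁, v ∈ E' j
    · obtain ⟨j, hj, hvj⟩ := h2
      left
      intro x hx
      obtain ⟨i, hi, hxi⟩ := (hXWm x).1 hx
      have hij : i ≠ j := by
        rintro rfl
        exact (hv1 i hi).2 hvj
      exact (hC'.ec j hj i (hS₃m i hi).1 hij.symm v hvj x hxi).symm
    push Not at h1 h2
    rcases hC'.out v hv2 (fun i hi => ⟨h1 i hi, h2 i hi⟩) with h3 | h3
    · left
      intro x hx
      obtain ⟨i, hi, hxi⟩ := (hXWm x).1 hx
      exact (h3 i (hS₃m i hi).1 x hxi).symm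
    · right
      intro x hx hxv
      obtain ⟨i, hi, hxi⟩ := (hXWm x).1 hx
      exact h3.1 i (hS₃m i hi).1 x hxi hxv.symm
  have r2 : LK.rk G XE Y ≤ 1 := by
    refine rk_col G fun v hv => ?_
    obtain ⟨hv1, hv2, hv3⟩ := hYm v hv
    by_cases h1 : ∃ j < m₁, v ∈ W' j
    · obtain ⟨j, hj, hvj⟩ := h1
      left
      intro x hx
      obtain ⟨i, hi, hxi⟩ := (hXEm x).1 hx
      have hij : i ≠ j := by
        rintro rfl
        exact (hv1 i hi).1 hvj
      exact hC'.ec i (hS₃m i hi).1 j hj hij x hxi v hvj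
    by_cases h2 : ∃ j < m₁, v ∈ E' j
    · obtain ⟨j, hj, hvj⟩ := h2
      left
      intro x hx
      obtain ⟨i, hi, hxi⟩ := (hXEm x).1 hx
      have hij : i ≠ j := by
        rintro rfl
        exact (hv1 i hi).2 hvj
      exact hEE i (hS₃m i hi).1 j hj hij x hxi v hvj
    push Not at h1 h2
    have hvo : ∀ i < m₁, v ∉ W' i ∧ v ∉ E' i := fun i hi => ⟨h1 i hi, h2 i hi⟩
    rcases hC'.out v hv2 hvo with h3 | ⟨-, h3 | h3⟩
    · left
      intro x hx
      obtain ⟨i, hi, hxi⟩ := (hXEm x).1 hx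
      by_contra hxv
      rcases hAB i v ⟨(hS₃m i hi).1, hvo, h3, x, hxi, hxv⟩ with h4 | h4
      · exact (hS₃m i hi).2 h4
      · exact hv3 h4
    · left
      intro x hx
      obtain ⟨i, hi, hxi⟩ := (hXEm x).1 hx
      exact (h3 i (hS₃m i hi).1 x hxi).symm
    · right
      intro x hx hxv
      obtain ⟨i, hi, hxi⟩ := (hXEm x).1 hx
      exact h3 i (hS₃m i hi).1 x hxi hxv.symm
  have hcr : LK.cr G (XW ∪ XE) ≤ q + t + 2 := by
    have h1 : LK.cr G (XW ∪ XE) ≤ LK.rk G (XW ∪ XE) (Y ∪ Z) := by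
      refine rk_mono G (Set.Subset.refl _) fun x hx => ?_
      by_cases h : x ∈ Z
      · exact Or.inr h
      · exact Or.inl ⟨hx, h⟩
    have h2 := rk_union_right G (XW ∪ XE) Y Z
    have h3 := rk_union G XW XE Y
    have h4 : LK.rk G (XW ∪ XE) Z ≤ q + t := by
      refine (rk_card_right G _ _).trans ((Set.ncard_union_le _ _).trans ?_)
      rw [Set.ncard_coe_finset]
      omega
    omega
  have himg : ∀ I : Finset ℕ, (∀ i ∈ I, i < m₁) → (I.image σ).card = I.card := by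
    intro I hI
    refine Finset.card_image_of_injOn fun i hi j hj h => ?_
    exact hσi i (hI i hi) j (hI j hj) h
  refine link_false hL hc hcr ?_ ?_
  · refine (hm (S₃.image σ) ?_ ?_).trans_le (Set.ncard_le_ncard ?_ (Set.toFinite _))
    · intro i hi
      obtain ⟨j, hj, rfl⟩ := Finset.mem_image.1 hi
      exact hσn j (hS₃m j hj).1
    · rw [himg S₃ fun i hi => (hS₃m i hi).1]
      omega
    · intro x hx
      simp only [Set.mem_iUnion] at hx
      obtain ⟨j, hj, hxj⟩ := hx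
      obtain ⟨i, hi, rfl⟩ := Finset.mem_image.1 hj
      exact Or.inl ((hXWm x).2 ⟨i, hi, hxj⟩)
  · have hI : ∀ i ∈ S₂ \ S₃, i < m₁ := fun i hi => (hS₂m i (Finset.mem_sdiff.1 hi).1).1
    refine (hm ((S₂ \ S₃).image σ) ?_ ?_).trans_le (Set.ncard_le_ncard ?_ (Set.toFinite _))
    · intro i hi
      obtain ⟨j, hj, rfl⟩ := Finset.mem_image.1 hi
      exact hσn j (hI j hj)
    · rw [himg _ hI]
      have := Finset.le_card_sdiff S₃ S₂
      omega
    · intro x hx hxX
      simp only [Set.mem_iUnion] at hx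
      obtain ⟨j', hj', hxj⟩ := hx
      obtain ⟨j, hj, rfl⟩ := Finset.mem_image.1 hj'
      have hj1 := hI j hj
      have hj2 := (Finset.mem_sdiff.1 hj).2
      rcases hxX with hxX | hxX
      · obtain ⟨i, hi, hxi⟩ := (hXWm x).1 hxX
        have hij : i ≠ j := by
          rintro rfl
          exact hj2 hi
        exact (hC'.ww i (hS₃m i hi).1 j hj1 hij x hxi x hxj).1 rfl
      · obtain ⟨i, hi, hxi⟩ := (hXEm x).1 hxX
        have hij : i ≠ j := by
          rintro rfl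
          exact hj2 hi
        exact (hC'.ec i (hS₃m i hi).1 j hj1 hij x hxi x hxj).ne rfl

end Pool.Agent.MPd439b2.H1R
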