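import Pool.Agent.Lib.MP_d439b2_co.X3.H1R.SpecR

/-!
# MP_d439b2_co, X3/H1R/Hu: havens
-/

set_option autoImplicit false

namespace Pool.Agent.MPd439b2.H1R

open Pool.Agent.MPd439b2
open Pool.Agent.MPd439b2.Rep
open Pool.Agent.MPd439b2.NK
open Pool.Agent.MPd439b2.H1T

theorem rHu : S_Hu := by
  intro V _ G S w hS hw hU X hX
  have hSX : (S ∩ X).ncard ≤ X.ncard := Set.ncard_le_ncard Set.inter_subset_right (Set.toFinite _)
  -- the two sides of a closed set
  have side : ∀ P : Set V, Disjoint P X → (∀ u ∈ P, ∀ v, G.Adj u v → v ∈ P ∨ v ∈ X) →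
      S.ncard ≤ 4 * (S ∩ P).ncard → 4 * (S ∩ (P ∪ X)ᶜ).ncard < S.ncard := by
    intro P hd hc h4
    have hsep : RG.Sepa G P X (P ∪ X)ᶜ := {
      cov := Set.union_compl_self _
      pz := hd
      pr := Set.disjoint_left.2 fun x hx h' => h' (Or.inl hx)
      zr := Set.disjoint_left.2 fun x hx h' => h' (Or.inr hx)
      far := fun p hp r hr h' => hr (hc p hp r h') }
    rcases hU P X (P ∪ X)ᶜ hsep hX with h | h
    · omega
    · exact h
  have tot : ∀ P : Set V, S.ncard ≤ (S ∩ P).ncard + (S ∩ X).ncard + (S ∩ (P ∪ X)ᶜ).ncard := by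
    intro P
    have h1 : S ⊆ ((S ∩ P) ∪ (S ∩ X)) ∪ (S ∩ (P ∪ X)ᶜ) := by
      intro x hx
      by_cases h2 : x ∈ P
      · exact Or.inl (Or.inl ⟨hx, h2⟩)
      · by_cases h3 : x ∈ X
        · exact Or.inl (Or.inr ⟨hx, h3⟩)
        · exact Or.inr ⟨hx, fun h4 => h4.elim h2 h3⟩
    have h2 := Set.ncard_le_ncard h1 (Set.toFinite _)
    have h3 := Set.ncard_union_le ((S ∩ P) ∪ (S ∩ X)) (S ∩ (P ∪ X)ᶜ)
    have h4 := Set.ncard_union_le (S ∩ P) (S ∩ X)
    omega
  have key : ∀ (m : ℕ) (P : Set V), P.ncard ≤ m → Disjoint P X →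
      (∀ u ∈ P, ∀ v, G.Adj u v → v ∈ P ∨ v ∈ X) → S.ncard ≤ 4 * (S ∩ P).ncard →
      ∃ C, Conn G C ∧ Disjoint C X ∧ S.ncard < 2 * (S ∩ C).ncard := by
    intro m
    induction m with
    | zero =>
      intro P hP hd hc h4
      exfalso
      have h1 := Set.ncard_le_ncard (Set.inter_subset_right (s := S) (t := P)) (Set.toFinite _)
      omega
    | succ m ih =>
      intro P hP hd hc h4
      have h5 := side P hd hc h4
      have h6 := tot P
      by_cases hcon : Conn G P
      · exact ⟨P, hcon, hd, by omega⟩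
      · have hne : P.Nonempty := by
          rw [Set.nonempty_iff_ne_empty]
          rintro rfl
          rw [Set.inter_empty, Set.ncard_empty] at h4
          omega
        obtain ⟨C, hCP, hCc, hCne, hCn⟩ := exists_comp_of_not_conn hne hcon
        have hlt : C.ncard < P.ncard := Set.ncard_lt_ncard (hCP.ssubset_of_ne hCne) (Set.toFinite _)
        have hlt' : (P \ C).ncard < P.ncard := by
          refine Set.ncard_lt_ncard (Set.sdiff_subset.ssubset_of_ne ?_) (Set.toFinite _)
          intro h7
          obtain ⟨x, hx⟩ := hCc.1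
          have h8 : x ∈ P \ C := by
            rw [h7]
            exact hCP hx
          exact h8.2 hx
        by_cases h7 : S.ncard ≤ 4 * (S ∩ C).ncard
        · refine ih C (by omega) (Set.disjoint_of_subset_left hCP hd) (fun u hu v huv => ?_) h7
          rcases hc u (hCP hu) v huv with h8 | h8
          · left
            by_contra h9
            exact hCn v h8 ⟨h9, u, hu, huv⟩
          · exact Or.inr h8
        · by_cases h8 : S.ncard ≤ 4 * (S ∩ (P \ C)).ncard
          · refine ih (P \ C) (by omega) (Set.disjoint_of_subset_left Set.sdiff_subset hd)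
              (fun u hu v huv => ?_) h8
            rcases hc u hu.1 v huv with h9 | h9
            · left
              refine ⟨h9, fun h10 => hCn u hu.1 ⟨hu.2, v, h10, huv.symm⟩⟩
            · exact Or.inr h9
          · exfalso
            have h9 : S ∩ P ⊆ (S ∩ C) ∪ (S ∩ (P \ C)) := by
              intro x hx
              by_cases h10 : x ∈ C
              · exact Or.inl ⟨hx.1, h10⟩
              · exact Or.inr ⟨hx.1, hx.2, h10⟩
            have h10 := Set.ncard_le_ncard h9 (Set.toFinite _)
            have h11 := Set.ncard_union_le (S ∩ C) (S ∩ (P \ C))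
            omega
  refine key _ Xᶜ le_rfl ?_ (fun u _ v _ => ?_) ?_
  · rw [Set.disjoint_left]
    exact fun x hx h => hx h
  · by_cases h : v ∈ X
    · exact Or.inr h
    · exact Or.inl h
  · have h1 := tot Xᶜ
    have h2 : S ∩ (Xᶜ ∪ X)ᶜ = ∅ := by
      rw [Set.compl_union_self, Set.compl_univ, Set.inter_empty]
    rw [h2, Set.ncard_empty] at h1
    omega

end Pool.Agent.MPd439b2.H1R
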