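import Pool.Agent.Lib.MP_d439b2_co.X3.H1R.SpecR

/-!
# MP_d439b2_co, X3/H1R, K1: minimal linkages do not meet free branch sets
-/

set_option autoImplicit false

namespace Pool.Agent.MPd439b2.H1R

open Pool.Agent.MPd439b2
open Pool.Agent.MPd439b2.Rep
open Pool.Agent.MPd439b2.NK
open Pool.Agent.MPd439b2.H1T

theorem rK1 : S_K1 := by
  classical
  intro hT1 V t q G B hB x
  constructor
  · rintro ⟨L, y, c, m, h⟩
    have hex : ∃ s : ℕ, ∃ (L : Fin q → Set V) (y : Fin q → V) (c : Fin q → ℕ)
        (m : Fin q → Fin t), Lg G B x L y c m ∧ ∑ i, c i = s := ⟨_, L, y, c, m, h, rfl⟩
    obtain ⟨L0, y0, c0, m0, h0, hs⟩ := Nat.find_spec hex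
    refine ⟨L0, y0, c0, m0, h0, fun L' y' c' m' h' => ?_⟩
    rw [hs]
    exact Nat.find_min' hex ⟨L', y', c', m', h', rfl⟩
  · rintro L y c m ⟨h, hmin⟩ l j hj w hw hwj
    have hyl : y l ∉ B j := fun h1 => Set.disjoint_left.1 (hB (m l) j (hj l)) (h.ym l) h1
    obtain ⟨L', hL', c', hc', hT, hlt⟩ := (hT1 V t G B hB (x l) (L l) (y l) (c l) (h.tl l)).2 w hw
    have hlt' : c' < c l := hlt j hwj hyl
    have hnew : Lg G B x (Function.update L l L') (Function.update y l w)
        (Function.update c l c') (Function.update m l j) := by
      refine ⟨?_, ?_, ?_, ?_⟩
      · intro i
        by_cases hi : i = l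
        · subst hi
          simpa only [Function.update_self] using hT
        · simpa only [Function.update_of_ne hi] using h.tl i
      · intro i i' hii
        by_cases hi : i = l
        · subst hi
          have hi' : i' ≠ i := fun h1 => hii h1.symm
          simp only [Function.update_self, Function.update_of_ne hi']
          exact (h.dis i i' hii).mono_left hL'
        · by_cases hi' : i' = l
          · subst hi'
            simp only [Function.update_self, Function.update_of_ne hi]
            exact (h.dis i i' hii).mono_right hL'
          · simp only [Function.update_of_ne hi, Function.update_of_ne hi']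
            exact h.dis i i' hii
      · intro i
        by_cases hi : i = l
        · subst hi
          simpa only [Function.update_self] using hwj
        · simpa only [Function.update_of_ne hi] using h.ym i
      · intro i i' hii
        by_cases hi : i = l
        · by_cases hi' : i' = l
          · exact hi.trans hi'.symm
          · exfalso
            subst hi
            rw [Function.update_self, Function.update_of_ne hi'] at hii
            exact hj i' hii.symm
        · by_cases hi' : i' = l
          · exfalso
            subst hi'
            rw [Function.update_self, Function.update_of_ne hi] at hii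
            exact hj i hii
          · rw [Function.update_of_ne hi, Function.update_of_ne hi'] at hii
            exact h.mi hii
    have h1 := hmin _ _ _ _ hnew
    have h2 : ∑ i, Function.update c l c' i < ∑ i, c i := by
      refine Finset.sum_lt_sum (fun i _ => ?_) ⟨l, Finset.mem_univ l, ?_⟩
      · by_cases hi : i = l
        · subst hi
          rw [Function.update_self]
          exact hc'
        · rw [Function.update_of_ne hi]
      · rw [Function.update_self]
        exact hlt'
    omega

end Pool.Agent.MPd439b2.H1R
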