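import Pool.Agent.Lib.MP_d439b2_co.X3.H1R.SpecR

/-!
# MP_d439b2_co, X3/H1R, K2: connectors
-/

set_option autoImplicit false

namespace Pool.Agent.MPd439b2.H1R

open Pool.Agent.MPd439b2
open Pool.Agent.MPd439b2.Rep
open Pool.Agent.MPd439b2.NK
open Pool.Agent.MPd439b2.H1T

theorem rK2 : S_K2 := by
  intro hT1 V t q G B x L y c m hB h i j hj
  have hdis : ∀ i j, i ≠ j → Disjoint (B i) (B j) := fun i j hij => (hB.2 i j hij).1
  obtain ⟨u, hu, v, hv, huv⟩ := (hB.2 (m i) j (hj i)).2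
  by_cases hul : ∃ l, u ∈ L l
  · obtain ⟨l, hl⟩ := hul
    refine ⟨l, {u}, u, Set.singleton_subset_iff.2 hu, Conn.singleton G u, rfl, hl, ?_, u, rfl, v,
      hv, huv⟩
    intro z hz l' _
    exact hz
  · push Not at hul
    have huA : u ∈ {z | z ∈ B (m i) ∧ ∀ l, z ∉ L l} := ⟨hu, hul⟩
    obtain ⟨C, hCA, huC, hC, hnb⟩ := exists_comp G huA
    have hyL : y i ∈ L i :=
      (hT1 V t G B hdis (x i) (L i) (y i) (c i) (h.tl i)).1.2.2
    have hne : C ≠ B (m i) := by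
      intro h1
      have h2 : y i ∈ C := by rw [h1]; exact h.ym i
      exact (hCA h2).2 i hyL
    obtain ⟨b, hb, a, ha, hab⟩ := (hB.1 (m i)).2 C (fun z hz => (hCA hz).1) ⟨u, huC⟩ hne
    have hal : ∃ l, a ∈ L l := by
      by_contra hcon
      push Not at hcon
      exact hnb a ⟨ha.1, hcon⟩ ⟨ha.2, b, hb, hab⟩
    obtain ⟨l, hl⟩ := hal
    refine ⟨l, insert a C, a, Set.insert_subset ha.1 (fun z hz => (hCA hz).1),
      hC.insert ⟨b, hb, hab⟩, Set.mem_insert _ _, hl, ?_, u, Set.mem_insert_of_mem _ huC, v, hv,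
      huv⟩
    intro z hz l' hzl
    rcases Set.mem_insert_iff.1 hz with h1 | h1
    · exact h1
    · exact absurd hzl ((hCA h1).2 l')

end Pool.Agent.MPd439b2.H1R
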