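import Pool.Agent.Lib.MP_d439b2_co.X3.H1R.SpecR

/-!
# MP_d439b2_co, X3/H1R/K3: a path is used by at most two connectors
-/

set_option autoImplicit false

namespace Pool.Agent.MPd439b2.H1R

open Pool.Agent.MPd439b2
open Pool.Agent.MPd439b2.Rep
open Pool.Agent.MPd439b2.NK
open Pool.Agent.MPd439b2.H1T

private theorem k3_side (hT1 : S_T1) (hT3 : S_T3) (hK1 : S_K1) {V : Type} {t q : ℕ}
    {G : SimpleGraph V} {B : Fin t → Set V} {x : Fin q → V} {L : Fin q → Set V} {y : Fin q → V}
    {c : Fin q → ℕ} {m : Fin q → Fin t} (hB : ∀ i j, i ≠ j → Disjoint (B i) (B j))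
    (hM : MLg G B x L y c m) {i l : Fin q} {j : Fin t} {D : Set V} {w : V}
    (hj : ∀ i, m i ≠ j) (hD : Cn G B L m i l j D w) {L' : Set V} (hL' : L' ⊆ L l) {c' : ℕ}
    (hc' : c' + 2 ≤ c l) (hT : Tl G B (x l) L' w c') : False := by
  classical
  obtain ⟨hDB, hDC, hwD, hwL, hDm, u, hu, v, hv, huv⟩ := hD
  obtain ⟨L'', hL'', c'', hc'', hT''⟩ := hT3 hT1 V t G B hB (x l) L' w c' hT (m i) D hDC hDB hwD u hu
  have hK := (hK1 hT1 V t q G B hB x).2 L y c m hM
  have hvL : ∀ i', v ∉ L i' := fun i' h => hK i' j hj v h hv
  have hvD : v ∉ D := fun h => Set.disjoint_left.1 (hB (m i) j (hj i)) (hDB h) hv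
  have hvL'' : v ∉ L'' := by
    intro h
    rcases hL'' h with h1 | h1
    · exact hvL l (hL' h1)
    · exact hvD h1
  have hN : Tl G B (x l) (insert v L'') v (c'' + 1) := Tl.diff hT'' huv hvL''
  have hdl : ∀ i', i' ≠ l → Disjoint (insert v L'') (L i') := by
    intro i' hi'
    rw [Set.disjoint_left]
    intro z hz hz'
    rcases hz with hz | hz
    · exact hvL i' (hz ▸ hz')
    · rcases hL'' hz with h1 | h1
      · exact Set.disjoint_left.1 (hM.1.dis l i' hi'.symm) (hL' h1) hz'
      · have h2 := hDm z h1 i' hz'
        rw [h2] at hz'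
        exact Set.disjoint_left.1 (hM.1.dis l i' hi'.symm) hwL hz'
  have hLg : Lg G B x (Function.update L l (insert v L'')) (Function.update y l v)
      (Function.update c l (c'' + 1)) (Function.update m l j) := by
    refine ⟨?_, ?_, ?_, ?_⟩
    · intro a
      by_cases ha : a = l
      · subst ha
        rw [Function.update_self, Function.update_self, Function.update_self]
        exact hN
      · rw [Function.update_of_ne ha, Function.update_of_ne ha, Function.update_of_ne ha]
        exact hM.1.tl a
    · intro a b hab
      by_cases ha : a = l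
      · subst ha
        rw [Function.update_self, Function.update_of_ne hab.symm]
        exact hdl b hab.symm
      · by_cases hb : b = l
        · subst hb
          rw [Function.update_self, Function.update_of_ne ha]
          exact (hdl a ha).symm
        · rw [Function.update_of_ne ha, Function.update_of_ne hb]
          exact hM.1.dis a b hab
    · intro a
      by_cases ha : a = l
      · subst ha
        rw [Function.update_self, Function.update_self]
        exact hv
      · rw [Function.update_of_ne ha, Function.update_of_ne ha]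
        exact hM.1.ym a
    · intro a b hab
      by_cases ha : a = l
      · by_cases hb : b = l
        · rw [ha, hb]
        · exfalso
          subst ha
          rw [Function.update_self, Function.update_of_ne hb] at hab
          exact hj b hab.symm
      · by_cases hb : b = l
        · exfalso
          subst hb
          rw [Function.update_self, Function.update_of_ne ha] at hab
          exact hj a hab
        · rw [Function.update_of_ne ha, Function.update_of_ne hb] at hab
          exact hM.1.mi hab
  have h1 := hM.2 _ _ _ _ hLg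
  have h2 : ∑ a, Function.update c l (c'' + 1) a < ∑ a, c a := by
    refine Finset.sum_lt_sum (fun a _ => ?_) ⟨l, Finset.mem_univ _, ?_⟩
    · by_cases ha : a = l
      · subst ha
        rw [Function.update_self]
        omega
      · rw [Function.update_of_ne ha]
    · rw [Function.update_self]
      omega
  omega

theorem rK3 : S_K3 := by
  intro hT1 hT2 hT3 hK1 V t q G B x L y c m hB hM i i' l j D D' w w' hj hD hD' hii hil hil'
  have hdis : ∀ i j, i ≠ j → Disjoint (B i) (B j) := fun i j h => (hB.2 i j h).1
  have hmm : m i ≠ m i' := fun h => hii (hM.1.mi h)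
  have hy : ∀ a, a ≠ l → y l ∉ B (m a) := fun a ha h =>
    Set.disjoint_left.1 (hdis (m l) (m a) fun h' => ha (hM.1.mi h').symm) (hM.1.ym l) h
  obtain ⟨L', hL', c', hc', h1 | h1⟩ := hT2 hT1 V t G B hdis (x l) (L l) (y l) (c l) (hM.1.tl l) w
    hD.2.2.2.1 w' hD'.2.2.2.1 (m i) (m i') hmm (hD.1 hD.2.2.1) (hD'.1 hD'.2.2.1) (hy i hil)
    (hy i' hil')
  · exact k3_side hT1 hT3 hK1 hdis hM hj hD hL' hc' h1
  · exact k3_side hT1 hT3 hK1 hdis hM hj hD' hL' hc' h1

end Pool.Agent.MPd439b2.H1R
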