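import Pool.Agent.Lib.MP_d439b2_co.NK.SpecR

/-!
# MP_d439b2_co, X3/H1R: two ends of a minimal connected set which touches five letters (helper71)
-/

set_option autoImplicit false

namespace Pool.Agent.MPd439b2.H1R

open Pool.Agent.MPd439b2

/-- a vertex different from `s` whose removal does not disconnect -/
private theorem Lea_leaf {V : Type} {G : SimpleGraph V} [Finite V] {A : Set V} (hA : Conn G A)
    {s : V} (hs : s ∈ A) (hne : A ≠ {s}) : ∃ q ∈ A, q ≠ s ∧ Conn G (A \ {q}) := by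
  classical
  let F : Set (Set V) := {C | C ⊆ A ∧ C ≠ A ∧ s ∈ C ∧ Conn G C}
  have hF : F.Nonempty := ⟨{s}, Set.singleton_subset_iff.2 hs, hne.symm, rfl, Conn.singleton G s⟩
  obtain ⟨C, hC, hmax⟩ := Set.exists_max_image F (fun C => C.ncard) (Set.toFinite _) hF
  obtain ⟨hCA, hCne, hsC, hCc⟩ := hC
  obtain ⟨b, hb, a, ha, hab⟩ := hA.2 C hCA ⟨s, hsC⟩ hCne
  have h1 : Conn G (insert a C) := hCc.insert ⟨b, hb, hab⟩
  have h2 : insert a C = A := by
    by_contra h3
    have h4 := hmax (insert a C) ⟨Set.insert_subset ha.1 hCA, h3, Or.inr hsC, h1⟩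
    rw [Set.ncard_insert_of_notMem ha.2 (Set.toFinite _)] at h4
    omega
  refine ⟨a, ha.1, ?_, ?_⟩
  · rintro rfl
    exact ha.2 hsC
  · have h3 : A \ {a} = C := by
      rw [← h2]
      ext x
      constructor
      · rintro ⟨h4 | h4, h5⟩
        · exact absurd h4 h5
        · exact h4
      · intro h4
        refine ⟨Or.inr h4, ?_⟩
        rintro rfl
        exact ha.2 h4
    rw [h3]
    exact hCc

theorem rLea : NK.S_Lea := by
  intro V _ G τ Y hY h1 h2
  classical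
  let F : Set (Set V) := {C | C ⊆ Y ∧ Conn G C ∧ ∀ a, ∃ u ∈ C, τ u a}
  obtain ⟨Y', hY', hmin⟩ := Set.exists_min_image F (fun C => C.ncard) (Set.toFinite _)
    ⟨Y, subset_rfl, hY, h2⟩
  obtain ⟨hsub, hc, ht⟩ := hY'
  choose u hu hτ using ht
  have hinj : ∀ a b, u a = u b → a = b := fun a b hab =>
    h1 (u a) (hsub (hu a)) a b (hτ a) (by rw [hab]; exact hτ b)
  have hne0 : Y' ≠ {u 0} := by
    intro h
    have h3 : u 1 ∈ ({u 0} : Set V) := h ▸ hu 1
    have := hinj 1 0 h3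
    omega
  obtain ⟨y, hy, -, hyc⟩ := Lea_leaf hc (hu 0) hne0
  have hney : ({y} : Set V) ≠ Y' := by
    intro h
    have h3 : u 1 ∈ ({y} : Set V) := h ▸ hu 1
    have h4 : u 0 ∈ ({y} : Set V) := h ▸ hu 0
    have := hinj 1 0 (h3.trans h4.symm)
    omega
  obtain ⟨b, hb, z, hz, hyz⟩ := hc.2 {y} (Set.singleton_subset_iff.2 hy) ⟨y, rfl⟩ hney
  have hby : b = y := hb
  subst hby
  have hne1 : Y' \ {b} ≠ {z} := by
    intro h
    have key : ∀ a, u a = b ∨ u a = z := by
      intro a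
      by_cases ha : u a = b
      · exact Or.inl ha
      · have h3 : u a ∈ Y' \ {b} := ⟨hu a, ha⟩
        rw [h] at h3
        exact Or.inr h3
    rcases key 0 with h3 | h3 <;> rcases key 1 with h4 | h4 <;> rcases key 2 with h5 | h5
    · exact absurd (hinj 0 1 (h3.trans h4.symm)) (by decide)
    · exact absurd (hinj 0 1 (h3.trans h4.symm)) (by decide)
    · exact absurd (hinj 0 2 (h3.trans h5.symm)) (by decide)
    · exact absurd (hinj 1 2 (h4.trans h5.symm)) (by decide)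
    · exact absurd (hinj 1 2 (h4.trans h5.symm)) (by decide)
    · exact absurd (hinj 0 2 (h3.trans h5.symm)) (by decide)
    · exact absurd (hinj 0 1 (h3.trans h4.symm)) (by decide)
    · exact absurd (hinj 0 1 (h3.trans h4.symm)) (by decide)
  obtain ⟨y', hy', hy'z, hy'c⟩ := Lea_leaf hyc hz hne1
  have hyy' : y' ≠ b := hy'.2
  have e1 : (Y' \ {b}) \ {y'} = Y' \ {b, y'} := by
    ext x
    simp only [Set.mem_diff, Set.mem_singleton_iff, Set.mem_insert_iff, not_or]
    tauto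
  have e2 : insert b ((Y' \ {b}) \ {y'}) = Y' \ {y'} := by
    ext x
    simp only [Set.mem_insert_iff, Set.mem_diff, Set.mem_singleton_iff]
    constructor
    · rintro (rfl | h)
      · exact ⟨hy, hyy'.symm⟩
      · exact ⟨h.1.1, h.2⟩
    · intro h
      by_cases hx : x = b
      · exact Or.inl hx
      · exact Or.inr ⟨⟨h.1, hx⟩, h.2⟩
  have hc2 : Conn G (Y' \ {y'}) := by
    rw [← e2]
    exact hy'c.insert ⟨z, ⟨hz, fun h => hy'z h.symm⟩, hyz.symm⟩
  -- minimality
  have hlt : ∀ w ∈ Y', Conn G (Y' \ {w}) → ∃ p, ∀ x ∈ Y', τ x p → x = w := by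
    intro w hw hwc
    by_contra hcon
    push Not at hcon
    have h3 := hmin (Y' \ {w}) ⟨Set.diff_subset.trans hsub, hwc, fun a => by
      obtain ⟨x, hx, hxa, hxw⟩ := hcon a
      exact ⟨x, ⟨hx, hxw⟩, hxa⟩⟩
    have h4 := Set.ncard_diff_singleton_lt_of_mem hw (Set.toFinite _)
    omega
  obtain ⟨p, hp⟩ := hlt b hy hyc
  obtain ⟨q, hq⟩ := hlt y' hy'.1 hc2
  refine ⟨Y', hsub, b, hy, y', hy'.1, p, q, ?_, fun a => ⟨u a, hu a, hτ a⟩, hyc, hc2,
    by rw [← e1]; exact hy'c, hp, hq⟩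
  rintro rfl
  exact hyy' ((hq _ (hu p) (hτ p)).symm.trans (hp _ (hu p) (hτ p)))

end Pool.Agent.MPd439b2.H1R
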