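import Pool.Agent.Lib.MP_d439b2_co.X3.H1R.SpecR

/-!
# MP_d439b2_co, X3/H1R, Lk (helper59): paths given by functions
-/

set_option autoImplicit false

namespace Pool.Agent.MPd439b2.H1R

open Pool.Agent.MPd439b2
open Pool.Agent.MPd439b2.Rep
open Pool.Agent.MPd439b2.NK
open Pool.Agent.MPd439b2.H1T

private theorem lkTl {V : Type} [DecidableEq V] {t : ℕ} (G : SimpleGraph V) (B : Fin t → Set V)
    (p : ℕ → V) (n : ℕ) (hadj : ∀ i, i < n → G.Adj (p i) (p (i + 1)))
    (hinj : ∀ i, i ≤ n → ∀ j, j ≤ n → p i = p j → i = j) :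
    ∀ s, s ≤ n → Tl G B (p 0) ↑(GT.seg p 0 (s + 1)) (p s) s := by
  intro s
  induction s with
  | zero =>
    intro _
    have e : (↑(GT.seg p 0 (0 + 1)) : Set V) = {p 0} := by
      ext z
      simp [GT.seg]
    rw [e]
    exact Tl.base
  | succ s ih =>
    intro hs
    have h1 := ih (by omega)
    have hn : p (s + 1) ∉ (↑(GT.seg p 0 (s + 1)) : Set V) := by
      intro h
      simp only [GT.seg, Finset.coe_image, Set.mem_image, Finset.coe_Ico, Set.mem_Ico] at h
      obtain ⟨i, hi, hi'⟩ := h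
      have := hinj i (by omega) (s + 1) hs hi'
      omega
    have h2 := Tl.diff h1 (hadj s (by omega)) hn
    have e : (↑(GT.seg p 0 (s + 1 + 1)) : Set V) =
        insert (p (s + 1)) ↑(GT.seg p 0 (s + 1)) := by
      ext z
      simp only [GT.seg, Finset.coe_image, Set.mem_image, Finset.coe_Ico, Set.mem_Ico,
        Set.mem_insert_iff]
      constructor
      · rintro ⟨i, hi, rfl⟩
        rcases (by omega : i = s + 1 ∨ i < s + 1) with h | h
        · left
          rw [h]
        · exact Or.inr ⟨i, ⟨hi.1, h⟩, rfl⟩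
      · rintro (rfl | ⟨i, hi, rfl⟩)
        · exact ⟨s + 1, ⟨by omega, by omega⟩, rfl⟩
        · exact ⟨i, ⟨hi.1, by omega⟩, rfl⟩
    rw [e]
    exact h2

theorem rLk : S_Lk := by
  intro V _ _ t q G B y A n p hy hL
  have hend : ∀ i, ∃ j, y j = p i (n i) := by
    intro i
    have h := (hL.pth i).last
    simpa using h
  choose m hm using hend
  refine ⟨fun i => p i 0, fun i => (hL.pth i).head, fun i => ↑(GT.seg (p i) 0 (n i + 1)),
    fun i => p i (n i), n, m, ?_, ?_, ?_, ?_⟩
  · intro i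
    exact lkTl G B (p i) (n i) (hL.pth i).adj (hL.pth i).inj (n i) le_rfl
  · intro i j hij
    rw [Set.disjoint_left]
    intro z hz hz'
    simp only [GT.seg, Finset.coe_image, Set.mem_image, Finset.coe_Ico, Set.mem_Ico] at hz hz'
    obtain ⟨a, ha, ha'⟩ := hz
    obtain ⟨b, hb, hb'⟩ := hz'
    exact hL.dis i j hij a (by omega) b (by omega) (ha'.trans hb'.symm)
  · intro i
    show p i (n i) ∈ B (m i)
    rw [← hm i]
    exact hy _
  · intro i j hij
    by_contra hne
    exact hL.dis i j hne (n i) le_rfl (n j) le_rfl (by rw [← hm i, ← hm j, hij])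

end Pool.Agent.MPd439b2.H1R
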