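import Pool.Agent.Lib.MP_d439b2_co.X3.H1R.SpecQ

/-!
# MP_d439b2_co, X3/H1R, Ma (helper69): a clique model gives arms
-/

set_option autoImplicit false

namespace Pool.Agent.MPd439b2.H1R

open Pool.Agent.MPd439b2
open Pool.Agent.MPd439b2.Rep
open Pool.Agent.MPd439b2.NK
open Pool.Agent.MPd439b2.H1T

private theorem ma_enum (J : Finset ℕ) (k : ℕ) (hJ : J.card = k) :
    ∃ σ : ℕ → ℕ, (∀ i < k, σ i ∈ J) ∧ ∀ i < k, ∀ j < k, σ i = σ j → i = j := by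
  refine ⟨fun i => if h : i < k then J.orderEmbOfFin hJ ⟨i, h⟩ else 0, fun i hi => ?_,
    fun i hi j hj h => ?_⟩
  · simp only [dif_pos hi]
    exact Finset.orderEmbOfFin_mem J hJ _
  · simp only [dif_pos hi, dif_pos hj] at h
    have h2 := (J.orderEmbOfFin hJ).injective h
    exact congrArg Fin.val h2

theorem rMa : S_Ma := by
  intro hD hMn hMv V _ G k e W T hG hL hC
  obtain ⟨T', hC', hmin⟩ := hMn V G (3 * k + 6) e W T hC
  have hv := hMv V G (3 * k + 6) e W T' hG hL hC' (by omega) hmin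
  have hex : ∀ i, ∃ (q : V) (E : Set V), i < 3 * k + 6 → (q ∈ T' i ∧ E ⊆ T' i ∧ q ∉ E ∧
      Conn G (insert q E) ∧ (∃ x ∈ insert q E, Tc G e x i) ∧
      (E = ∅ ∨ (Conn G E ∧ (∃ x ∈ E, G.Adj q x) ∧ ¬ Tc G e q i)) ∧
      (∀ j < 3 * k + 6, j ≠ i → ∃ y ∈ T' j, G.Adj q y) ∧
      ∀ j < 3 * k + 6, ∀ j' < 3 * k + 6, j ≠ i → j' ≠ i →
        (∃ x ∈ T' i, x ≠ q ∧ ∃ y ∈ T' j, G.Adj x y) →
        (∃ x ∈ T' i, x ≠ q ∧ ∃ y ∈ T' j', G.Adj x y) → j = j') := by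
    intro i
    by_cases hi : i < 3 * k + 6
    · obtain ⟨q, hq, E, hE, h1, h2, h3, h4, h5, h6⟩ := hv i hi
      exact ⟨q, E, fun _ => ⟨hq, hE, h1, h2, h3, h4, h5, h6⟩⟩
    · exact ⟨e false 0, ∅, fun h => absurd h hi⟩
  choose q E hqE using hex
  obtain ⟨J, hJI, hJc, hJR⟩ := hD 1 k (Finset.range (3 * k + 6))
    (fun i j => ∃ x ∈ T' i, x ≠ q i ∧ ∃ y ∈ T' j, G.Adj x y) (by
      intro i hi J hJ hJ'
      rw [Finset.card_le_one]
      intro a ha b hb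
      have hi' := Finset.mem_range.1 hi
      obtain ⟨_, _, _, _, _, _, _, h8⟩ := hqE i hi'
      exact h8 a (Finset.mem_range.1 (hJ ha)) b (Finset.mem_range.1 (hJ hb)) (hJ' a ha).1
        (hJ' b hb).1 (hJ' a ha).2 (hJ' b hb).2) (by rw [Finset.card_range]; omega)
  obtain ⟨σ, hσ, hσi⟩ := ma_enum J k hJc
  have hσl : ∀ i < k, σ i < 3 * k + 6 := fun i hi => Finset.mem_range.1 (hJI (hσ i hi))
  have hne : ∀ i < k, ∀ j < k, i ≠ j → σ i ≠ σ j := fun i hi j hj hij h => hij (hσi i hi j hj h)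
  have hq : ∀ i < k, q (σ i) ∈ T' (σ i) := fun i hi => (hqE _ (hσl i hi)).1
  have hE : ∀ i < k, E (σ i) ⊆ T' (σ i) := fun i hi => (hqE _ (hσl i hi)).2.1
  have hnq : ∀ i < k, q (σ i) ∉ E (σ i) := fun i hi => (hqE _ (hσl i hi)).2.2.1
  have hR : ∀ i < k, ∀ j < k, i ≠ j → ∀ x ∈ T' (σ i), x ≠ q (σ i) → ∀ y ∈ T' (σ j),
      ¬ G.Adj x y := fun i hi j hj hij x hx hxq y hy h =>
    hJR _ (hσ i hi) _ (hσ j hj) (hne i hi j hj hij) ⟨x, hx, hxq, y, hy, h⟩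
  have hEq : ∀ i < k, ∀ x ∈ E (σ i), x ≠ q (σ i) := fun i hi x hx h => hnq i hi (h ▸ hx)
  refine ⟨σ, fun i => q (σ i), fun i => E (σ i), hσl, hσi, ?_⟩
  refine ⟨fun i hi => ?_, fun i hi x hx => ?_, fun i hi j hj hij => ?_, fun i hi j hj => ?_,
    fun i hi j hj hij x hx y hy => ?_, fun i hi j hj => ?_, fun i hi j hj x hx => ?_,
    fun i hi => ?_, fun i hi => ?_, fun i hi => ?_⟩
  · have h1 := hC'.R _ (hσl i hi) _ (hq i hi)
    exact ⟨h1.1, lw_comp h1.2 hσl hσi⟩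
  · have h1 := hC'.R _ (hσl i hi) _ (hE i hi hx)
    exact ⟨h1.1, lw_comp h1.2 hσl hσi⟩
  · obtain ⟨_, _, _, _, _, _, h7, _⟩ := hqE _ (hσl i hi)
    obtain ⟨y, hy, hqy⟩ := h7 (σ j) (hσl j hj) (hne j hj i hi (Ne.symm hij))
    by_cases hyq : y = q (σ j)
    · rw [hyq] at hqy
      exact hqy
    · exact absurd hqy.symm (hR j hj i hi (Ne.symm hij) y hy hyq _ (hq i hi))
  · constructor
    · intro h
      by_cases hij : i = j
      · subst hij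
        exact hnq i hi h
      · exact Set.disjoint_left.1 (hC'.dis _ (hσl i hi) _ (hσl j hj) (hne i hi j hj hij))
          (hq i hi) (hE j hj h)
    · intro hij x hx h
      exact hR j hj i hi (Ne.symm hij) x (hE j hj hx) (hEq j hj x hx) _ (hq i hi) h.symm
  · constructor
    · intro h
      exact Set.disjoint_left.1 (hC'.dis _ (hσl i hi) _ (hσl j hj) (hne i hi j hj hij))
        (hE i hi hx) (hE j hj (h ▸ hy))
    · exact hR i hi j hj hij x (hE i hi hx) (hEq i hi x hx) y (hE j hj hy)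
  · exact ⟨fun s => hC'.np _ (hσl i hi) _ (hσl j hj) _ (hq i hi) s,
      fun hij => hC'.tn _ (hσl i hi) _ (hσl j hj) (hne i hi j hj hij) _ (hq i hi)⟩
  · exact ⟨fun s => hC'.np _ (hσl i hi) _ (hσl j hj) _ (hE i hi hx) s,
      fun hij => hC'.tn _ (hσl i hi) _ (hσl j hj) (hne i hi j hj hij) _ (hE i hi hx)⟩
  · exact (hqE _ (hσl i hi)).2.2.2.1
  · exact (hqE _ (hσl i hi)).2.2.2.2.1
  · exact (hqE _ (hσl i hi)).2.2.2.2.2.1

end Pool.Agent.MPd439b2.H1R
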