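import Pool.Agent.Lib.MP_d439b2_co.X3.H1R.SpecQ

set_option autoImplicit false

namespace Pool.Agent.MPd439b2.H1R

open Pool.Agent.MPd439b2
open Pool.Agent.MPd439b2.Rep
open Pool.Agent.MPd439b2.NK
open Pool.Agent.MPd439b2.H1T

/-- shrinking one set of a clique model -/
private theorem Mn_upd {V : Type} {G : SimpleGraph V} {k : ℕ} {e : Bool → ℕ → V} {W : Set V}
    {T : ℕ → Set V} (h : Cm G k e W T) {i : ℕ} {E : Set V} (hE : E ⊆ T i)
    (hc : Conn G E) (ht : ∃ x ∈ E, Tc G e x i) (ha : ∀ j < k, j ≠ i → Tch G E (T j)) :
    Cm G k e W (Function.update T i E) := by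
  have hs : ∀ j, Function.update T i E j ⊆ T j := by
    intro j
    by_cases hj : j = i
    · subst hj
      rw [Function.update_self]
      exact hE
    · rw [Function.update_of_ne hj]
  refine ⟨?_, ?_, ?_, ?_, ?_, ?_, ?_⟩
  · intro j hj x hx
    exact h.R j hj x (hs j hx)
  · intro j hj
    by_cases hji : j = i
    · subst hji
      rw [Function.update_self]
      exact hc
    · rw [Function.update_of_ne hji]
      exact h.con j hj
  · intro a ha' b hb hab
    exact (h.dis a ha' b hb hab).mono (hs a) (hs b)
  · intro a ha' b hb hab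
    by_cases hai : a = i
    · subst hai
      rw [Function.update_self, Function.update_of_ne (Ne.symm hab)]
      exact ha b hb (Ne.symm hab)
    · by_cases hbi : b = i
      · subst hbi
        rw [Function.update_self, Function.update_of_ne hai]
        obtain ⟨x, hx, y, hy, hxy⟩ := ha a ha' hab
        exact ⟨y, hy, x, hx, hxy.symm⟩
      · rw [Function.update_of_ne hai, Function.update_of_ne hbi]
        exact h.tt a ha' b hb hab
  · intro j hj
    by_cases hji : j = i
    · subst hji
      rw [Function.update_self]
      exact ht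
    · rw [Function.update_of_ne hji]
      exact h.tp j hj
  · intro a ha' b hb hab x hx
    exact h.tn a ha' b hb hab x (hs a hx)
  · intro a ha' b hb x hx
    exact h.np a ha' b hb x (hs a hx)

theorem rMn : S_Mn := by
  intro V _ G k e W T hT
  have hex : ∃ n : ℕ, ∃ T' : ℕ → Set V, Cm G k e W T' ∧
      ∑ i ∈ Finset.range k, (T' i).ncard = n := ⟨_, T, hT, rfl⟩
  classical
  obtain ⟨T', hT', hn⟩ := Nat.find_spec hex
  refine ⟨T', hT', ?_⟩
  intro i hi E hE hne hc ht
  by_contra hcon
  push Not at hcon
  have hup : Cm G k e W (Function.update T' i E) := Mn_upd hT' hE hc ht hcon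
  have hlt : ∑ j ∈ Finset.range k, (Function.update T' i E j).ncard
      < ∑ j ∈ Finset.range k, (T' j).ncard := by
    apply Finset.sum_lt_sum
    · intro j _
      by_cases hj : j = i
      · subst hj
        rw [Function.update_self]
        exact Set.ncard_le_ncard hE (Set.toFinite _)
      · rw [Function.update_of_ne hj]
    · refine ⟨i, Finset.mem_range.2 hi, ?_⟩
      rw [Function.update_self]
      exact Set.ncard_lt_ncard (lt_of_le_of_ne hE hne) (Set.toFinite _)
  rw [hn] at hlt
  exact Nat.find_min hex hlt ⟨_, hup, rfl⟩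

end Pool.Agent.MPd439b2.H1R
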