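import Pool.Agent.Lib.MP_d439b2_co.X3.H1R.SpecQ

/-!
# MP_d439b2_co, X3/H1R/Mv: one vertex of `T i` touches all other sets, the rest touches at most one
-/

set_option autoImplicit false

namespace Pool.Agent.MPd439b2.H1R

open Pool.Agent.MPd439b2
open Pool.Agent.MPd439b2.Rep
open Pool.Agent.MPd439b2.NK
open Pool.Agent.MPd439b2.H1T

section

variable {V : Type} {G : SimpleGraph V} {k : ℕ} {e : Bool → ℕ → V} {W : Set V} {T : ℕ → Set V}

/-- a vertex different from `s` whose removal does not disconnect -/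
private theorem Mv_leaf [Finite V] {A : Set V} (hA : Conn G A) {s : V} (hs : s ∈ A)
    (hne : A ≠ {s}) : ∃ q ∈ A, q ≠ s ∧ Conn G (A \ {q}) := by
  classical
  -- a largest proper connected subset which contains `s`
  let F : Set (Set V) := {C | C ⊆ A ∧ C ≠ A ∧ s ∈ C ∧ Conn G C}
  have hF : F.Nonempty := ⟨{s}, Set.singleton_subset_iff.2 hs, hne.symm, rfl, Conn.singleton G s⟩
  obtain ⟨C, hC, hmax⟩ := Set.exists_max_image F (fun C => C.ncard) (Set.toFinite _) hF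
  obtain ⟨hCA, hCne, hsC, hCc⟩ := hC
  obtain ⟨b, hb, a, ha, hab⟩ := hA.2 C hCA ⟨s, hsC⟩ hCne
  have h1 : Conn G (insert a C) := hCc.insert ⟨b, hb, hab⟩
  have h2 : insert a C = A := by
    by_contra h3
    have h4 := hmax (insert a C) ⟨Set.insert_subset ha.1 hCA, h3, Or.inr hsC, h1⟩
    rw [Set.ncard_insert_of_notMem ha.2 (Set.toFinite _)] at h4
    omega
  refine ⟨a, ha.1, ?_, ?_⟩
  · rintro rfl
    exact ha.2 hsC
  · have h3 : A \ {a} = C := by
      rw [← h2]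
      ext x
      constructor
      · rintro ⟨h4 | h4, h5⟩
        · exact absurd h4 h5
        · exact h4
      · intro h4
        refine ⟨Or.inr h4, ?_⟩
        rintro rfl
        exact ha.2 h4
    rw [h3]
    exact hCc

private theorem Mv_tp (hT : Cm G k e W T) {i : ℕ} (hi : i < k) : Tch G (T i) (Pr e i) :=
  tch_Pr.2 (hT.tp i hi)

private theorem Mv_tn (hT : Cm G k e W T) {i j : ℕ} (hi : i < k) (hj : j < k) (hij : i ≠ j) :
    ¬ Tch G (T i) (Pr e j) := by
  intro h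
  obtain ⟨u, hu, h1⟩ := tch_Pr.1 h
  exact hT.tn i hi j hj hij u hu h1

private theorem Mv_np (hT : Cm G k e W T) {i j : ℕ} (hi : i < k) (hj : j < k) :
    Disjoint (T i) (Pr e j) := by
  rw [Set.disjoint_left]
  rintro x hx ⟨s, rfl⟩
  exact hT.np i hi j hj _ hx s rfl

/-- a connected subset of `T i` does not touch two sets and miss a third one -/
private theorem Mv_model (hG : FH G) (hL : Lt G k e) (hT : Cm G k e W T) {i : ℕ} (hi : i < k)
    {Z : Set V} (hZ : Z ⊆ T i) (hZc : Conn G Z) {j₁ j₂ j₃ : ℕ} (h1 : j₁ < k) (h2 : j₂ < k)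
    (h3 : j₃ < k) (n1 : j₁ ≠ i) (n2 : j₂ ≠ i) (n3 : j₃ ≠ i) (n12 : j₁ ≠ j₂) (t1 : Tch G Z (T j₁))
    (t2 : Tch G Z (T j₂)) (t3 : ¬ Tch G Z (T j₃)) : False := by
  have n13 : j₁ ≠ j₃ := by
    rintro rfl
    exact t3 t1
  have n23 : j₂ ≠ j₃ := by
    rintro rfl
    exact t3 t2
  have dZ : ∀ {j : ℕ}, j < k → j ≠ i → Disjoint (T j) Z := fun hj hji =>
    (hT.dis _ hj i hi hji).mono_right hZ
  have zP : ∀ {j : ℕ}, j < k → j ≠ i → ¬ Tch G (Pr e j) Z := fun hj hji h =>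
    Mv_tn hT hi hj hji.symm (h.symm.mono hZ (Set.Subset.refl _))
  exact mdl hG (hT.con j₁ h1) (hT.con j₃ h3) (hT.con j₂ h2) (hL.conn h1) (hL.conn h3) hZc
    (hT.dis _ h1 _ h3 n13) (hT.dis _ h1 _ h2 n12) (hT.dis _ h3 _ h2 n23.symm)
    (Mv_np hT h1 h1) (Mv_np hT h3 h1) (Mv_np hT h2 h1)
    (Mv_np hT h1 h3) (Mv_np hT h3 h3) (Mv_np hT h2 h3)
    (dZ h1 n1) (dZ h3 n3) (dZ h2 n2)
    (hL.dis h1 h3 n13) ((Mv_np hT hi h1).symm.mono_right hZ)
    ((Mv_np hT hi h3).symm.mono_right hZ)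
    (hT.tt _ h1 _ h3 n13) (hT.tt _ h1 _ h2 n12) (hT.tt _ h3 _ h2 n23.symm)
    (Mv_tp hT h1) (Mv_tn hT h3 h1 n13.symm) (Mv_tn hT h2 h1 n12.symm)
    (Mv_tn hT h1 h3 n13) (Mv_tp hT h3) (Mv_tn hT h2 h3 n23)
    t1.symm (fun h => t3 h.symm) t2.symm
    (hL.ntch h1 h3 n13) (zP h1 n1) (zP h3 n3)

private theorem Mv_pick (hk : 6 ≤ k) (i j : ℕ) : ∃ a < k, ∃ b < k, ∃ c < k, a ≠ i ∧ a ≠ j ∧
    b ≠ i ∧ b ≠ j ∧ c ≠ i ∧ c ≠ j ∧ a ≠ b ∧ a ≠ c ∧ b ≠ c := by
  classical
  have h1 : 2 < ((Finset.range k) \ {i, j}).card := by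
    have h2 := Finset.le_card_sdiff {i, j} (Finset.range k)
    have h3 := Finset.card_le_two (a := i) (b := j)
    rw [Finset.card_range] at h2
    omega
  obtain ⟨a, ha, b, hb, c, hc, hab, hac, hbc⟩ := Finset.two_lt_card.1 h1
  simp only [Finset.mem_sdiff, Finset.mem_range, Finset.mem_insert, Finset.mem_singleton,
    not_or] at ha hb hc
  exact ⟨a, ha.1, b, hb.1, c, hc.1, ha.2.1, ha.2.2, hb.2.1, hb.2.2, hc.2.1, hc.2.2, hab, hac, hbc⟩

end

theorem rMv : S_Mv := by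
  intro V _ G k e W T hG hL hT hk hmin i hi
  obtain ⟨s, hs, hsi⟩ := hT.tp i hi
  by_cases h1 : T i = {s}
  · refine ⟨s, hs, ∅, Set.empty_subset _, Set.notMem_empty s, ?_, ⟨s, Or.inl rfl, hsi⟩,
      Or.inl rfl, ?_, ?_⟩
    · rw [insert_empty_eq]
      exact Conn.singleton G s
    · intro j hj hji
      obtain ⟨x, hx, y, hy, hxy⟩ := hT.tt i hi j hj hji.symm
      rw [h1] at hx
      rw [Set.mem_singleton_iff] at hx
      subst hx
      exact ⟨y, hy, hxy⟩
    · rintro j hj j' hj' hji hji' ⟨x, hx, hxs, _⟩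
      rw [h1] at hx
      exact absurd hx hxs
  · obtain ⟨q, hq, hqs, hE⟩ := Mv_leaf (hT.con i hi) hs h1
    set E := T i \ {q} with hEdef
    have hET : E ⊆ T i := Set.sdiff_subset
    have hEne : E ≠ T i := by
      intro h
      rw [← h] at hq
      exact hq.2 rfl
    have hsE : s ∈ E := ⟨hs, fun h => hqs h.symm⟩
    obtain ⟨j₃, hj₃, hj₃i, ht₃⟩ := hmin i hi E hET hEne hE ⟨s, hsE, hsi⟩
    -- `E` touches at most one
    have hone : ∀ j < k, ∀ j' < k, j ≠ i → j' ≠ i → Tch G E (T j) → Tch G E (T j') → j = j' := by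
      intro j hj j' hj' hji hji' t1 t2
      by_contra hne
      exact Mv_model hG hL hT hi hET hE hj hj' hj₃ hji hji' hj₃i hne t1 t2 ht₃
    have hor : ∀ j < k, j ≠ i → Tch G {q} (T j) ∨ Tch G E (T j) := by
      intro j hj hji
      obtain ⟨x, hx, y, hy, hxy⟩ := hT.tt i hi j hj hji.symm
      by_cases hxq : x = q
      · exact Or.inl ⟨x, hxq, y, hy, hxy⟩
      · exact Or.inr ⟨x, ⟨hx, hxq⟩, y, hy, hxy⟩
    have hqT : ∀ j < k, j ≠ i → Tch G {q} (T j) := by
      intro j hj hji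
      by_contra hcon
      have hqs' : ({q} : Set V) ⊆ T i := Set.singleton_subset_iff.2 hq
      obtain ⟨a, ha, b, hb, c, hc, hai, haj, hbi, hbj, hci, hcj, hab, hac, hbc⟩ := Mv_pick hk i j
      have hm := fun (x y : ℕ) (hx : x < k) (hy : y < k) (hxi : x ≠ i) (hyi : y ≠ i) (hxy : x ≠ y)
        (t1 : Tch G {q} (T x)) (t2 : Tch G {q} (T y)) =>
        Mv_model hG hL hT hi hqs' (Conn.singleton G q) hx hy hj hxi hyi hji hxy t1 t2 hcon
      rcases hor a ha hai with h2 | h2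
      · rcases hor b hb hbi with h3 | h3
        · exact hm a b ha hb hai hbi hab h2 h3
        · rcases hor c hc hci with h4 | h4
          · exact hm a c ha hc hai hci hac h2 h4
          · exact hbc (hone b hb c hc hbi hci h3 h4)
      · rcases hor b hb hbi with h3 | h3
        · rcases hor c hc hci with h4 | h4
          · exact hm b c hb hc hbi hci hbc h3 h4
          · exact hac (hone a ha c hc hai hci h2 h4)
        · exact hab (hone a ha b hb hai hbi h2 h3)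
    have hqT' : ∀ j < k, j ≠ i → ∃ y ∈ T j, G.Adj q y := by
      intro j hj hji
      obtain ⟨x, hx, y, hy, hxy⟩ := hqT j hj hji
      rw [Set.mem_singleton_iff] at hx
      subst hx
      exact ⟨y, hy, hxy⟩
    have hlast : ∀ j < k, ∀ j' < k, j ≠ i → j' ≠ i →
        (∃ x ∈ T i, x ≠ q ∧ ∃ y ∈ T j, G.Adj x y) →
        (∃ x ∈ T i, x ≠ q ∧ ∃ y ∈ T j', G.Adj x y) → j = j' := by
      rintro j hj j' hj' hji hji' ⟨x, hx, hxq, y, hy, hxy⟩ ⟨x', hx', hxq', y', hy', hxy'⟩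
      exact hone j hj j' hj' hji hji' ⟨x, ⟨hx, hxq⟩, y, hy, hxy⟩ ⟨x', ⟨hx', hxq'⟩, y', hy', hxy'⟩
    by_cases hqi : Tc G e q i
    · refine ⟨q, hq, ∅, Set.empty_subset _, Set.notMem_empty q, ?_, ⟨q, Or.inl rfl, hqi⟩,
        Or.inl rfl, hqT', hlast⟩
      rw [insert_empty_eq]
      exact Conn.singleton G q
    · have hins : insert q E = T i := by
        ext x
        constructor
        · rintro (rfl | h)
          · exact hq
          · exact h.1
        · intro h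
          by_cases hx : x = q
          · exact Or.inl hx
          · exact Or.inr ⟨h, hx⟩
      refine ⟨q, hq, E, hET, fun h => h.2 rfl, ?_, ⟨s, Or.inr hsE, hsi⟩,
        Or.inr ⟨hE, ?_, hqi⟩, hqT', hlast⟩
      · rw [hins]
        exact hT.con i hi
      · obtain ⟨b, hb, a, ha, hab⟩ := (hT.con i hi).2 {q} (Set.singleton_subset_iff.2 hq)
          ⟨q, rfl⟩ (by
            intro h
            have : s ∈ ({q} : Set V) := by rw [h]; exact hs
            exact hqs this.symm)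
        rw [Set.mem_singleton_iff] at hb
        subst hb
        exact ⟨a, ha, hab⟩

end Pool.Agent.MPd439b2.H1R
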