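import Pool.Agent.Lib.MP_d439b2_co.X3.H1R.SpecR

/-!
# MP_d439b2_co, X3/H1R/NW: no havens in `G[U]`
-/

set_option autoImplicit false

namespace Pool.Agent.MPd439b2.H1R

open Pool.Agent.MPd439b2
open Pool.Agent.MPd439b2.Rep
open Pool.Agent.MPd439b2.NK
open Pool.Agent.MPd439b2.H1T

theorem rNW : S_NW := by
  intro hRf hWa hWb hCe hMa hQx β
  obtain ⟨K', hK'⟩ := hWb (3 * (2 * β 4 + 10) + 6)
  obtain ⟨w, hw⟩ := hWa (max K' 2)
  refine ⟨w, ?_⟩
  intro V _ G n e W S hF hP hL hR hn hS hh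
  set U : Set V := {v | v ∉ W ∧ Lw G n e v} with hU
  obtain ⟨T, x, hT, hTT⟩ := hw V (Rs G U) S (hRf V G U hF) hh
  have h2 : 2 ≤ max K' 2 := le_max_right _ _
  have hsub : ∀ a < max K' 2, T a ⊆ U := by
    intro a ha
    obtain ⟨b, hb, hab⟩ : ∃ b < max K' 2, a ≠ b := by
      by_cases h : a = 0
      · exact ⟨1, by omega, by omega⟩
      · exact ⟨0, by omega, h⟩
    obtain ⟨u, hu, v, hv, huv⟩ := (hTT a ha b hb hab).2
    exact rs_sub (hT a ha).1 hu huv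
  have hl : ∀ a : ℕ, ∃ l : ℕ, a < max K' 2 → l < n ∧ x a = e false l := by
    intro a
    by_cases ha : a < max K' 2
    · obtain ⟨i, hi, h⟩ := hS (x a) (hT a ha).2.2
      exact ⟨i, fun _ => ⟨hi, h⟩⟩
    · exact ⟨0, fun h => absurd h ha⟩
  choose l hl using hl
  have hlet : ∀ i < n, ∀ s, e s i ∉ W := by
    intro i hi s h
    obtain ⟨r, hr⟩ := hR.half _ h
    exact hr.not_lw (by omega) (hR.lt.lw hi s)
  have hKK : ∀ a, a < K' → a < max K' 2 := fun a ha => ha.trans_le (le_max_left _ _)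
  obtain ⟨s, T', hs, hsi, hCp⟩ := hK' V G n e W l T hF hR.lt hlet
    (fun a ha => by
      have ha' := hKK a ha
      refine ⟨(hl a ha').1, rs_conn (hT a ha').1, ?_, fun y hy => hsub a ha' hy⟩
      rw [← (hl a ha').2]
      exact (hT a ha').2.1)
    (fun a ha b hb hab => ⟨(hTT a (hKK a ha) b (hKK b hb) hab).1,
      rs_tch (hTT a (hKK a ha) b (hKK b hb) hab).2⟩)
  have hR1 := hR.comp hs hsi
  obtain ⟨T'', hCm⟩ := hCe V G (3 * (2 * β 4 + 10) + 6) (fun r i => e r (s i)) W T' hF hR1.lt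
    (by omega) hCp
  obtain ⟨σ, q, E, hσ, hσi, hAr⟩ := hMa V G (2 * β 4 + 10) (fun r i => e r (s i)) W T'' hF hR1.lt
    hCm
  have hR2 := hR1.comp hσ hσi
  exact hQx β V G (2 * β 4 + 10) _ W q E hF hP hL hR2 hAr le_rfl

end Pool.Agent.MPd439b2.H1R
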