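import Pool.Agent.Lib.MP_d439b2_co.X3.H1R.SpecQ

/-! # MP_d439b2_co, X3/H1R: a vertex which touches two `E i` (`rQa`) (helper99) -/

set_option autoImplicit false

namespace Pool.Agent.MPd439b2.H1R

open Pool.Agent.MPd439b2
open Pool.Agent.MPd439b2.Rep
open Pool.Agent.MPd439b2.NK
open Pool.Agent.MPd439b2.H1T

theorem rQa : S_Qa := by
  intro V G k e W q E hG hL hA hk v hv i hi j hj hij hvi hvj
  by_contra hcon
  have hnj : ¬ Tc G e v j := fun h => hcon (Or.inr h)
  obtain ⟨m, hm, hmi, hmj⟩ : ∃ m < k, m ≠ i ∧ m ≠ j := by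
    by_contra h
    have key : ∀ l < k, l = i ∨ l = j := by
      intro l hl
      by_contra h'
      exact h ⟨l, hl, fun h1 => h' (Or.inl h1), fun h1 => h' (Or.inr h1)⟩
    have h0 := key 0 (by omega)
    have h1 := key 1 (by omega)
    have h2 := key 2 (by omega)
    omega
  obtain ⟨xi, hxi, hvxi⟩ := hvi
  obtain ⟨xj, hxj, hvxj⟩ := hvj
  obtain ⟨hEi, ⟨ui, hui, hqi⟩, hqPi⟩ : Conn G (E i) ∧ (∃ x ∈ E i, G.Adj (q i) x) ∧
      ¬ Tc G e (q i) i := by
    rcases hA.emp i hi with h | h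
    · rw [h] at hxi
      exact absurd hxi (Set.notMem_empty _)
    · exact h
  obtain ⟨hEj, ⟨uj, huj, hqj⟩, hqPj⟩ : Conn G (E j) ∧ (∃ x ∈ E j, G.Adj (q j) x) ∧
      ¬ Tc G e (q j) j := by
    rcases hA.emp j hj with h | h
    · rw [h] at hxj
      exact absurd hxj (Set.notMem_empty _)
    · exact h
  have tEP : ∀ l < k, ¬ Tc G e (q l) l → Tch G (E l) (Pr e l) := by
    intro l hl h1
    obtain ⟨x, hx, hxl⟩ := hA.tch l hl
    rw [tch_Pr]
    rcases hx with rfl | hx
    · exact absurd hxl h1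
    · exact ⟨x, hx, hxl⟩
  have nPr : ∀ (x : V) (l : ℕ), ¬ Tc G e x l → ∀ y ∈ Pr e l, ¬ G.Adj x y := by
    rintro x l h y ⟨s, rfl⟩ h1
    exact h ⟨s, h1⟩
  have nsgl : ∀ (x : V) (l : ℕ), ¬ Tc G e x l → ¬ Tch G {x} (Pr e l) := by
    rintro x l h ⟨_, rfl, y, hy, h1⟩
    exact nPr _ l h y hy h1
  have nE : ∀ l < k, ∀ l' < k, l ≠ l' → ¬ Tch G (E l) (Pr e l') := by
    rintro l hl l' hl' hll ⟨x, hx, y, hy, h1⟩
    exact nPr x l' ((hA.EP l hl l' hl' x hx).2 hll) y hy h1
  have nEq : ∀ l < k, ∀ l' < k, l ≠ l' → ¬ Tch G (E l) {q l'} := by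
    rintro l hl l' hl' hll ⟨x, hx, _, rfl, h1⟩
    exact (hA.qE l' hl' l hl).2 hll.symm x hx h1.symm
  have dEP : ∀ l < k, ∀ l' < k, Disjoint (E l) (Pr e l') := by
    intro l hl l' hl'
    rw [Set.disjoint_left]
    rintro x hx ⟨s, rfl⟩
    exact (hA.EP l hl l' hl' _ hx).1 s rfl
  have dEE : ∀ l < k, ∀ l' < k, l ≠ l' → Disjoint (E l) (E l') := by
    intro l hl l' hl' hll
    rw [Set.disjoint_left]
    intro x hx hx'
    exact (hA.EE l hl l' hl' hll x hx x hx').1 rfl
  have dqP : ∀ l < k, ∀ l' < k, Disjoint {q l} (Pr e l') := by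
    intro l hl l' hl'
    rw [Set.disjoint_singleton_left]
    rintro ⟨s, h⟩
    exact (hA.qP l hl l' hl').1 s h
  have dqE : ∀ l < k, ∀ l' < k, Disjoint {q l} (E l') := by
    intro l hl l' hl'
    rw [Set.disjoint_singleton_left]
    exact (hA.qE l hl l' hl').1
  have dqq : ∀ l < k, ∀ l' < k, l ≠ l' → Disjoint ({q l} : Set V) {q l'} := by
    intro l hl l' hl' hll
    rw [Set.disjoint_singleton]
    exact (hA.qq l hl l' hl' hll).ne
  have dvE : ∀ l < k, Disjoint {v} (E l) := by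
    intro l hl
    rw [Set.disjoint_singleton_left]
    exact fun h => (hv.2.2 l hl).2 (Or.inl h)
  have dvP : ∀ l < k, Disjoint {v} (Pr e l) := by
    intro l hl
    rw [Set.disjoint_singleton_left]
    exact fun h => (hv.2.2 l hl).2 (Or.inr h)
  have dvq : ∀ l < k, Disjoint ({v} : Set V) {q l} := by
    intro l hl
    rw [Set.disjoint_singleton]
    exact (hv.2.2 l hl).1
  -- `0: v, 1: E i, 2: q i, 3: E j, 4: q j, 5: P_i, 6: P_j, 7: q m`
  refine engS hG (fun l => [{v}, E i, {q i}, E j, {q j}, Pr e i, Pr e j, {q m}].getD l ∅)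
    [[0, 1, 2], [3], [4], [5], [6], [7]]
    [(0, 1), (1, 2), (0, 3), (2, 4), (3, 4), (1, 5), (3, 6), (2, 7), (4, 7)]
    [(3, 5), (4, 5), (0, 6), (1, 6), (2, 6), (4, 6), (3, 7), (5, 6), (5, 7), (6, 7)]
    [(0, 3), (1, 3), (2, 3), (0, 4), (1, 4), (2, 4), (0, 5), (1, 5), (2, 5), (0, 6), (1, 6), (2, 6),
      (0, 7), (1, 7), (2, 7), (3, 4), (3, 5), (3, 6), (3, 7), (4, 5), (4, 6), (4, 7), (5, 6), (5, 7),
      (6, 7)] ?_ ?_ ?_ ?_ (by decide)
  · intro l hl x hx
    simp only [List.mem_cons, List.not_mem_nil, or_false] at hl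
    rcases hl with rfl | rfl | rfl | rfl | rfl | rfl <;>
      simp only [List.mem_cons, List.not_mem_nil, or_false] at hx
    · rcases hx with rfl | rfl | rfl
      · exact Conn.singleton G v
      · exact hEi
      · exact Conn.singleton G (q i)
    · subst hx
      exact hEj
    · subst hx
      exact Conn.singleton G (q j)
    · subst hx
      exact hL.conn hi
    · subst hx
      exact hL.conn hj
    · subst hx
      exact Conn.singleton G (q m)
  · intro p hp
    simp only [List.mem_cons, List.not_mem_nil, or_false] at hp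
    rcases hp with rfl | rfl | rfl | rfl | rfl | rfl | rfl | rfl | rfl
    · exact ⟨v, rfl, xi, hxi, hvxi⟩
    · exact ⟨ui, hui, q i, rfl, hqi.symm⟩
    · exact ⟨v, rfl, xj, hxj, hvxj⟩
    · exact ⟨q i, rfl, q j, rfl, hA.qq i hi j hj hij⟩
    · exact ⟨uj, huj, q j, rfl, hqj.symm⟩
    · exact tEP i hi hqPi
    · exact tEP j hj hqPj
    · exact ⟨q i, rfl, q m, rfl, hA.qq i hi m hm hmi.symm⟩
    · exact ⟨q j, rfl, q m, rfl, hA.qq j hj m hm hmj.symm⟩
  · intro p hp
    simp only [List.mem_cons, List.not_mem_nil, or_false] at hp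
    rcases hp with rfl | rfl | rfl | rfl | rfl | rfl | rfl | rfl | rfl | rfl
    · exact nE j hj i hi hij.symm
    · exact nsgl _ _ ((hA.qP j hj i hi).2 hij.symm)
    · exact nsgl _ _ hnj
    · exact nE i hi j hj hij
    · exact nsgl _ _ ((hA.qP i hi j hj).2 hij)
    · exact nsgl _ _ hqPj
    · exact nEq j hj m hm hmj.symm
    · exact hL.ntch hi hj hij
    · exact fun h => nsgl _ _ ((hA.qP m hm i hi).2 hmi) h.symm
    · exact fun h => nsgl _ _ ((hA.qP m hm j hj).2 hmj) h.symm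
  · intro p hp
    simp only [List.mem_cons, List.not_mem_nil, or_false] at hp
    rcases hp with rfl | rfl | rfl | rfl | rfl | rfl | rfl | rfl | rfl | rfl | rfl | rfl | rfl |
      rfl | rfl | rfl | rfl | rfl | rfl | rfl | rfl | rfl | rfl | rfl | rfl
    · exact dvE j hj
    · exact dEE i hi j hj hij
    · exact dqE i hi j hj
    · exact dvq j hj
    · exact (dqE j hj i hi).symm
    · exact dqq i hi j hj hij
    · exact dvP i hi
    · exact dEP i hi i hi
    · exact dqP i hi i hi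
    · exact dvP j hj
    · exact dEP i hi j hj
    · exact dqP i hi j hj
    · exact dvq m hm
    · exact (dqE m hm i hi).symm
    · exact dqq i hi m hm hmi.symm
    · exact (dqE j hj j hj).symm
    · exact dEP j hj i hi
    · exact dEP j hj j hj
    · exact (dqE m hm j hj).symm
    · exact dqP j hj i hi
    · exact dqP j hj j hj
    · exact dqq j hj m hm hmj.symm
    · exact hL.dis hi hj hij
    · exact (dqP m hm i hi).symm
    · exact (dqP m hm j hj).symm

end Pool.Agent.MPd439b2.H1R
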