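import Pool.Agent.Lib.MP_d439b2_co.X3.H1R.SpecQ

/-!
# MP_d439b2_co, X3/H1R: Qb, basic facts on arms (helper3)
-/

set_option autoImplicit false

namespace Pool.Agent.MPd439b2.H1R

open Pool.Agent.MPd439b2
open Pool.Agent.MPd439b2.Rep
open Pool.Agent.MPd439b2.NK
open Pool.Agent.MPd439b2.H1T

theorem rQb : S_Qb := by
  intro V G k e W q E hL hA
  refine ⟨?_, ?_, ?_, ?_⟩
  · intro i hi
    obtain ⟨x, hx, s, hxs⟩ := hA.tch i hi
    rcases hA.emp i hi with h0 | ⟨hc, ⟨y, hy, hqy⟩, hn⟩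
    · have h1 : Yi e E i = Pr e i := by
        rw [Yi, h0, Set.empty_union]
      have hxq : x = q i := by
        rw [h0] at hx
        rcases hx with hx | hx
        · exact hx
        · exact absurd hx (Set.notMem_empty x)
      rw [h1]
      exact ⟨hL.conn hi, e s i, mem_Pr s i, hxq ▸ hxs⟩
    · have hxE : x ∈ E i := by
        rcases hx with hx | hx
        · exact absurd ⟨s, hx ▸ hxs⟩ hn
        · exact hx
      exact ⟨Conn.union hc (hL.conn hi) (Or.inr ⟨x, hxE, e s i, mem_Pr s i, hxs⟩),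
        y, Or.inl hy, hqy⟩
  · intro i hi j hj
    refine ⟨?_, ?_⟩
    · rintro (h | ⟨s, h⟩)
      · exact (hA.qE i hi j hj).1 h
      · exact (hA.qP i hi j hj).1 s h
    · rintro hij x (h | ⟨s, rfl⟩) hadj
      · exact (hA.qE i hi j hj).2 hij x h hadj
      · exact (hA.qP i hi j hj).2 hij ⟨s, hadj⟩
  · rintro i hi j hj hij x (hx | ⟨s, rfl⟩) y (hy | ⟨t, rfl⟩)
    · exact hA.EE i hi j hj hij x hx y hy
    · exact ⟨(hA.EP i hi j hj x hx).1 t, fun h => (hA.EP i hi j hj x hx).2 hij ⟨t, h⟩⟩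
    · exact ⟨fun h => (hA.EP j hj i hi y hy).1 s h.symm,
        fun h => (hA.EP j hj i hi y hy).2 hij.symm ⟨s, h.symm⟩⟩
    · exact ⟨hL.ne hi hj hij s t, hL.nadj hi hj hij s t⟩
  · rintro i hi x (hx | ⟨s, rfl⟩)
    · exact (hA.ER i hi x hx).2
    · exact hL.lw hi s

end Pool.Agent.MPd439b2.H1R
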