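import Pool.Agent.Lib.MP_d439b2_co.X3.H1R.AxQ

/-!
# MP_d439b2_co, X3/H1R, Qc: a connected set of low vertices touches at most one arm
-/

set_option autoImplicit false

namespace Pool.Agent.MPd439b2.H1R

open Pool.Agent.MPd439b2
open Pool.Agent.MPd439b2.Rep
open Pool.Agent.MPd439b2.NK
open Pool.Agent.MPd439b2.H1T
open AxQ

theorem rQc : S_Qc := by
  intro hQb V G k e W q E hG hL hA hk D hD hLo i hi j hj hxi hyj
  by_contra hij
  have hB := qb hQb hL hA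
  obtain ⟨x, hx, hxi⟩ := hxi
  obtain ⟨y, hy, hyj⟩ := hyj
  have hxC : x ∈ {z | z ∈ D ∧ ∀ l < k, l ≠ i → ¬ At G e q E z l} :=
    ⟨hx, fun l hl hli h => hli ((hLo x hx).2 l hl i hi h hxi)⟩
  obtain ⟨A, hAC, hxA, hAc, hAn⟩ := exists_comp G hxC
  have hAD : A ≠ D := by
    rintro rfl
    exact (hAC hy).2 j hj (fun h => hij h.symm) hyj
  obtain ⟨b, hb, a, ha, hab⟩ := hD.2 A (fun z hz => (hAC hz).1) ⟨x, hxA⟩ hAD
  have haC : ¬ (a ∈ D ∧ ∀ l < k, l ≠ i → ¬ At G e q E a l) := fun h =>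
    hAn a h ⟨ha.2, b, hb, hab⟩
  obtain ⟨l, hl, hli, hal⟩ : ∃ l < k, l ≠ i ∧ At G e q E a l := by
    by_contra hcon
    exact haC ⟨ha.1, fun l hl hli h => hcon ⟨l, hl, hli, h⟩⟩
  have hD'c : Conn G (insert a A) := hAc.insert ⟨b, hb, hab⟩
  have hsub : ∀ z ∈ insert a A, z ∈ D := by
    rintro z (rfl | hz)
    · exact ha.1
    · exact (hAC hz).1
  have hnot : ∀ z ∈ insert a A, ∀ m < k, m ≠ i → m ≠ l → ¬ At G e q E z m := by
    rintro z (rfl | hz) m hm hmi hml h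
    · exact hml ((hLo z ha.1).2 m hm l hl h hal)
    · exact (hAC hz).2 m hm hmi h
  obtain ⟨D1, hD1, hD1', hD1c, hD1q⟩ := clo hB hi hD'c ⟨x, Or.inr hxA, hxi⟩
  obtain ⟨D2, hD2, hD2', hD2c, hD2q⟩ := clo hB hl hD1c ⟨a, hD1 (Or.inl rfl), hal⟩
  have hD2i : ∃ x ∈ D2, G.Adj (q i) x := by
    obtain ⟨z, hz, h⟩ := hD1q
    exact ⟨z, hD2 hz, h⟩
  have hcase : ∀ z ∈ D2, z ∈ insert a A ∨ z ∈ Yi e E i ∨ z ∈ Yi e E l := by
    intro z hz
    rcases hD2' hz with h | h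
    · rcases hD1' h with h | h
      · exact Or.inl h
      · exact Or.inr (Or.inl h)
    · exact Or.inr (Or.inr h)
  -- no edges to the other arms
  have n1 : ∀ m < k, m ≠ i → m ≠ l → ∀ z ∈ D2, ¬ G.Adj (q m) z := by
    intro m hm hmi hml z hz
    rcases hcase z hz with h | h | h
    · exact fun h1 => hnot z h m hm hmi hml (Or.inl h1.symm)
    · exact hB.nq m hm i hi hmi z h
    · exact hB.nq m hm l hl hml z h
  have n2 : ∀ m < k, m ≠ i → m ≠ l → ∀ y ∈ Yi e E m, ∀ z ∈ D2, y ≠ z ∧ ¬ G.Adj y z := by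
    intro m hm hmi hml y hy z hz
    rcases hcase z hz with h | h | h
    · refine ⟨?_, fun h1 => hnot z h m hm hmi hml (Or.inr ⟨y, hy, h1.symm⟩)⟩
      rintro rfl
      exact ((hLo y (hsub y h)).1.2.2 m hm).2 hy
    · exact hB.yy m hm i hi hmi y hy z h
    · exact hB.yy m hm l hl hml y hy z h
  have n3 : ∀ m < k, q m ∉ D2 := by
    intro m hm hz
    rcases hcase _ hz with h | h | h
    · exact ((hLo _ (hsub _ h)).1.2.2 m hm).1 rfl
    · exact hB.qn m hm i hi h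
    · exact hB.qn m hm l hl h
  obtain ⟨m, hm, hmi, hml⟩ := pk2 (by omega : 3 ≤ k) i l
  obtain ⟨m', hm', hmi', hml', hmm⟩ := pk3 hk i l m
  have qne : ∀ a < k, ∀ b < k, a ≠ b → q a ≠ q b := fun a ha b hb hab => (hA.qq a ha b hb hab).ne
  refine engS hG (fun n => match n with
    | 0 => {q i}
    | 1 => {q m}
    | 2 => {q m'}
    | 3 => {q l}
    | 4 => Yi e E m
    | 5 => Yi e E m'
    | _ => D2) [[0, 1], [2], [3], [4], [5], [6]]
    [(0, 1), (1, 2), (0, 3), (2, 3), (1, 4), (2, 5), (0, 6), (3, 6)]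
    [(0, 5), (1, 5), (2, 4), (2, 6), (3, 4), (3, 5), (4, 5), (4, 6), (5, 6)]
    [(0, 2), (0, 3), (0, 4), (0, 5), (0, 6), (1, 2), (1, 3), (1, 4), (1, 5), (1, 6), (2, 3), (2, 4),
      (2, 5), (2, 6), (3, 4), (3, 5), (3, 6), (4, 5), (4, 6), (5, 6)]
    ?_ ?_ ?_ ?_ (by decide)
  · exact fc (fc (Conn.singleton G _) <| fc (Conn.singleton G _) <| fn) <| fc (fc (Conn.singleton G _) <| fn) <|
      fc (fc (Conn.singleton G _) <| fn) <| fc (fc (hB.c m hm) <| fn) <| fc (fc (hB.c m' hm') <| fn) <| fc (fc hD2c <| fn) <| fn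
  · exact fc (tch_ss (hA.qq i hi m hm hmi.symm)) <| fc (tch_ss (hA.qq m hm m' hm' hmm.symm)) <|
      fc (tch_ss (hA.qq i hi l hl hli.symm)) <| fc (tch_ss (hA.qq m' hm' l hl hml')) <| fc (tch_sS (hB.qy m hm)) <|
      fc (tch_sS (hB.qy m' hm')) <| fc (tch_sS hD2i) <| fc (tch_sS hD2q) <| fn
  · exact fc (nt_sS (hB.nq i hi m' hm' hmi'.symm)) <| fc (nt_sS (hB.nq m hm m' hm' hmm.symm)) <|
      fc (nt_sS (hB.nq m' hm' m hm hmm)) <| fc (nt_sS (n1 m' hm' hmi' hml')) <|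
      fc (nt_sS (hB.nq l hl m hm hml.symm)) <| fc (nt_sS (hB.nq l hl m' hm' hml'.symm)) <|
      fc (nt_SS (fun x hx y hy => (hB.yy m hm m' hm' hmm.symm x hx y hy).2)) <|
      fc (nt_SS (fun x hx y hy => (n2 m hm hmi hml x hx y hy).2)) <|
      fc (nt_SS (fun x hx y hy => (n2 m' hm' hmi' hml' x hx y hy).2)) <| fn
  · exact fc (dj_ss (qne _ hi _ hm' hmi'.symm)) <| fc (dj_ss (qne _ hi _ hl hli.symm)) <|
      fc (dj_sS (hB.qn i hi m hm)) <| fc (dj_sS (hB.qn i hi m' hm')) <| fc (dj_sS (n3 i hi)) <|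
      fc (dj_ss (qne _ hm _ hm' hmm.symm)) <| fc (dj_ss (qne _ hm _ hl hml)) <| fc (dj_sS (hB.qn m hm m hm)) <|
      fc (dj_sS (hB.qn m hm m' hm')) <| fc (dj_sS (n3 m hm)) <| fc (dj_ss (qne _ hm' _ hl hml')) <|
      fc (dj_sS (hB.qn m' hm' m hm)) <| fc (dj_sS (hB.qn m' hm' m' hm')) <| fc (dj_sS (n3 m' hm')) <|
      fc (dj_sS (hB.qn l hl m hm)) <| fc (dj_sS (hB.qn l hl m' hm')) <| fc (dj_sS (n3 l hl)) <|
      fc (dj_SS (fun x hx y hy => (hB.yy m hm m' hm' hmm.symm x hx y hy).1)) <|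
      fc (dj_SS (fun x hx y hy => (n2 m hm hmi hml x hx y hy).1)) <|
      fc (dj_SS (fun x hx y hy => (n2 m' hm' hmi' hml' x hx y hy).1)) <| fn

end Pool.Agent.MPd439b2.H1R
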