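import Pool.Agent.Lib.MP_d439b2_co.X3.H1R.AxQ

/-!
# MP_d439b2_co, X3/H1R, Qd: top vertices do not touch low connected sets which touch an arm
-/

set_option autoImplicit false

namespace Pool.Agent.MPd439b2.H1R

open Pool.Agent.MPd439b2
open Pool.Agent.MPd439b2.Rep
open Pool.Agent.MPd439b2.NK
open Pool.Agent.MPd439b2.H1T
open AxQ

theorem rQd : S_Qd := by
  intro hQb hQc V G k e W q E hG hL hA hk v hv D hD hLo i hi hxi x hxD hvx
  have hB := qb hQb hL hA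
  have hnot : ∀ z ∈ D, ∀ m < k, m ≠ i → ¬ At G e q E z m := fun z hz m hm hmi h =>
    hmi (hQc hQb V G k e W q E hG hL hA hk D hD hLo i hi m hm hxi ⟨z, hz, h⟩).symm
  obtain ⟨D1, hD1, hD1', hD1c, hD1q⟩ := clo hB hi hD hxi
  have hcase : ∀ z ∈ D1, z ∈ D ∨ z ∈ Yi e E i := fun z hz => hD1' hz
  have n1 : ∀ m < k, m ≠ i → ∀ z ∈ D1, ¬ G.Adj (q m) z := by
    intro m hm hmi z hz
    rcases hcase z hz with h | h
    · exact fun h1 => hnot z h m hm hmi (Or.inl h1.symm)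
    · exact hB.nq m hm i hi hmi z h
  have n2 : ∀ m < k, m ≠ i → ∀ y ∈ Yi e E m, ∀ z ∈ D1, y ≠ z ∧ ¬ G.Adj y z := by
    intro m hm hmi y hy z hz
    rcases hcase z hz with h | h
    · refine ⟨?_, fun h1 => hnot z h m hm hmi (Or.inr ⟨y, hy, h1.symm⟩)⟩
      rintro rfl
      exact ((hLo y h).1.2.2 m hm).2 hy
    · exact hB.yy m hm i hi hmi y hy z h
  have n3 : ∀ m < k, q m ∉ D1 := by
    intro m hm hz
    rcases hcase _ hz with h | h
    · exact ((hLo _ h).1.2.2 m hm).1 rfl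
    · exact hB.qn m hm i hi h
  have hvD : v ∉ D1 := by
    intro hz
    rcases hcase _ hz with h | h
    · obtain ⟨m, hm, hmi⟩ := pk1 (by omega : 2 ≤ k) i
      exact hmi ((hLo v h).2 m hm i hi (Or.inl (hv.2.1 m hm)) (Or.inl (hv.2.1 i hi)))
    · exact (hv.1.2.2 i hi).2 h
  obtain ⟨j, hj, hji⟩ := pk1 (by omega : 2 ≤ k) i
  obtain ⟨m, hm, hmi, hmj⟩ := pk2 (by omega : 3 ≤ k) i j
  have qne : ∀ a < k, ∀ b < k, a ≠ b → q a ≠ q b := fun a ha b hb hab => (hA.qq a ha b hb hab).ne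
  refine engS hG (fun n => match n with
    | 0 => {v}
    | 1 => {q j}
    | 2 => {q m}
    | 3 => {q i}
    | 4 => Yi e E j
    | 5 => Yi e E m
    | _ => D1) [[0, 1], [2], [3], [4], [5], [6]]
    [(0, 1), (1, 2), (0, 3), (2, 3), (1, 4), (2, 5), (0, 6), (3, 6)]
    [(0, 5), (1, 5), (2, 4), (2, 6), (3, 4), (3, 5), (4, 5), (4, 6), (5, 6)]
    [(0, 2), (0, 3), (0, 4), (0, 5), (0, 6), (1, 2), (1, 3), (1, 4), (1, 5), (1, 6), (2, 3), (2, 4),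
      (2, 5), (2, 6), (3, 4), (3, 5), (3, 6), (4, 5), (4, 6), (5, 6)]
    ?_ ?_ ?_ ?_ (by decide)
  · exact fc (fc (Conn.singleton G _) <| fc (Conn.singleton G _) <| fn) <| fc (fc (Conn.singleton G _) <| fn) <|
      fc (fc (Conn.singleton G _) <| fn) <| fc (fc (hB.c j hj) <| fn) <| fc (fc (hB.c m hm) <| fn) <| fc (fc hD1c <| fn) <| fn
  · exact fc (tch_ss (hv.2.1 j hj)) <| fc (tch_ss (hA.qq j hj m hm hmj.symm)) <|
      fc (tch_ss (hv.2.1 i hi)) <| fc (tch_ss (hA.qq m hm i hi hmi)) <| fc (tch_sS (hB.qy j hj)) <|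
      fc (tch_sS (hB.qy m hm)) <| fc (tch_sS ⟨x, hD1 hxD, hvx⟩) <| fc (tch_sS hD1q) <| fn
  · exact fc (nt_sS (hv.2.2 m hm)) <| fc (nt_sS (hB.nq j hj m hm hmj.symm)) <|
      fc (nt_sS (hB.nq m hm j hj hmj)) <| fc (nt_sS (n1 m hm hmi)) <|
      fc (nt_sS (hB.nq i hi j hj hji.symm)) <| fc (nt_sS (hB.nq i hi m hm hmi.symm)) <|
      fc (nt_SS (fun x hx y hy => (hB.yy j hj m hm hmj.symm x hx y hy).2)) <|
      fc (nt_SS (fun x hx y hy => (n2 j hj hji x hx y hy).2)) <|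
      fc (nt_SS (fun x hx y hy => (n2 m hm hmi x hx y hy).2)) <| fn
  · exact fc (dj_ss (hv.1.2.2 m hm).1) <| fc (dj_ss (hv.1.2.2 i hi).1) <|
      fc (dj_sS (hv.1.2.2 j hj).2) <| fc (dj_sS (hv.1.2.2 m hm).2) <| fc (dj_sS hvD) <|
      fc (dj_ss (qne _ hj _ hm hmj.symm)) <| fc (dj_ss (qne _ hj _ hi hji)) <| fc (dj_sS (hB.qn j hj j hj)) <|
      fc (dj_sS (hB.qn j hj m hm)) <| fc (dj_sS (n3 j hj)) <| fc (dj_ss (qne _ hm _ hi hmi)) <|
      fc (dj_sS (hB.qn m hm j hj)) <| fc (dj_sS (hB.qn m hm m hm)) <| fc (dj_sS (n3 m hm)) <|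
      fc (dj_sS (hB.qn i hi j hj)) <| fc (dj_sS (hB.qn i hi m hm)) <| fc (dj_sS (n3 i hi)) <|
      fc (dj_SS (fun x hx y hy => (hB.yy j hj m hm hmj.symm x hx y hy).1)) <|
      fc (dj_SS (fun x hx y hy => (n2 j hj hji x hx y hy).1)) <|
      fc (dj_SS (fun x hx y hy => (n2 m hm hmi x hx y hy).1)) <| fn

end Pool.Agent.MPd439b2.H1R
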