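import Pool.Agent.Lib.MP_d439b2_co.X3.H1R.SpecQ

/-!
# MP_d439b2_co, X3/H1R, Qg (helper69): the vertices `Fm` are complete to the `q i`
-/

set_option autoImplicit false

namespace Pool.Agent.MPd439b2.H1R

open Pool.Agent.MPd439b2
open Pool.Agent.MPd439b2.Rep
open Pool.Agent.MPd439b2.NK
open Pool.Agent.MPd439b2.H1T

private theorem qg_two {k i : ℕ} (hk : 8 ≤ k) :
    ∃ j < k, ∃ m < k, j ≠ i ∧ m ≠ i ∧ j ≠ m := by
  by_cases h0 : i = 0
  · exact ⟨1, by omega, 2, by omega, by omega, by omega, by omega⟩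
  · by_cases h1 : i = 1
    · exact ⟨0, by omega, 2, by omega, by omega, by omega, by omega⟩
    · exact ⟨0, by omega, 1, by omega, by omega, by omega, by omega⟩

theorem rQg : S_Qg := by
  intro V G k e W q E hG hR hAr hk hZ hF hM f hf i hi
  obtain ⟨hz1, hz2, hz3, hz4, hz5⟩ := hZ
  by_contra hfi
  obtain ⟨j, hj, m, hm, hji, hmi, hjm⟩ := qg_two (i := i) hk
  obtain ⟨uj, huj, vj, hvj, uvj, quj, qvj⟩ := hM j hj
  obtain ⟨um, hum, vm, hvm, uvm, qum, qvm⟩ := hM m hm
  have hfl : ¬ Lw G k e f := hf.not_lw (by omega)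
  have nfq : ∀ l < k, f ≠ q l := fun l hl h' => hfl (h' ▸ (hAr.qR l hl).2)
  have nfz : ∀ l < k, ∀ x ∈ Zi G k e W q E l, f ≠ x := fun l hl x hx h' =>
    hfl (h' ▸ (hz1 l hl x hx).2)
  have nqz : ∀ l < k, ∀ l' < k, ∀ x ∈ Zi G k e W q E l, q l' ≠ x := fun l hl l' hl' x hx h' =>
    hz2 l hl l' hl' (h' ▸ hx)
  let x : ℕ → V := fun i' => match i' with
    | 0 => f | 1 => uj | 2 => vj | 3 => um | 4 => vm | 5 => q i | 6 => q j | _ => q m
  refine engV hG x [[0, 1], [7, 6], [3], [2], [5], [4]]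
    [(0, 1), (7, 6), (1, 6), (0, 3), (7, 3), (1, 2), (7, 5), (0, 4), (3, 4)]
    [(0, 5), (5, 1), (7, 2), (6, 2), (7, 4), (6, 4), (2, 3), (5, 3), (5, 2), (2, 4), (5, 4)]
    [(0, 7), (0, 6), (0, 3), (0, 2), (0, 5), (0, 4), (7, 1), (6, 1), (1, 3), (1, 2), (5, 1), (1, 4),
      (7, 3), (7, 2), (7, 5), (7, 4), (6, 3), (6, 2), (6, 5), (6, 4), (2, 3), (5, 3), (3, 4),
      (5, 2), (2, 4), (5, 4)] ?_ ?_ ?_ (by decide)
  · intro p hp
    simp only [List.mem_cons, List.not_mem_nil, or_false] at hp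
    rcases hp with rfl | rfl | rfl | rfl | rfl | rfl | rfl | rfl | rfl
    · exact hF f hf j hj uj huj
    · exact hAr.qq m hm j hj hjm.symm
    · exact quj.symm
    · exact hF f hf m hm um hum
    · exact qum
    · exact uvj
    · exact hAr.qq m hm i hi hmi
    · exact hF f hf m hm vm hvm
    · exact uvm
  · intro p hp
    simp only [List.mem_cons, List.not_mem_nil, or_false] at hp
    rcases hp with rfl | rfl | rfl | rfl | rfl | rfl | rfl | rfl | rfl | rfl | rfl
    · exact hfi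
    · exact fun h' => (hz3 j hj i hi hji).2 uj huj h'
    · exact fun h' => (hz3 j hj m hm hjm).2 vj hvj h'
    · exact qvj
    · exact qvm
    · exact fun h' => (hz3 m hm j hj hjm.symm).2 vm hvm h'
    · exact ((hz3 j hj m hm hjm).1 vj hvj um hum).2
    · exact fun h' => (hz3 m hm i hi hmi).2 um hum h'
    · exact fun h' => (hz3 j hj i hi hji).2 vj hvj h'
    · exact ((hz3 j hj m hm hjm).1 vj hvj vm hvm).2
    · exact fun h' => (hz3 m hm i hi hmi).2 vm hvm h'
  · intro p hp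
    simp only [List.mem_cons, List.not_mem_nil, or_false] at hp
    rcases hp with rfl | rfl | rfl | rfl | rfl | rfl | rfl | rfl | rfl | rfl | rfl | rfl | rfl |
      rfl | rfl | rfl | rfl | rfl | rfl | rfl | rfl | rfl | rfl | rfl | rfl | rfl
    · exact nfq m hm
    · exact nfq j hj
    · exact nfz m hm um hum
    · exact nfz j hj vj hvj
    · exact nfq i hi
    · exact nfz m hm vm hvm
    · exact nqz j hj m hm uj huj
    · exact nqz j hj j hj uj huj
    · exact ((hz3 j hj m hm hjm).1 uj huj um hum).1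
    · exact uvj.ne
    · exact nqz j hj i hi uj huj
    · exact ((hz3 j hj m hm hjm).1 uj huj vm hvm).1
    · exact nqz m hm m hm um hum
    · exact nqz j hj m hm vj hvj
    · exact (hAr.qq m hm i hi hmi).ne
    · exact nqz m hm m hm vm hvm
    · exact nqz m hm j hj um hum
    · exact nqz j hj j hj vj hvj
    · exact (hAr.qq j hj i hi hji).ne
    · exact nqz m hm j hj vm hvm
    · exact ((hz3 j hj m hm hjm).1 vj hvj um hum).1
    · exact nqz m hm i hi um hum
    · exact uvm.ne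
    · exact nqz j hj i hi vj hvj
    · exact ((hz3 j hj m hm hjm).1 vj hvj vm hvm).1
    · exact nqz m hm i hi vm hvm

end Pool.Agent.MPd439b2.H1R
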