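import Pool.Agent.Lib.MP_d439b2_co.X3.H1R.SpecQ
import Pool.Agent.Lib.MP_d439b2_co.RG.Arm

/-!
# MP_d439b2_co, X3/H1R, Qm (helper69): `q i` is mixed on `Zi i`
-/

set_option autoImplicit false

namespace Pool.Agent.MPd439b2.H1R

open Pool.Agent.MPd439b2
open Pool.Agent.MPd439b2.Rep
open Pool.Agent.MPd439b2.NK
open Pool.Agent.MPd439b2.H1T

private theorem qm_card {V : Type} [Finite V] {M : Set V} {a b : V} (ha : a ∈ M) (hb : b ∈ M)
    (hab : a ≠ b) : 2 ≤ M.ncard := by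
  rw [← Set.ncard_pair hab]
  exact Set.ncard_le_ncard (Set.insert_subset ha (Set.singleton_subset_iff.2 hb)) (Set.toFinite _)

theorem rQm : S_Qm := by
  intro hQb hQw V _ G k e W q E hG hPm hR hAr hk hZ hF i hi
  obtain ⟨hz1, hz2, hz3, hz4, hz5⟩ := hZ
  have h1 : ∃ v ∈ Zi G k e W q E i, ¬ G.Adj (q i) v := by
    by_contra hcon
    push Not at hcon
    have he : ∀ s, e s i ∈ Zi G k e W q E i := fun s => Or.inl (Or.inr (mem_Pr s i))
    have hE : E i = ∅ := by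
      rcases hAr.emp i hi with h | ⟨_, _, h⟩
      · exact h
      · exact absurd ⟨false, hcon _ (he false)⟩ h
    have hW : W = ∅ := hQw V G k e W q E hG hR hAr hk i hi hE (fun s => hcon _ (he s))
    obtain ⟨v, hv, ⟨x, hx, vx⟩, y, hy, vy⟩ := hPm (Zi G k e W q E i)
      (qm_card (he false) (he true) (hR.lt.ft hi false))
      (qm_card (a := q 0) (b := q 1) (hz2 i hi 0 (by omega)) (hz2 i hi 1 (by omega))
        (hAr.qq 0 (by omega) 1 (by omega) (by omega)).ne)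
    rcases hz5 i hi x hx v vx.symm with h | h | h | h
    · exact hv h
    · exact vy (h ▸ hcon y hy)
    · rw [hW] at h
      exact h
    · exact vy (hF v h i hi y hy)
  obtain ⟨v₀, hv₀, hq⟩ := h1
  have hne : q i ≠ v₀ := fun h => hz2 i hi i hi (h ▸ hv₀)
  obtain ⟨C, hC, hCs, hvC, hqC, x, hx, hxq⟩ := (RG.gArm V G (insert (q i) (Zi G k e W q E i)) {v₀}
    (q i) (hz4 i hi) (Set.mem_insert _ _) hne).1 v₀ ⟨Set.mem_insert_of_mem _ hv₀, rfl⟩
  have hCZ : C ⊆ Zi G k e W q E i := by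
    intro y hy
    rcases hCs hy with h | h
    · exact absurd (h ▸ hy) hqC
    · exact h
  obtain ⟨u, hu, v, hv, uv⟩ := hC.2 {y | y ∈ C ∧ G.Adj (q i) y} (fun y hy => hy.1)
    ⟨x, hx, hxq.symm⟩ (fun h => by
      rw [← h] at hvC
      exact hq hvC.2)
  exact ⟨u, hCZ hu.1, v, hCZ hv.1, uv, hu.2, fun h => hv.2 ⟨hv.1, h⟩⟩

end Pool.Agent.MPd439b2.H1R
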