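import Pool.Agent.Lib.MP_d439b2_co.X3.H1R.AxQ

/-!
# MP_d439b2_co, X3/H1R, Qv (helper59): the vertices outside the arms are low or top
-/

set_option autoImplicit false

namespace Pool.Agent.MPd439b2.H1R

open Pool.Agent.MPd439b2
open Pool.Agent.MPd439b2.Rep
open Pool.Agent.MPd439b2.NK
open Pool.Agent.MPd439b2.H1T
open AxQ

theorem rQv : S_Qv := by
  intro hQb hQa V G k e W q E hG hL hA hk v hv
  by_cases hLo : ∀ i < k, ∀ j < k, At G e q E v i → At G e q E v j → i = j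
  · exact Or.inl ⟨hv, hLo⟩
  right
  push Not at hLo
  obtain ⟨i, hi, j, hj, hvi, hvj, hij⟩ := hLo
  have hB := qb hQb hL hA
  have vq : ∀ m < k, v ≠ q m := fun m hm => (hv.2.2 m hm).1
  have vY : ∀ m < k, v ∉ Yi e E m := fun m hm => (hv.2.2 m hm).2
  have qne : ∀ a < k, ∀ b < k, a ≠ b → q a ≠ q b := fun a ha b hb hab => (hA.qq a ha b hb hab).ne
  -- (1)
  have h1 : ∀ a < k, ∀ b < k, ∀ c < k, a ≠ b → a ≠ c → b ≠ c → (∃ x ∈ Yi e E a, G.Adj v x) →
      (∃ x ∈ Yi e E b, G.Adj v x) → (∃ x ∈ Yi e E c, G.Adj v x) → False := by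
    have key : ∀ a < k, ∀ b < k, a ≠ b → (∃ x ∈ Yi e E a, G.Adj v x) →
        (∃ x ∈ Yi e E b, G.Adj v x) → ¬ Tc G e v a → ¬ Tc G e v b → False := by
      rintro a ha b hb hab ⟨x, hx, hvx⟩ ⟨y, hy, hvy⟩ na nb
      have hx' : x ∈ E a := by
        rcases hx with h | ⟨s, rfl⟩
        · exact h
        · exact absurd ⟨s, hvx⟩ na
      have hy' : y ∈ E b := by
        rcases hy with h | ⟨s, rfl⟩
        · exact h
        · exact absurd ⟨s, hvy⟩ nb
      rcases hQa V G k e W q E hG hL hA (by omega) v hv a ha b hb hab ⟨x, hx', hvx⟩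
        ⟨y, hy', hvy⟩ with h | h
      · exact na h
      · exact nb h
    intro a ha b hb c hc hab hac hbc h2 h3 h4
    by_cases ta : Tc G e v a
    · exact key b hb c hc hbc h3 h4 (fun tb => hab (hv.2.1 a ha b hb ta tb))
        (fun tc => hac (hv.2.1 a ha c hc ta tc))
    · by_cases tb : Tc G e v b
      · exact key a ha c hc hac h2 h4 ta (fun tc => hbc (hv.2.1 b hb c hc tb tc))
      · exact key a ha b hb hab h2 h3 ta tb
  -- (2)
  have h2 : ∀ m < k, ∀ m' < k, m ≠ m' → ¬ At G e q E v m → ¬ At G e q E v m' → False := by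
    intro m hm m' hm' hmm nm nm'
    have hmi : m ≠ i := fun h => nm (h ▸ hvi)
    have hmj : m ≠ j := fun h => nm (h ▸ hvj)
    have hmi' : m' ≠ i := fun h => nm' (h ▸ hvi)
    have hmj' : m' ≠ j := fun h => nm' (h ▸ hvj)
    obtain ⟨D1, hD1, hD1', hD1c, hD1q⟩ := clo hB hi (Conn.singleton G v) ⟨v, rfl, hvi⟩
    obtain ⟨D2, hD2, hD2', hD2c, hD2q⟩ := clo hB hj hD1c ⟨v, hD1 rfl, hvj⟩
    have hD2i : ∃ x ∈ D2, G.Adj (q i) x := by
      obtain ⟨z, hz, h⟩ := hD1q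
      exact ⟨z, hD2 hz, h⟩
    have hcase : ∀ z ∈ D2, z = v ∨ z ∈ Yi e E i ∨ z ∈ Yi e E j := by
      intro z hz
      rcases hD2' hz with h | h
      · rcases hD1' h with h | h
        · exact Or.inl h
        · exact Or.inr (Or.inl h)
      · exact Or.inr (Or.inr h)
    have n1 : ∀ m < k, m ≠ i → m ≠ j → ¬ At G e q E v m → ∀ z ∈ D2, ¬ G.Adj (q m) z := by
      intro m hm hmi hmj nm z hz
      rcases hcase z hz with rfl | h | h
      · exact fun h1 => nm (Or.inl h1.symm)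
      · exact hB.nq m hm i hi hmi z h
      · exact hB.nq m hm j hj hmj z h
    have n2 : ∀ m < k, m ≠ i → m ≠ j → ¬ At G e q E v m → ∀ y ∈ Yi e E m, ∀ z ∈ D2,
        y ≠ z ∧ ¬ G.Adj y z := by
      intro m hm hmi hmj nm y hy z hz
      rcases hcase z hz with rfl | h | h
      · refine ⟨?_, fun h1 => nm (Or.inr ⟨y, hy, h1.symm⟩)⟩
        rintro rfl
        exact vY m hm hy
      · exact hB.yy m hm i hi hmi y hy z h
      · exact hB.yy m hm j hj hmj y hy z h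
    have n3 : ∀ m < k, q m ∉ D2 := by
      intro m hm hz
      rcases hcase _ hz with h | h | h
      · exact vq m hm h.symm
      · exact hB.qn m hm i hi h
      · exact hB.qn m hm j hj h
    refine engS hG (fun n => match n with
      | 0 => {q i}
      | 1 => {q m}
      | 2 => {q m'}
      | 3 => {q j}
      | 4 => Yi e E m
      | 5 => Yi e E m'
      | _ => D2) [[0, 1], [2], [3], [4], [5], [6]]
      [(0, 1), (1, 2), (0, 3), (2, 3), (1, 4), (2, 5), (0, 6), (3, 6)]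
      [(0, 5), (1, 5), (2, 4), (2, 6), (3, 4), (3, 5), (4, 5), (4, 6), (5, 6)]
      [(0, 2), (0, 3), (0, 4), (0, 5), (0, 6), (1, 2), (1, 3), (1, 4), (1, 5), (1, 6), (2, 3),
        (2, 4), (2, 5), (2, 6), (3, 4), (3, 5), (3, 6), (4, 5), (4, 6), (5, 6)]
      ?_ ?_ ?_ ?_ (by decide)
    · exact fc (fc (Conn.singleton G _) <| fc (Conn.singleton G _) <| fn) <|
        fc (fc (Conn.singleton G _) <| fn) <| fc (fc (Conn.singleton G _) <| fn) <|
        fc (fc (hB.c m hm) <| fn) <| fc (fc (hB.c m' hm') <| fn) <| fc (fc hD2c <| fn) <| fn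
    · exact fc (tch_ss (hA.qq i hi m hm hmi.symm)) <| fc (tch_ss (hA.qq m hm m' hm' hmm)) <|
        fc (tch_ss (hA.qq i hi j hj hij)) <| fc (tch_ss (hA.qq m' hm' j hj hmj')) <|
        fc (tch_sS (hB.qy m hm)) <| fc (tch_sS (hB.qy m' hm')) <| fc (tch_sS hD2i) <|
        fc (tch_sS hD2q) <| fn
    · exact fc (nt_sS (hB.nq i hi m' hm' hmi'.symm)) <| fc (nt_sS (hB.nq m hm m' hm' hmm)) <|
        fc (nt_sS (hB.nq m' hm' m hm hmm.symm)) <| fc (nt_sS (n1 m' hm' hmi' hmj' nm')) <|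
        fc (nt_sS (hB.nq j hj m hm hmj.symm)) <| fc (nt_sS (hB.nq j hj m' hm' hmj'.symm)) <|
        fc (nt_SS (fun x hx y hy => (hB.yy m hm m' hm' hmm x hx y hy).2)) <|
        fc (nt_SS (fun x hx y hy => (n2 m hm hmi hmj nm x hx y hy).2)) <|
        fc (nt_SS (fun x hx y hy => (n2 m' hm' hmi' hmj' nm' x hx y hy).2)) <| fn
    · exact fc (dj_ss (qne _ hi _ hm' hmi'.symm)) <| fc (dj_ss (qne _ hi _ hj hij)) <|
        fc (dj_sS (hB.qn i hi m hm)) <| fc (dj_sS (hB.qn i hi m' hm')) <| fc (dj_sS (n3 i hi)) <|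
        fc (dj_ss (qne _ hm _ hm' hmm)) <| fc (dj_ss (qne _ hm _ hj hmj)) <|
        fc (dj_sS (hB.qn m hm m hm)) <| fc (dj_sS (hB.qn m hm m' hm')) <| fc (dj_sS (n3 m hm)) <|
        fc (dj_ss (qne _ hm' _ hj hmj')) <| fc (dj_sS (hB.qn m' hm' m hm)) <|
        fc (dj_sS (hB.qn m' hm' m' hm')) <| fc (dj_sS (n3 m' hm')) <|
        fc (dj_sS (hB.qn j hj m hm)) <| fc (dj_sS (hB.qn j hj m' hm')) <| fc (dj_sS (n3 j hj)) <|
        fc (dj_SS (fun x hx y hy => (hB.yy m hm m' hm' hmm x hx y hy).1)) <|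
        fc (dj_SS (fun x hx y hy => (n2 m hm hmi hmj nm x hx y hy).1)) <|
        fc (dj_SS (fun x hx y hy => (n2 m' hm' hmi' hmj' nm' x hx y hy).1)) <| fn
  -- among four indices there is a good one
  have h3 : ∀ a < k, ∀ b < k, ∀ c < k, ∀ d < k, a ≠ b → a ≠ c → a ≠ d → b ≠ c → b ≠ d → c ≠ d →
      ∃ m, (m = a ∨ m = b ∨ m = c ∨ m = d) ∧ G.Adj v (q m) ∧ ¬ ∃ x ∈ Yi e E m, G.Adj v x := by
    intro a ha b hb c hc d hd hab hac had hbc hbd hcd
    by_contra hcon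
    push Not at hcon
    have h4 : ∀ m, (m = a ∨ m = b ∨ m = c ∨ m = d) → ¬ At G e q E v m ∨
        ∃ x ∈ Yi e E m, G.Adj v x := by
      intro m hm
      by_cases h5 : ∃ x ∈ Yi e E m, G.Adj v x
      · exact Or.inr h5
      · left
        rintro (h6 | h6)
        · obtain ⟨x, hx, hx'⟩ := hcon m hm h6
          exact h5 ⟨x, hx, hx'⟩
        · exact h5 h6
    rcases h4 a (Or.inl rfl) with sa | sa
    · rcases h4 b (Or.inr (Or.inl rfl)) with sb | sb
      · exact h2 a ha b hb hab sa sb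
      · rcases h4 c (Or.inr (Or.inr (Or.inl rfl))) with sc | sc
        · exact h2 a ha c hc hac sa sc
        · rcases h4 d (Or.inr (Or.inr (Or.inr rfl))) with sd | sd
          · exact h2 a ha d hd had sa sd
          · exact h1 b hb c hc d hd hbc hbd hcd sb sc sd
    · rcases h4 b (Or.inr (Or.inl rfl)) with sb | sb
      · rcases h4 c (Or.inr (Or.inr (Or.inl rfl))) with sc | sc
        · exact h2 b hb c hc hbc sb sc
        · rcases h4 d (Or.inr (Or.inr (Or.inr rfl))) with sd | sd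
          · exact h2 b hb d hd hbd sb sd
          · exact h1 a ha c hc d hd hac had hcd sa sc sd
      · rcases h4 c (Or.inr (Or.inr (Or.inl rfl))) with sc | sc
        · rcases h4 d (Or.inr (Or.inr (Or.inr rfl))) with sd | sd
          · exact h2 c hc d hd hcd sc sd
          · exact h1 a ha b hb d hd hab had hbd sa sb sd
        · exact h1 a ha b hb c hc hab hac hbc sa sb sc
  obtain ⟨a, ha', ha, na⟩ := h3 0 (by omega) 1 (by omega) 2 (by omega) 3 (by omega) (by omega)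
    (by omega) (by omega) (by omega) (by omega) (by omega)
  obtain ⟨b, hb', hb, nb⟩ := h3 4 (by omega) 5 (by omega) 6 (by omega) 7 (by omega) (by omega)
    (by omega) (by omega) (by omega) (by omega) (by omega)
  have hak : a < k := by omega
  have hbk : b < k := by omega
  have hab : a ≠ b := by omega
  clear ha' hb' h3
  have na' : ∀ x ∈ Yi e E a, ¬ G.Adj v x := fun x hx h => na ⟨x, hx, h⟩
  have nb' : ∀ x ∈ Yi e E b, ¬ G.Adj v x := fun x hx h => nb ⟨x, hx, h⟩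
  -- (3)
  have h4 : ∀ m < k, ∀ x ∈ Yi e E m, ¬ G.Adj v x := by
    intro m hm x hx hvx
    have hma : m ≠ a := fun h => na' x (h ▸ hx) hvx
    have hmb : m ≠ b := fun h => nb' x (h ▸ hx) hvx
    refine engS hG (fun n => match n with
      | 0 => {v}
      | 1 => {q a}
      | 2 => {q b}
      | 3 => {q m}
      | 4 => Yi e E a
      | 5 => Yi e E b
      | _ => Yi e E m) [[0, 1], [2], [3], [4], [5], [6]]
      [(0, 1), (1, 2), (1, 3), (2, 3), (1, 4), (2, 5), (0, 6), (3, 6)]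
      [(0, 5), (1, 5), (2, 4), (2, 6), (3, 4), (3, 5), (4, 5), (4, 6), (5, 6)]
      [(0, 2), (0, 3), (0, 4), (0, 5), (0, 6), (1, 2), (1, 3), (1, 4), (1, 5), (1, 6), (2, 3),
        (2, 4), (2, 5), (2, 6), (3, 4), (3, 5), (3, 6), (4, 5), (4, 6), (5, 6)]
      ?_ ?_ ?_ ?_ (by decide)
    · exact fc (fc (Conn.singleton G _) <| fc (Conn.singleton G _) <| fn) <|
        fc (fc (Conn.singleton G _) <| fn) <| fc (fc (Conn.singleton G _) <| fn) <|
        fc (fc (hB.c a hak) <| fn) <| fc (fc (hB.c b hbk) <| fn) <| fc (fc (hB.c m hm) <| fn) <|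
        fn
    · exact fc (tch_ss ha) <| fc (tch_ss (hA.qq a hak b hbk hab)) <|
        fc (tch_ss (hA.qq a hak m hm hma.symm)) <| fc (tch_ss (hA.qq b hbk m hm hmb.symm)) <|
        fc (tch_sS (hB.qy a hak)) <| fc (tch_sS (hB.qy b hbk)) <| fc (tch_sS ⟨x, hx, hvx⟩) <|
        fc (tch_sS (hB.qy m hm)) <| fn
    · exact fc (nt_sS nb') <| fc (nt_sS (hB.nq a hak b hbk hab)) <|
        fc (nt_sS (hB.nq b hbk a hak hab.symm)) <| fc (nt_sS (hB.nq b hbk m hm hmb.symm)) <|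
        fc (nt_sS (hB.nq m hm a hak hma)) <| fc (nt_sS (hB.nq m hm b hbk hmb)) <|
        fc (nt_SS (fun x hx y hy => (hB.yy a hak b hbk hab x hx y hy).2)) <|
        fc (nt_SS (fun x hx y hy => (hB.yy a hak m hm hma.symm x hx y hy).2)) <|
        fc (nt_SS (fun x hx y hy => (hB.yy b hbk m hm hmb.symm x hx y hy).2)) <| fn
    · exact fc (dj_ss (vq b hbk)) <| fc (dj_ss (vq m hm)) <| fc (dj_sS (vY a hak)) <|
        fc (dj_sS (vY b hbk)) <| fc (dj_sS (vY m hm)) <| fc (dj_ss (qne _ hak _ hbk hab)) <|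
        fc (dj_ss (qne _ hak _ hm hma.symm)) <| fc (dj_sS (hB.qn a hak a hak)) <|
        fc (dj_sS (hB.qn a hak b hbk)) <| fc (dj_sS (hB.qn a hak m hm)) <|
        fc (dj_ss (qne _ hbk _ hm hmb.symm)) <| fc (dj_sS (hB.qn b hbk a hak)) <|
        fc (dj_sS (hB.qn b hbk b hbk)) <| fc (dj_sS (hB.qn b hbk m hm)) <|
        fc (dj_sS (hB.qn m hm a hak)) <| fc (dj_sS (hB.qn m hm b hbk)) <|
        fc (dj_sS (hB.qn m hm m hm)) <|
        fc (dj_SS (fun x hx y hy => (hB.yy a hak b hbk hab x hx y hy).1)) <|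
        fc (dj_SS (fun x hx y hy => (hB.yy a hak m hm hma.symm x hx y hy).1)) <|
        fc (dj_SS (fun x hx y hy => (hB.yy b hbk m hm hmb.symm x hx y hy).1)) <| fn
  refine ⟨hv, ?_, h4⟩
  intro m hm
  by_contra hcon
  have hma : m ≠ a := fun h => hcon (h ▸ ha)
  have hmb : m ≠ b := fun h => hcon (h ▸ hb)
  refine engS hG (fun n => match n with
    | 0 => {q a}
    | 1 => {q m}
    | 2 => {q b}
    | 3 => Yi e E a
    | 4 => Yi e E m
    | _ => {v}) [[0], [1], [2], [3], [4], [5]]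
    [(0, 1), (0, 2), (1, 2), (0, 3), (1, 4), (5, 0), (5, 2)]
    [(0, 4), (1, 3), (5, 1), (2, 3), (2, 4), (3, 4), (5, 3), (5, 4)]
    [(0, 1), (0, 2), (0, 3), (0, 4), (5, 0), (1, 2), (1, 3), (1, 4), (5, 1), (2, 3), (2, 4),
      (5, 2), (3, 4), (5, 3), (5, 4)]
    ?_ ?_ ?_ ?_ (by decide)
  · exact fc (fc (Conn.singleton G _) <| fn) <| fc (fc (Conn.singleton G _) <| fn) <|
      fc (fc (Conn.singleton G _) <| fn) <| fc (fc (hB.c a hak) <| fn) <| fc (fc (hB.c m hm) <|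
      fn) <| fc (fc (Conn.singleton G _) <| fn) <| fn
  · exact fc (tch_ss (hA.qq a hak m hm hma.symm)) <| fc (tch_ss (hA.qq a hak b hbk hab)) <|
      fc (tch_ss (hA.qq m hm b hbk hmb)) <| fc (tch_sS (hB.qy a hak)) <|
      fc (tch_sS (hB.qy m hm)) <| fc (tch_ss ha) <| fc (tch_ss hb) <| fn
  · exact fc (nt_sS (hB.nq a hak m hm hma.symm)) <| fc (nt_sS (hB.nq m hm a hak hma)) <|
      fc (fun h => hcon (by
        obtain ⟨_, rfl, _, rfl, h⟩ := h
        exact h)) <|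
      fc (nt_sS (hB.nq b hbk a hak hab.symm)) <| fc (nt_sS (hB.nq b hbk m hm hmb.symm)) <|
      fc (nt_SS (fun x hx y hy => (hB.yy a hak m hm hma.symm x hx y hy).2)) <|
      fc (nt_sS na') <| fc (nt_sS (h4 m hm)) <| fn
  · exact fc (dj_ss (qne _ hak _ hm hma.symm)) <| fc (dj_ss (qne _ hak _ hbk hab)) <|
      fc (dj_sS (hB.qn a hak a hak)) <| fc (dj_sS (hB.qn a hak m hm)) <| fc (dj_ss (vq a hak)) <|
      fc (dj_ss (qne _ hm _ hbk hmb)) <| fc (dj_sS (hB.qn m hm a hak)) <|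
      fc (dj_sS (hB.qn m hm m hm)) <| fc (dj_ss (vq m hm)) <| fc (dj_sS (hB.qn b hbk a hak)) <|
      fc (dj_sS (hB.qn b hbk m hm)) <| fc (dj_ss (vq b hbk)) <|
      fc (dj_SS (fun x hx y hy => (hB.yy a hak m hm hma.symm x hx y hy).1)) <|
      fc (dj_sS (vY a hak)) <| fc (dj_sS (vY m hm)) <| fn

end Pool.Agent.MPd439b2.H1R
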