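import Pool.Agent.Lib.MP_d439b2_co.X3.H1R.AxQ

/-!
# MP_d439b2_co, X3/H1R, Qw: an arm which is one vertex complete to its letter
-/

set_option autoImplicit false

namespace Pool.Agent.MPd439b2.H1R

open Pool.Agent.MPd439b2
open Pool.Agent.MPd439b2.Rep
open Pool.Agent.MPd439b2.NK
open Pool.Agent.MPd439b2.H1T
open AxQ

theorem rQw : S_Qw := by
  intro V G k e W q E hG hR hA hk i hi _ hfu
  rw [Set.eq_empty_iff_forall_notMem]
  intro w hw
  have hL := hR.lt
  obtain ⟨r, hr⟩ := hR.half w hw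
  have hwn : ¬ Lw G k e w := hr.not_lw (by omega)
  have hws : ∀ l < k, G.Adj w (e r l) := fun l hl => (hr l hl).1
  have hwt : ∀ l < k, ¬ G.Adj w (e (!r) l) := fun l hl => (hr l hl).2
  have aL : ∀ l < k, ∀ x ∈ insert (q l) (E l), Lw G k e x := by
    rintro l hl x (rfl | hx)
    · exact (hA.qR l hl).2
    · exact (hA.ER l hl x hx).2
  have aP : ∀ l < k, ∀ m < k, ∀ x ∈ insert (q l) (E l), ∀ s, x ≠ e s m := by
    rintro l hl m hm x (rfl | hx) s
    · exact (hA.qP l hl m hm).1 s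
    · exact (hA.EP l hl m hm x hx).1 s
  have aN : ∀ l < k, ∀ m < k, l ≠ m → ∀ x ∈ insert (q l) (E l), ∀ s, ¬ G.Adj x (e s m) := by
    rintro l hl m hm hlm x (rfl | hx) s h
    · exact (hA.qP l hl m hm).2 hlm ⟨s, h⟩
    · exact (hA.EP l hl m hm x hx).2 hlm ⟨s, h⟩
  have qA : ∀ l < k, l ≠ i → ∃ x ∈ insert (q l) (E l), G.Adj (q i) x := fun l hl hli =>
    ⟨q l, Or.inl rfl, hA.qq i hi l hl hli.symm⟩
  have dAw : ∀ l < k, Disjoint (insert (q l) (E l)) {w} := by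
    intro l hl
    refine (dj_sS fun h => hwn ?_).symm
    exact aL l hl w h
  have dAP : ∀ l < k, ∀ m < k, ∀ s, Disjoint (insert (q l) (E l)) {e s m} := by
    intro l hl m hm s
    refine (dj_sS fun h => ?_).symm
    exact aP l hl m hm _ h s rfl
  have dqw : Disjoint ({q i} : Set V) {w} := dj_ss fun h => hwn (h ▸ aL i hi (q i) (Or.inl rfl))
  have dqP : ∀ m < k, ∀ s, Disjoint ({q i} : Set V) {e s m} := fun m hm s =>
    dj_ss (aP i hi m hm _ (Or.inl rfl) s)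
  have dPw : ∀ m < k, ∀ s, Disjoint ({e s m} : Set V) {w} := fun m hm s =>
    dj_ss fun h => hwn (h ▸ hL.lw hm s)
  have dPP : ∀ l < k, ∀ m < k, l ≠ m → ∀ s t, Disjoint ({e s l} : Set V) {e t m} :=
    fun l hl m hm hlm s t => dj_ss (hL.ne hl hm hlm s t)
  have dP : ∀ l < k, Disjoint ({e r l} : Set V) {e (!r) l} := fun l hl => dj_ss (hL.ft hl r)
  have nPP : ∀ l < k, ∀ m < k, l ≠ m → ∀ s t, ¬ Tch G ({e s l} : Set V) {e t m} := by
    rintro l hl m hm hlm s t ⟨_, rfl, _, rfl, h⟩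
    exact hL.nadj hl hm hlm s t h
  have nAP : ∀ l < k, ∀ m < k, l ≠ m → ∀ s, ¬ Tch G (insert (q l) (E l)) {e s m} := by
    rintro l hl m hm hlm s ⟨x, hx, _, rfl, h⟩
    exact aN l hl m hm hlm x hx s h
  have nqP : ∀ m < k, i ≠ m → ∀ s, ¬ Tch G ({q i} : Set V) {e s m} := by
    rintro m hm him s ⟨_, rfl, _, rfl, h⟩
    exact aN i hi m hm him _ (Or.inl rfl) s h
  have nwt : ∀ l < k, ¬ Tch G ({w} : Set V) {e (!r) l} := by
    rintro l hl ⟨_, rfl, _, rfl, h⟩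
    exact hwt l hl h
  have tqA : ∀ l < k, l ≠ i → Tch G ({q i} : Set V) (insert (q l) (E l)) := fun l hl hli =>
    tch_sS (qA l hl hli)
  by_cases hcase : ∃ j < k, j ≠ i ∧ ∃ x ∈ insert (q j) (E j), G.Adj x (e r j)
  · obtain ⟨j, hj, hji, x, hx, hxs⟩ := hcase
    obtain ⟨m, hm, hmi, hmj⟩ := pk2 (by omega : 3 ≤ k) i j
    refine engS hG (fun n => match n with
      | 0 => {q i}
      | 1 => {e r j}
      | 2 => insert (q j) (E j)
      | 3 => {w}
      | 4 => {e r i}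
      | 5 => {e (!r) j}
      | 6 => {e r m}
      | _ => {e (!r) i}) [[0, 1, 2], [3], [4], [5], [6], [7]]
      [(0, 2), (1, 2), (1, 3), (0, 4), (3, 4), (1, 5), (3, 6), (0, 7), (4, 7)]
      [(0, 6), (1, 6), (2, 6), (3, 5), (3, 7), (4, 5), (4, 6), (5, 6), (5, 7), (6, 7)]
      [(0, 3), (0, 4), (0, 5), (0, 6), (0, 7), (1, 3), (1, 4), (1, 5), (1, 6), (1, 7),
        (2, 3), (2, 4), (2, 5), (2, 6), (2, 7), (3, 4), (3, 5), (3, 6), (3, 7), (4, 5), (4, 6),
        (4, 7), (5, 6), (5, 7), (6, 7)]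
      ?_ ?_ ?_ ?_ (by decide)
    · exact fc (fc (Conn.singleton G _) <| fc (Conn.singleton G _) <| fc (hA.con j hj) <| fn) <|
        fc (fc (Conn.singleton G _) <| fn) <| fc (fc (Conn.singleton G _) <| fn) <| fc (fc (Conn.singleton G _) <| fn) <|
        fc (fc (Conn.singleton G _) <| fn) <| fc (fc (Conn.singleton G _) <| fn) <| fn
    · exact fc (tqA j hj hji) <| fc (tch_sS ⟨x, hx, hxs.symm⟩) <| fc (tch_ss (hws j hj).symm) <| fc (tch_ss (hfu r)) <|
        fc (tch_ss (hws i hi)) <| fc (tch_ss (hL.adj hj r)) <| fc (tch_ss (hws m hm)) <| fc (tch_ss (hfu (!r))) <|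
        fc (tch_ss (hL.adj hi r)) <| fn
    · exact fc (nqP m hm hmi.symm r) <| fc (nPP j hj m hm hmj.symm r r) <| fc (nAP j hj m hm hmj.symm r) <|
        fc (nwt j hj) <| fc (nwt i hi) <| fc (nPP i hi j hj hji.symm r (!r)) <| fc (nPP i hi m hm hmi.symm r r) <|
        fc (nPP j hj m hm hmj.symm (!r) r) <| fc (nPP j hj i hi hji (!r) (!r)) <| fc (nPP m hm i hi hmi r (!r)) <| fn
    · exact fc dqw <| fc (dqP i hi r) <| fc (dqP j hj (!r)) <| fc (dqP m hm r) <| fc (dqP i hi (!r)) <|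
        fc (dPw j hj r) <| fc (dPP j hj i hi hji r r) <| fc (dP j hj) <| fc (dPP j hj m hm hmj.symm r r) <|
        fc (dPP j hj i hi hji r (!r)) <|
        fc (dAw j hj) <| fc (dAP j hj i hi r) <| fc (dAP j hj j hj (!r)) <| fc (dAP j hj m hm r) <| fc (dAP j hj i hi (!r)) <|
        fc ((dPw i hi r).symm) <| fc ((dPw j hj (!r)).symm) <| fc ((dPw m hm r).symm) <| fc ((dPw i hi (!r)).symm) <|
        fc (dPP i hi j hj hji.symm r (!r)) <| fc (dPP i hi m hm hmi.symm r r) <| fc (dP i hi) <|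
        fc (dPP j hj m hm hmj.symm (!r) r) <| fc (dPP j hj i hi hji (!r) (!r)) <| fc (dPP m hm i hi hmi r (!r)) <| fn
  · have ht : ∀ j < k, j ≠ i → ∃ x ∈ insert (q j) (E j), G.Adj x (e (!r) j) := by
      intro j hj hji
      obtain ⟨x, hx, s, hs⟩ := hA.tch j hj
      have hsr : s = !r := by
        by_contra hne
        have : s = r := by
          cases s <;> cases r <;> simp_all
        subst this
        exact hcase ⟨j, hj, hji, x, hx, hs⟩
      subst hsr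
      exact ⟨x, hx, hs⟩
    obtain ⟨j, hj, hji⟩ := pk1 (by omega : 2 ≤ k) i
    obtain ⟨j', hj', hji', hjj⟩ := pk2 (by omega : 3 ≤ k) i j
    obtain ⟨m, hm, hmi, hmj, hmj'⟩ := pk3 (by omega : 4 ≤ k) i j j'
    obtain ⟨x, hx, hxt⟩ := ht j hj hji
    obtain ⟨x', hx', hxt'⟩ := ht j' hj' hji'
    refine engS hG (fun n => match n with
      | 0 => {e r j}
      | 1 => {e (!r) j}
      | 2 => insert (q j) (E j)
      | 3 => {q i}
      | 4 => insert (q j') (E j')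
      | 5 => {w}
      | 6 => {e r i}
      | 7 => {e (!r) j'}
      | 8 => {e r m}
      | _ => {e (!r) i}) [[0, 1, 2, 3, 4], [5], [6], [7], [8], [9]]
      [(0, 1), (1, 2), (2, 3), (3, 4), (0, 5), (3, 6), (5, 6), (4, 7), (5, 8), (3, 9), (6, 9)]
      [(0, 8), (1, 8), (2, 8), (3, 8), (4, 8), (5, 7), (5, 9), (6, 7), (6, 8), (7, 8), (7, 9),
        (8, 9)]
      [(0, 5), (0, 6), (0, 7), (0, 8), (0, 9), (1, 5), (1, 6), (1, 7), (1, 8), (1, 9),
        (2, 5), (2, 6), (2, 7), (2, 8), (2, 9), (3, 5), (3, 6), (3, 7), (3, 8), (3, 9),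
        (4, 5), (4, 6), (4, 7), (4, 8), (4, 9), (5, 6), (5, 7), (5, 8), (5, 9), (6, 7), (6, 8),
        (6, 9), (7, 8), (7, 9), (8, 9)]
      ?_ ?_ ?_ ?_ (by decide)
    · exact fc (fc (Conn.singleton G _) <| fc (Conn.singleton G _) <| fc (hA.con j hj) <| fc (Conn.singleton G _) <|
        fc (hA.con j' hj') <| fn) <|
        fc (fc (Conn.singleton G _) <| fn) <| fc (fc (Conn.singleton G _) <| fn) <| fc (fc (Conn.singleton G _) <| fn) <|
        fc (fc (Conn.singleton G _) <| fn) <| fc (fc (Conn.singleton G _) <| fn) <| fn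
    · exact fc (tch_ss (hL.adj hj r)) <| fc (tch_sS ⟨x, hx, hxt.symm⟩) <| fc ((tqA j hj hji).symm) <|
        fc (tqA j' hj' hji') <| fc (tch_ss (hws j hj).symm) <| fc (tch_ss (hfu r)) <| fc (tch_ss (hws i hi)) <|
        fc (tch_Ss ⟨x', hx', hxt'⟩) <| fc (tch_ss (hws m hm)) <| fc (tch_ss (hfu (!r))) <|
        fc (tch_ss (hL.adj hi r)) <| fn
    · exact fc (nPP j hj m hm hmj.symm r r) <| fc (nPP j hj m hm hmj.symm (!r) r) <|
        fc (nAP j hj m hm hmj.symm r) <| fc (nqP m hm hmi.symm r) <| fc (nAP j' hj' m hm hmj'.symm r) <|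
        fc (nwt j' hj') <| fc (nwt i hi) <| fc (nPP i hi j' hj' hji'.symm r (!r)) <| fc (nPP i hi m hm hmi.symm r r) <|
        fc (nPP j' hj' m hm hmj'.symm (!r) r) <| fc (nPP j' hj' i hi hji' (!r) (!r)) <|
        fc (nPP m hm i hi hmi r (!r)) <| fn
    · exact fc (dPw j hj r) <| fc (dPP j hj i hi hji r r) <| fc (dPP j hj j' hj' hjj.symm r (!r)) <|
        fc (dPP j hj m hm hmj.symm r r) <| fc (dPP j hj i hi hji r (!r)) <|
        fc (dPw j hj (!r)) <| fc (dPP j hj i hi hji (!r) r) <| fc (dPP j hj j' hj' hjj.symm (!r) (!r)) <|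
        fc (dPP j hj m hm hmj.symm (!r) r) <| fc (dPP j hj i hi hji (!r) (!r)) <|
        fc (dAw j hj) <| fc (dAP j hj i hi r) <| fc (dAP j hj j' hj' (!r)) <| fc (dAP j hj m hm r) <|
        fc (dAP j hj i hi (!r)) <|
        fc dqw <| fc (dqP i hi r) <| fc (dqP j' hj' (!r)) <| fc (dqP m hm r) <| fc (dqP i hi (!r)) <|
        fc (dAw j' hj') <| fc (dAP j' hj' i hi r) <| fc (dAP j' hj' j' hj' (!r)) <| fc (dAP j' hj' m hm r) <|
        fc (dAP j' hj' i hi (!r)) <|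
        fc ((dPw i hi r).symm) <| fc ((dPw j' hj' (!r)).symm) <| fc ((dPw m hm r).symm) <| fc ((dPw i hi (!r)).symm) <|
        fc (dPP i hi j' hj' hji'.symm r (!r)) <| fc (dPP i hi m hm hmi.symm r r) <| fc (dP i hi) <|
        fc (dPP j' hj' m hm hmj'.symm (!r) r) <| fc (dPP j' hj' i hi hji' (!r) (!r)) <|
        fc (dPP m hm i hi hmi r (!r)) <| fn

end Pool.Agent.MPd439b2.H1R
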