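import Pool.Agent.Lib.MP_d439b2_co.X3.H1R.AxQ

/-!
# MP_d439b2_co, X3/H1R, Qx: there are no large arms
-/

set_option autoImplicit false

namespace Pool.Agent.MPd439b2.H1R

open Pool.Agent.MPd439b2
open Pool.Agent.MPd439b2.Rep
open Pool.Agent.MPd439b2.NK
open Pool.Agent.MPd439b2.H1T
open AxQ

theorem rQx : S_Qx := by
  intro hQb hQa hQv hQc hQd hQz hQf hQw hQm hQg β V _ G k e W q E hG hP hLk hR hA hk
  have hL := hR.lt
  have hB := qb hQb hL hA
  have hv : ∀ v, Ou G k e W q E v → Lo G k e W q E v ∨ Tp G k e W q E v :=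
    hQv hQb hQa V G k e W q E hG hL hA (by omega)
  have hz := hQz hQb hQa hQv hQc hQd V G k e W q E hG hR hA (by omega)
  have hf := hQf hQb V G k e W q E hG hR hA (by omega) hz
  have hm := hQm hQb hQw V G k e W q E hG hP hR hA (by omega) hz hf
  have hg := hQg V G k e W q E hG hR hA (by omega) hz hf hm
  obtain ⟨z1, z2, z3, z4, z5⟩ := hz
  set h := k / 2 with hh
  have hh1 : β 4 < h := by omega
  have hh2 : 2 * h ≤ k := by omega
  have qinj : ∀ i < k, ∀ j < k, q i = q j → i = j := by
    intro i hi j hj hij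
    by_contra hne
    exact (hA.qq i hi j hj hne).ne hij
  set Z : Set V := {x | ∃ i < h, x ∈ Zi G k e W q E i} with hZ
  set Q : Set V := {x | ∃ i < h, x = q i} with hQ
  set X : Set V := Z ∪ Q with hX
  have hqX : ∀ j < k, h ≤ j → q j ∉ X := by
    rintro j hj hhj (⟨i, hi, h1⟩ | ⟨i, hi, h1⟩)
    · exact z2 i (by omega) j hj h1
    · have := qinj j hj i (by omega) h1
      omega
  -- the sizes
  have s1 : β 4 < X.ncard := by
    have h1 : (q '' (↑(Finset.range h) : Set ℕ)).ncard = h := by
      rw [Set.ncard_image_of_injOn, Set.ncard_coe_finset, Finset.card_range]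
      intro i hi j hj hij
      have hi' := Finset.mem_range.1 (Finset.mem_coe.1 hi)
      have hj' := Finset.mem_range.1 (Finset.mem_coe.1 hj)
      exact qinj i (by omega) j (by omega) hij
    have h2 : q '' (↑(Finset.range h) : Set ℕ) ⊆ X := by
      rintro _ ⟨i, hi, rfl⟩
      exact Or.inr ⟨i, Finset.mem_range.1 (Finset.mem_coe.1 hi), rfl⟩
    have h3 := Set.ncard_le_ncard h2 (Set.toFinite X)
    omega
  have s2 : β 4 < Xᶜ.ncard := by
    have h1 : ((fun i => q (h + i)) '' (↑(Finset.range h) : Set ℕ)).ncard = h := by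
      rw [Set.ncard_image_of_injOn, Set.ncard_coe_finset, Finset.card_range]
      intro i hi j hj hij
      have hi' := Finset.mem_range.1 (Finset.mem_coe.1 hi)
      have hj' := Finset.mem_range.1 (Finset.mem_coe.1 hj)
      have := qinj (h + i) (by omega) (h + j) (by omega) hij
      omega
    have h2 : (fun i => q (h + i)) '' (↑(Finset.range h) : Set ℕ) ⊆ Xᶜ := by
      rintro _ ⟨i, hi, rfl⟩
      have hi' := Finset.mem_range.1 (Finset.mem_coe.1 hi)
      exact hqX (h + i) (by omega) (by omega)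
    have h3 := Set.ncard_le_ncard h2 (Set.toFinite Xᶜ)
    omega
  -- the ranks
  have r1 : LK.rk G Z (Xᶜ \ W) ≤ 1 := by
    refine rk_one G {u | Fm G k e u} ?_
    rintro x ⟨i, hi, hx⟩
    left
    rintro u ⟨huX, huW⟩
    constructor
    · intro hxu
      rcases z5 i (by omega) x hx u hxu with h1 | h1 | h1 | h1
      · exact absurd (Or.inl ⟨i, hi, h1⟩) huX
      · exact absurd (Or.inr ⟨i, hi, h1⟩) huX
      · exact absurd h1 huW
      · exact h1
    · intro h1
      exact (hf u h1 i (by omega) x hx).symm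
  have r2 : LK.rk G Q (Xᶜ \ W) ≤ 1 := by
    refine rk_one G {u | Fm G k e u ∨ (∃ j < k, h ≤ j ∧ u = q j) ∨ Tp G k e W q E u} ?_
    rintro x ⟨i, hi, rfl⟩
    left
    rintro u ⟨huX, huW⟩
    constructor
    · intro hxu
      by_cases hfm : Fm G k e u
      · exact Or.inl hfm
      right
      have hlw : Lw G k e u := (hR.out u huW).resolve_right hfm
      by_cases hqj : ∃ j < k, u = q j
      · obtain ⟨j, hj, rfl⟩ := hqj
        left
        refine ⟨j, hj, ?_, rfl⟩
        by_contra hcon
        exact huX (Or.inr ⟨j, by omega, rfl⟩)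
      right
      have hou : Ou G k e W q E u := by
        refine ⟨huW, hlw, fun j hj => ⟨fun h1 => hqj ⟨j, hj, h1⟩, fun h1 => ?_⟩⟩
        by_cases hij : i = j
        · subst hij
          exact huX (Or.inl ⟨i, hi, Or.inl h1⟩)
        · exact hB.nq i (by omega) j hj hij u h1 hxu
      rcases hv u hou with h1 | h1
      · exfalso
        apply huX
        refine Or.inl ⟨i, hi, Or.inr ⟨{u}, Conn.singleton G u, ?_, rfl, u, rfl, Or.inl hxu.symm⟩⟩
        rintro y rfl
        exact h1
      · exact h1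
    · rintro (h1 | ⟨j, hj, hhj, rfl⟩ | h1)
      · exact (hg u h1 i (by omega)).symm
      · exact hA.qq i (by omega) j hj (by omega)
      · exact (h1.2.1 i (by omega)).symm
  have r3 : LK.cr G X ≤ 4 := by
    have h1 : LK.rk G X Xᶜ ≤ LK.rk G X ((Xᶜ \ W) ∪ W) := rk_mono G subset_rfl (by
      intro u hu
      by_cases huW : u ∈ W
      · exact Or.inr huW
      · exact Or.inl ⟨hu, huW⟩)
    have h2 := rk_union_right G X (Xᶜ \ W) W
    have h3 := rk_card_right G X W
    have h4 := hR.card
    have h5 := rk_union G Z Q (Xᶜ \ W)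
    have h6 : LK.cr G X = LK.rk G X Xᶜ := rfl
    rw [← hX] at h5
    omega
  rcases hLk 4 le_rfl X r3 with h1 | h1 <;> omega

end Pool.Agent.MPd439b2.H1R
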