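import Pool.Agent.Lib.MP_d439b2_co.X3.H1R.AxQ

/-!
# MP_d439b2_co, X3/H1R, Qz: the sets `Zi`
-/

set_option autoImplicit false

namespace Pool.Agent.MPd439b2.H1R

open Pool.Agent.MPd439b2
open Pool.Agent.MPd439b2.Rep
open Pool.Agent.MPd439b2.NK
open Pool.Agent.MPd439b2.H1T
open AxQ

/-- a union of connected sets with a common point -/
private theorem conn_star {V : Type} {G : SimpleGraph V} {S : Set V} {c : V}
    (h : ∀ x ∈ S, ∃ T, T ⊆ insert c S ∧ Conn G T ∧ c ∈ T ∧ x ∈ T) : Conn G (insert c S) := by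
  choose! T h1 h2 h3 h4 using h
  have h5 := Conn.union_iUnion (G := G) (A := {c}) (P := fun x : S => T x.1)
    (Conn.singleton G c) (fun x => h2 x.1 x.2) (fun x => Or.inl ⟨c, rfl, h3 x.1 x.2⟩)
  have h6 : ({c} ∪ ⋃ x : S, T x.1) = insert c S := by
    ext z
    constructor
    · rintro (hz | hz)
      · exact Or.inl hz
      · obtain ⟨x, hx⟩ := Set.mem_iUnion.1 hz
        exact h1 x.1 x.2 hx
    · rintro (hz | hz)
      · exact Or.inl hz
      · exact Or.inr (Set.mem_iUnion.2 ⟨⟨z, hz⟩, h4 z hz⟩)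
  rw [← h6]
  exact h5

theorem rQz : S_Qz := by
  intro hQb hQa hQv hQc hQd V G k e W q E hG hR hA hk
  have hL := hR.lt
  have hB := qb hQb hL hA
  have hv : ∀ v, Ou G k e W q E v → Lo G k e W q E v ∨ Tp G k e W q E v :=
    hQv hQb hQa V G k e W q E hG hL hA hk
  have hc := hQc hQb V G k e W q E hG hL hA (by omega)
  have hd := hQd hQb hQc V G k e W q E hG hL hA (by omega)
  have subY : ∀ i, Yi e E i ⊆ Zi G k e W q E i := fun i => Set.subset_union_left
  have g1 : ∀ i < k, ∀ x ∈ Zi G k e W q E i, x ∉ W ∧ Lw G k e x := by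
    rintro i hi x (hx | ⟨D, hD, hlow, hxD, -⟩)
    · refine ⟨?_, hB.lw i hi x hx⟩
      rcases hx with hx | ⟨s, rfl⟩
      · exact (hA.ER i hi x hx).1
      · intro hw
        obtain ⟨r, hr⟩ := hR.half _ hw
        exact hr.not_lw (by omega) (hL.lw hi s)
    · exact ⟨(hlow x hxD).1.1, (hlow x hxD).1.2.1⟩
  have g2 : ∀ i < k, ∀ j < k, q j ∉ Zi G k e W q E i := by
    rintro i hi j hj (hx | ⟨D, hD, hlow, hxD, -⟩)
    · exact hB.qn j hj i hi hx
    · exact ((hlow _ hxD).1.2.2 j hj).1 rfl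
  have g3 : ∀ i < k, ∀ j < k, i ≠ j → (∀ x ∈ Zi G k e W q E i, ∀ y ∈ Zi G k e W q E j,
      x ≠ y ∧ ¬ G.Adj x y) ∧ ∀ x ∈ Zi G k e W q E i, ¬ G.Adj (q j) x := by
    intro i hi j hj hij
    constructor
    · rintro x (hx | ⟨D, hD, hlow, hxD, hat⟩) y (hy | ⟨D', hD', hlow', hyD, hat'⟩)
      · exact hB.yy i hi j hj hij x hx y hy
      · refine ⟨?_, ?_⟩
        · rintro rfl
          exact ((hlow' _ hyD).1.2.2 i hi).2 hx
        · intro h
          exact hij (hc D' hD' hlow' i hi j hj ⟨y, hyD, Or.inr ⟨x, hx, h.symm⟩⟩ hat')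
      · refine ⟨?_, ?_⟩
        · rintro rfl
          exact ((hlow _ hxD).1.2.2 j hj).2 hy
        · intro h
          exact hij (hc D hD hlow i hi j hj hat ⟨x, hxD, Or.inr ⟨y, hy, h⟩⟩)
      · have key : ((D ∩ D').Nonempty ∨ Tch G D D') → False := by
          intro h
          refine hij (hc (D ∪ D') (hD.union hD' h) ?_ i hi j hj ?_ ?_)
          · rintro z (hz | hz)
            · exact hlow z hz
            · exact hlow' z hz
          · obtain ⟨z, hz, h1⟩ := hat
            exact ⟨z, Or.inl hz, h1⟩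
          · obtain ⟨z, hz, h1⟩ := hat'
            exact ⟨z, Or.inr hz, h1⟩
        refine ⟨?_, fun h => key (Or.inr ⟨x, hxD, y, hyD, h⟩)⟩
        rintro rfl
        exact key (Or.inl ⟨x, hxD, hyD⟩)
    · rintro x (hx | ⟨D, hD, hlow, hxD, hat⟩) h
      · exact hB.nq j hj i hi hij.symm x hx h
      · exact hij (hc D hD hlow i hi j hj hat ⟨x, hxD, Or.inl h.symm⟩)
  refine ⟨g1, g2, g3, ?_, ?_⟩
  · intro i hi
    apply conn_star
    rintro x (hx | ⟨D, hD, hlow, hxD, hat⟩)
    · obtain ⟨y, hy, hqy⟩ := hB.qy i hi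
      refine ⟨insert (q i) (Yi e E i), Set.insert_subset_insert (subY i),
        (hB.c i hi).insert ⟨y, hy, hqy.symm⟩, Or.inl rfl, Or.inr hx⟩
    · obtain ⟨D1, hD1, hD1', hD1c, y, hy, hqy⟩ := clo hB hi hD hat
      refine ⟨insert (q i) D1, Set.insert_subset_insert ?_, hD1c.insert ⟨y, hy, hqy.symm⟩,
        Or.inl rfl, Or.inr (hD1 hxD)⟩
      intro z hz
      rcases hD1' hz with h | h
      · exact Or.inr ⟨D, hD, hlow, h, hat⟩
      · exact Or.inl h
  · intro i hi x hx u hxu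
    by_contra hcon
    push Not at hcon
    obtain ⟨hu1, hu2, hu3, hu4⟩ := hcon
    have hlw : Lw G k e u := (hR.out u hu3).resolve_right hu4
    have hou : Ou G k e W q E u := by
      refine ⟨hu3, hlw, fun j hj => ⟨?_, ?_⟩⟩
      · rintro rfl
        by_cases hij : i = j
        · subst hij
          exact hu2 rfl
        · exact (g3 i hi j hj hij).2 x hx hxu.symm
      · intro h
        by_cases hij : i = j
        · subst hij
          exact hu1 (Or.inl h)
        · exact ((g3 i hi j hj hij).1 x hx u (Or.inl h)).2 hxu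
    rcases hv u hou with hlo | htp
    · apply hu1
      rcases hx with hx | ⟨D, hD, hlow, hxD, hat⟩
      · refine Or.inr ⟨{u}, Conn.singleton G u, ?_, rfl, u, rfl, Or.inr ⟨x, hx, hxu.symm⟩⟩
        rintro y rfl
        exact hlo
      · refine Or.inr ⟨insert u D, hD.insert ⟨x, hxD, hxu⟩, ?_, Or.inl rfl, ?_⟩
        · rintro y (rfl | hy)
          · exact hlo
          · exact hlow y hy
        · obtain ⟨z, hz, h1⟩ := hat
          exact ⟨z, Or.inr hz, h1⟩
    · rcases hx with hx | ⟨D, hD, hlow, hxD, hat⟩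
      · exact htp.2.2 i hi x hx hxu.symm
      · exact hd u htp D hD hlow i hi hat x hxD hxu.symm

end Pool.Agent.MPd439b2.H1R
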