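import Pool.Agent.Lib.MP_d439b2_co.X3.H1R.SpecR

/-!
# MP_d439b2_co, X3/H1R/RE: Theorem REG
-/

set_option autoImplicit false

namespace Pool.Agent.MPd439b2.H1R

open Pool.Agent.MPd439b2
open Pool.Agent.MPd439b2.Rep
open Pool.Agent.MPd439b2.NK
open Pool.Agent.MPd439b2.H1T

theorem rRE : S_RE := by
  intro hNW hCK hCX t β
  obtain ⟨w, hw⟩ := hNW β
  obtain ⟨k, hk⟩ : ∃ k, k = (2 * (1 + 14) + 1) * (3 * t + 2 * 1 + 5) := ⟨_, rfl⟩
  obtain ⟨q, hq⟩ : ∃ q, q = k * w + 2 := ⟨_, rfl⟩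
  obtain ⟨M, hM⟩ : ∃ M, M = max (β (q + 1)) (max (β (q + 2)) (β (q + t + 2))) := ⟨_, rfl⟩
  have b1 : β (q + 1) ≤ M := hM ▸ le_max_left _ _
  have b2 : β (q + 2) ≤ M := hM ▸ (le_max_left _ _).trans (le_max_right _ _)
  have b3 : β (q + t + 2) ≤ M := hM ▸ (le_max_right _ _).trans (le_max_right _ _)
  obtain ⟨n, hn⟩ : ∃ n, n = (2 * ((M + 1) + 14) + 1) * (3 * t + 2 * (M + 1) + 5) +
    q * ((M + 1) + 14) := ⟨_, rfl⟩
  obtain ⟨N, hN⟩ := hCK k w n M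
  refine ⟨max 4 (q + t + 2), max N 3, fun V _ G e W hG hJ hP hL hR => ?_⟩
  have hL4 : Link β 4 G := fun c hc => hL c (hc.trans (le_max_left _ _))
  have hLq : Link β (q + t + 2) G := fun c hc => hL c (hc.trans (le_max_right _ _))
  obtain ⟨Q, K, ι, hQ, h⟩ := hN V G (max N 3) e W hR (le_max_left _ _) (fun S hS =>
    hw V G _ e W S hG hP hL4 hR (le_max_right _ _) hS)
  rw [← hq] at hQ
  rcases h with ⟨hc, hKM⟩ | hc
  · refine hCX V G k t 1 q M _ K Q β hG hJ hP hLq hc hQ b1 b2 b3 ?_ hk.ge (Or.inl hKM)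
    intro I hI hI1
    obtain ⟨i, hi⟩ := Finset.card_pos.1 (by omega : 0 < I.card)
    refine lt_of_lt_of_le (hKM i (hI i hi)) (Set.ncard_le_ncard ?_ (Set.toFinite _))
    exact fun x hx => Set.mem_iUnion₂.2 ⟨i, hi, hx⟩
  · refine hCX V G n t (M + 1) q M _ K Q β hG hJ hP hLq hc hQ b1 b2 b3 ?_ (by omega)
      (Or.inr hn.ge)
    intro I hI hI1
    classical
    have hx : ∀ i ∈ I, ∃ x, x ∈ K i := fun i hi => (hc.con i (hI i hi)).1
    have hne : ∃ x : V, True := by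
      obtain ⟨i, hi⟩ := Finset.card_pos.1 (by omega : 0 < I.card)
      obtain ⟨x, _⟩ := hx i hi
      exact ⟨x, trivial⟩
    obtain ⟨x₀, _⟩ := hne
    have : Nonempty V := ⟨x₀⟩
    choose! x hx using hx
    have hinj : Set.InjOn x (I : Set ℕ) := by
      intro i hi j hj hij
      by_contra hne
      exact (hc.ant i (hI i hi) j (hI j hj) hne _ (hx i hi) _ (hx j hj)).1 hij
    have h1 : (x '' (I : Set ℕ)).ncard = I.card := by
      rw [hinj.ncard_image, Set.ncard_coe_finset]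
    have h2 : x '' (I : Set ℕ) ⊆ ⋃ i ∈ I, K i := by
      rintro _ ⟨i, hi, rfl⟩
      exact Set.mem_iUnion₂.2 ⟨i, hi, hx i hi⟩
    have h3 := Set.ncard_le_ncard h2 (Set.toFinite _)
    omega

end Pool.Agent.MPd439b2.H1R
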