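import Pool.Agent.Lib.MP_d439b2_co.X3.H1R.SpecR

/-!
# MP_d439b2_co, X3/H1R/RK: rooted clique models
-/

set_option autoImplicit false

namespace Pool.Agent.MPd439b2.H1R

open Pool.Agent.MPd439b2
open Pool.Agent.MPd439b2.Rep
open Pool.Agent.MPd439b2.NK
open Pool.Agent.MPd439b2.H1T

/-- enumeration of a finite set with `k` elements -/
private theorem RK_enum {α : Type} [DecidableEq α] {k : ℕ} {S : Finset α} (h : k ≤ S.card)
    (a₀ : α) : ∃ f : ℕ → α, (∀ i < k, f i ∈ S) ∧ ∀ i < k, ∀ j < k, f i = f j → i = j := by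
  classical
  refine ⟨fun i => if h : i < S.card then (S.equivFin.symm ⟨i, h⟩ : α) else a₀, ?_, ?_⟩
  · intro i hi
    simp only [dif_pos (hi.trans_le h)]
    exact (S.equivFin.symm _).2
  · intro i hi j hj hij
    simp only [dif_pos (hi.trans_le h), dif_pos (hj.trans_le h)] at hij
    have h1 := S.equivFin.symm.injective (Subtype.ext hij)
    simpa using h1

section

variable {V : Type} {t q : ℕ} {G : SimpleGraph V} {B : Fin t → Set V}

/-- the sets of the rooted model -/
private def RKT (B : Fin t → Set V) (L : Fin q → Set V) (D : Fin t → Fin q → Set V)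
    (k : ℕ) (l i : ℕ → Fin q) (j : ℕ → Fin t) (a : ℕ) : Set V :=
  (L (l a) ∪ ⋃ b : Fin k, D (j b) (i a)) ∪ B (j a)

end

theorem rRK : S_RK := by
  classical
  intro hT1 hT2 hT3 hK1 hK2 hK3 V _ t q k G B x hB hLg hk hq ht
  have hBd : ∀ i j, i ≠ j → Disjoint (B i) (B j) := fun i j hij => (hB.2 i j hij).1
  obtain ⟨hmin, hfree⟩ := hK1 hT1 V t q G B hBd x
  obtain ⟨L, y, c, m, hM⟩ := hmin hLg
  have hfree := hfree L y c m hM
  have hLd := hM.1.dis
  -- the connectors
  have hcon : ∀ (j : Fin t) (i : Fin q), ∃ (l : Fin q) (D : Set V) (w : V),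
      (∀ i, m i ≠ j) → Cn G B L m i l j D w := by
    intro j i
    by_cases hj : ∀ i, m i ≠ j
    · obtain ⟨l, D, w, h⟩ := hK2 hT1 V t q G B x L y c m hB hM.1 i j hj
      exact ⟨l, D, w, fun _ => h⟩
    · exact ⟨i, ∅, x i, fun h => absurd h hj⟩
  choose φ D w hD using hcon
  -- a set of branch sets with the same function
  set J₀ : Finset (Fin t) := Finset.univ.filter fun j => ∀ i, m i ≠ j with hJ₀
  have hJ₀c : k * q ^ q ≤ J₀.card := by
    have h1 : J₀ = Finset.univ \ Finset.univ.image m := by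
      ext j
      simp [hJ₀]
    have h2 := Finset.le_card_sdiff (Finset.univ.image m) (Finset.univ : Finset (Fin t))
    have h3 : (Finset.univ.image m).card ≤ q := by
      simpa using Finset.card_image_le (s := (Finset.univ : Finset (Fin q))) (f := m)
    rw [← h1, Finset.card_univ, Fintype.card_fin] at h2
    omega
  obtain ⟨ψ, -, hψ⟩ := Finset.exists_le_card_fiber_of_mul_le_card_of_maps_to
    (s := J₀) (t := (Finset.univ : Finset (Fin q → Fin q))) (f := φ) (n := k)
    (fun _ _ => Finset.mem_univ _) ⟨fun i => i, Finset.mem_univ _⟩ (by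
      rw [Finset.card_univ, Fintype.card_fun, Fintype.card_fin, mul_comm]
      exact hJ₀c)
  have hq0 : 0 < q := by omega
  obtain ⟨j₀, hj₀⟩ : (J₀.filter fun j => φ j = ψ).Nonempty := Finset.card_pos.1 (by omega)
  obtain ⟨j, hjS, hji⟩ := RK_enum hψ j₀
  have hjf : ∀ b < k, ∀ i, m i ≠ j b := by
    intro b hb
    have h1 := (Finset.mem_filter.1 (hjS b hb)).1
    exact (Finset.mem_filter.1 h1).2
  have hjψ : ∀ b < k, φ (j b) = ψ := fun b hb => (Finset.mem_filter.1 (hjS b hb)).2
  -- the fibres of `ψ` have at most two elements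
  have hfib : ∀ l : Fin q, (Finset.univ.filter fun i => ψ i = l).card ≤ 2 := by
    intro l
    have h1 : ((Finset.univ.filter fun i => ψ i = l).erase l).card ≤ 1 := by
      rw [Finset.card_le_one]
      intro i hi i' hi'
      rw [Finset.mem_erase, Finset.mem_filter] at hi hi'
      by_contra hii
      have hf := hjf 0 (by omega)
      have hψ0 := hjψ 0 (by omega)
      have e1 := hD (j 0) i hf
      have e2 := hD (j 0) i' hf
      rw [hψ0, hi.2.2] at e1
      rw [hψ0, hi'.2.2] at e2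
      exact hK3 hT1 hT2 hT3 hK1 V t q G B x L y c m hB hM i i' l (j 0) _ _ _ _ hf e1 e2 hii hi.1
        hi'.1
    have h2 := Finset.pred_card_le_card_erase (s := Finset.univ.filter fun i => ψ i = l) (a := l)
    omega
  have hrange : k ≤ (Finset.univ.image ψ).card := by
    have h1 := Finset.card_le_mul_card_image (s := (Finset.univ : Finset (Fin q))) (f := ψ) 2
      (fun l _ => hfib l)
    rw [Finset.card_univ, Fintype.card_fin] at h1
    omega
  obtain ⟨l, hlS, hli⟩ := RK_enum hrange ⟨0, hq0⟩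
  have hex : ∀ a : ℕ, ∃ i : Fin q, a < k → ψ i = l a := by
    intro a
    by_cases ha : a < k
    · obtain ⟨i, -, hi⟩ := Finset.mem_image.1 (hlS a ha)
      exact ⟨i, fun _ => hi⟩
    · exact ⟨⟨0, hq0⟩, fun h => absurd h ha⟩
  choose i hi using hex
  have hC : ∀ a < k, ∀ b < k, Cn G B L m (i a) (l a) (j b) (D (j b) (i a)) (w (j b) (i a)) := by
    intro a ha b hb
    have h1 := hD (j b) (i a) (hjf b hb)
    rwa [hjψ b hb, hi a ha] at h1
  have hii : ∀ a < k, ∀ b < k, i a = i b → a = b := by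
    intro a ha b hb h
    exact hli a ha b hb (by rw [← hi a ha, ← hi b hb, h])
  have hmi := hM.1.mi
  refine ⟨RKT B L D k l i j, l, ?_, ?_⟩
  · intro a ha
    have h1 := (hT1 V t G B hBd (x (l a)) (L (l a)) (y (l a)) (c (l a)) (hM.1.tl (l a))).1
    constructor
    · have h2 : Conn G (L (l a) ∪ ⋃ b : Fin k, D (j b) (i a)) := by
        refine h1.1.union_iUnion (fun b => (hC a ha b b.2).2.1) (fun b => Or.inl ?_)
        have h3 := hC a ha b b.2
        exact ⟨w (j b) (i a), h3.2.2.2.1, h3.2.2.1⟩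
      refine h2.union (hB.1 (j a)) (Or.inr ?_)
      obtain ⟨u, hu, v, hv, huv⟩ := (hC a ha a ha).2.2.2.2.2
      exact ⟨u, Or.inr (Set.mem_iUnion.2 ⟨⟨a, ha⟩, hu⟩), v, hv, huv⟩
    · exact Or.inl (Or.inl h1.2.1)
  · intro a ha b hb hab
    have hlab : l a ≠ l b := fun h => hab (hli a ha b hb h)
    have hjab : j a ≠ j b := fun h => hab (hji a ha b hb h)
    have hmab : m (i a) ≠ m (i b) := fun h => hab (hii a ha b hb (hmi h))
    have hDL : ∀ a < k, ∀ b < k, a ≠ b → ∀ d < k, ∀ z, z ∈ D (j d) (i a) → z ∉ L (l b) := by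
      intro a ha b hb hab d hd z hz hzL
      have h1 := hC a ha d hd
      have h2 : z = w (j d) (i a) := h1.2.2.2.2.1 z hz (l b) hzL
      have h3 : z ∈ L (l a) := h2 ▸ h1.2.2.2.1
      exact Set.disjoint_left.1 (hLd (l a) (l b) fun h => hab (hli a ha b hb h)) h3 hzL
    have hDB : ∀ a < k, ∀ d < k, ∀ b < k, ∀ z, z ∈ D (j d) (i a) → z ∉ B (j b) := by
      intro a ha d hd b hb z hz hzB
      exact Set.disjoint_left.1 (hBd (m (i a)) (j b) (hjf b hb (i a))) ((hC a ha d hd).1 hz) hzB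
    constructor
    · rw [Set.disjoint_left]
      rintro z ((h1 | h1) | h1) ((h2 | h2) | h2)
      · exact Set.disjoint_left.1 (hLd _ _ hlab) h1 h2
      · obtain ⟨d, hd⟩ := Set.mem_iUnion.1 h2
        exact hDL b hb a ha hab.symm d d.2 z hd h1
      · exact hfree (l a) (j b) (hjf b hb) z h1 h2
      · obtain ⟨d, hd⟩ := Set.mem_iUnion.1 h1
        exact hDL a ha b hb hab d d.2 z hd h2
      · obtain ⟨d, hd⟩ := Set.mem_iUnion.1 h1
        obtain ⟨d', hd'⟩ := Set.mem_iUnion.1 h2
        exact Set.disjoint_left.1 (hBd _ _ hmab) ((hC a ha d d.2).1 hd) ((hC b hb d' d'.2).1 hd')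
      · obtain ⟨d, hd⟩ := Set.mem_iUnion.1 h1
        exact hDB a ha d d.2 b hb z hd h2
      · exact hfree (l b) (j a) (hjf a ha) z h2 h1
      · obtain ⟨d, hd⟩ := Set.mem_iUnion.1 h2
        exact hDB b hb d d.2 a ha z hd h1
      · exact Set.disjoint_left.1 (hBd _ _ hjab) h1 h2
    · obtain ⟨u, hu, v, hv, huv⟩ := (hC a ha b hb).2.2.2.2.2
      exact ⟨u, Or.inl (Or.inr (Set.mem_iUnion.2 ⟨⟨b, hb⟩, hu⟩)), v, Or.inr hv, huv⟩

end Pool.Agent.MPd439b2.H1R
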