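import Pool.Agent.Lib.MP_d439b2_co.X3.H1R.SpecR

/-!
# MP_d439b2_co, X3/H1R: the restriction of a graph without `K3:0,1,02` (helper35)
-/

set_option autoImplicit false

namespace Pool.Agent.MPd439b2.H1R

open Pool.Agent.MPd439b2
open Pool.Agent.MPd439b2.Rep
open Pool.Agent.MPd439b2.NK
open Pool.Agent.MPd439b2.H1T

private theorem rf_nb : ∀ w : Fin 3 ⊕ Fin 3, ∃ w', w ≠ w' ∧ K302.Adj w w' := by
  have h01 : K302.Adj (Sum.inl 0) (Sum.inl 1) := by simp [K302, KA]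
  rintro (i | i)
  · fin_cases i
    · exact ⟨Sum.inl 1, by decide, by simp [K302, KA]⟩
    · exact ⟨Sum.inl 0, by decide, by simp [K302, KA]⟩
    · exact ⟨Sum.inl 0, by decide, by simp [K302, KA]⟩
  · fin_cases i
    · exact ⟨Sum.inl 0, by decide, by simp [K302, KA]⟩
    · exact ⟨Sum.inl 1, by decide, by simp [K302, KA]⟩
    · exact ⟨Sum.inl 0, by decide, by simp [K302, KA]⟩

theorem rRf : S_Rf := by
  rintro V G U hG ⟨B, _, hc, hd, ha⟩
  have hsub : ∀ w, B w ⊆ U := by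
    intro w
    obtain ⟨w', hne, hadj⟩ := rf_nb w
    obtain ⟨x, hx, y, _, hxy⟩ := (ha w w' hne).1 hadj
    exact rs_sub (hc w) hx hxy
  refine hG ⟨B, fun _ => Set.subset_univ _, fun w => rs_conn (hc w), hd, fun w w' hne => ?_⟩
  rw [ha w w' hne]
  exact ⟨rs_tch, fun h => rs_tch_of h (hsub w) (hsub w')⟩

end Pool.Agent.MPd439b2.H1R
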