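import Pool.Agent.Lib.MP_d439b2_co.X3.H1R.SpecR
import Pool.Agent.Lib.MP_d439b2_co.RG.Spl

/-!
# MP_d439b2_co, X3/H1R/Sk: splitting into `k + 1` parts
-/

set_option autoImplicit false

namespace Pool.Agent.MPd439b2.H1R

open Pool.Agent.MPd439b2
open Pool.Agent.MPd439b2.Rep
open Pool.Agent.MPd439b2.NK
open Pool.Agent.MPd439b2.H1T

private theorem Sk_main {V : Type} [Finite V] {G : SimpleGraph V} {S : Set V} {ρ e k : ℕ}
    (he : 1 ≤ e) (hno : ¬ ∃ S₀ ⊆ S, S.ncard ≤ e ^ k * S₀.ncard ∧ RG.Usp G S₀ ρ e) :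
    ∀ p ≤ k, ∃ (Q : Set V) (D : ℕ → Set V), RG.gSplAux.St G S ρ e p Q D := by
  intro p
  induction p with
  | zero =>
    intro _
    refine ⟨∅, fun _ => Set.univ, ?_, ?_, ?_, ?_, ?_, ?_⟩
    · simp
    · intro i _; exact Set.disjoint_empty _
    · intro i hi j hj hij; omega
    · intro i _ u _ v _; exact Or.inl (Set.mem_univ v)
    · intro i _; simp
    · simp
  | succ p ih =>
    intro hk
    obtain ⟨Q, D, h⟩ := ih (by omega)
    have h1 : S.ncard ≤ e ^ k * (S ∩ D p).ncard :=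
      h.last.trans (Nat.mul_le_mul_right _ (Nat.pow_le_pow_right he (by omega)))
    have h2 : ¬ RG.Usp G (S ∩ D p) ρ e := fun hu =>
      hno ⟨S ∩ D p, Set.inter_subset_left, h1, hu⟩
    unfold RG.Usp at h2
    push Not at h2
    obtain ⟨P, Z, R, hs, hZ, hP, hR⟩ := h2
    exact ⟨_, _, RG.gSplAux.step he h hs hZ hP hR⟩

theorem rSk : S_Sk := by
  intro V _ G S ρ e k he
  by_cases hno : ∃ S₀ ⊆ S, S.ncard ≤ e ^ k * S₀.ncard ∧ RG.Usp G S₀ ρ e
  · exact Or.inl hno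
  · right
    obtain ⟨Q, D, h⟩ := Sk_main he hno k le_rfl
    exact ⟨Q, D, h.card, h.dq, h.dd, h.cl, h.big⟩

end Pool.Agent.MPd439b2.H1R
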