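import Pool.Agent.Lib.MP_d439b2_co.X3.H1R.SpecR

/-!
# MP_d439b2_co, X3/H1R: T1, truncation (helper3)
-/

set_option autoImplicit false

namespace Pool.Agent.MPd439b2.H1R

open Pool.Agent.MPd439b2
open Pool.Agent.MPd439b2.Rep
open Pool.Agent.MPd439b2.NK
open Pool.Agent.MPd439b2.H1T

theorem rT1 : S_T1 := by
  intro V t G B hB x L y c h
  induction h with
  | base =>
    refine ⟨⟨Conn.singleton G x, rfl, rfl⟩, ?_⟩
    rintro w rfl
    exact ⟨{w}, fun _ h => h, 0, le_rfl, Tl.base, fun j h1 h2 => absurd h1 h2⟩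
  | @same L y z c h hadj hz hj ih =>
    refine ⟨⟨ih.1.1.insert ⟨y, ih.1.2.2, hadj⟩, Or.inr ih.1.2.1, Or.inl rfl⟩, ?_⟩
    rintro w (rfl | hw)
    · exact ⟨insert w L, fun _ h => h, c, le_rfl, Tl.same h hadj hz hj,
        fun j h1 h2 => absurd h1 h2⟩
    · obtain ⟨L', hL', c', hc', hT, hlt⟩ := ih.2 w hw
      refine ⟨L', hL'.trans (Set.subset_insert _ _), c', hc', hT, ?_⟩
      intro j hwj hzj
      obtain ⟨k, hyk, hzk⟩ := hj
      refine hlt j hwj fun hyj => ?_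
      by_cases hjk : j = k
      · subst hjk
        exact hzj hzk
      · exact Set.disjoint_left.1 (hB j k hjk) hyj hyk
  | @diff L y z c h hadj hz ih =>
    refine ⟨⟨ih.1.1.insert ⟨y, ih.1.2.2, hadj⟩, Or.inr ih.1.2.1, Or.inl rfl⟩, ?_⟩
    rintro w (rfl | hw)
    · exact ⟨insert w L, fun _ h => h, c + 1, le_rfl, Tl.diff h hadj hz,
        fun j h1 h2 => absurd h1 h2⟩
    · obtain ⟨L', hL', c', hc', hT, -⟩ := ih.2 w hw
      exact ⟨L', hL'.trans (Set.subset_insert _ _), c', hc'.trans (Nat.le_succ c), hT,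
        fun _ _ _ => Nat.lt_succ_of_le hc'⟩

end Pool.Agent.MPd439b2.H1R
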