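import Pool.Agent.Lib.MP_d439b2_co.X3.H1R.SpecR

/-!
# MP_d439b2_co, X3/H1R, T3: extension inside a connected subset of a branch set
-/

set_option autoImplicit false

namespace Pool.Agent.MPd439b2.H1R

open Pool.Agent.MPd439b2
open Pool.Agent.MPd439b2.Rep
open Pool.Agent.MPd439b2.NK
open Pool.Agent.MPd439b2.H1T

theorem rT3 : S_T3 := by
  intro hT1 V t G B hB x L y c h j D hD hDj hyD
  set R : Set V := {u | u ∈ D ∧ ∃ L' ⊆ L ∪ D, ∃ c' ≤ c, Tl G B x L' u c'} with hR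
  have hRD : R = D := by
    by_contra hne
    obtain ⟨a, ha, b, hb, hab⟩ := hD.2 R (fun u hu => hu.1)
      ⟨y, hyD, L, Set.subset_union_left, c, le_rfl, h⟩ hne
    obtain ⟨haD, L', hL', c', hc', hT⟩ := ha
    apply hb.2
    by_cases hbL : b ∈ L'
    · obtain ⟨L'', hL'', c'', hc'', h5, _⟩ := (hT1 V t G B hB x L' a c' hT).2 b hbL
      exact ⟨hb.1, L'', hL''.trans hL', c'', hc''.trans hc', h5⟩
    · exact ⟨hb.1, insert b L', Set.insert_subset (Or.inr hb.1) hL', c', hc',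
        Tl.same hT hab hbL ⟨j, hDj haD, hDj hb.1⟩⟩
  intro u hu
  have h1 : u ∈ R := by rw [hRD]; exact hu
  exact h1.2

end Pool.Agent.MPd439b2.H1R
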