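import Pool.Agent.Lib.MP_d439b2_co.X3.H1R.SpecR
import Pool.Agent.Lib.MP_d439b2_co.ImsTrans

/-!
# MP_d439b2_co, X3/H1R/Wa: a haven gives a clique model rooted in `S`
-/

set_option autoImplicit false

namespace Pool.Agent.MPd439b2.H1R

open Pool.Agent.MPd439b2
open Pool.Agent.MPd439b2.Rep
open Pool.Agent.MPd439b2.NK
open Pool.Agent.MPd439b2.H1T

theorem rWa : S_Wa := by
  classical
  intro hg hGK hMen hLk hRK K
  obtain ⟨r, hr⟩ := hg
  obtain ⟨q, hq⟩ : ∃ q, q = 2 * K := ⟨_, rfl⟩
  obtain ⟨t, ht⟩ : ∃ t, t = q + K * q ^ q + 1 := ⟨_, rfl⟩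
  obtain ⟨w, hw⟩ := hGK t r t le_rfl
  refine ⟨max w 1, fun V _ G S hG hHav => ?_⟩
  obtain ⟨C₀, hC₀, _⟩ := hHav ∅ (by rw [Set.ncard_empty]; exact lt_of_lt_of_le Nat.one_pos (le_max_right _ _))
  obtain ⟨v₀, _⟩ := hC₀.1
  rcases hw V G S (fun X hX => hHav X (lt_of_lt_of_le hX (le_max_left _ _))) with h | h
  · exact absurd (imsTrans _ _ _ _ _ _ _ (ims_univ_iff.mpr hr) h) hG
  · obtain ⟨B, hB, hdeep⟩ := h
    rcases Nat.eq_zero_or_pos K with hK | hK
    · refine ⟨fun _ => ∅, fun _ => v₀, fun a ha => ?_, fun a ha => ?_⟩ <;> omega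
    · have hy : ∀ j, ∃ y, y ∈ B j := fun j => (hB.1 j).1
      choose y hy using hy
      have := Fintype.ofFinite V
      have hcut : ∀ L X : Finset V, GT.Cut G (Set.toFinite S).toFinset (Finset.univ.image y) L X →
          q ≤ X.card := by
        intro L X hc
        by_contra hlt
        obtain ⟨i, C, hCd, hC, hBC, hCS⟩ := hdeep (X : Set V) (by
          rw [Set.ncard_coe_finset]
          omega)
        have hyL : y i ∉ L := fun h => Finset.disjoint_left.1 hc.last
          (Finset.mem_image_of_mem y (Finset.mem_univ i)) h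
        have hne : (S ∩ C).Nonempty := by
          rw [Set.nonempty_iff_ne_empty]
          intro h
          rw [h, Set.ncard_empty] at hCS
          omega
        obtain ⟨s, hsS, hsC⟩ := hne
        have hsL : s ∈ L := by
          rcases Finset.mem_union.1 (hc.head ((Set.toFinite S).mem_toFinset.2 hsS)) with h | h
          · exact h
          · exact absurd h (fun h' => Set.disjoint_left.1 hCd hsC h')
        obtain ⟨u, hu, v, hv, huv⟩ := hC.2 {v | v ∈ C ∧ v ∈ L} (fun v hv => hv.1) ⟨s, hsC, hsL⟩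
          (fun h => hyL (by
            have h1 : y i ∈ {v | v ∈ C ∧ v ∈ L} := by
              rw [h]
              exact hBC (hy i)
            exact h1.2))
        rcases Finset.mem_union.1 (hc.far u hu.2 v huv) with h | h
        · exact hv.2 ⟨hv.1, h⟩
        · exact Set.disjoint_left.1 hCd hv.1 h
      obtain ⟨n, p, hp⟩ := hMen V G _ _ q hcut
      obtain ⟨x, hxA, hLg⟩ := hLk V t q G B y _ n p hy hp
      obtain ⟨T, σ, hT, hTT⟩ := hRK V t q K G B x hB hLg hK hq.ge (by omega)
      exact ⟨T, fun a => x (σ a), fun a ha => ⟨(hT a ha).1, (hT a ha).2,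
        (Set.toFinite S).mem_toFinset.1 (hxA _)⟩, hTT⟩

end Pool.Agent.MPd439b2.H1R
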