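import Pool.Agent.Lib.MP_d439b2_co.X3.H1R.SpecR

/-!
# MP_d439b2_co, X3/H1R/Wb: cleaning
-/

set_option autoImplicit false

namespace Pool.Agent.MPd439b2.H1R

open Pool.Agent.MPd439b2
open Pool.Agent.MPd439b2.Rep
open Pool.Agent.MPd439b2.NK
open Pool.Agent.MPd439b2.H1T

theorem rWb : S_Wb := by
  classical
  intro hRam hLea hZp hRal K
  obtain ⟨N, hN⟩ := hRam (Bool × Bool) (max K 69)
  refine ⟨N, fun V _ G n e W l T hG hLt hW hT hTT => ?_⟩
  obtain ⟨s, c, hs1, hs2, hs3⟩ := hN fun i j =>
    (decide (∃ u ∈ T j, Tc G e u (l i)), decide (∃ u ∈ T i, Tc G e u (l j)))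
  have hK : K ≤ max K 69 := le_max_left _ _
  have h69 : 69 ≤ max K 69 := le_max_right _ _
  have linj : ∀ a < N, ∀ b < N, l a = l b → a = b := by
    intro a ha b hb hab
    by_contra hne
    exact Set.disjoint_left.1 (hTT a ha b hb hne).1 (hT a ha).2.2.1 (hab ▸ (hT b hb).2.2.1)
  have sinj : ∀ a < max K 69, ∀ b < max K 69, s a = s b → a = b := by
    intro a ha b hb hab
    rcases lt_trichotomy a b with h | h | h
    · exact absurd hab (hs1 a b h hb).ne
    · exact h
    · exact absurd hab (hs1 b a h ha).ne'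
  have lsinj : ∀ a < max K 69, ∀ b < max K 69, l (s a) = l (s b) → a = b := fun a ha b hb hab =>
    sinj a ha b hb (linj _ (hs2 a ha) _ (hs2 b hb) hab)
  have c1 : c.1 = false := by
    by_contra hc
    rw [Bool.not_eq_false] at hc
    have h5 : ∀ i j, i < j → j < max K 69 → ∃ u ∈ T (s j), Tc G e u (l (s i)) := by
      intro i j hij hj
      have h6 := congrArg Prod.fst (hs3 i j hij hj)
      rw [hc] at h6
      exact of_decide_eq_true h6
    refine hRal hLea hZp V G n e hLt hG (fun a => l (s a.val)) (fun i => T (s (5 + i.val)))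
      ?_ ?_ ?_ ?_ ?_ ?_
    · intro a b hab
      exact Fin.ext (lsinj _ (by omega) _ (by omega) hab)
    · exact fun a => (hT _ (hs2 _ (by omega))).1
    · exact fun i => (hT _ (hs2 _ (by omega))).2.1
    · intro i j hij
      refine (hTT _ (hs2 _ (by omega)) _ (hs2 _ (by omega)) fun h => hij ?_).1
      have h7 := sinj _ (by omega) _ (by omega) h
      exact Fin.ext (by omega)
    · exact fun i u hu => ((hT _ (hs2 _ (by omega))).2.2.2 u hu).2
    · exact fun i a => h5 _ _ (by omega) (by omega)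
  have c2 : c.2 = false := by
    by_contra hc
    rw [Bool.not_eq_false] at hc
    have h5 : ∀ i j, i < j → j < max K 69 → ∃ u ∈ T (s i), Tc G e u (l (s j)) := by
      intro i j hij hj
      have h6 := congrArg Prod.snd (hs3 i j hij hj)
      rw [hc] at h6
      exact of_decide_eq_true h6
    refine hRal hLea hZp V G n e hLt hG (fun a => l (s (64 + a.val))) (fun i => T (s i.val))
      ?_ ?_ ?_ ?_ ?_ ?_
    · intro a b hab
      have h7 := lsinj _ (by omega) _ (by omega) hab
      exact Fin.ext (by omega)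
    · exact fun a => (hT _ (hs2 _ (by omega))).1
    · exact fun i => (hT _ (hs2 _ (by omega))).2.1
    · intro i j hij
      refine (hTT _ (hs2 _ (by omega)) _ (hs2 _ (by omega)) fun h => hij ?_).1
      have h7 := sinj _ (by omega) _ (by omega) h
      exact Fin.ext (by omega)
    · exact fun i u hu => ((hT _ (hs2 _ (by omega))).2.2.2 u hu).2
    · exact fun i a => h5 _ _ (by omega) (by omega)
  -- the sets do not touch the other letters
  have tn : ∀ i < K, ∀ j < K, i ≠ j → ∀ u ∈ T (s i), ¬ Tc G e u (l (s j)) := by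
    intro i hi j hj hij u hu h
    rcases lt_or_gt_of_ne hij with h1 | h1
    · have h6 := congrArg Prod.snd (hs3 i j h1 (by omega))
      rw [c2] at h6
      exact of_decide_eq_false h6 ⟨u, hu, h⟩
    · have h6 := congrArg Prod.fst (hs3 j i h1 (by omega))
      rw [c1] at h6
      exact of_decide_eq_false h6 ⟨u, hu, h⟩
  have sK : ∀ i < K, s i < N := fun i hi => hs2 i (by omega)
  have lsK : ∀ i < K, ∀ j < K, l (s i) = l (s j) → i = j := fun i hi j hj =>
    lsinj i (by omega) j (by omega)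
  have lsn : ∀ i < K, l (s i) < n := fun i hi => (hT _ (sK i hi)).1
  refine ⟨fun i => l (s i), fun i => T (s i) ∪ Pr e (l (s i)), lsn, lsK, ?_⟩
  have tp : ∀ i < K, ∀ j < K, i ≠ j → Disjoint (T (s i)) (Pr e (l (s j))) := by
    intro i hi j hj hij
    rw [Set.disjoint_left]
    rintro _ hx ⟨r, rfl⟩
    exact tn i hi j hj hij _ hx ⟨!r, hLt.adj (lsn j hj) r⟩
  refine ⟨?_, ?_, ?_, ?_, ?_, ?_⟩
  · rintro i hi x (hx | ⟨r, rfl⟩)
    · have h1 := (hT _ (sK i hi)).2.2.2 x hx
      exact ⟨h1.1, lw_comp h1.2 lsn lsK⟩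
    · exact ⟨hW _ (lsn i hi) r, lw_comp (hLt.lw (lsn i hi) r) lsn lsK⟩
  · intro i hi
    exact (hT _ (sK i hi)).2.1.union (hLt.conn (lsn i hi))
      (Or.inl ⟨_, (hT _ (sK i hi)).2.2.1, mem_Pr _ _⟩)
  · intro i hi j hj hij
    have hne : s i ≠ s j := fun h => hij (sinj i (by omega) j (by omega) h)
    rw [Set.disjoint_union_left, Set.disjoint_union_right, Set.disjoint_union_right]
    exact ⟨⟨(hTT _ (sK i hi) _ (sK j hj) hne).1, tp i hi j hj hij⟩,
      (tp j hj i hi hij.symm).symm, hLt.dis (lsn i hi) (lsn j hj) fun h => hij (lsK i hi j hj h)⟩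
  · intro i hi j hj hij
    have hne : s i ≠ s j := fun h => hij (sinj i (by omega) j (by omega) h)
    exact (hTT _ (sK i hi) _ (sK j hj) hne).2.mono Set.subset_union_left Set.subset_union_left
  · exact fun i hi x hx => Or.inr hx
  · rintro i hi j hj hij x (hx | ⟨r, rfl⟩) h
    · exact tn i hi j hj hij x hx h
    · exact hij (lsK i hi j hj ((hLt.tc (lsn i hi) (lsn j hj) r).1 h))

end Pool.Agent.MPd439b2.H1R
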