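import Pool.Agent.Lib.MP_d439b2_co.X3.H1R.SpecR

/-!
# MP_d439b2_co, X3/H1R: a piece of a rail (helper35)
-/

set_option autoImplicit false

namespace Pool.Agent.MPd439b2.H1R

open Pool.Agent.MPd439b2
open Pool.Agent.MPd439b2.Rep
open Pool.Agent.MPd439b2.NK
open Pool.Agent.MPd439b2.H1T

theorem rZp : S_Zp := by
  intro V G n e l Y y' q hl hln hY hy' hlw hq h3
  have key : ∀ u ∈ Y, ∀ a b, Tc G e u (l a) → Tc G e u (l b) → a = b := fun u hu a b ha hb =>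
    hl (hlw u hu _ (hln a) _ (hln b) ha hb)
  have hy0 : y' ∈ {u | u ∈ Y ∧ ∀ a, a ≠ q → ¬ Tc G e u (l a)} :=
    ⟨hy', fun a ha h => ha (key y' hy' a q h hq)⟩
  obtain ⟨C, hCA, hyC, hC, hCn⟩ := exists_comp G hy0
  have hCY : C ⊆ Y := fun u hu => (hCA hu).1
  have hne : C ≠ Y := by
    rintro rfl
    obtain ⟨u, hu, a, ha, h⟩ := h3
    exact (hCA hu).2 a ha h
  obtain ⟨b, hb, z, ⟨hzY, hzC⟩, hbz⟩ := hY.2 C hCY ⟨y', hyC⟩ hne
  have hz : ∃ j, j ≠ q ∧ Tc G e z (l j) := by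
    by_contra hcon
    push Not at hcon
    exact hCn z ⟨hzY, hcon⟩ ⟨hzC, b, hb, hbz⟩
  obtain ⟨j, hjq, hzj⟩ := hz
  refine ⟨insert z C, Set.insert_subset hzY hCY, ?_, Set.mem_insert_of_mem _ hyC, j, hjq,
    ⟨z, Set.mem_insert _ _, hzj⟩, ?_⟩
  · rw [Set.insert_eq]
    exact Conn.union (Conn.singleton G z) hC (Or.inr ⟨z, rfl, b, hb, hbz.symm⟩)
  · intro u hu a ha
    rcases hu with rfl | hu
    · exact Or.inr (key u hzY a j ha hzj)
    · by_cases h : a = q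
      · exact Or.inl h
      · exact absurd ha ((hCA hu).2 a h)

end Pool.Agent.MPd439b2.H1R
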