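import Pool.Agent.Lib.MP_d439b2_co.X3.H1R.Ct
import Pool.Agent.Lib.MP_d439b2_co.X3.H1R.Cs
import Pool.Agent.Lib.MP_d439b2_co.X3.H1R.Ca
import Pool.Agent.Lib.MP_d439b2_co.X3.H1R.Cb
import Pool.Agent.Lib.MP_d439b2_co.X3.H1R.Cd
import Pool.Agent.Lib.MP_d439b2_co.X3.H1R.Ce1
import Pool.Agent.Lib.MP_d439b2_co.X3.H1R.Ce2
import Pool.Agent.Lib.MP_d439b2_co.X3.H1R.Cf
import Pool.Agent.Lib.MP_d439b2_co.X3.H1R.Cg
import Pool.Agent.Lib.MP_d439b2_co.X3.H1R.Ci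
import Pool.Agent.Lib.MP_d439b2_co.X3.H1R.Da
import Pool.Agent.Lib.MP_d439b2_co.X3.H1R.Db
import Pool.Agent.Lib.MP_d439b2_co.X3.H1R.Dc
import Pool.Agent.Lib.MP_d439b2_co.X3.H1R.Dd
import Pool.Agent.Lib.MP_d439b2_co.X3.H1R.De
import Pool.Agent.Lib.MP_d439b2_co.X3.H1R.Dw
import Pool.Agent.Lib.MP_d439b2_co.X3.H1R.Gr
import Pool.Agent.Lib.MP_d439b2_co.X3.H1R.Gm
import Pool.Agent.Lib.MP_d439b2_co.X3.H1R.Gn
import Pool.Agent.Lib.MP_d439b2_co.X3.H1R.Gj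
import Pool.Agent.Lib.MP_d439b2_co.X3.H1R.Gk
import Pool.Agent.Lib.MP_d439b2_co.X3.H1R.Gx
import Pool.Agent.Lib.MP_d439b2_co.X3.H1R.CX
import Pool.Agent.Lib.MP_d439b2_co.X3.H1R.Qb
import Pool.Agent.Lib.MP_d439b2_co.X3.H1R.Qa
import Pool.Agent.Lib.MP_d439b2_co.X3.H1R.Qv
import Pool.Agent.Lib.MP_d439b2_co.X3.H1R.Qc
import Pool.Agent.Lib.MP_d439b2_co.X3.H1R.Qd
import Pool.Agent.Lib.MP_d439b2_co.X3.H1R.Qz
import Pool.Agent.Lib.MP_d439b2_co.X3.H1R.Qf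
import Pool.Agent.Lib.MP_d439b2_co.X3.H1R.Qw
import Pool.Agent.Lib.MP_d439b2_co.X3.H1R.Qm
import Pool.Agent.Lib.MP_d439b2_co.X3.H1R.Qg
import Pool.Agent.Lib.MP_d439b2_co.X3.H1R.Qx
import Pool.Agent.Lib.MP_d439b2_co.X3.H1R.Mn
import Pool.Agent.Lib.MP_d439b2_co.X3.H1R.Mv
import Pool.Agent.Lib.MP_d439b2_co.X3.H1R.Ma
import Pool.Agent.Lib.MP_d439b2_co.X3.H1R.Ce
import Pool.Agent.Lib.MP_d439b2_co.X3.H1R.T1
import Pool.Agent.Lib.MP_d439b2_co.X3.H1R.T2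
import Pool.Agent.Lib.MP_d439b2_co.X3.H1R.T3
import Pool.Agent.Lib.MP_d439b2_co.X3.H1R.K1
import Pool.Agent.Lib.MP_d439b2_co.X3.H1R.K2
import Pool.Agent.Lib.MP_d439b2_co.X3.H1R.K3
import Pool.Agent.Lib.MP_d439b2_co.X3.H1R.RK
import Pool.Agent.Lib.MP_d439b2_co.X3.H1R.Lk
import Pool.Agent.Lib.MP_d439b2_co.X3.H1R.Wa
import Pool.Agent.Lib.MP_d439b2_co.X3.H1R.Hu
import Pool.Agent.Lib.MP_d439b2_co.X3.H1R.Zp
import Pool.Agent.Lib.MP_d439b2_co.X3.H1R.Ral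
import Pool.Agent.Lib.MP_d439b2_co.X3.H1R.Wb
import Pool.Agent.Lib.MP_d439b2_co.X3.H1R.Rf
import Pool.Agent.Lib.MP_d439b2_co.X3.H1R.NW
import Pool.Agent.Lib.MP_d439b2_co.X3.H1R.Sk
import Pool.Agent.Lib.MP_d439b2_co.X3.H1R.Cq
import Pool.Agent.Lib.MP_d439b2_co.X3.H1R.Cu
import Pool.Agent.Lib.MP_d439b2_co.X3.H1R.CK
import Pool.Agent.Lib.MP_d439b2_co.X3.H1R.RE
import Pool.Agent.Lib.MP_d439b2_co.X3.H1R.Lea
import Pool.Agent.Lib.MP_d439b2_co.X3.KB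
import Pool.Agent.Lib.MP_d439b2_co.RG.GKH
import Pool.Agent.Lib.MP_d439b2_co.GT.Men
import Pool.Agent.Lib.MP_d439b2_co.W.Dig
import Pool.Agent.Lib.MP_d439b2_co.W.RamC
import Pool.Agent.Lib.MP_d439b2_co.Rep.RowX4

/-!
# MP_d439b2_co, X3/H1R: Theorem REG (assembly)

`oRE`: for all `t`, `β` there are `c₀`, `n` such that a finite graph without the induced minors `K3:0,1,02` and
`J_t = co(P_3 + t P_2)`, without homogeneous sets and with `Link β c₀`, has no `n` letters in REG position.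
-/

set_option autoImplicit false

namespace Pool.Agent.MPd439b2.H1R

open Pool.Agent.MPd439b2
open Pool.Agent.MPd439b2.Rep
open Pool.Agent.MPd439b2.NK
open Pool.Agent.MPd439b2.H1T

theorem oDw : ∀ (V : Type) (G : SimpleGraph V) (n : ℕ)
    (K : ℕ → Set V) (Q : Set V) (a b f : ℕ → V), FH G → CA G n K Q a b f → 3 ≤ n →
      CE G n (fun i => Wi G n K Q i) (fun i => Ei G n K Q i) Q :=
  rDw rDa rDb rDc rDd rDe

theorem oGx : ∀ (V : Type) [Finite V]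
    (G : SimpleGraph V) (n t a q c₀ : ℕ) (W E : ℕ → Set V) (Q : Set V) (β : ℕ → ℕ),
      CE G n W E Q → FJ t G → Link β c₀ G → Q.ncard ≤ q → q + t + 2 ≤ c₀ →
      (∀ I : Finset ℕ, (∀ i ∈ I, i < n) → a ≤ I.card → β (q + t + 2) < (⋃ i ∈ I, W i).ncard) →
        ¬ 3 * t + 2 * a + 2 ≤ n :=
  rGx rGr rGm rGn rGj rGk

/-- the conclusion of `S_CX` -/
theorem oCX : ∀ (V : Type) [Finite V] (G : SimpleGraph V) (n t a q M : ℕ) (e : Bool → ℕ → V)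
    (K : ℕ → Set V) (Q : Set V) (β : ℕ → ℕ), FH G → FJ t G → Pm G →
    Link β (q + t + 2) G → CP G n e K Q → Q.ncard ≤ q →
    β (q + 1) ≤ M → β (q + 2) ≤ M → β (q + t + 2) ≤ M →
    (∀ I : Finset ℕ, (∀ i ∈ I, i < n) → a ≤ I.card → M < (⋃ i ∈ I, K i).ncard) →
    (2 * (a + 14) + 1) * (3 * t + 2 * a + 5) ≤ n →
    ¬ ((∀ i < n, M < (K i).ncard) ∨
      (2 * (a + 14) + 1) * (3 * t + 2 * a + 5) + q * (a + 14) ≤ n) :=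
  rCX W.dig rCt rCs rCa rCb rCd rCe1 rCe2 rCf rCg rCi oDw oGx

/-- the conclusion of `S_Qx` -/
theorem oQx : ∀ (β : ℕ → ℕ) (V : Type) [Finite V] (G : SimpleGraph V) (k : ℕ) (e : Bool → ℕ → V)
    (W : Set V) (q : ℕ → V) (E : ℕ → Set V), FH G → Pm G → Link β 4 G → Rg G k e W →
      Ar G k e W q E → ¬ 2 * β 4 + 10 ≤ k :=
  rQx rQb rQa rQv rQc rQd rQz rQf rQw rQm rQg

theorem oMa : ∀ (V : Type) [Finite V] (G : SimpleGraph V) (k : ℕ)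
    (e : Bool → ℕ → V) (W : Set V) (T : ℕ → Set V), FH G → Lt G (3 * k + 6) e →
    Cm G (3 * k + 6) e W T → ∃ (σ : ℕ → ℕ) (q : ℕ → V) (E : ℕ → Set V),
      (∀ i < k, σ i < 3 * k + 6) ∧ (∀ i < k, ∀ j < k, σ i = σ j → i = j) ∧
      Ar G k (fun s i => e s (σ i)) W q E :=
  rMa W.dig rMn rMv

/-- the conclusion of `S_RK` -/
theorem oRK : ∀ (V : Type) [Finite V]
    (t q k : ℕ) (G : SimpleGraph V) (B : Fin t → Set V) (x : Fin q → V), CliqueModel G B →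
      (∃ L y c m, Lg G B x L y c m) → 1 ≤ k → 2 * k ≤ q → q + k * q ^ q ≤ t →
      ∃ (T : ℕ → Set V) (σ : ℕ → Fin q), (∀ a < k, Conn G (T a) ∧ x (σ a) ∈ T a) ∧
        ∀ a < k, ∀ b < k, a ≠ b → Disjoint (T a) (T b) ∧ Tch G (T a) (T b) :=
  rRK rT1 rT2 rT3 rK1 rK2 rK3

/-- the conclusion of `S_Wa` -/
theorem oWa : ∀ K : ℕ, ∃ w : ℕ, ∀ (V : Type) [Finite V] (G : SimpleGraph V) (S : Set V), FH G →
    (∀ X : Set V, X.ncard < w → ∃ C, Conn G C ∧ Disjoint C X ∧ S.ncard < 2 * (S ∩ C).ncard) →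
    ∃ (T : ℕ → Set V) (x : ℕ → V), (∀ a < K, Conn G (T a) ∧ x a ∈ T a ∧ x a ∈ S) ∧
      ∀ a < K, ∀ b < K, a ≠ b → Disjoint (T a) (T b) ∧ Tch G (T a) (T b) :=
  rWa X3.grid1 RG.gGKH GT.pMen rLk oRK

/-- the conclusion of `S_Wb` -/
theorem oWb : ∀ K : ℕ, ∃ K' : ℕ, ∀ (V : Type)
    [Finite V] (G : SimpleGraph V) (n : ℕ) (e : Bool → ℕ → V) (W : Set V) (l : ℕ → ℕ)
    (T : ℕ → Set V), FH G → Lt G n e → (∀ i < n, ∀ s, e s i ∉ W) →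
    (∀ a < K', l a < n ∧ Conn G (T a) ∧ e false (l a) ∈ T a ∧ ∀ x ∈ T a, x ∉ W ∧ Lw G n e x) →
    (∀ a < K', ∀ b < K', a ≠ b → Disjoint (T a) (T b) ∧ Tch G (T a) (T b)) →
    ∃ (s : ℕ → ℕ) (T' : ℕ → Set V), (∀ i < K, s i < n) ∧ (∀ i < K, ∀ j < K, s i = s j → i = j) ∧
      Cp G K (fun r i => e r (s i)) W T' :=
  rWb W.ramC rLea rZp rRal

/-- the conclusion of `S_NW` -/
theorem oNW : ∀ β : ℕ → ℕ, ∃ w : ℕ, ∀ (V : Type) [Finite V] (G : SimpleGraph V) (n : ℕ)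
    (e : Bool → ℕ → V) (W S : Set V), FH G → Pm G → Link β 4 G → Rg G n e W → 3 ≤ n →
      (∀ s ∈ S, ∃ i < n, s = e false i) →
      ¬ ∀ X : Set V, X.ncard < w → ∃ C, Conn (Rs G {v | v ∉ W ∧ Lw G n e v}) C ∧ Disjoint C X ∧
        S.ncard < 2 * (S ∩ C).ncard :=
  rNW rRf oWa oWb rCe oMa oQx

/-- the conclusion of `S_CK` -/
theorem oCK : ∀ k w n M : ℕ, ∃ N : ℕ, ∀ (V : Type) [Finite V]
    (G : SimpleGraph V) (m : ℕ) (e : Bool → ℕ → V) (W : Set V), Rg G m e W → N ≤ m →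
    (∀ S : Set V, (∀ s ∈ S, ∃ i < m, s = e false i) →
      ¬ ∀ X : Set V, X.ncard < w → ∃ C, Conn (Rs G {v | v ∉ W ∧ Lw G m e v}) C ∧ Disjoint C X ∧
        S.ncard < 2 * (S ∩ C).ncard) →
    ∃ (Q : Set V) (K : ℕ → Set V) (ι : ℕ → ℕ), Q.ncard ≤ k * w + 2 ∧
      ((CP G k (fun s i => e s (ι i)) K Q ∧ ∀ i < k, M < (K i).ncard) ∨
        CP G n (fun s i => e s (ι i)) K Q) :=
  rCK rSk rCq rCu rHu

/-- **Theorem REG.** No large families of letters in REG position. -/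
theorem oRE : ∀ (t : ℕ) (β : ℕ → ℕ), ∃ c₀ n : ℕ, ∀ (V : Type) [Finite V] (G : SimpleGraph V)
    (e : Bool → ℕ → V) (W : Set V), FH G → FJ t G → Pm G → Link β c₀ G → ¬ Rg G n e W :=
  rRE oNW oCK oCX

end Pool.Agent.MPd439b2.H1R
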