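import Pool.Agent.Lib.MP_d439b2_co.X3.H1R.SpecC
import Pool.Agent.Lib.MP_d439b2_co.ON.JB

/-!
# MP_d439b2_co, X3/H1R, Gj: the first model of `J_t`
-/

set_option autoImplicit false

namespace Pool.Agent.MPd439b2.H1R

open Pool.Agent.MPd439b2 Pool.Agent.MPd439b2.Rep Pool.Agent.MPd439b2.NK Pool.Agent.MPd439b2.H1T

namespace GjAux

variable {V : Type} {G : SimpleGraph V}

theorem dis22 {a b c d : V} (h1 : a ≠ c) (h2 : a ≠ d) (h3 : b ≠ c) (h4 : b ≠ d) :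
    Disjoint ({a, b} : Set V) {c, d} := by
  rw [Set.disjoint_left]
  intro x hx hy
  simp only [Set.mem_insert_iff, Set.mem_singleton_iff] at hx hy
  rcases hx with rfl | rfl
  · rcases hy with h | h
    · exact h1 h
    · exact h2 h
  · rcases hy with h | h
    · exact h3 h
    · exact h4 h

theorem dis12 {a c d : V} (h1 : a ≠ c) (h2 : a ≠ d) : Disjoint ({a} : Set V) {c, d} := by
  rw [Set.disjoint_left]
  intro x hx hy
  simp only [Set.mem_insert_iff, Set.mem_singleton_iff] at hx hy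
  subst hx
  rcases hy with h | h
  · exact h1 h
  · exact h2 h

end GjAux

open GjAux in
/-- **Gj.** -/
theorem rGj : S_Gj := by
  intro V G n t W E Q hC hJ x y p p' hxy hne hxny hp hp' hpp hpk hcon
  -- different vertices
  have hEW : ∀ i < n, ∀ j < n, ∀ u ∈ E i, ∀ w ∈ W j, u ≠ w := by
    intro i hi j hj u hu w hw h
    by_cases hij : i = j
    · subst hij
      exact hC.we i hi u hu (h ▸ hw)
    · exact (hC.ec i hi j hj hij u hu w hw).ne h
  have hEE : ∀ i < n, ∀ j < n, i ≠ j → ∀ u ∈ E i, ∀ v ∈ E j, u ≠ v := by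
    intro i hi j hj hij u hu v hv h
    subst h
    obtain ⟨w, hw, hn⟩ := hC.ew i hi u hu
    exact hn (hC.ec j hj i hi (Ne.symm hij) u hv w hw)
  have hWW : ∀ i < n, ∀ j < n, i ≠ j → ∀ u ∈ W i, ∀ v ∈ W j, u ≠ v := fun i hi j hj hij u hu v hv =>
    (hC.ww i hi j hj hij u hu v hv).1
  obtain ⟨u, hu⟩ := hC.en p hp
  obtain ⟨z, hz, huz⟩ := hC.ew p hp u hu
  obtain ⟨z', hz'⟩ := hC.wn p' hp'
  have : Nonempty V := ⟨z⟩
  choose! e he e' he' hee using hcon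
  have h1 : ∀ k, ∃ w, k < t → w ∈ W (x k) ∧ ¬ G.Adj (e k) w := by
    intro k
    by_cases hk : k < t
    · obtain ⟨w, hw, hn⟩ := hC.ew _ (hxy k hk).1 _ (he k hk)
      exact ⟨w, fun _ => ⟨hw, hn⟩⟩
    · exact ⟨e k, fun h => absurd h hk⟩
  have h2 : ∀ k, ∃ w, k < t → w ∈ W (y k) ∧ ¬ G.Adj (e' k) w := by
    intro k
    by_cases hk : k < t
    · obtain ⟨w, hw, hn⟩ := hC.ew _ (hxy k hk).2 _ (he' k hk)
      exact ⟨w, fun _ => ⟨hw, hn⟩⟩
    · exact ⟨e' k, fun h => absurd h hk⟩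
  choose w hw using h1
  choose w' hw' using h2
  have Xn : ∀ k < t, x k < n := fun k hk => (hxy k hk).1
  have Yn : ∀ k < t, y k < n := fun k hk => (hxy k hk).2
  have W1 : ∀ k < t, w k ∈ W (x k) := fun k hk => (hw k hk).1
  have W2 : ∀ k < t, w' k ∈ W (y k) := fun k hk => (hw' k hk).1
  set X : ℕ → Set V := fun a => if a = 0 then {z} else if a = 1 then {u} else {z'} with hX
  have X0 : X 0 = {z} := rfl
  have X1 : X 1 = {u} := rfl
  have X2 : X 2 = {z'} := rfl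
  have a1 : z ≠ u := fun h => hEW p hp p hp u hu z hz h.symm
  have a2 : z ≠ z' := hWW p hp p' hp' hpp z hz z' hz'
  have a3 : u ≠ z' := hEW p hp p' hp' u hu z' hz'
  refine hJ (ON.oJB t V G X (fun k => {e k, w' k}) (fun k => {e' k, w k}) ?_ ?_ ?_ ?_ ?_ ?_ ?_ ?_ ?_ ?_
    ?_ ?_)
  · intro a ha
    interval_cases a
    · rw [X0]; exact Conn.singleton G z
    · rw [X1]; exact Conn.singleton G u
    · rw [X2]; exact Conn.singleton G z'
  · intro k hk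
    refine ⟨Conn.pair ?_, Conn.pair ?_⟩
    · exact hC.ec _ (Xn k hk) _ (Yn k hk) (hxny k hk k hk) _ (he k hk) _ (W2 k hk)
    · exact hC.ec _ (Yn k hk) _ (Xn k hk) (hxny k hk k hk).symm _ (he' k hk) _ (W1 k hk)
  · intro a ha b hb hab
    interval_cases a <;> interval_cases b
    · exact absurd rfl hab
    · rw [X0, X1]; exact Set.disjoint_singleton.2 a1
    · rw [X0, X2]; exact Set.disjoint_singleton.2 a2
    · rw [X0, X1]; exact Set.disjoint_singleton.2 a1.symm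
    · exact absurd rfl hab
    · rw [X1, X2]; exact Set.disjoint_singleton.2 a3
    · rw [X0, X2]; exact Set.disjoint_singleton.2 a2.symm
    · rw [X1, X2]; exact Set.disjoint_singleton.2 a3.symm
    · exact absurd rfl hab
  · intro a ha k hk
    obtain ⟨q1, q2, q3, q4⟩ := hpk k hk
    interval_cases a
    · rw [X0]
      refine ⟨dis12 ?_ ?_, dis12 ?_ ?_⟩
      · exact (hEW _ (Xn k hk) _ hp _ (he k hk) _ hz).symm
      · exact hWW _ hp _ (Yn k hk) q2 _ hz _ (W2 k hk)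
      · exact (hEW _ (Yn k hk) _ hp _ (he' k hk) _ hz).symm
      · exact hWW _ hp _ (Xn k hk) q1 _ hz _ (W1 k hk)
    · rw [X1]
      refine ⟨dis12 ?_ ?_, dis12 ?_ ?_⟩
      · exact hEE _ hp _ (Xn k hk) q1 _ hu _ (he k hk)
      · exact hEW _ hp _ (Yn k hk) _ hu _ (W2 k hk)
      · exact hEE _ hp _ (Yn k hk) q2 _ hu _ (he' k hk)
      · exact hEW _ hp _ (Xn k hk) _ hu _ (W1 k hk)
    · rw [X2]
      refine ⟨dis12 ?_ ?_, dis12 ?_ ?_⟩
      · exact (hEW _ (Xn k hk) _ hp' _ (he k hk) _ hz').symm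
      · exact hWW _ hp' _ (Yn k hk) q4 _ hz' _ (W2 k hk)
      · exact (hEW _ (Yn k hk) _ hp' _ (he' k hk) _ hz').symm
      · exact hWW _ hp' _ (Xn k hk) q3 _ hz' _ (W1 k hk)
  · intro k hk
    refine dis22 ?_ ?_ ?_ ?_
    · exact hEE _ (Xn k hk) _ (Yn k hk) (hxny k hk k hk) _ (he k hk) _ (he' k hk)
    · exact hEW _ (Xn k hk) _ (Xn k hk) _ (he k hk) _ (W1 k hk)
    · exact (hEW _ (Yn k hk) _ (Yn k hk) _ (he' k hk) _ (W2 k hk)).symm
    · exact hWW _ (Yn k hk) _ (Xn k hk) (hxny k hk k hk).symm _ (W2 k hk) _ (W1 k hk)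
  · intro i hi j hj hij
    refine ⟨dis22 ?_ ?_ ?_ ?_, dis22 ?_ ?_ ?_ ?_, dis22 ?_ ?_ ?_ ?_⟩
    · exact hEE _ (Xn i hi) _ (Xn j hj) (hne i hi j hj hij).1 _ (he i hi) _ (he j hj)
    · exact hEW _ (Xn i hi) _ (Yn j hj) _ (he i hi) _ (W2 j hj)
    · exact (hEW _ (Xn j hj) _ (Yn i hi) _ (he j hj) _ (W2 i hi)).symm
    · exact hWW _ (Yn i hi) _ (Yn j hj) (hne i hi j hj hij).2 _ (W2 i hi) _ (W2 j hj)
    · exact hEE _ (Xn i hi) _ (Yn j hj) (hxny i hi j hj) _ (he i hi) _ (he' j hj)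
    · exact hEW _ (Xn i hi) _ (Xn j hj) _ (he i hi) _ (W1 j hj)
    · exact (hEW _ (Yn j hj) _ (Yn i hi) _ (he' j hj) _ (W2 i hi)).symm
    · exact hWW _ (Yn i hi) _ (Xn j hj) (hxny j hj i hi).symm _ (W2 i hi) _ (W1 j hj)
    · exact hEE _ (Yn i hi) _ (Yn j hj) (hne i hi j hj hij).2 _ (he' i hi) _ (he' j hj)
    · exact hEW _ (Yn i hi) _ (Xn j hj) _ (he' i hi) _ (W1 j hj)
    · exact (hEW _ (Yn j hj) _ (Xn i hi) _ (he' j hj) _ (W1 i hi)).symm
    · exact hWW _ (Xn i hi) _ (Xn j hj) (hne i hi j hj hij).1 _ (W1 i hi) _ (W1 j hj)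
  · rw [X0, X1]
    rintro ⟨_, rfl, _, rfl, h⟩
    exact huz h.symm
  · rw [X0, X2]
    rintro ⟨_, rfl, _, rfl, h⟩
    exact (hC.ww p hp p' hp' hpp _ hz _ hz').2 h
  · rw [X1, X2]
    exact Tch.of_adj (hC.ec p hp p' hp' hpp u hu z' hz') rfl rfl
  · intro a ha k hk
    obtain ⟨q1, q2, q3, q4⟩ := hpk k hk
    interval_cases a
    · rw [X0]
      exact ⟨Tch.of_adj (hC.ec _ (Xn k hk) _ hp q1.symm _ (he k hk) _ hz).symm rfl (Or.inl rfl),
        Tch.of_adj (hC.ec _ (Yn k hk) _ hp q2.symm _ (he' k hk) _ hz).symm rfl (Or.inl rfl)⟩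
    · rw [X1]
      exact ⟨Tch.of_adj (hC.ec _ hp _ (Yn k hk) q2 _ hu _ (W2 k hk)) rfl (Or.inr rfl),
        Tch.of_adj (hC.ec _ hp _ (Xn k hk) q1 _ hu _ (W1 k hk)) rfl (Or.inr rfl)⟩
    · rw [X2]
      exact ⟨Tch.of_adj (hC.ec _ (Xn k hk) _ hp' q3.symm _ (he k hk) _ hz').symm rfl (Or.inl rfl),
        Tch.of_adj (hC.ec _ (Yn k hk) _ hp' q4.symm _ (he' k hk) _ hz').symm rfl (Or.inl rfl)⟩
  · intro k hk
    rintro ⟨a, ha, b, hb, h⟩
    simp only [Set.mem_insert_iff, Set.mem_singleton_iff] at ha hb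
    rcases ha with rfl | rfl
    · rcases hb with rfl | rfl
      · exact hee k hk h
      · exact (hw k hk).2 h
    · rcases hb with rfl | rfl
      · exact (hw' k hk).2 h.symm
      · exact (hC.ww _ (Yn k hk) _ (Xn k hk) (hxny k hk k hk).symm _ (W2 k hk) _ (W1 k hk)).2 h
  · intro i hi j hj hij
    refine ⟨Tch.of_adj (hC.ec _ (Xn i hi) _ (Yn j hj) (hxny i hi j hj) _ (he i hi) _ (W2 j hj))
      (Or.inl rfl) (Or.inr rfl), ?_, ?_⟩
    · exact Tch.of_adj (hC.ec _ (Xn i hi) _ (Xn j hj) (hne i hi j hj hij).1 _ (he i hi) _ (W1 j hj))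
        (Or.inl rfl) (Or.inr rfl)
    · exact Tch.of_adj (hC.ec _ (Yn i hi) _ (Xn j hj) (hxny j hj i hi).symm _ (he' i hi) _ (W1 j hj))
        (Or.inl rfl) (Or.inr rfl)

end Pool.Agent.MPd439b2.H1R
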