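import Pool.Agent.Lib.MP_d439b2_co.X3.H1R.SpecA

/-!
# MP_d439b2_co, X3/H1R: PA, a ladder or letters in REG position (helper91)
-/

set_option autoImplicit false

namespace Pool.Agent.MPd439b2.H1R

open Pool.Agent.MPd439b2
open Pool.Agent.MPd439b2.Rep
open Pool.Agent.MPd439b2.NK
open Pool.Agent.MPd439b2.H1T

namespace PAM

variable {V : Type} {G : SimpleGraph V} {e : Bool → ℕ → V}

private theorem fin {S : Finset ℕ} {P : ℕ → Prop} : {i | i ∈ S ∧ P i}.Finite :=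
  S.finite_toSet.subset fun _ hi => hi.1

/-- three parts -/
private theorem cnt {S S₁ S₂ : Finset ℕ} {P A B C : ℕ → Prop} {a b c : ℕ} (h1 : S ⊆ S₁)
    (h2 : S ⊆ S₂) (h : ∀ i ∈ S, P i → A i ∨ B i ∨ C i) (hA : {i | i ∈ S ∧ A i}.ncard < a)
    (hB : {i | i ∈ S₁ ∧ B i}.ncard ≤ b) (hC : {i | i ∈ S₂ ∧ C i}.ncard ≤ c) :
    {i | i ∈ S ∧ P i}.ncard < a + (b + c) := by
  have h3 : {i | i ∈ S ∧ P i} ⊆ {i | i ∈ S ∧ A i} ∪ ({i | i ∈ S₁ ∧ B i} ∪ {i | i ∈ S₂ ∧ C i}) := by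
    rintro i ⟨hi, hp⟩
    rcases h i hi hp with h4 | h4 | h4
    · exact Or.inl ⟨hi, h4⟩
    · exact Or.inr (Or.inl ⟨h1 hi, h4⟩)
    · exact Or.inr (Or.inr ⟨h2 hi, h4⟩)
  have h5 := Set.ncard_le_ncard h3 (fin.union (fin.union fin))
  have h6 := Set.ncard_union_le {i | i ∈ S ∧ A i} ({i | i ∈ S₁ ∧ B i} ∪ {i | i ∈ S₂ ∧ C i})
  have h7 := Set.ncard_union_le {i | i ∈ S₁ ∧ B i} {i | i ∈ S₂ ∧ C i}
  omega

private theorem tri {v : V} {i : ℕ} (h1 : Tc G e v i) (h2 : ¬ Fu G e v i) :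
    Ha G e v false i ∨ Ha G e v true i := by
  obtain ⟨s, hs⟩ := h1
  cases s with
  | false =>
    refine Or.inl ⟨hs, fun h3 => h2 fun t => ?_⟩
    cases t with
    | false => exact hs
    | true => exact h3
  | true =>
    refine Or.inr ⟨hs, fun h3 => h2 fun t => ?_⟩
    cases t with
    | false => exact h3
    | true => exact hs

end PAM

open PAM in
theorem rPA : S_PA := by
  classical
  intro hA1 hDi hLo hHi m n'
  obtain ⟨L, hL⟩ := hDi m
  choose MH hMH using fun b => hHi n' (L + b)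
  choose ML hML using fun b => hLo (MH b) (L + b)
  choose g hg using fun b => hL (ML b)
  choose N₂ hN₂ using fun b₁ => hA1 fun b => g (b₁ + b)
  obtain ⟨N, hN⟩ := hA1 N₂
  refine ⟨N, ?_⟩
  intro V _ G e hG hlt
  obtain ⟨S₁, hS₁, b₁, W₁, hb₁, hW₁, hHa₁, hout₁⟩ := hN V G N e (Finset.range N) false hlt hG
    (fun i hi => Finset.mem_range.1 hi) (by rw [Finset.card_range])
  have hS₁n : ∀ i ∈ S₁, i < N := fun i hi => Finset.mem_range.1 (hS₁ hi)
  obtain ⟨S₂, hS₂, b₂, W₂, hb₂, hW₂, hHa₂, hout₂⟩ := hN₂ b₁ V G N e S₁ true hlt hG hS₁n hb₁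
  have hS₂n : ∀ i ∈ S₂, i < N := fun i hi => hS₁n i (hS₂ hi)
  rcases hg (b₁ + b₂) V G N e S₂ hlt hG hS₂n hb₂ with h | h
  · obtain ⟨v, σ, h1, h2, h3⟩ := h
    exact Or.inl ⟨v, σ, fun i hi => hS₂n _ (h1 i hi), h2, h3⟩
  · right
    obtain ⟨S₃, hS₃, hM, hv⟩ := h
    have hS₃n : ∀ i ∈ S₃, i < N := fun i hi => hS₂n i (hS₃ hi)
    obtain ⟨σ, hσ, hσi, hσQ⟩ := hML (b₁ + b₂) V G N e S₃
      {v | {i | i ∈ S₃ ∧ Tc G e v i}.ncard < L + (b₁ + b₂)} hlt hS₃n hM hG (fun u hu => hu)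
    set S₄ : Finset ℕ := (Finset.range (MH (b₁ + b₂))).image σ with hS₄
    have hS₄S : S₄ ⊆ S₃ := by
      intro i hi
      rw [hS₄, Finset.mem_image] at hi
      obtain ⟨k, hk, rfl⟩ := hi
      exact hσ k (Finset.mem_range.1 hk)
    have hcard : S₄.card = MH (b₁ + b₂) := by
      rw [hS₄, Finset.card_image_of_injOn, Finset.card_range]
      intro i hi j hj h
      exact hσi i (Finset.mem_range.1 (Finset.mem_coe.1 hi)) j
        (Finset.mem_range.1 (Finset.mem_coe.1 hj)) h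
    obtain ⟨σ', hσ', hσi', hσQ'⟩ := hMH (b₁ + b₂) V G N e S₄
      {v | {i | i ∈ S₃ ∧ ¬ Fu G e v i}.ncard < L + (b₁ + b₂)} hlt
      (fun i hi => hS₃n i (hS₄S hi)) hcard.ge hG (by
        intro u hu
        have h3 : {i | i ∈ S₄ ∧ ¬ Fu G e u i} ⊆ {i | i ∈ S₃ ∧ ¬ Fu G e u i} :=
          fun i hi => ⟨hS₄S hi.1, hi.2⟩
        exact (Set.ncard_le_ncard h3 fin).trans_lt hu)
    have hS1 : ∀ i < n', σ' i ∈ S₁ := fun i hi => hS₂ (hS₃ (hS₄S (hσ' i hi)))
    have hS2 : ∀ i < n', σ' i ∈ S₂ := fun i hi => hS₃ (hS₄S (hσ' i hi))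
    refine ⟨σ', W₁ ∪ W₂, fun i hi => hS₁n _ (hS1 i hi), hσi', ?_⟩
    refine ⟨hlt.comp σ' (fun i hi => hS₁n _ (hS1 i hi)) hσi', ?_, ?_, ?_⟩
    · have := Set.ncard_union_le W₁ W₂
      omega
    · rintro w (hw | hw)
      · exact ⟨false, fun i hi => hHa₁ w hw _ (hS1 i hi)⟩
      · exact ⟨true, fun i hi => hHa₂ w hw _ (hS2 i hi)⟩
    · intro v hvW
      have h1 := hout₁ v fun h => hvW (Or.inl h)
      have h2 := hout₂ v fun h => hvW (Or.inr h)
      rcases hv v with h3 | h3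
      · right
        have h4 : v ∈ {v | {i | i ∈ S₃ ∧ ¬ Fu G e v i}.ncard < L + (b₁ + b₂)} := by
          refine cnt (A := fun i => ¬ Tc G e v i) (hS₃.trans hS₂) hS₃ ?_ h3 h1 h2
          intro i _ hi
          by_cases h5 : Tc G e v i
          · exact Or.inr (tri h5 hi)
          · exact Or.inl h5
        intro i hi j hj hij
        by_contra hcon
        rw [not_or] at hcon
        exact hij (hσQ' v h4 i hi j hj hcon.1 hcon.2)
      · left
        have h4 : v ∈ {v | {i | i ∈ S₃ ∧ Tc G e v i}.ncard < L + (b₁ + b₂)} := by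
          refine cnt (A := fun i => Fu G e v i) (hS₃.trans hS₂) hS₃ ?_ h3 h1 h2
          intro i _ hi
          by_cases h5 : Fu G e v i
          · exact Or.inl h5
          · exact Or.inr (tri hi h5)
        intro i hi j hj h5 h6
        have h7 := hσ' i hi
        have h8 := hσ' j hj
        rw [hS₄, Finset.mem_image] at h7 h8
        obtain ⟨a, ha, ha'⟩ := h7
        obtain ⟨b, hb, hb'⟩ := h8
        have h9 : a = b := by
          refine hσQ v h4 a (Finset.mem_range.1 ha) b (Finset.mem_range.1 hb) ?_ ?_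
          · rw [ha']
            exact h5
          · rw [hb']
            exact h6
        subst h9
        exact hσi' i hi j hj (ha'.symm.trans hb')

end Pool.Agent.MPd439b2.H1R
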