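import Pool.Agent.Lib.MP_d439b2_co.X3.H1R.SpecQ
import Pool.Agent.Lib.MP_d439b2_co.RG.Arm

/-!
# MP_d439b2_co, X3/H1R, Qf (helper69): the vertices `Fm` are complete to the sets `Zi`
-/

set_option autoImplicit false

namespace Pool.Agent.MPd439b2.H1R

open Pool.Agent.MPd439b2
open Pool.Agent.MPd439b2.Rep
open Pool.Agent.MPd439b2.NK
open Pool.Agent.MPd439b2.H1T

private theorem qf_two {V : Type} {G : SimpleGraph V} {k i : ℕ} {e : Bool → ℕ → V} {f : V}
    (hk : 8 ≤ k) (hf : Fm G k e f) :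
    ∃ j < k, ∃ m < k, j ≠ i ∧ m ≠ i ∧ j ≠ m ∧ Fu G e f j ∧ Fu G e f m := by
  obtain ⟨a, b, c, ha, hb, hc, hai, hbi, hci, hab, hac, hbc⟩ : ∃ a b c : ℕ, a < k ∧ b < k ∧ c < k ∧
      a ≠ i ∧ b ≠ i ∧ c ≠ i ∧ a ≠ b ∧ a ≠ c ∧ b ≠ c := by
    by_cases h0 : i = 0
    · exact ⟨1, 2, 3, by omega, by omega, by omega, by omega, by omega, by omega, by omega,
        by omega, by omega⟩
    by_cases h1 : i = 1
    · exact ⟨0, 2, 3, by omega, by omega, by omega, by omega, by omega, by omega, by omega,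
        by omega, by omega⟩
    by_cases h2 : i = 2
    · exact ⟨0, 1, 3, by omega, by omega, by omega, by omega, by omega, by omega, by omega,
        by omega, by omega⟩
    · exact ⟨0, 1, 2, by omega, by omega, by omega, by omega, by omega, by omega, by omega,
        by omega, by omega⟩
  rcases hf a ha b hb hab with h | h
  · rcases hf b hb c hc hbc with h' | h'
    · exact ⟨a, ha, b, hb, hai, hbi, hab, h, h'⟩
    · exact ⟨a, ha, c, hc, hai, hci, hac, h, h'⟩
  · rcases hf a ha c hc hac with h' | h'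
    · exact ⟨a, ha, b, hb, hai, hbi, hab, h', h⟩
    · exact ⟨b, hb, c, hc, hbi, hci, hbc, h, h'⟩

private theorem qf_t {V : Type} {G : SimpleGraph V} {a b : V} {A B : Set V} (ha : a ∈ A) (hb : b ∈ B)
    (h : G.Adj a b) : Tch G A B := ⟨a, ha, b, hb, h⟩

private theorem qf_n {V : Type} {G : SimpleGraph V} {A B : Set V} (h : ∀ a ∈ A, ∀ b ∈ B, ¬ G.Adj a b) :
    ¬ Tch G A B := by
  rintro ⟨a, ha, b, hb, h'⟩
  exact h a ha b hb h'

private theorem qf_n2 {V : Type} {G : SimpleGraph V} {a b : V} (h : ¬ G.Adj a b) :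
    ¬ Tch G {a} {b} := by
  rintro ⟨x, hx, y, hy, h'⟩
  rw [Set.mem_singleton_iff] at hx hy
  subst hx hy
  exact h h'

private theorem qf_d {V : Type} {A B : Set V} (h : ∀ a ∈ A, ∀ b ∈ B, a ≠ b) :
    Disjoint A B := Set.disjoint_left.2 fun a ha hb => h a ha a hb rfl

theorem rQf : S_Qf := by
  intro hQb V G k e W q E hG hR hAr hk hZ f hf i hi z hz
  obtain ⟨hz1, hz2, hz3, hz4, hz5⟩ := hZ
  by_contra hfz
  obtain ⟨j, hj, m, hm, hji, hmi, hjm, fj, fm⟩ := qf_two (i := i) hk hf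
  have hfl : ¬ Lw G k e f := hf.not_lw (by omega)
  have hqz : q i ≠ z := fun h => hz2 i hi i hi (h ▸ hz)
  -- the set `L`
  obtain ⟨L, hL, hLs, hqL, hzL, x₀, hx₀, hx₀z⟩ := (RG.gArm V G (insert (q i) (Zi G k e W q E i))
    {q i} z (hz4 i hi) (Set.mem_insert_of_mem _ hz) (Ne.symm hqz)).1 (q i)
    ⟨Set.mem_insert _ _, rfl⟩
  -- general facts
  have nfB : ∀ l < k, ∀ x ∈ insert (q l) (Zi G k e W q E l), f ≠ x := by
    intro l hl x hx h'
    rcases hx with rfl | hx
    · exact hfl (h' ▸ (hAr.qR l hl).2)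
    · exact hfl (h' ▸ (hz1 l hl x hx).2)
  have sep : ∀ l < k, ∀ l' < k, l ≠ l' → ∀ x ∈ insert (q l) (Zi G k e W q E l),
      ∀ y ∈ insert (q l') (Zi G k e W q E l'), x ≠ y := by
    intro l hl l' hl' hll x hx y hy
    rcases hx with rfl | hx
    · rcases hy with rfl | hy
      · exact (hAr.qq l hl l' hl' hll).ne
      · exact fun h' => hz2 l' hl' l hl (h' ▸ hy)
    · rcases hy with rfl | hy
      · exact fun h' => hz2 l hl l' hl' (h' ▸ hx)
      · exact ((hz3 l hl l' hl' hll).1 x hx y hy).1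
  have nad : ∀ l < k, ∀ l' < k, l ≠ l' → ∀ x ∈ insert (q l) (Zi G k e W q E l),
      ∀ y ∈ Zi G k e W q E l', ¬ G.Adj x y := by
    intro l hl l' hl' hll x hx y hy
    rcases hx with rfl | hx
    · exact (hz3 l' hl' l hl hll.symm).2 y hy
    · exact ((hz3 l hl l' hl' hll).1 x hx y hy).2
  have heZ : ∀ l, ∀ s, e s l ∈ Zi G k e W q E l := fun l s => Or.inl (Or.inr (mem_Pr s l))
  have hAZ : ∀ l, insert (q l) (E l) ⊆ insert (q l) (Zi G k e W q E l) := fun l =>
    Set.insert_subset_insert fun x hx => Or.inl (Or.inl hx)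
  -- elements of `insert (q l) (E l)` are not letters
  have hAe : ∀ l < k, ∀ x ∈ insert (q l) (E l), ∀ s, x ≠ e s l := by
    intro l hl x hx s
    rcases hx with rfl | hx
    · exact (hAr.qP l hl l hl).1 s
    · exact (hAr.EP l hl l hl x hx).1 s
  obtain ⟨xj, hxj, r, hr⟩ := hAr.tch j hj
  obtain ⟨xm, hxm, r', hr'⟩ := hAr.tch m hm
  let X : ℕ → Set V := fun i' => match i' with
    | 0 => {f} | 1 => {e r j} | 2 => insert (q j) (E j) | 3 => L | 4 => insert (q m) (E m)
    | 5 => {e r' m} | 6 => {e (!r) j} | 7 => {z} | _ => {e (!r') m}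
  have hLi : ∀ x ∈ L, x ∈ insert (q i) (Zi G k e W q E i) := fun x hx => hLs hx
  have jB : ∀ x ∈ insert (q j) (E j), x ∈ insert (q j) (Zi G k e W q E j) := fun x hx => hAZ j hx
  have mB : ∀ x ∈ insert (q m) (E m), x ∈ insert (q m) (Zi G k e W q E m) := fun x hx => hAZ m hx
  have eB : ∀ l, ∀ s, ∀ x ∈ ({e s l} : Set V), x ∈ insert (q l) (Zi G k e W q E l) := by
    intro l s x hx
    rw [Set.mem_singleton_iff] at hx
    rw [hx]
    exact Set.mem_insert_of_mem _ (heZ l s)
  have eZ : ∀ l, ∀ s, ∀ x ∈ ({e s l} : Set V), x ∈ Zi G k e W q E l := by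
    intro l s x hx
    rw [Set.mem_singleton_iff] at hx
    rw [hx]
    exact heZ l s
  have zB : ∀ x ∈ ({z} : Set V), x ∈ insert (q i) (Zi G k e W q E i) := by
    intro x hx
    rw [Set.mem_singleton_iff] at hx
    rw [hx]
    exact Set.mem_insert_of_mem _ hz
  have zZ : ∀ x ∈ ({z} : Set V), x ∈ Zi G k e W q E i := by
    intro x hx
    rw [Set.mem_singleton_iff] at hx
    rw [hx]
    exact hz
  have fD : ∀ l < k, ∀ B : Set V, (∀ x ∈ B, x ∈ insert (q l) (Zi G k e W q E l)) →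
      Disjoint ({f} : Set V) B := by
    intro l hl B hB
    refine Set.disjoint_singleton_left.2 fun h' => ?_
    exact nfB l hl f (hB f h') rfl
  have sD : ∀ l < k, ∀ l' < k, l ≠ l' → ∀ A B : Set V,
      (∀ x ∈ A, x ∈ insert (q l) (Zi G k e W q E l)) →
      (∀ x ∈ B, x ∈ insert (q l') (Zi G k e W q E l')) → Disjoint A B :=
    fun l hl l' hl' hll A B hA hB => qf_d fun a ha b hb => sep l hl l' hl' hll a (hA a ha) b (hB b hb)
  have sN : ∀ l < k, ∀ l' < k, l ≠ l' → ∀ A B : Set V,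
      (∀ x ∈ A, x ∈ insert (q l) (Zi G k e W q E l)) →
      (∀ x ∈ B, x ∈ Zi G k e W q E l') → ¬ Tch G A B :=
    fun l hl l' hl' hll A B hA hB => qf_n fun a ha b hb => nad l hl l' hl' hll a (hA a ha) b (hB b hb)
  refine engS hG X [[0, 1, 2], [3], [4, 5], [6], [7], [8]]
    [(0, 1), (1, 2), (4, 5), (2, 3), (2, 4), (3, 4), (1, 6), (3, 7), (0, 8), (5, 8)]
    [(0, 7), (1, 7), (2, 7), (3, 6), (3, 8), (4, 6), (5, 6), (4, 7), (5, 7), (6, 7), (6, 8), (7, 8)]
    [(0, 3), (0, 4), (0, 5), (0, 6), (0, 7), (0, 8), (1, 3), (1, 4), (1, 5), (1, 6), (1, 7), (1, 8),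
      (2, 3), (2, 4), (2, 5), (2, 6), (2, 7), (2, 8), (3, 4), (3, 5), (3, 6), (3, 7), (3, 8),
      (4, 6), (4, 7), (4, 8), (5, 6), (5, 7), (5, 8), (6, 7), (6, 8), (7, 8)]
    ?_ ?_ ?_ ?_ (by decide)
  · intro l hl i' hi'
    simp only [List.mem_cons, List.not_mem_nil, or_false] at hl
    rcases hl with rfl | rfl | rfl | rfl | rfl | rfl <;>
      simp only [List.mem_cons, List.not_mem_nil, or_false] at hi'
    · rcases hi' with rfl | rfl | rfl
      · exact Conn.singleton G _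
      · exact Conn.singleton G _
      · exact hAr.con j hj
    · subst hi'; exact hL
    · rcases hi' with rfl | rfl
      · exact hAr.con m hm
      · exact Conn.singleton G _
    · subst hi'; exact Conn.singleton G _
    · subst hi'; exact Conn.singleton G _
    · subst hi'; exact Conn.singleton G _
  · intro p hp
    simp only [List.mem_cons, List.not_mem_nil, or_false] at hp
    rcases hp with rfl | rfl | rfl | rfl | rfl | rfl | rfl | rfl | rfl | rfl
    · exact qf_t rfl rfl (fj r)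
    · exact qf_t rfl hxj hr.symm
    · exact qf_t hxm rfl hr'
    · exact qf_t (Set.mem_insert _ _) hqL (hAr.qq j hj i hi hji)
    · exact qf_t (Set.mem_insert _ _) (Set.mem_insert _ _) (hAr.qq j hj m hm hjm)
    · exact qf_t hqL (Set.mem_insert _ _) (hAr.qq i hi m hm hmi.symm)
    · exact qf_t rfl rfl (hR.lt.adj hj r)
    · exact qf_t hx₀ rfl hx₀z
    · exact qf_t rfl rfl (fm (!r'))
    · exact qf_t rfl rfl (hR.lt.adj hm r')
  · intro p hp
    simp only [List.mem_cons, List.not_mem_nil, or_false] at hp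
    rcases hp with rfl | rfl | rfl | rfl | rfl | rfl | rfl | rfl | rfl | rfl | rfl | rfl
    · exact qf_n2 hfz
    · exact sN j hj i hi hji _ _ (eB j r) zZ
    · exact sN j hj i hi hji _ _ jB zZ
    · exact sN i hi j hj hji.symm _ _ hLi (eZ j _)
    · exact sN i hi m hm hmi.symm _ _ hLi (eZ m _)
    · exact sN m hm j hj hjm.symm _ _ mB (eZ j _)
    · exact sN m hm j hj hjm.symm _ _ (eB m r') (eZ j _)
    · exact sN m hm i hi hmi _ _ mB zZ
    · exact sN m hm i hi hmi _ _ (eB m r') zZ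
    · exact sN j hj i hi hji _ _ (eB j _) zZ
    · exact sN j hj m hm hjm _ _ (eB j _) (eZ m _)
    · exact sN i hi m hm hmi.symm _ _ zB (eZ m _)
  · intro p hp
    simp only [List.mem_cons, List.not_mem_nil, or_false] at hp
    rcases hp with rfl | rfl | rfl | rfl | rfl | rfl | rfl | rfl | rfl | rfl | rfl | rfl | rfl |
      rfl | rfl | rfl | rfl | rfl | rfl | rfl | rfl | rfl | rfl | rfl | rfl | rfl | rfl | rfl |
      rfl | rfl | rfl | rfl
    · exact fD i hi _ hLi
    · exact fD m hm _ mB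
    · exact fD m hm _ (eB m _)
    · exact fD j hj _ (eB j _)
    · exact fD i hi _ zB
    · exact fD m hm _ (eB m _)
    · exact sD j hj i hi hji _ _ (eB j _) hLi
    · exact sD j hj m hm hjm _ _ (eB j _) mB
    · exact sD j hj m hm hjm _ _ (eB j _) (eB m _)
    · exact Set.disjoint_singleton.2 (hR.lt.ft hj r)
    · exact sD j hj i hi hji _ _ (eB j _) zB
    · exact sD j hj m hm hjm _ _ (eB j _) (eB m _)
    · exact sD j hj i hi hji _ _ jB hLi
    · exact sD j hj m hm hjm _ _ jB mB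
    · exact sD j hj m hm hjm _ _ jB (eB m _)
    · exact Set.disjoint_singleton_right.2 fun h' => hAe j hj _ h' (!r) rfl
    · exact sD j hj i hi hji _ _ jB zB
    · exact sD j hj m hm hjm _ _ jB (eB m _)
    · exact sD i hi m hm hmi.symm _ _ hLi mB
    · exact sD i hi m hm hmi.symm _ _ hLi (eB m _)
    · exact sD i hi j hj hji.symm _ _ hLi (eB j _)
    · exact Set.disjoint_singleton_right.2 hzL
    · exact sD i hi m hm hmi.symm _ _ hLi (eB m _)
    · exact sD m hm j hj hjm.symm _ _ mB (eB j _)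
    · exact sD m hm i hi hmi _ _ mB zB
    · exact Set.disjoint_singleton_right.2 fun h' => hAe m hm _ h' (!r') rfl
    · exact sD m hm j hj hjm.symm _ _ (eB m _) (eB j _)
    · exact sD m hm i hi hmi _ _ (eB m _) zB
    · exact Set.disjoint_singleton.2 (hR.lt.ft hm r')
    · exact sD j hj i hi hji _ _ (eB j _) zB
    · exact sD j hj m hm hjm _ _ (eB j _) (eB m _)
    · exact sD i hi m hm hmi.symm _ _ zB (eB m _)

end Pool.Agent.MPd439b2.H1R
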