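import Pool.Agent.Lib.MP_d439b2_co.X3.H1R.SpecR

/-!
# MP_d439b2_co, X3/H1R/Ral: five letters and 64 disjoint connected sets which touch all of them
-/

set_option autoImplicit false

namespace Pool.Agent.MPd439b2.H1R

open Pool.Agent.MPd439b2
open Pool.Agent.MPd439b2.Rep
open Pool.Agent.MPd439b2.NK
open Pool.Agent.MPd439b2.H1T

private theorem Ral_two : ∀ p q j : Fin 5, p ≠ q → j ≠ q → j ≠ p → ∃ k m : Fin 5, k ≠ p ∧ k ≠ q ∧
    k ≠ j ∧ m ≠ p ∧ m ≠ q ∧ m ≠ j ∧ m ≠ k := by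
  decide

private theorem Ral_one : ∀ p q : Fin 5, p ≠ q → ∃ k : Fin 5, k ≠ p ∧ k ≠ q := by
  decide

theorem rRal : S_Ral := by
  classical
  intro hLea hZp V _ G n e hL hG l Y hl hln hYc hYd hLw hcon
  have huni : ∀ i, ∀ u ∈ Y i, ∀ a b, Tc G e u (l a) → Tc G e u (l b) → a = b := by
    intro i u hu a b h1 h2
    exact hl (hLw i u hu _ (hln a) _ (hln b) h1 h2)
  have hex := fun i => hLea V G (fun u a => Tc G e u (l a)) (Y i) (hYc i) (huni i) (hcon i)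
  choose Y' hY' y hy y' hy' p q hpq hall hc1 hc2 hc3 hp hq using hex
  have hyp : ∀ i, Tc G e (y i) (l (p i)) := by
    intro i
    obtain ⟨u, hu, h⟩ := hall i (p i)
    rw [← hp i u hu h]
    exact h
  have hyq : ∀ i, Tc G e (y' i) (l (q i)) := by
    intro i
    obtain ⟨u, hu, h⟩ := hall i (q i)
    rw [← hq i u hu h]
    exact h
  have hyne : ∀ i, y i ≠ y' i := by
    intro i h
    exact hpq i (huni i _ (hY' i (hy i)) _ _ (hyp i) (by rw [h]; exact hyq i))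
  -- the sets without vertices of the letters
  set Bad : Finset (Fin 64) := Finset.univ.filter fun i => ∃ a s, e s (l a) ∈ Y i with hBad
  have hBc : Bad.card ≤ 10 := by
    have h1 : ∀ i : Fin 64, ∃ x : Fin 5 × Bool, i ∈ Bad → e x.2 (l x.1) ∈ Y i := by
      intro i
      by_cases hi : i ∈ Bad
      · obtain ⟨a, s, h⟩ := (Finset.mem_filter.1 hi).2
        exact ⟨(a, s), fun _ => h⟩
      · exact ⟨(0, false), fun h => absurd h hi⟩
    choose F hF using h1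
    have h2 : Bad.card ≤ (Finset.univ : Finset (Fin 5 × Bool)).card := by
      refine Finset.card_le_card_of_injOn F (fun _ _ => Finset.mem_univ _) ?_
      intro i hi j hj hij
      by_contra hne
      have h3 := hF i hi
      rw [hij] at h3
      exact Set.disjoint_left.1 (hYd i j hne) h3 (hF j hj)
    simpa using h2
  set Good : Finset (Fin 64) := Finset.univ \ Bad with hGood
  have hGc : 54 ≤ Good.card := by
    have h1 := Finset.le_card_sdiff Bad (Finset.univ : Finset (Fin 64))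
    rw [Finset.card_univ, Fintype.card_fin, ← hGood] at h1
    omega
  have hGm : ∀ i ∈ Good, ∀ a s, e s (l a) ∉ Y i := by
    intro i hi a s h
    exact (Finset.mem_sdiff.1 hi).2 (Finset.mem_filter.2 ⟨Finset.mem_univ _, a, s, h⟩)
  obtain ⟨⟨P, Q⟩, -, hPQ⟩ := Finset.exists_lt_card_fiber_of_mul_lt_card_of_maps_to
    (s := Good) (t := (Finset.univ : Finset (Fin 5 × Fin 5))) (f := fun i => (p i, q i)) (n := 2)
    (fun _ _ => Finset.mem_univ _) (by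
      rw [Finset.card_univ, Fintype.card_prod, Fintype.card_fin]
      omega)
  obtain ⟨i₁, h₁, i₂, h₂, i₃, h₃, h12, h13, h23⟩ := Finset.two_lt_card.1 hPQ
  rw [Finset.mem_filter, Prod.mk.injEq] at h₁ h₂ h₃
  obtain ⟨g₁, p₁, q₁⟩ := h₁
  obtain ⟨g₂, p₂, q₂⟩ := h₂
  obtain ⟨g₃, p₃, q₃⟩ := h₃
  have hPQne : P ≠ Q := by rw [← p₁, ← q₁]; exact hpq i₁
  -- the piece `Z`
  obtain ⟨Z, hZ, hZc, hZy, j, hjQ, hZj, hZo⟩ := hZp V G n e l (Y' i₂ \ {y i₂}) (y' i₂) Q hl hln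
    (hc1 i₂) ⟨hy' i₂, fun h => hyne i₂ h.symm⟩ (fun u hu => hLw i₂ u (hY' i₂ hu.1))
    (q₂ ▸ hyq i₂) (by
      obtain ⟨a, ha1, ha2⟩ := Ral_one P Q hPQne
      obtain ⟨u, hu, hua⟩ := hall i₂ a
      refine ⟨u, ⟨hu, ?_⟩, a, ha2, hua⟩
      rintro rfl
      exact ha1 (huni i₂ _ (hY' i₂ (hy i₂)) _ _ hua (p₂ ▸ hyp i₂)))
  have hjP : j ≠ P := by
    rintro rfl
    obtain ⟨u, hu, huj⟩ := hZj
    exact (hZ hu).2 (hp i₂ u (hZ hu).1 (by rw [p₂]; exact huj))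
  obtain ⟨k, m, hkP, hkQ, hkj, hmP, hmQ, hmj, hmk⟩ := Ral_two P Q j hPQne hjQ hjP
  -- facts on `Y' 1 \ {y' 1}` and `Y' 3 \ {y 3, y' 3}`
  have t1 : ∀ a, a ≠ Q → Tch G (Y' i₁ \ {y' i₁}) (Pr e (l a)) := by
    intro a ha
    obtain ⟨u, hu, hua⟩ := hall i₁ a
    refine tch_Pr.2 ⟨u, ⟨hu, ?_⟩, hua⟩
    rintro rfl
    exact ha (huni i₁ _ (hY' i₁ (hy' i₁)) _ _ hua (q₁ ▸ hyq i₁))
  have n1 : ¬ Tch G (Y' i₁ \ {y' i₁}) (Pr e (l Q)) := by
    intro h
    obtain ⟨u, hu, huQ⟩ := tch_Pr.1 h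
    exact hu.2 (hq i₁ u hu.1 (by rw [q₁]; exact huQ))
  have t3 : ∀ a, a ≠ P → a ≠ Q → Tch G (Y' i₃ \ {y i₃, y' i₃}) (Pr e (l a)) := by
    intro a haP haQ
    obtain ⟨u, hu, hua⟩ := hall i₃ a
    refine tch_Pr.2 ⟨u, ⟨hu, ?_⟩, hua⟩
    rintro (rfl | h)
    · exact haP (huni i₃ _ (hY' i₃ (hy i₃)) _ _ hua (p₃ ▸ hyp i₃))
    · rw [Set.mem_singleton_iff] at h
      subst h
      exact haQ (huni i₃ _ (hY' i₃ (hy' i₃)) _ _ hua (q₃ ▸ hyq i₃))
  have n3P : ¬ Tch G (Y' i₃ \ {y i₃, y' i₃}) (Pr e (l P)) := by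
    intro h
    obtain ⟨u, hu, huP⟩ := tch_Pr.1 h
    exact hu.2 (Or.inl (hp i₃ u hu.1 (by rw [p₃]; exact huP)))
  have n3Q : ¬ Tch G (Y' i₃ \ {y i₃, y' i₃}) (Pr e (l Q)) := by
    intro h
    obtain ⟨u, hu, huQ⟩ := tch_Pr.1 h
    exact hu.2 (Or.inr (hq i₃ u hu.1 (by rw [q₃]; exact huQ)))
  have nZ : ∀ a, a ≠ Q → a ≠ j → ¬ Tch G Z (Pr e (l a)) := by
    intro a ha1 ha2 h
    obtain ⟨u, hu, hua⟩ := tch_Pr.1 h
    rcases hZo u hu a hua with h1 | h1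
    · exact ha1 h1
    · exact ha2 h1
  have s1 : Y' i₁ \ {y' i₁} ⊆ Y i₁ := fun x hx => hY' i₁ hx.1
  have s2 : Z ⊆ Y i₂ := fun x hx => hY' i₂ (hZ hx).1
  have s3 : Y' i₃ \ {y i₃, y' i₃} ⊆ Y i₃ := fun x hx => hY' i₃ hx.1
  have dP : ∀ {i : Fin 64} {A : Set V}, i ∈ Good → A ⊆ Y i → ∀ a, Disjoint A (Pr e (l a)) := by
    intro i A hi hA a
    rw [Set.disjoint_left]
    rintro x hx ⟨s, rfl⟩
    exact hGm i hi a s (hA hx)
  have dPP : ∀ a b, a ≠ b → Disjoint (Pr e (l a)) (Pr e (l b)) := fun a b hab =>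
    hL.dis (hln a) (hln b) fun h => hab (hl h)
  have nPP : ∀ a b, a ≠ b → ¬ Tch G (Pr e (l a)) (Pr e (l b)) := fun a b hab =>
    hL.ntch (hln a) (hln b) fun h => hab (hl h)
  have dYY : ∀ {i i' : Fin 64} {A A' : Set V}, i ≠ i' → A ⊆ Y i → A' ⊆ Y i' → Disjoint A A' :=
    fun hii hA hA' => (hYd _ _ hii).mono hA hA'
  set X : ℕ → Set V := fun r => match r with
    | 0 => Y' i₁ \ {y' i₁} | 1 => Pr e (l m) | 2 => Pr e (l j) | 3 => Z
    | 4 => Y' i₃ \ {y i₃, y' i₃} | 5 => Pr e (l P) | 6 => Pr e (l Q) | _ => Pr e (l k) with hX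
  refine engS hG X [[0, 1], [2, 3], [4], [5], [6], [7]]
    [(0, 1), (2, 3), (0, 2), (1, 4), (2, 4), (0, 5), (3, 6), (0, 7), (4, 7)]
    [(2, 5), (3, 5), (4, 5), (0, 6), (1, 6), (4, 6), (2, 7), (3, 7), (5, 6), (5, 7), (6, 7)]
    [(0, 2), (0, 3), (0, 4), (0, 5), (0, 6), (0, 7), (1, 2), (1, 3), (1, 4), (1, 5), (1, 6),
      (1, 7), (2, 4), (2, 5), (2, 6), (2, 7), (3, 4), (3, 5), (3, 6), (3, 7), (4, 5), (4, 6),
      (4, 7), (5, 6), (5, 7), (6, 7)] ?_ ?_ ?_ ?_ (by decide)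
  · intro L _ r _
    rcases r with _ | _ | _ | _ | _ | _ | _ | r
    · exact hc2 i₁
    · exact hL.conn (hln m)
    · exact hL.conn (hln j)
    · exact hZc
    · exact hc3 i₃
    · exact hL.conn (hln P)
    · exact hL.conn (hln Q)
    · exact hL.conn (hln k)
  · intro r hr
    simp only [List.mem_cons, List.not_mem_nil, or_false] at hr
    rcases hr with rfl | rfl | rfl | rfl | rfl | rfl | rfl | rfl | rfl
    · exact t1 m hmQ
    · exact (tch_Pr.2 hZj).symm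
    · exact t1 j hjQ
    · exact (t3 m hmP hmQ).symm
    · exact (t3 j hjP hjQ).symm
    · exact t1 P hPQne
    · exact tch_Pr.2 ⟨y' i₂, hZy, q₂ ▸ hyq i₂⟩
    · exact t1 k hkQ
    · exact t3 k hkP hkQ
  · intro r hr
    simp only [List.mem_cons, List.not_mem_nil, or_false] at hr
    rcases hr with rfl | rfl | rfl | rfl | rfl | rfl | rfl | rfl | rfl | rfl | rfl
    · exact nPP j P hjP
    · exact nZ P hPQne hjP.symm
    · exact n3P
    · exact n1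
    · exact nPP m Q hmQ
    · exact n3Q
    · exact nPP j k hkj.symm
    · exact nZ k hkQ hkj
    · exact nPP P Q hPQne
    · exact nPP P k hkP.symm
    · exact nPP Q k hkQ.symm
  · intro r hr
    simp only [List.mem_cons, List.not_mem_nil, or_false] at hr
    rcases hr with rfl | rfl | rfl | rfl | rfl | rfl | rfl | rfl | rfl | rfl | rfl | rfl | rfl |
      rfl | rfl | rfl | rfl | rfl | rfl | rfl | rfl | rfl | rfl | rfl | rfl | rfl
    · exact dP g₁ s1 j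
    · exact dYY h12 s1 s2
    · exact dYY h13 s1 s3
    · exact dP g₁ s1 P
    · exact dP g₁ s1 Q
    · exact dP g₁ s1 k
    · exact dPP m j hmj
    · exact (dP g₂ s2 m).symm
    · exact (dP g₃ s3 m).symm
    · exact dPP m P hmP
    · exact dPP m Q hmQ
    · exact dPP m k hmk
    · exact (dP g₃ s3 j).symm
    · exact dPP j P hjP
    · exact dPP j Q hjQ
    · exact dPP j k hkj.symm
    · exact dYY h23 s2 s3
    · exact dP g₂ s2 P
    · exact dP g₂ s2 Q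
    · exact dP g₂ s2 k
    · exact dP g₃ s3 P
    · exact dP g₃ s3 Q
    · exact dP g₃ s3 k
    · exact dPP P Q hPQne
    · exact dPP P k hkP.symm
    · exact dPP Q k hkQ.symm

end Pool.Agent.MPd439b2.H1R
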