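import Pool.Agent.Lib.MP_d439b2_co.X3.H1R.Base
import Pool.Agent.Lib.MP_d439b2_co.CH.Spec
import Pool.Agent.Lib.MP_d439b2_co.X2.SpecA
import Pool.Agent.Lib.MP_577a3c26_an.Ramsey

/-!
# MP_d439b2_co, X3/H1R, part A: a large induced matching contains a ladder or letters in REG position

`K3:0,1,02`, note 2976 of helper94.  A LADDER is a chain `CH.Ch G m v e`: the `v i` are a clique, `v i` is complete to the
letter `j` for `i < j` and anticomplete to it for `j ≤ i`.  THEOREM (`S_PA`): for all `m, n'` there is `N`: `N` letters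
in a graph `G` with `FH G` contain (as a sub-family) a ladder of length `m` or `n'` letters in REG position (`Rg`).

Every `S_...` is a statement to be proved in its own file; the docstring contains the complete proof; the used
statements are hypotheses of the theorem, in the order given in `(Uses ...)`.  The theorem for `S_X` is called `rX` and
is in the file `X3/H1R/X.lean` (namespace `Pool.Agent.MPd439b2.H1R`).  `x ~ y` means `G.Adj x y`.

MODELS.  `[b₀ | b₁ | b₂ ; b₃ , b₄ , b₅]` are the bags of a model of `K3:0,1,02`: `b₀, b₁, b₂` touch pairwise, `b₃` touches only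
`b₀`, `b₄` only `b₁`, `b₅` only `b₀` and `b₂` (`H1T.mdl`, or the engines `engS`, `engV` of `H1R/Base.lean`).
-/

set_option autoImplicit false

namespace Pool.Agent.MPd439b2.H1R

open Pool.Agent.MPd439b2
open Pool.Agent.MPd439b2.Rep
open Pool.Agent.MPd439b2.NK
open Pool.Agent.MPd439b2.H1T

/-- **K23.** Two vertices which are half on three letters on the same side.

Proof. `s_l = e r l`, `t_l = e (!r) l`.  Model `[v, s_k | s_i | w ; t_k, t_i, s_j]`.  (`v`, `w` are not in letters: they touch at least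
two letters, `Lt.ne_of`.) -/
def S_K23 : Prop := ∀ (V : Type) (G : SimpleGraph V) (n : ℕ) (e : Bool → ℕ → V) (r : Bool),
  Lt G n e → FH G → ∀ v w, v ≠ w → ∀ i < n, ∀ j < n, ∀ k < n, i ≠ j → i ≠ k → j ≠ k →
    (∀ l, (l = i ∨ l = j ∨ l = k) → Ha G e v r l ∧ Ha G e w r l) → False

/-- **A1.** Half vertices.  (Uses `S_K23`.)

Proof. `n₁ = max (f 2) 3`, `N = f n₁`.  If some `w` is half on at least `n₁` letters of `S`: `S'` = this set, `b = 2`, `W = {w}` (K23: another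
vertex which is half on three of them is excluded).  Otherwise `S' = S`, `b = n₁`, `W = ∅`. -/
def S_A1 : Prop := S_K23 → ∀ f : ℕ → ℕ, ∃ N : ℕ, ∀ (V : Type) [Finite V] (G : SimpleGraph V)
  (n : ℕ) (e : Bool → ℕ → V) (S : Finset ℕ) (r : Bool), Lt G n e → FH G → (∀ i ∈ S, i < n) →
    N ≤ S.card → ∃ S' ⊆ S, ∃ (b : ℕ) (W : Set V), f b ≤ S'.card ∧ W.ncard ≤ 1 ∧
      (∀ w ∈ W, ∀ i ∈ S', Ha G e w r i) ∧ ∀ v, v ∉ W → {i | i ∈ S' ∧ Ha G e v r i}.ncard ≤ b

/-- **Tr.** Ladders of traces.  (Uses the Ramsey theorem `Pool.Agent.Lib.MP_577a3c26_an.ramsey` for sets with `2 K`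
elements.)

Proof. For a finite set `D` let `P A B D` be: there are `v` and `a` with `(D.filter (· < a)).card = K`, `A v d` for `d ∈ D`, `d < a`, and
`B v d` for `d ∈ D`, `a ≤ d`.  Ramsey for `2 K`, `max M (K * (K + 1))` and the colour (`P A B D`, `P B A D`) (`decide`); to work in `S`,
enumerate `S` increasingly (`Finset.orderEmbOfFin`) and colour `D` by the colour of its image.  We get `H ⊆ S`,
`|H| = max M (K * (K + 1))`, constant colour for `D ⊆ H`, `|D| = 2 K`.  Suppose that the third alternative fails for `S' = H`: some `v`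
has `A v d` for at least `2 K` elements `d ∈ H` and `B v d` for at least `2 K` elements.  Let `a` be such that exactly `K` elements `d < a` of `H`
have `A v d` (`a` = one more than the `K`-th of them; `K ≥ 1`, the case `K = 0` is trivial).  If at least `K` elements `d ≥ a` of `H` have `B v d` then
these and the first `K` form a set `D` with `P A B D`.  Otherwise at least `K + 1` elements `d < a` have `B v d`, and at least `K` elements
`d ≥ a` have `A v d`: a set `D` with `P B A D`.  So `P A B D` for all `D ⊆ H`, `|D| = 2 K`, or `P B A D` for all of them.  In the first case let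
`h 0 < h 1 < ..` be the elements of `H`, `x j = h (j * (K + 1))`; for `i < K` use `D` = `{x 0, .., x (K - 1)}` and the `K` elements
`h (i * (K + 1) + 1), .., h (i * (K + 1) + K)` between `x i` and `x (i + 1)`: `v i` = the vertex of `P A B D`; as exactly `K` elements of `D` are
`< a`, we have `x j < a` for `j ≤ i` and `a ≤ x j` for `j > i`.  This is the first alternative.  In the second case the second one. -/
def S_Tr : Prop := ∀ K M : ℕ, ∃ N : ℕ, ∀ (V : Type) (A B : V → ℕ → Prop) (S : Finset ℕ),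
  N ≤ S.card →
    (∃ (v : ℕ → V) (x : ℕ → ℕ), (∀ i < K, x i ∈ S) ∧ (∀ i j, i < j → j < K → x i < x j) ∧
      ∀ i < K, ∀ j < K, (j ≤ i → A (v i) (x j)) ∧ (i < j → B (v i) (x j))) ∨
    (∃ (v : ℕ → V) (x : ℕ → ℕ), (∀ i < K, x i ∈ S) ∧ (∀ i j, i < j → j < K → x i < x j) ∧
      ∀ i < K, ∀ j < K, (j ≤ i → B (v i) (x j)) ∧ (i < j → A (v i) (x j))) ∨
    ∃ S' ⊆ S, M ≤ S'.card ∧ ∀ v, {i | i ∈ S' ∧ A v i}.ncard < 2 * K ∨
      {i | i ∈ S' ∧ B v i}.ncard < 2 * K

/-- **Ld.** From a ladder of traces to a ladder.  (Uses `W.S_RamC`.)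

Proof. `K` = the number of `W.S_RamC` for `Bool` and `max m 6`, colour `decide (v i ~ v j)`: `s`.  Colour `true`: `v' i = v (s i)`,
`σ i = x (s i)`: `v' i` is complete to the letter `σ j` iff `s i < s j` iff `i < j`, and anticomplete otherwise (`NK.ch_of`).  Colour
`false`: write `v i` for `v (s i)`, `s_j = e false (x (s j))`: the `v i`, `i < 6`, are pairwise non-adjacent.  Model
`[v_0 | s_5 | v_1, s_2 ; s_1, v_4, s_3]`. -/
def S_Ld : Prop := W.S_RamC → ∀ m : ℕ, ∃ K : ℕ, ∀ (V : Type) (G : SimpleGraph V) (n : ℕ)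
  (e : Bool → ℕ → V) (v : ℕ → V) (x : ℕ → ℕ), Lt G n e → FH G → (∀ i < K, x i < n) →
    (∀ i < K, ∀ j < K, x i = x j → i = j) →
    (∀ i < K, ∀ j < K, (j ≤ i → ¬ Tc G e (v i) (x j)) ∧ (i < j → Fu G e (v i) (x j))) →
    ∃ (v' : ℕ → V) (σ : ℕ → ℕ), (∀ i < m, ∃ j < K, σ i = x j) ∧
      (∀ i < m, ∀ j < m, σ i = σ j → i = j) ∧ CH.Ch G m v' (fun s i => e s (σ i))

/-- **Di.** The dichotomy.  (Uses `W.S_RamC`, `S_Tr`, `S_Ld`.)

Proof. `K₀` from Ld for `m`, `K = K₀ + 1`, `L = 2 K`, `N` from Tr for `K`, `M`; `A v i = ¬ Tc G e v i`, `B v i = Fu G e v i`.  First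
alternative of Tr: Ld.  Second alternative: `v i` is complete to the letters `x j`, `j ≤ i`, and anticomplete to the `x j`, `i < j` (`i, j ≤ K₀`):
`v' i = v (K₀ - 1 - i)`, `x' j = x (K₀ - j)` for `i, j < K₀`: `v' i` is complete to the letter `x' j` iff `K₀ - j ≤ K₀ - 1 - i` iff `i < j`, and
anticomplete to it iff `j ≤ i`: Ld.  The third alternative is the second one of Di. -/
def S_Di : Prop := W.S_RamC → S_Tr → S_Ld → ∀ m : ℕ, ∃ L : ℕ, ∀ M : ℕ, ∃ N : ℕ, ∀ (V : Type)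
  (G : SimpleGraph V) (n : ℕ) (e : Bool → ℕ → V) (S : Finset ℕ), Lt G n e → FH G →
    (∀ i ∈ S, i < n) → N ≤ S.card →
    (∃ (v : ℕ → V) (σ : ℕ → ℕ), (∀ i < m, σ i ∈ S) ∧ (∀ i < m, ∀ j < m, σ i = σ j → i = j) ∧
      CH.Ch G m v (fun s i => e s (σ i))) ∨
    ∃ S' ⊆ S, M ≤ S'.card ∧ ∀ v, {i | i ∈ S' ∧ ¬ Tc G e v i}.ncard < L ∨
      {i | i ∈ S' ∧ Fu G e v i}.ncard < L

/-- **Lo1.** Thinning out: vertices which touch few letters touch at most one of the new ones.  (Uses `W.S_RamC`,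
`X2.S_Ram3`.)  Compare `NK/Six.lean` (`NK.S_Six`): the same proof with another model at the end.

Proof. `m₃` = the number of `X2.S_Ram3` for `κ = Bool × Bool × Bool` and `L + 6`; `M` = the number of `W.S_RamC` for
`κ = Bool` and `max m m₃`.  Let `x 0 < x 1 < ..` (`M` of them) be elements of `S`.  `W.S_RamC` for the colour
`decide (∃ u ∈ Q, Tc G e u (x i) ∧ Tc G e u (x j))`: `σ`.  If the colour is `false`: `i ↦ x (σ i)`, `i < m`.  Let it be `true` and write
`x` for `x ∘ σ`: for `i < j < m₃` choose `z i j ∈ Q` touching `x i` and `x j`.  `X2.S_Ram3` for the colour of `i < j < k`: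
(`Tc (z i j) (x k)`, `Tc (z i k) (x j)`, `Tc (z j k) (x i)`), `τ` of length `q = L + 6`.  If the first component is `true` then `z (τ 0) (τ 1)`
touches all `x (τ k)`, `1 < k < q`, more than `L` of them: contradiction.  The second: `z (τ 0) (τ (q - 1))` touches all `x (τ j)`,
`0 < j < q - 1`.  The third: `z (τ (q - 2)) (τ (q - 1))` touches all `x (τ i)`, `i < q - 2`.  So all three are `false`: with
`y k = x (τ k)`, `Z p q = z (τ p) (τ q)`, `p < q < 6`, the vertex `Z p q` touches `y p`, `y q` and no other `y k`, `k < 6`.  So the `Z p q` are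
different from each other and are not in letters (`Lt.ne_of`).  Model (`P_k` = the letter `y k`)
`[P_0, Z01, Z02, Z03, Z05 | P_1, Z12, Z14 | P_2, Z25 ; P_3, P_4, P_5]`.  (A set `Pr y ∪ {z, ..}` is connected if all `z` touch `y`; the
`Z`'s are only in `b₀, b₁, b₂`, so the edges between them do not matter.) -/
def S_Lo1 : Prop := W.S_RamC → X2.S_Ram3 → ∀ m L : ℕ, ∃ M : ℕ, ∀ (V : Type)
  (G : SimpleGraph V) (n : ℕ) (e : Bool → ℕ → V) (S : Finset ℕ) (Q : Set V), Lt G n e →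
    (∀ i ∈ S, i < n) → M ≤ S.card → FH G →
      (∀ u ∈ Q, {i | i ∈ S ∧ Tc G e u i}.ncard < L) → ∃ σ : ℕ → ℕ, (∀ i < m, σ i ∈ S) ∧
        (∀ i < m, ∀ j < m, σ i = σ j → i = j) ∧
        ∀ u ∈ Q, ∀ i < m, ∀ j < m, Tc G e u (σ i) → Tc G e u (σ j) → i = j

/-- the type of `v` at the letter `i`: `none`: anticomplete, `some r`: half on the side `r` -/
def Tv {V : Type} (G : SimpleGraph V) (e : Bool → ℕ → V) (v : V) (τ : Option Bool) (i : ℕ) : Prop :=
  match τ with
  | none => ¬ Tc G e v i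
  | some r => Ha G e v r i

/-- **Hm.** The models for vertices which are not complete to two of four letters.

Proof. The letters `y 0, .., y 3`; `s_k = e r (y k)`, `t_k = e (!r) (y k)`; `z_ij = z i j` has the type `τ` at `y i`, `τ'` at `y j` and is complete to the
other two.  The `z_ij` are different and not in letters (each touches two letters, `Lt.ne_of`; they differ at a letter where one is
complete and the other is not).  (`τ`, `τ'`) = (`none`, `none`) (`r` arbitrary): `[t_1, z_02, z_03 | s_3, z_12 | t_2, z_01 ; s_1, t_0, s_2]`.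
(`some r`, `none`): `[s_0, z_01 | s_1, z_02 | z_12 ; s_2, t_1, t_0]`.  (`none`, `some r`): `[s_2, z_12 | s_1, z_02 | z_01 ; s_0, t_1, t_2]`.
(`some r`, `some r`): `[s_0, z_02 | z_01 | s_1 ; t_0, t_2, t_1]`.  (`some r`, `some (!r)`): `[t_2, z_01 | s_0 | z_02 ; s_2, t_0, t_1]`.  The `z`'s are only
in `b₀, b₁, b₂`, in different bags they need not be adjacent. -/
def S_Hm : Prop := ∀ (V : Type) (G : SimpleGraph V) (n : ℕ) (e : Bool → ℕ → V) (y : ℕ → ℕ)
  (z : ℕ → ℕ → V) (τ τ' : Option Bool), Lt G n e → FH G → (∀ k < 4, y k < n) →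
    (∀ k < 4, ∀ l < 4, y k = y l → k = l) →
    (∀ i j, i < j → j < 4 → Tv G e (z i j) τ (y i) ∧ Tv G e (z i j) τ' (y j) ∧
      ∀ k < 4, k ≠ i → k ≠ j → Fu G e (z i j) (y k)) → False

/-- **Hi.** Thinning out: vertices which are complete to almost all letters are complete to all new ones except for
at most one.  (Uses `W.S_RamC`, `X2.S_Ram3`, `S_Hm`.)

Proof. As Lo1 with `¬ Fu` in place of `Tc`.  `m₃` = the number of `X2.S_Ram3` for `κ = Bool × Bool × Bool` and `L + 6`; `m₂` = the number of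
`W.S_RamC` for `κ = Option Bool × Option Bool` and `m₃`; `M` = the number of `W.S_RamC` for `κ = Bool` and `max m m₂`.  `x 0 < x 1 < ..`
elements of `S`; first colour `decide (∃ u ∈ Q, ¬ Fu G e u (x i) ∧ ¬ Fu G e u (x j))`.  If it is `false` we are done.  Let it be `true`: choose
`z i j ∈ Q` (`i < j`); second colour: the types `Tv` of `z i j` at `x i` and at `x j` (every vertex which is not complete to a letter has
exactly one of the types `none`, `some false`, `some true`): constant `(τ, τ')` on a subset of length `m₃`.  Third: `X2.S_Ram3` for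
(`¬ Fu (z i j) (x k)`, `¬ Fu (z i k) (x j)`, `¬ Fu (z j k) (x i)`): as in Lo1 all three components are `false`.  Hm with the first four
indices. -/
def S_Hi : Prop := W.S_RamC → X2.S_Ram3 → S_Hm → ∀ m L : ℕ, ∃ M : ℕ, ∀ (V : Type)
  (G : SimpleGraph V) (n : ℕ) (e : Bool → ℕ → V) (S : Finset ℕ) (Q : Set V), Lt G n e →
    (∀ i ∈ S, i < n) → M ≤ S.card → FH G →
      (∀ u ∈ Q, {i | i ∈ S ∧ ¬ Fu G e u i}.ncard < L) → ∃ σ : ℕ → ℕ, (∀ i < m, σ i ∈ S) ∧
        (∀ i < m, ∀ j < m, σ i = σ j → i = j) ∧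
        ∀ u ∈ Q, ∀ i < m, ∀ j < m, ¬ Fu G e u (σ i) → ¬ Fu G e u (σ j) → i = j

/-- **PA.** Part A.  (The hypotheses are the conclusions of `S_A1`, `S_Di`, `S_Lo1`, `S_Hi`.)

Proof. `L` from Di for `m`.  For `b : ℕ`: `M_H b` from Hi for `n'`, `L + b`; `M_L b` from Lo1 for `M_H b`, `L + b`; `g b` from Di for
`M := M_L b`.  For `b₁`: `N₂ b₁` from A1 for `f b = g (b₁ + b)`; `N` from A1 for `f = N₂`.  A1 for `S = range N`, `r = false`: `S₁, b₁, W₁`; A1 for
`S₁`, `r = true`: `S₂, b₂, W₂`, `g (b₁ + b₂) ≤ |S₂|`; `b = b₁ + b₂`, `W = W₁ ∪ W₂`.  Di for `S₂`: a ladder, or `S₃ ⊆ S₂`, `M_L b ≤ |S₃|`.  Every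
`v ∉ W` is half (not anticomplete, not complete) on at most `b` letters of `S₃`; so it touches fewer than `L + b` letters of `S₃` (if it is
complete to fewer than `L`), or it is not complete to fewer than `L + b` of them.  Lo1 for `S₃` and the set `Q₁` of the `v` of the first kind:
`σ`; `S₄ = {σ i | i < M_H b}`; Hi for `S₄` and the set `Q₂` of the `v ∉ W` of the second kind: `σ'`.  `Rg G n' (e ∘ σ') W`: `lt`: `Lt.comp`; `half`:
`w ∈ W₁` is half on the side `false` on all letters of `S₁`, `w ∈ W₂` on the side `true` on all letters of `S₂`; `out`: `v ∈ Q₁`: `Lw`; `v ∈ Q₂`: `Fm`. -/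
def S_PA : Prop :=
  -- the conclusion of `S_A1`
  (∀ f : ℕ → ℕ, ∃ N : ℕ, ∀ (V : Type) [Finite V] (G : SimpleGraph V)
    (n : ℕ) (e : Bool → ℕ → V) (S : Finset ℕ) (r : Bool), Lt G n e → FH G → (∀ i ∈ S, i < n) →
    N ≤ S.card → ∃ S' ⊆ S, ∃ (b : ℕ) (W : Set V), f b ≤ S'.card ∧ W.ncard ≤ 1 ∧
      (∀ w ∈ W, ∀ i ∈ S', Ha G e w r i) ∧ ∀ v, v ∉ W → {i | i ∈ S' ∧ Ha G e v r i}.ncard ≤ b) →
  -- the conclusion of `S_Di`
  (∀ m : ℕ, ∃ L : ℕ, ∀ M : ℕ, ∃ N : ℕ, ∀ (V : Type)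
    (G : SimpleGraph V) (n : ℕ) (e : Bool → ℕ → V) (S : Finset ℕ), Lt G n e → FH G →
    (∀ i ∈ S, i < n) → N ≤ S.card →
    (∃ (v : ℕ → V) (σ : ℕ → ℕ), (∀ i < m, σ i ∈ S) ∧ (∀ i < m, ∀ j < m, σ i = σ j → i = j) ∧
      CH.Ch G m v (fun s i => e s (σ i))) ∨
    ∃ S' ⊆ S, M ≤ S'.card ∧ ∀ v, {i | i ∈ S' ∧ ¬ Tc G e v i}.ncard < L ∨
      {i | i ∈ S' ∧ Fu G e v i}.ncard < L) →
  -- the conclusion of `S_Lo1`
  (∀ m L : ℕ, ∃ M : ℕ, ∀ (V : Type)
    (G : SimpleGraph V) (n : ℕ) (e : Bool → ℕ → V) (S : Finset ℕ) (Q : Set V), Lt G n e →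
    (∀ i ∈ S, i < n) → M ≤ S.card → FH G →
      (∀ u ∈ Q, {i | i ∈ S ∧ Tc G e u i}.ncard < L) → ∃ σ : ℕ → ℕ, (∀ i < m, σ i ∈ S) ∧
        (∀ i < m, ∀ j < m, σ i = σ j → i = j) ∧
        ∀ u ∈ Q, ∀ i < m, ∀ j < m, Tc G e u (σ i) → Tc G e u (σ j) → i = j) →
  -- the conclusion of `S_Hi`
  (∀ m L : ℕ, ∃ M : ℕ, ∀ (V : Type)
    (G : SimpleGraph V) (n : ℕ) (e : Bool → ℕ → V) (S : Finset ℕ) (Q : Set V), Lt G n e →
    (∀ i ∈ S, i < n) → M ≤ S.card → FH G →
      (∀ u ∈ Q, {i | i ∈ S ∧ ¬ Fu G e u i}.ncard < L) → ∃ σ : ℕ → ℕ, (∀ i < m, σ i ∈ S) ∧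
        (∀ i < m, ∀ j < m, σ i = σ j → i = j) ∧
        ∀ u ∈ Q, ∀ i < m, ∀ j < m, ¬ Fu G e u (σ i) → ¬ Fu G e u (σ j) → i = j) →
  ∀ m n' : ℕ, ∃ N : ℕ, ∀ (V : Type) [Finite V] (G : SimpleGraph V) (e : Bool → ℕ → V), FH G →
    Lt G N e →
    (∃ (v : ℕ → V) (σ : ℕ → ℕ), (∀ i < m, σ i < N) ∧ (∀ i < m, ∀ j < m, σ i = σ j → i = j) ∧
      CH.Ch G m v (fun s i => e s (σ i))) ∨
    ∃ (σ : ℕ → ℕ) (W : Set V), (∀ i < n', σ i < N) ∧ (∀ i < n', ∀ j < n', σ i = σ j → i = j) ∧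
      Rg G n' (fun s i => e s (σ i)) W

end Pool.Agent.MPd439b2.H1R
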