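import Pool.Agent.Lib.MP_d439b2_co.X3.H1R.Base
import Pool.Agent.Lib.MP_d439b2_co.W.SpecM

/-!
# MP_d439b2_co, X3/H1R, part C: separated letters (cells) are impossible (`K3:0,1,02`, note 2977 of helper94)

CELLS (`CP`): letters `e`, disjoint connected sets `K i` (`K i` contains the letter `i`) without edges between them, a
set `Q`, and every vertex outside `Q` and the cells is anticomplete to all cells or `Fm` (complete to all letters
except for at most one).  First step (`S_Ca`, .., `S_Ci`): a subfamily with the structure `CA`: every cell `K i` has a vertex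
`f i`, complete to the other cells and mixed on `K i` (`f i ~ a i`, `f i ≁ b i`, `a i ~ b i` in `K i`), and every vertex outside
`Q` and the cells is anticomplete to all cells or complete to all cells except for at most one.  Second step
(`S_Da`, .., `S_Dw`): the structure `CE`.  Third step (`S_Ga`, ..): `CE` has a cut of small rank (`J_t` is not an induced minor).

Every `S_...` is a statement to be proved in its own file; the docstring contains the complete proof; the used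
statements are hypotheses of the theorem, in the order given in `(Uses ...)`.  The theorem for `S_X` is called `rX` and
is in the file `X3/H1R/X.lean` (namespace `Pool.Agent.MPd439b2.H1R`).  `x ~ y` means `G.Adj x y`.

MODELS.  `[b₀ | b₁ | b₂ ; b₃ , b₄ , b₅]` are the bags of a model of `K3:0,1,02`: `b₀, b₁, b₂` touch pairwise, `b₃` touches only
`b₀`, `b₄` only `b₁`, `b₅` only `b₀` and `b₂` (`H1T.mdl`, or the engines `engS`, `engV` of `H1R/Base.lean`).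
-/

set_option autoImplicit false

namespace Pool.Agent.MPd439b2.H1R

open Pool.Agent.MPd439b2
open Pool.Agent.MPd439b2.Rep
open Pool.Agent.MPd439b2.NK
open Pool.Agent.MPd439b2.H1T

/-! ### definitions -/

/-- `v` is complete to `A` -/
def Cpl {V : Type} (G : SimpleGraph V) (v : V) (A : Set V) : Prop := ∀ x ∈ A, G.Adj v x

/-- `v` is anticomplete to `A` -/
def Nul {V : Type} (G : SimpleGraph V) (v : V) (A : Set V) : Prop := ∀ x ∈ A, ¬ G.Adj v x

/-- `v` is mixed on `A` -/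
def Mxd {V : Type} (G : SimpleGraph V) (v : V) (A : Set V) : Prop := ¬ Cpl G v A ∧ ¬ Nul G v A

/-- **Cells** -/
structure CP {V : Type} (G : SimpleGraph V) (n : ℕ) (e : Bool → ℕ → V) (K : ℕ → Set V)
    (Q : Set V) : Prop where
  lt : Lt G n e
  sub : ∀ i < n, Pr e i ⊆ K i
  con : ∀ i < n, Conn G (K i)
  ant : ∀ i < n, ∀ j < n, i ≠ j → ∀ x ∈ K i, ∀ y ∈ K j, x ≠ y ∧ ¬ G.Adj x y
  kq : ∀ i < n, Disjoint (K i) Q
  out : ∀ v, v ∉ Q → (∀ i < n, v ∉ K i) → (∀ i < n, Nul G v (K i)) ∨ Fm G n e v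

/-- the vertices `Fm` outside `Q` and the cells -/
def FF {V : Type} (G : SimpleGraph V) (n : ℕ) (e : Bool → ℕ → V) (K : ℕ → Set V) (Q : Set V)
    (v : V) : Prop := v ∉ Q ∧ (∀ i < n, v ∉ K i) ∧ Fm G n e v

/-- **Cells with private vertices** -/
structure CA {V : Type} (G : SimpleGraph V) (n : ℕ) (K : ℕ → Set V) (Q : Set V) (a b f : ℕ → V) :
    Prop where
  con : ∀ i < n, Conn G (K i)
  ant : ∀ i < n, ∀ j < n, i ≠ j → ∀ x ∈ K i, ∀ y ∈ K j, x ≠ y ∧ ¬ G.Adj x y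
  kq : ∀ i < n, Disjoint (K i) Q
  ed : ∀ i < n, a i ∈ K i ∧ b i ∈ K i ∧ G.Adj (a i) (b i) ∧ G.Adj (f i) (a i) ∧ ¬ G.Adj (f i) (b i)
  fo : ∀ i < n, f i ∉ Q ∧ ∀ j < n, f i ∉ K j
  fc : ∀ i < n, ∀ j < n, i ≠ j → Cpl G (f i) (K j)
  out : ∀ v, v ∉ Q → (∀ i < n, v ∉ K i) → (∀ i < n, Nul G v (K i)) ∨
    ∀ i < n, ∀ j < n, i ≠ j → Cpl G v (K i) ∨ Cpl G v (K j)

/-- the vertices outside which are anticomplete to all cells -/
def Re {V : Type} (G : SimpleGraph V) (n : ℕ) (K : ℕ → Set V) (Q : Set V) (v : V) : Prop :=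
  v ∉ Q ∧ (∀ i < n, v ∉ K i) ∧ ∀ i < n, Nul G v (K i)

/-- the vertices outside which are complete to all cells except for at most one -/
def Fe {V : Type} (G : SimpleGraph V) (n : ℕ) (K : ℕ → Set V) (Q : Set V) (v : V) : Prop :=
  v ∉ Q ∧ (∀ i < n, v ∉ K i) ∧ ∀ i < n, ∀ j < n, i ≠ j → Cpl G v (K i) ∨ Cpl G v (K j)

/-- the set `α i`: vertices `Fe` which are mixed on `K i` -/
def Al {V : Type} (G : SimpleGraph V) (n : ℕ) (K : ℕ → Set V) (Q : Set V) (i : ℕ) (v : V) : Prop :=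
  Fe G n K Q v ∧ Mxd G v (K i)

/-- the set `ν i`: vertices `Fe` which are anticomplete to `K i` -/
def Nl {V : Type} (G : SimpleGraph V) (n : ℕ) (K : ℕ → Set V) (Q : Set V) (i : ℕ) (v : V) : Prop :=
  Fe G n K Q v ∧ Nul G v (K i)

/-- `Re`, complete to all the sets `α i` -/
def R1 {V : Type} (G : SimpleGraph V) (n : ℕ) (K : ℕ → Set V) (Q : Set V) (r : V) : Prop :=
  Re G n K Q r ∧ ∀ i < n, ∀ u, Al G n K Q i u → G.Adj r u

/-- `Re`, anticomplete to all the sets `α i` -/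
def R0 {V : Type} (G : SimpleGraph V) (n : ℕ) (K : ℕ → Set V) (Q : Set V) (r : V) : Prop :=
  Re G n K Q r ∧ ∀ i < n, ∀ u, Al G n K Q i u → ¬ G.Adj r u

/-- the vertices `R1` which are not complete to `ν i` -/
def Om {V : Type} (G : SimpleGraph V) (n : ℕ) (K : ℕ → Set V) (Q : Set V) (i : ℕ) (r : V) : Prop :=
  R1 G n K Q r ∧ ∃ g, Nl G n K Q i g ∧ ¬ G.Adj r g

/-- the set `W i` -/
def Wi {V : Type} (G : SimpleGraph V) (n : ℕ) (K : ℕ → Set V) (Q : Set V) (i : ℕ) : Set V :=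
  K i ∪ {r | Om G n K Q i r}

/-- the set `E i`: the vertices `Fe` which are not complete to `W i` -/
def Ei {V : Type} (G : SimpleGraph V) (n : ℕ) (K : ℕ → Set V) (Q : Set V) (i : ℕ) : Set V :=
  {u | Fe G n K Q u ∧ ¬ Cpl G u (Wi G n K Q i)}

/-- **The final structure**: `E i` is complete to `W j` (`j ≠ i`), the sets `W i` are pairwise anticomplete; the other
vertices outside `Q` are complete to all `W i`, or anticomplete to all `W i` and constant on the union of the `E i`. -/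
structure CE {V : Type} (G : SimpleGraph V) (n : ℕ) (W E : ℕ → Set V) (Q : Set V) : Prop where
  wn : ∀ i < n, (W i).Nonempty
  en : ∀ i < n, (E i).Nonempty
  ew : ∀ i < n, ∀ u ∈ E i, ∃ w ∈ W i, ¬ G.Adj u w
  we : ∀ i < n, ∀ u ∈ E i, u ∉ W i
  ww : ∀ i < n, ∀ j < n, i ≠ j → ∀ x ∈ W i, ∀ y ∈ W j, x ≠ y ∧ ¬ G.Adj x y
  ec : ∀ i < n, ∀ j < n, i ≠ j → ∀ u ∈ E i, ∀ w ∈ W j, G.Adj u w
  out : ∀ v, v ∉ Q → (∀ i < n, v ∉ W i ∧ v ∉ E i) → (∀ i < n, ∀ w ∈ W i, G.Adj v w) ∨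
    ((∀ i < n, ∀ w ∈ W i, ¬ G.Adj v w) ∧
      ((∀ i < n, ∀ u ∈ E i, G.Adj v u) ∨ ∀ i < n, ∀ u ∈ E i, ¬ G.Adj v u))

/-! ### 1. two vertices on one cell -/

/-- type S: an edge of `K`, one end seen by both, the other one missed by both -/
def TS {V : Type} (G : SimpleGraph V) (f h : V) (K : Set V) : Prop :=
  ∃ c ∈ K, ∃ z ∈ K, G.Adj c z ∧ G.Adj f c ∧ G.Adj h c ∧ ¬ G.Adj f z ∧ ¬ G.Adj h z

/-- type O: an edge `c z`, `c` seen by both, `z` seen by `f` only, and a vertex seen by `h` only -/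
def TO {V : Type} (G : SimpleGraph V) (f h : V) (K : Set V) : Prop :=
  ∃ c ∈ K, ∃ z ∈ K, ∃ y ∈ K, G.Adj c z ∧ G.Adj f c ∧ G.Adj h c ∧ G.Adj f z ∧ ¬ G.Adj h z ∧
    ¬ G.Adj f y ∧ G.Adj h y

/-- type P: `c` seen by both, `y` missed by both, `c ≁ y`, a connected set `Z` seen by `f` only which touches both -/
def TP' {V : Type} (G : SimpleGraph V) (f h : V) (K : Set V) : Prop :=
  ∃ c ∈ K, ∃ Z ⊆ K, ∃ y ∈ K, Conn G Z ∧ (∃ z ∈ Z, G.Adj c z) ∧ (∃ z ∈ Z, G.Adj y z) ∧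
    ¬ G.Adj c y ∧ G.Adj f c ∧ G.Adj h c ∧ ¬ G.Adj f y ∧ ¬ G.Adj h y ∧
    ∀ z ∈ Z, G.Adj f z ∧ ¬ G.Adj h z

/-- **Ct.** The types.

Proof. `x₀ ∈ K` is seen by both.  `C = {x ∈ K | f ~ x ∧ h ~ x}`, `c` = the component of `x₀` in `C` (`exists_comp`); `c ≠ K`, so
(`Conn`) there are `x ∈ c`, `z ∈ K \ c`, `x ~ z`; `z ∉ C`.  If `z` is missed by both: type S.  Let `z` be seen by exactly one of
them, by symmetry by `f` (the conclusion is symmetric).  `D` = the component of `x₀` in `{x ∈ K | f ~ x}`; it contains `c` and `z`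
(`exists_comp`: `c ∪ {z}` is connected).  `D ≠ K` since `f` is not complete to `K`: there are `v ∈ D`, `y ∈ K \ D`, `v ~ y`, and `f ≁ y`.
If `h ~ y`: type O (`c := x`, `z`, `y`).  Let `h ≁ y`.  If `h ~ v`: type S with the edge `v y`.  Let `h ≁ v`.  `Z` = the component of `v`
in `{x ∈ K | f ~ x ∧ ¬ h ~ x}`; `Z ⊆ D` (`D` is a component of a larger set), `Z ≠ D` (`x₀ ∈ D`): there are `z' ∈ Z`, `c' ∈ D \ Z`,
`z' ~ c'`; `f ~ c'`, and `h ~ c'` (otherwise `c' ∈ Z`).  If `c' ~ y`: type S; otherwise type P with `c'`, `Z`, `y`. -/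
def S_Ct : Prop := ∀ (V : Type) (G : SimpleGraph V) (f h : V) (K : Set V), Conn G K →
  f ∉ K → h ∉ K → (∃ x ∈ K, G.Adj f x ∧ G.Adj h x) → ¬ Cpl G f K → ¬ Cpl G h K →
    TS G f h K ∨ TO G f h K ∨ TP' G f h K ∨ TO G h f K ∨ TP' G h f K

/-- **Cs.** Three cells of the same type.

Proof. Cells `K 0, K 1, K 2`, `c_i, z_i, y_i` the vertices of the definitions.  TS: `[f, c₀ | c₁ | h ; z₀, z₁, c₂]`.  TO:
`[f, c₀ | h | c₁ ; z₀, y₂, z₁]`.  TP': `[f, c₁ | Z₀ | c₀ ; Z₁, y₀, h]`; here `h` touches `c₁` and `c₀`, not `Z₀`. -/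
def S_Cs : Prop := ∀ (V : Type) (G : SimpleGraph V) (f h : V) (K : ℕ → Set V), FH G → f ≠ h →
  (∀ i < 3, ∀ j < 3, i ≠ j → ∀ x ∈ K i, ∀ y ∈ K j, x ≠ y ∧ ¬ G.Adj x y) →
  (∀ i < 3, f ∉ K i ∧ h ∉ K i) →
    ¬ (∀ i < 3, TS G f h (K i)) ∧ ¬ (∀ i < 3, TO G f h (K i)) ∧ ¬ ∀ i < 3, TP' G f h (K i)

/-- **Ca.** Two vertices are not both incomplete to eleven cells on which they have a common neighbour.  (Uses `S_Ct`,
`S_Cs`.)

Proof. Every `i ∈ I` has one of the five types of Ct; `11 > 5 * 2`, so three different `i ∈ I` have the same type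
(`Finset.exists_lt_card_fiber_of_mul_lt_card_of_maps_to`); Cs (for `TO G h f`, `TP' G h f` with `f`, `h` exchanged). -/
def S_Ca : Prop := S_Ct → S_Cs → ∀ (V : Type) (G : SimpleGraph V) (n : ℕ) (K : ℕ → Set V) (f h : V)
  (I : Finset ℕ), FH G → f ≠ h → (∀ i < n, Conn G (K i)) →
    (∀ i < n, ∀ j < n, i ≠ j → ∀ x ∈ K i, ∀ y ∈ K j, x ≠ y ∧ ¬ G.Adj x y) →
    (∀ i < n, f ∉ K i ∧ h ∉ K i) → (∀ i ∈ I, i < n) →
    (∀ i ∈ I, (∃ x ∈ K i, G.Adj f x ∧ G.Adj h x) ∧ ¬ Cpl G f (K i) ∧ ¬ Cpl G h (K i)) →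
      I.card ≤ 10

/-- **Cb.** `f` mixed on two cells, `h` complete to them.

Proof. Suppose `¬ Cpl h L`, `¬ Nul f L`.  `f` is mixed on the connected set `K₀`: there is an edge `s₀ t₀` in `K₀` with `f ~ s₀`, `f ≁ t₀`
(`Conn` for `{x ∈ K₀ | f ~ x}`); the same for `K₁`.  CASE 1: some `x ∈ L` has `f ~ x`, `h ≁ x`: model
`[h, s₁ | f | s₀ ; t₁, x, t₀]`.  CASE 2: `h` sees every neighbour of `f` in `L`; let `x₀ ∈ L`, `f ~ x₀`, so `h ~ x₀`; `S` = the component of `x₀` in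
`{x ∈ L | h ~ x}`, `S ≠ L`: there are `x ∈ S`, `y ∈ L \ S`, `x ~ y`, and `h ≁ y`, so `f ≁ y`.  Model
`[h, s₀ | S | f ; t₀, y, s₁]`. -/
def S_Cb : Prop := ∀ (V : Type) (G : SimpleGraph V) (f h : V) (K₀ K₁ L : Set V), FH G →
  Conn G K₀ → Conn G K₁ → Conn G L →
  (∀ x ∈ K₀, ∀ y ∈ K₁, x ≠ y ∧ ¬ G.Adj x y) → (∀ x ∈ K₀, ∀ y ∈ L, x ≠ y ∧ ¬ G.Adj x y) →
  (∀ x ∈ K₁, ∀ y ∈ L, x ≠ y ∧ ¬ G.Adj x y) → f ∉ K₀ → f ∉ K₁ → f ∉ L → h ∉ K₀ → h ∉ K₁ →
  h ∉ L → Mxd G f K₀ → Mxd G f K₁ → Cpl G h K₀ → Cpl G h K₁ → Cpl G h L ∨ Nul G f L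

/-! ### 2. the subfamily `CA` -/

/-- **Cd.** A vertex `FF` is mixed on few cells.  (Uses `S_Ct`, `S_Cs`, `S_Ca`, `S_Cb`.)

Proof. Suppose that `f` is `FF` and mixed on the cells of `I ⊆ range n`, `|I| = B`, `14 ≤ B`, `a ≤ B`, `2 B ≤ n`.  CLAIM: every `h ≠ f` which
is `FF` is complete to all `K i`, `i ∈ I`.  `I'` = the `i ∈ I` with `Fu f i`, `Fu h i`: at least `B - 2 ≥ 12` elements.  By Ca
(`e false i` is a common neighbour) at most 10 of the `i ∈ I'` have `¬ Cpl h (K i)` (`f` is not complete to them); so `h` is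
complete to `K i`, `K j` for some `i ≠ j` in `I'`; for `l ∈ I`, `l ≠ i, j`: Cb with `K₀ = K i`, `K₁ = K j`, `L = K l`: `Cpl h (K l)`, as `f` is mixed
on `K l`.  So `X` = the union of the `K i`, `i ∈ I`, has `cr G X ≤ q + 2`: `Xᶜ` is the union of `Q`, `{f}`, and vertices which are
anticomplete or complete to `X`: (other cells, `CP.out`), `rk_union_right`, `rk_card_right`, `rk_col`.  `Link` with `c = q + 2`: but `X`
contains `a` cells, and `Xᶜ` contains the at least `n - B ≥ a` other cells: hypothesis `hm`. -/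
def S_Cd : Prop := S_Ct → S_Cs → S_Ca → S_Cb → ∀ (V : Type) [Finite V] (G : SimpleGraph V)
  (n : ℕ) (e : Bool → ℕ → V) (K : ℕ → Set V) (Q : Set V) (β : ℕ → ℕ) (c₀ q a B : ℕ), FH G →
    CP G n e K Q → Link β c₀ G → Q.ncard ≤ q → q + 2 ≤ c₀ → 14 ≤ B → a ≤ B → 2 * B ≤ n →
    (∀ I : Finset ℕ, (∀ i ∈ I, i < n) → a ≤ I.card → β (q + 2) < (⋃ i ∈ I, K i).ncard) →
    ∀ f, FF G n e K Q f → ∀ I : Finset ℕ, (∀ i ∈ I, i < n ∧ Mxd G f (K i)) → I.card < B

/-- **Ce1.** Cells on which no vertex `FF` is mixed: large cells.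

Proof. Let `i < n` and suppose that no vertex `FF` is mixed on `K i`.  `cr G (K i) ≤ q + 1`: `(K i)ᶜ` is the union of `Q` and of
vertices which are complete or anticomplete to `K i` (`CP.ant`, `CP.out`): `rk_union_right`, `rk_card_right`, `rk_col`.  `Link` with
`c = q + 1` and the hypotheses (`(K i)ᶜ ⊇ K j`, `j ≠ i`). -/
def S_Ce1 : Prop := ∀ (V : Type) [Finite V] (G : SimpleGraph V) (n : ℕ) (e : Bool → ℕ → V)
  (K : ℕ → Set V) (Q : Set V) (β : ℕ → ℕ) (c₀ q : ℕ), CP G n e K Q → Link β c₀ G →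
    Q.ncard ≤ q → q + 1 ≤ c₀ → 2 ≤ n → (∀ i < n, β (q + 1) < (K i).ncard) →
    ∀ i < n, ∃ f, FF G n e K Q f ∧ Mxd G f (K i)

/-- **Ce2.** Cells on which no vertex `FF` is mixed: many cells.  (Uses `S_Cb`.)

Proof. Let `I` be the set of the `i < n` such that no vertex `FF` is mixed on `K i`, and suppose `q * B < |I|`, `3 ≤ B`.  For `i ∈ I`:
`K i` has at least two elements (the letter), its complement as well (`K j`); `Pm`: there is `v i ∉ K i` mixed on `K i`; by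
`CP.ant`, `CP.out` it is in `Q` (`FF` is excluded by `i ∈ I`, the others are anticomplete).  Pigeonhole (`Q` is finite, `|Q| ≤ q`):
`w ∈ Q` and `I' ⊆ I`, `|I'| = B`, with `v i = w` for `i ∈ I'`.  CLAIM: every vertex `h` which is `FF` is complete to `K i`, `i ∈ I'`.  It is complete
or anticomplete to each of them (`i ∈ I`), and anticomplete to at most one (`Fm`).  If it is anticomplete to `K l`: let `i ≠ j` be two
others; Cb with `f := w`, `h`, `K i`, `K j`, `L = K l`: `Cpl h (K l)` or `Nul w (K l)`: contradiction (`K l` is not empty; `w` is mixed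
on it).  So `X` = the union of the `K i`, `i ∈ I'`, has `cr G X ≤ q + 1` (as in Cd), and `Link` gives a contradiction with `hm`
(`X` has `B ≥ a` cells, the complement at least `n - B ≥ a`). -/
def S_Ce2 : Prop := S_Cb → ∀ (V : Type) [Finite V] (G : SimpleGraph V) (n : ℕ)
  (e : Bool → ℕ → V) (K : ℕ → Set V) (Q : Set V) (β : ℕ → ℕ) (c₀ q a B : ℕ), FH G → Pm G →
    CP G n e K Q → Link β c₀ G → Q.ncard ≤ q → q + 1 ≤ c₀ → 3 ≤ B → a ≤ B → 2 * B ≤ n →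
    (∀ I : Finset ℕ, (∀ i ∈ I, i < n) → a ≤ I.card → β (q + 1) < (⋃ i ∈ I, K i).ncard) →
    ∀ I : Finset ℕ, (∀ i ∈ I, i < n ∧ ¬ ∃ f, FF G n e K Q f ∧ Mxd G f (K i)) → I.card ≤ q * B

/-- **Cf.** An independent family of private vertices.  (Uses `W.S_Dig`.)

Proof. For `i ∈ I` choose `f i`, `FF`, mixed on `K i`.  `R i j := ¬ Cpl G (f i) (K j)`: for every `i` fewer than `B` indices `j` such that
`f i` is mixed on `K j` (hypothesis), and at most one `j` with `Nul (f i) (K j)` (`Fm`; the letter is in `K j`): at most `B` indices.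
`W.S_Dig` with `τ = B`. -/
def S_Cf : Prop := W.S_Dig → ∀ (V : Type) (G : SimpleGraph V) (n : ℕ)
  (e : Bool → ℕ → V) (K : ℕ → Set V) (Q : Set V) (B m : ℕ) (I : Finset ℕ), CP G n e K Q →
    (∀ f, FF G n e K Q f → ∀ I : Finset ℕ, (∀ i ∈ I, i < n ∧ Mxd G f (K i)) → I.card < B) →
    (∀ i ∈ I, i < n ∧ ∃ f, FF G n e K Q f ∧ Mxd G f (K i)) → (2 * B + 1) * m ≤ I.card →
    ∃ (J : Finset ℕ) (f : ℕ → V), J ⊆ I ∧ J.card = m ∧
      (∀ i ∈ J, FF G n e K Q (f i) ∧ Mxd G (f i) (K i)) ∧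
      ∀ i ∈ J, ∀ j ∈ J, i ≠ j → Cpl G (f i) (K j)

/-- **Cg.** The vertices `FF` are complete to all cells of the subfamily except for at most one.  (Uses `S_Cb`.)

Proof. Let `u` be `FF`.  (1) `u` is mixed on at most one `K i`, `i ∈ J`: suppose it is mixed on `K i`, `K j`.  Let `l ∈ J` be another
index (there are at least three).  `f l` is complete to `K i`, `K j`, so `f l ≠ u` and by Cb (`f := u`, `h := f l`, `L = K l`)
`Cpl (f l) (K l)` or `Nul u (K l)`; the first is false, so `Nul u (K l)`.  This holds for two different `l`: against `Fm` (`K l` contains the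
letter `l`).  (2) If `u` is mixed on `K i` then it is not anticomplete to any `K j`, `j ∈ J`: suppose it is.  Let `l ∈ J`, `l ≠ i, j`.  `u` is
complete to `K l` ((1), `Fm`).  `s_i t_i` = an edge of `K i` with `u ~ s_i`, `u ≁ t_i`; `s_l t_l` = an edge of `K l` with `f l ~ s_l`, `f l ≁ t_l`
(`Conn`); `t_j ∈ K j`.  Model `[f_l | s_l, u | s_i ; t_j, t_l, t_i]`.  (`f l ≠ u`: `f l` is complete to `K i`.)  (3) `u` is anticomplete to at most
one `K j` by `Fm`. -/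
def S_Cg : Prop := S_Cb → ∀ (V : Type) (G : SimpleGraph V) (n : ℕ) (e : Bool → ℕ → V)
  (K : ℕ → Set V) (Q : Set V) (J : Finset ℕ) (f : ℕ → V), FH G → CP G n e K Q →
    (∀ i ∈ J, i < n) → 5 ≤ J.card →
    (∀ i ∈ J, FF G n e K Q (f i) ∧ Mxd G (f i) (K i)) →
    (∀ i ∈ J, ∀ j ∈ J, i ≠ j → Cpl G (f i) (K j)) →
    ∀ u, FF G n e K Q u → ∀ i ∈ J, ∀ j ∈ J, i ≠ j → Cpl G u (K i) ∨ Cpl G u (K j)

/-- **Ci.** The structure `CA`.

Proof. `σ` = an enumeration of `J` (`σ i`, `i < m`, the elements of `J`; e.g. `Finset.orderEmbOfFin`); `K' i = K (σ i)`, `f' i = f (σ i)`,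
`a i, b i` an edge of `K' i` with `f' i ~ a i`, `f' i ≁ b i` (`Conn` for `{x | f' i ~ x}`).  `out`: let `v ∉ Q`, `v ∉ K' i` for all `i < m`.  If
`v ∈ K j` for some `j < n`, `j ∉ J`: anticomplete to all `K' i` (`CP.ant`).  Otherwise `CP.out`: anticomplete, or `FF`. -/
def S_Ci : Prop := ∀ (V : Type) (G : SimpleGraph V) (n : ℕ) (e : Bool → ℕ → V)
  (K : ℕ → Set V) (Q : Set V) (J : Finset ℕ) (f : ℕ → V) (m : ℕ), CP G n e K Q →
    (∀ i ∈ J, i < n) → J.card = m →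
    (∀ i ∈ J, FF G n e K Q (f i) ∧ Mxd G (f i) (K i)) →
    (∀ i ∈ J, ∀ j ∈ J, i ≠ j → Cpl G (f i) (K j)) →
    (∀ u, FF G n e K Q u → ∀ i ∈ J, ∀ j ∈ J, i ≠ j → Cpl G u (K i) ∨ Cpl G u (K j)) →
    ∃ (σ : ℕ → ℕ) (a b : ℕ → V), (∀ i < m, σ i ∈ J) ∧ (∀ i < m, ∀ j < m, σ i = σ j → i = j) ∧
      CA G m (fun i => K (σ i)) Q a b (fun i => f (σ i))

/-! ### 3. the structure `CE`

In the models `s_i = a i`, `t_i = b i`, `f_i = f i`; for `u ∈ α i` an edge `s t` of `K i` with `u ~ s`, `u ≁ t` (`Conn`). -/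

/-- **Da.** A vertex `Re` is `R1` or `R0`.

Proof. CLAIM: `u ∈ α i`, `u' ∈ α j`, `i ≠ j`, `r ~ u` imply `r ~ u'`.  Suppose `r ≁ u'`; `s t` an edge of `K j` with `u' ~ s`, `u' ≁ t`; `t' ∈ K i` with
`u ≁ t'`; `l` a third index, `x ∈ K l` any element.  `u`, `u'` are complete to `K l`, `u` to `K j`, `u'` to `K i` (`Fe`, not complete to
`K i` resp. `K j`).  Model `[u, x | u' | s ; r, t', t]`.  Suppose that `r` is not `R0`: `r ~ u` for some `u ∈ α i`.  By the claim `r ~ u'` for all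
`u' ∈ α j`, `j ≠ i`, e.g. for `u' = f j`; by the claim again `r ~ u''` for all `u'' ∈ α i`. -/
def S_Da : Prop := ∀ (V : Type) (G : SimpleGraph V) (n : ℕ) (K : ℕ → Set V) (Q : Set V)
  (a b f : ℕ → V), FH G → CA G n K Q a b f → 3 ≤ n → ∀ r, Re G n K Q r →
    R1 G n K Q r ∨ R0 G n K Q r

/-- **Db.** `R0` is anticomplete to the sets `ν i`.

Proof. Suppose `x ~ g`, `g ∈ ν i`, `j ≠ l` two other indices.  Model `[t_j, g | f_l | s_l ; x, t_i, t_l]`.  (`g` is complete to `K j`, `K l`,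
anticomplete to `K i`; `f_l` is complete to `K i`, `K j`; `x ≁ f_l` because `f_l ∈ α l`.) -/
def S_Db : Prop := ∀ (V : Type) (G : SimpleGraph V) (n : ℕ) (K : ℕ → Set V) (Q : Set V)
  (a b f : ℕ → V), FH G → CA G n K Q a b f → 3 ≤ n → ∀ x, R0 G n K Q x →
    ∀ i < n, ∀ g, Nl G n K Q i g → ¬ G.Adj x g

/-- **Dc.** A vertex `R1` is incomplete to at most one `ν i`.

Proof. Suppose `r ≁ g`, `r ≁ g'`, `g ∈ ν i`, `g' ∈ ν j`, `i ≠ j`; `l` a third index.  Model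
`[f_i | s_l, g' | s_j, g ; r, t_i, t_j]`.  (`g' ~ s_l`, `g ~ s_j`, `s_l ~ g`; `g'` is complete to `K i`; `f_i ~ t_j`, `s_j ~ t_j`; `g ≁ t_i`, `f_i ≁ t_i`; `g'` is
anticomplete to `K j`.) -/
def S_Dc : Prop := ∀ (V : Type) (G : SimpleGraph V) (n : ℕ) (K : ℕ → Set V) (Q : Set V)
  (a b f : ℕ → V), FH G → CA G n K Q a b f → 3 ≤ n → ∀ r, R1 G n K Q r →
    ∀ i < n, ∀ j < n, i ≠ j → ∀ g g', Nl G n K Q i g → Nl G n K Q j g' → G.Adj r g ∨ G.Adj r g'

/-- **Dd.** No edges between `R0` and `R1`, and between `Om i` and the rest of `R1`.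

Proof. (1) Suppose `x ~ y`, `x` `R0`, `y` `R1`; `i ≠ j`.  Model `[f_j, y | f_i | s_i ; x, t_j, t_i]`.  (2) Let `r ∈ Om i` (missed by `g ∈ ν i`), `y` `R1`,
not in `Om i`, and suppose `y ~ r`; so `y ~ g`; `j ≠ i`.  Model `[f_j | s_j, g | y ; t_i, t_j, r]`. -/
def S_Dd : Prop := ∀ (V : Type) (G : SimpleGraph V) (n : ℕ) (K : ℕ → Set V) (Q : Set V)
  (a b f : ℕ → V), FH G → CA G n K Q a b f → 3 ≤ n →
    (∀ x, R0 G n K Q x → ∀ y, R1 G n K Q y → ¬ G.Adj x y) ∧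
    ∀ i < n, ∀ r, Om G n K Q i r → ∀ y, R1 G n K Q y → ¬ Om G n K Q i y → ¬ G.Adj y r

/-- **De.** The vertices which are complete to all cells.  (Uses `S_Dd`.)

Proof. (1) Let `u ≁ r`, `r` `R1`, and suppose `u ~ x`, `x` `R0`; `i ≠ j`.  Model `[u, s_j | f_i | s_i ; x, r, t_i]` (`x ≁ r` by Dd).  (2) Let
`r ∈ Om i`, missed by `g ∈ ν i`, `r'` `R1`, not in `Om i` (so `g ~ r'`), `u ≁ r`, and suppose `u ≁ r'`; `j ≠ l` two other indices.  Model
`[f_i, s_l | u, s_j | g ; r, t_i, r']` (`r ≁ r'` by Dd).  (`u ≠ g`: `u` is complete to `K i`; `u ≠ f_i`.) -/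
def S_De : Prop := S_Dd → ∀ (V : Type) (G : SimpleGraph V) (n : ℕ) (K : ℕ → Set V) (Q : Set V)
  (a b f : ℕ → V), FH G → CA G n K Q a b f → 3 ≤ n → ∀ u, Fe G n K Q u →
    (∀ i < n, Cpl G u (K i)) → ∀ r, R1 G n K Q r → ¬ G.Adj u r →
      (∀ x, R0 G n K Q x → ¬ G.Adj u x) ∧
      ∀ i < n, Om G n K Q i r → ∀ r', R1 G n K Q r' → ¬ Om G n K Q i r' → G.Adj u r'

/-- **Dw.** The structure `CE` with `W i = Wi`, `E i = Ei`.  (Uses `S_Da`, .., `S_De`.)

Proof. `wn`: `K i` is not empty.  `en`: `f i ∈ E i`.  `ew`: definition.  `we`: elements of `E i` are `Fe`, they are not in `K i`, and not `Re`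
(`n ≥ 3`; they are complete to some cell).  `ww`: `K i`, `K j`: `ant`; `K i` and `Om j`: `Re`; `Om i` and `Om j`, `i ≠ j`: disjoint by Dc; so
an element of `Om j` is `R1` and not in `Om i`: anticomplete by Dd.  CLAIM: if `u ∈ E i` and `j ≠ i` then `u` is complete to `W j`.  Suppose that
`u` is not complete to `W j` either.  If `u` is not complete to `K i`: it is complete to `K j` (`Fe`), so it misses some `r ∈ Om j`; by
connectivity `u` is mixed on `K i` (`Al`) or anticomplete to it (`Nl`); `Al`: `r ~ u` since `r` is `R1`; `Nl`: then `r ∈ Om i ∩ Om j`, against Dc.  The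
same if `u` is not complete to `K j`.  So `u` misses `r ∈ Om i` and `r' ∈ Om j` and is complete to `K i`, `K j`.  If it is not complete to some
`K l`: `Al l` is impossible (`r` is `R1`), `Nl l`: `r ∈ Om l`, `l ≠ i`: against Dc.  So it is complete to all cells, and De (2) for `r, i, r'`
(`r' ∉ Om i` by Dc) gives `u ~ r'`: contradiction.  This is `ec`.  `out`: let `v ∉ Q`, not in the `W i`, `E i`.  By `CA.out`
`Re v` or `Fe v`.  `Fe v`: complete to all `W i` as `v ∉ E i`: first alternative.  `Re v`: anticomplete to the cells; by Da `R1 v` or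
`R0 v`.  `R0 v`: anticomplete to the `Om i` by Dd (1); and to `E i`: let `u ∈ E i`: if `u` is `Al j` for some `j`: `R0`; if it is `Nl j`: Db;
otherwise it is complete to all cells and misses some `r ∈ Om i`: De (1).  `R1 v`, not in any `Om i`: anticomplete to the `Om i` by Dd (2); it
is complete to `E i`: let `u ∈ E i`: if `u` is `Al j` for some `j`: `R1`; if it is `Nl j`: otherwise `v ∈ Om j`; if it is complete to all cells it
misses some `r ∈ Om i`: De (2) with `r' = v`. -/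
def S_Dw : Prop := S_Da → S_Db → S_Dc → S_Dd → S_De → ∀ (V : Type) (G : SimpleGraph V) (n : ℕ)
  (K : ℕ → Set V) (Q : Set V) (a b f : ℕ → V), FH G → CA G n K Q a b f → 3 ≤ n →
    CE G n (fun i => Wi G n K Q i) (fun i => Ei G n K Q i) Q

/-! ### 4. the cut -/

/-- **Gr.** `CE` for a subfamily.

Proof. `out`: let `v ∉ Q` be outside the `W (σ i)`, `E (σ i)`, `i < m`.  If `v ∈ W j`, `j < n`: `j` is not one of the `σ i`, so by `ww`, `ec`
the second alternative (complete to all `E (σ i)`).  If `v ∈ E j`: `ec` for `v`: the first alternative.  Otherwise `CE.out`. -/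
def S_Gr : Prop := ∀ (V : Type) (G : SimpleGraph V) (n m : ℕ) (W E : ℕ → Set V) (Q : Set V)
  (σ : ℕ → ℕ), CE G n W E Q → (∀ i < m, σ i < n) → (∀ i < m, ∀ j < m, σ i = σ j → i = j) →
    CE G m (fun i => W (σ i)) (fun i => E (σ i)) Q

/-- **Gm.** Matchings and covers.

Proof. Induction on `t`.  `t = 0`: the first alternative.  Step: if the induction hypothesis gives `x, y` (`i < t`) and there is a pair
`(u, v)` with `R u v`, `u` different from the `x i`, `v` from the `y i`, `i < t`, `u ≠` ...: extend.  Otherwise `A = {x i | i < t}`,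
`B = {y i | i < t}`.  If it gives `A, B` with `|A|, |B| ≤ t` we are done. -/
def S_Gm : Prop := ∀ (α γ : Type) (R : α → γ → Prop) (t : ℕ),
  (∃ (x : ℕ → α) (y : ℕ → γ), (∀ i < t, R (x i) (y i)) ∧
    ∀ i < t, ∀ j < t, i ≠ j → x i ≠ x j ∧ y i ≠ y j) ∨
  ∃ (A : Finset α) (B : Finset γ), A.card ≤ t ∧ B.card ≤ t ∧ ∀ u v, R u v → u ∈ A ∨ v ∈ B

/-- **Gn.** Matchings and covers in a graph on the indices.

Proof. Induction on `t` as in Gm: a maximal family of disjoint pairs `(x i, y i)`, `R (x i) (y i)`, `x i, y i ∈ S`; the `2 t` indices of a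
maximal family with at most `t` pairs form `A`. -/
def S_Gn : Prop := ∀ (R : ℕ → ℕ → Prop) (S : Finset ℕ) (t : ℕ), (∀ i, ¬ R i i) →
  (∃ x y : ℕ → ℕ, (∀ i < t, R (x i) (y i) ∧ x i ∈ S ∧ y i ∈ S) ∧
    (∀ i < t, ∀ j < t, i ≠ j → x i ≠ x j ∧ y i ≠ y j) ∧ ∀ i < t, ∀ j < t, x i ≠ y j) ∨
  ∃ A : Finset ℕ, A.card ≤ 2 * t ∧ ∀ i ∈ S, ∀ j ∈ S, R i j → i ∈ A ∨ j ∈ A

/-- **Gj.** The first model of `J_t`.

Proof. Let `e_k ∈ E (x k)`, `e'_k ∈ E (y k)`, `e_k ≁ e'_k`, `w_k ∈ W (x k)` missed by `e_k`, `w'_k ∈ W (y k)` missed by `e'_k` (`ew`); `p ≠ p'` two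
further indices, `u ∈ E p`, `w ∈ W p` missed by `u`, `w' ∈ W p'`.  Bags of `J_t`: the `t` pairs of non-touching bags `{e_k, w'_k}`,
`{e'_k, w_k}`, and the three bags `{u}`, `{w}`, `{w'}`: `w` does not touch `u` and `w'`, `u ~ w'`.  (`ec`: `e_k` is complete to all
`W j`, `j ≠ x k`; `ww`.) -/
def S_Gj : Prop := ∀ (V : Type) (G : SimpleGraph V) (n t : ℕ) (W E : ℕ → Set V) (Q : Set V),
  CE G n W E Q → FJ t G → ∀ (x y : ℕ → ℕ) (p p' : ℕ), (∀ k < t, x k < n ∧ y k < n) →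
    (∀ i < t, ∀ j < t, i ≠ j → x i ≠ x j ∧ y i ≠ y j) → (∀ i < t, ∀ j < t, x i ≠ y j) →
    p < n → p' < n → p ≠ p' → (∀ k < t, p ≠ x k ∧ p ≠ y k ∧ p' ≠ x k ∧ p' ≠ y k) →
    ¬ ∀ k < t, ∃ u ∈ E (x k), ∃ v ∈ E (y k), ¬ G.Adj u v

/-- **Gk.** The second model of `J_t`.

Proof. `e_k ∈ E (x k)`, `e_k ≁ v k`, `w_k ∈ W (x k)` missed by `e_k`; `u ∈ E p`, `w ∈ W p` missed by `u`, `w' ∈ W p'`.  Bags: the pairs `{e_k}`,
`{v k, w_k}` and `{u}`, `{w}`, `{w'}`.  (`v k ~ w_k`; `e_k ~ e_l`, `e_k ~ u` by the hypothesis `hE`; `e_k ~ w_l` for `k ≠ l`; `v k ~ w_l`, `w`, `w'`; `w_k ~ u`.  The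
`v k` are different from each other and not in the `W j`, `E j`: hypothesis.) -/
def S_Gk : Prop := ∀ (V : Type) (G : SimpleGraph V) (n t : ℕ) (W E : ℕ → Set V) (Q : Set V),
  CE G n W E Q → FJ t G → (∀ i < n, ∀ j < n, i ≠ j → ∀ u ∈ E i, ∀ v ∈ E j, G.Adj u v) →
    ∀ (x : ℕ → ℕ) (v : ℕ → V) (p p' : ℕ), (∀ k < t, x k < n ∧ ∀ i < n, v k ∉ W i ∧ v k ∉ E i) →
    (∀ i < t, ∀ j < t, i ≠ j → x i ≠ x j ∧ v i ≠ v j) →
    (∀ k < t, ∀ i < n, ∀ w ∈ W i, G.Adj (v k) w) →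
    p < n → p' < n → p ≠ p' → (∀ k < t, p ≠ x k ∧ p' ≠ x k) →
    ¬ ∀ k < t, ∃ u ∈ E (x k), ¬ G.Adj u (v k)

/-- **Gx.** The cut.  (Uses `S_Gr`, `S_Gm`, `S_Gn`, `S_Gj`, `S_Gk`.)

Proof. (1) Gn for `R i j = (i ≠ j ∧ ∃ u ∈ E i, ∃ v ∈ E j, ¬ u ~ v)`, `S = range n`: the first alternative contradicts Gj (`n ≥ 2 t + 2`: two
further indices `p, p'`).  So there is `A`, `|A| ≤ 2 t`; `S₁ = range n \ A`, `|S₁| ≥ n - 2 t`; for `i ≠ j` in `S₁` `E i` is complete to `E j`.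
(2) Enumerate `S₁` by `σ`, `m₁ = |S₁|`: `CE G m₁ ..` (Gr); write `W, E` for the new sets.  (3) `F*` = the vertices outside `Q` and all `W i`,
`E i`, which are complete to all `W i`.  Gm for `α = ℕ`, `γ = V`, `R i v = (i < m₁ ∧ v ∈ F* ∧ ∃ u ∈ E i, ¬ u ~ v)`: the first alternative
contradicts Gk (`m₁ ≥ t + 2`).  So `A'` (`|A'| ≤ t` indices), `B'` (`|B'| ≤ t` vertices).  `S₂ = range m₁ \ A'`, at least `n - 3 t ≥ 2 a` elements;
`S₃ ⊆ S₂` with `a` elements.  `X` = the union of the `W i ∪ E i`, `i ∈ S₃`.  CLAIM `cr G X ≤ q + t + 2`: `Xᶜ ⊆ Q ∪ B' ∪ Y`, `Y = Xᶜ \ (Q ∪ B')`.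
`X = X_W ∪ X_E`.  `rk G X_W Y ≤ 1` by `rk_col`: a column `v ∈ Y` is in `W j` (`j ∉ S₃`): anticomplete to `X_W`; in `E j`, `j ∉ S₃`: complete; in
`F*`: complete; otherwise (second alternative of `out`) anticomplete.  `rk G X_E Y ≤ 1` by `rk_col`: `v ∈ W j`: complete; `v ∈ E j`:
complete (1); `v ∈ F*`, `v ∉ B'`: complete to `E i`, `i ∈ S₃`, as `i ∉ A'`; otherwise complete or anticomplete.  `rk_union`,
`rk_union_right`, `rk_card_right`.  `Link` with `c = q + t + 2`; `hm` for `S₃` and for a subset of `a` elements of `S₂ \ S₃`. -/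
def S_Gx : Prop := S_Gr → S_Gm → S_Gn → S_Gj → S_Gk → ∀ (V : Type) [Finite V]
  (G : SimpleGraph V) (n t a q c₀ : ℕ) (W E : ℕ → Set V) (Q : Set V) (β : ℕ → ℕ),
    CE G n W E Q → FJ t G → Link β c₀ G → Q.ncard ≤ q → q + t + 2 ≤ c₀ →
    (∀ I : Finset ℕ, (∀ i ∈ I, i < n) → a ≤ I.card → β (q + t + 2) < (⋃ i ∈ I, W i).ncard) →
      ¬ 3 * t + 2 * a + 2 ≤ n

/-- **CX.** Cells are impossible.  (Uses the statements of this file and the conclusions of `S_Dw`, `S_Gx`.)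

Proof. Let `m = 3 t + 2 a + 5`, `B = a + 14`.  In both cases we get `I ⊆ range n` such that for every `i ∈ I` some vertex `FF` is
mixed on `K i`, and `(2 B + 1) m ≤ |I|`: if `M < |K i|` for all `i`: Ce1 (`β (q + 1) ≤ M`) and `I = range n`; if
`n ≥ (2 B + 1) m + q B`: Ce2 (`β (q + 1) ≤ M`; at most `q B` of the `i < n` are bad) and `I` = the set of the other indices.  Cd
(`β (q + 2) ≤ M`) gives the hypothesis of Cf; Cf: `J`, `|J| = m`, `f`; Cg; Ci: `CA G m (K ∘ σ) Q a b f`; the conclusion of `S_Dw`: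
`CE G m (Wi ..) (Ei ..) Q` with `K (σ i) ⊆ Wi .. i`; the conclusion of `S_Gx` with `n := m`, `c₀ := q + t + 2`: for `I' ⊆ range m` with at least
`a` elements the union of the `Wi .. i`, `i ∈ I'`, contains the union of the `K j`, `j ∈ σ(I')` (`Finset.image`, `σ` injective), which has
more than `M ≥ β (q + t + 2)` elements. -/
def S_CX : Prop := W.S_Dig → S_Ct → S_Cs → S_Ca → S_Cb → S_Cd → S_Ce1 → S_Ce2 → S_Cf → S_Cg →
  S_Ci →
  -- the conclusion of `S_Dw`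
  (∀ (V : Type) (G : SimpleGraph V) (n : ℕ)
    (K : ℕ → Set V) (Q : Set V) (a b f : ℕ → V), FH G → CA G n K Q a b f → 3 ≤ n →
      CE G n (fun i => Wi G n K Q i) (fun i => Ei G n K Q i) Q) →
  -- the conclusion of `S_Gx`
  (∀ (V : Type) [Finite V]
    (G : SimpleGraph V) (n t a q c₀ : ℕ) (W E : ℕ → Set V) (Q : Set V) (β : ℕ → ℕ),
      CE G n W E Q → FJ t G → Link β c₀ G → Q.ncard ≤ q → q + t + 2 ≤ c₀ →
      (∀ I : Finset ℕ, (∀ i ∈ I, i < n) → a ≤ I.card → β (q + t + 2) < (⋃ i ∈ I, W i).ncard) →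
        ¬ 3 * t + 2 * a + 2 ≤ n) →
  ∀ (V : Type) [Finite V] (G : SimpleGraph V) (n t a q M : ℕ) (e : Bool → ℕ → V)
    (K : ℕ → Set V) (Q : Set V) (β : ℕ → ℕ), FH G → FJ t G → Pm G →
    Link β (q + t + 2) G → CP G n e K Q → Q.ncard ≤ q →
    β (q + 1) ≤ M → β (q + 2) ≤ M → β (q + t + 2) ≤ M →
    (∀ I : Finset ℕ, (∀ i ∈ I, i < n) → a ≤ I.card → M < (⋃ i ∈ I, K i).ncard) →
    (2 * (a + 14) + 1) * (3 * t + 2 * a + 5) ≤ n →
    ¬ ((∀ i < n, M < (K i).ncard) ∨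
      (2 * (a + 14) + 1) * (3 * t + 2 * a + 5) + q * (a + 14) ≤ n)

end Pool.Agent.MPd439b2.H1R
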