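import Pool.Agent.Lib.MP_d439b2_co.X3.H1R.Base
import Pool.Agent.Lib.MP_d439b2_co.W.SpecM

/-!
# MP_d439b2_co, X3/H1R, part Q: arms and clique models are impossible (`K3:0,1,02`, note 2976 of helper94, section 1)

`G` is `FH`, linked, without homogeneous sets (`Pm`), the letters `e` are in REG position (`Rg G k e W`).

ARMS (`Ar`): a clique `q 0, .., q (k - 1)`; `E i` is empty or connected, `E i` touches `q i` and the letter `i`; if `E i` is
not empty then `q i` does not touch the letter `i`.  There are no other edges between different arms.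
`Yi e E i = E i ∪ (letter i)`; `At .. v i`: `v` touches the arm `i`, i.e. `q i` or `Yi e E i`; `Ou`: the vertices outside the
arms (and outside `W`) which touch at most one letter; `Lo`: those of them which touch at most one arm; `Tp`: those which
are complete to the `q i` and anticomplete to the `Yi e E i`; `Zi .. i`: `Yi e E i` and the connected sets of vertices
`Lo` which touch the arm `i`.  RESULT (`S_Qx`): `k < 2 β(4) + 10`.

CLIQUE MODELS (`Cm`): connected, disjoint, pairwise touching sets `T i`, `T i` touches the letter `i` and no other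
letter.  `Cp`: the same, but `T i` contains the letter `i`.  RESULT (`S_Ma`, `S_Ce`): they give arms.

Every `S_...` is a statement to be proved in its own file; the docstring contains the complete proof; the used
statements are hypotheses of the theorem, in the order given in `(Uses ...)`.  The theorem for `S_X` is called `rX` and
is in the file `X3/H1R/X.lean` (namespace `Pool.Agent.MPd439b2.H1R`).  `x ~ y` means `G.Adj x y`.

MODELS.  `[b₀ | b₁ | b₂ ; b₃ , b₄ , b₅]` are the bags of a model of `K3:0,1,02`: `b₀, b₁, b₂` touch pairwise, `b₃` touches only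
`b₀`, `b₄` only `b₁`, `b₅` only `b₀` and `b₂` (`H1T.mdl`, or the engines `engS`, `engV` of `H1R/Base.lean`).
`P_i` = the letter `i` (`Pr e i`).  Toolkit: `Basic.lean` (`Conn`, `Tch`, `exists_comp`, `Conn.union`, `Conn.insert`,
`Conn.union_iUnion`), `RG/Arm.lean` (`RG.gArm`: in a connected set `C`, `c ≠ s` in `C`, there is a connected set in `C`
which contains `s`, avoids `c` and touches `c`), `NK/Base.lean` (`Lt.*`), `Rep/Cut.lean` (ranks).
-/

set_option autoImplicit false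

namespace Pool.Agent.MPd439b2.H1R

open Pool.Agent.MPd439b2
open Pool.Agent.MPd439b2.Rep
open Pool.Agent.MPd439b2.NK
open Pool.Agent.MPd439b2.H1T

/-! ### definitions -/

/-- **Arms**: see the head of the file -/
structure Ar {V : Type} (G : SimpleGraph V) (k : ℕ) (e : Bool → ℕ → V) (W : Set V) (q : ℕ → V)
    (E : ℕ → Set V) : Prop where
  qR : ∀ i < k, q i ∉ W ∧ Lw G k e (q i)
  ER : ∀ i < k, ∀ x ∈ E i, x ∉ W ∧ Lw G k e x
  qq : ∀ i < k, ∀ j < k, i ≠ j → G.Adj (q i) (q j)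
  qE : ∀ i < k, ∀ j < k, q i ∉ E j ∧ (i ≠ j → ∀ x ∈ E j, ¬ G.Adj (q i) x)
  EE : ∀ i < k, ∀ j < k, i ≠ j → ∀ x ∈ E i, ∀ y ∈ E j, x ≠ y ∧ ¬ G.Adj x y
  qP : ∀ i < k, ∀ j < k, (∀ s, q i ≠ e s j) ∧ (i ≠ j → ¬ Tc G e (q i) j)
  EP : ∀ i < k, ∀ j < k, ∀ x ∈ E i, (∀ s, x ≠ e s j) ∧ (i ≠ j → ¬ Tc G e x j)
  con : ∀ i < k, Conn G (insert (q i) (E i))
  tch : ∀ i < k, ∃ x ∈ insert (q i) (E i), Tc G e x i
  emp : ∀ i < k, E i = ∅ ∨ (Conn G (E i) ∧ (∃ x ∈ E i, G.Adj (q i) x) ∧ ¬ Tc G e (q i) i)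

/-- the arm `i` without `q i` -/
def Yi {V : Type} (e : Bool → ℕ → V) (E : ℕ → Set V) (i : ℕ) : Set V := E i ∪ Pr e i

/-- `v` touches the arm `i` -/
def At {V : Type} (G : SimpleGraph V) (e : Bool → ℕ → V) (q : ℕ → V) (E : ℕ → Set V) (v : V)
    (i : ℕ) : Prop := G.Adj v (q i) ∨ ∃ x ∈ Yi e E i, G.Adj v x

/-- the vertices outside the arms and outside `W` which touch at most one letter -/
def Ou {V : Type} (G : SimpleGraph V) (k : ℕ) (e : Bool → ℕ → V) (W : Set V) (q : ℕ → V)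
    (E : ℕ → Set V) (v : V) : Prop :=
  v ∉ W ∧ Lw G k e v ∧ ∀ i < k, v ≠ q i ∧ v ∉ Yi e E i

/-- low vertices: they touch at most one arm -/
def Lo {V : Type} (G : SimpleGraph V) (k : ℕ) (e : Bool → ℕ → V) (W : Set V) (q : ℕ → V)
    (E : ℕ → Set V) (v : V) : Prop :=
  Ou G k e W q E v ∧ ∀ i < k, ∀ j < k, At G e q E v i → At G e q E v j → i = j

/-- top vertices: complete to the `q i`, anticomplete to the rest of the arms -/
def Tp {V : Type} (G : SimpleGraph V) (k : ℕ) (e : Bool → ℕ → V) (W : Set V) (q : ℕ → V)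
    (E : ℕ → Set V) (v : V) : Prop :=
  Ou G k e W q E v ∧ (∀ i < k, G.Adj v (q i)) ∧ ∀ i < k, ∀ x ∈ Yi e E i, ¬ G.Adj v x

/-- the arm `i` without `q i`, together with the low connected sets which touch the arm -/
def Zi {V : Type} (G : SimpleGraph V) (k : ℕ) (e : Bool → ℕ → V) (W : Set V) (q : ℕ → V)
    (E : ℕ → Set V) (i : ℕ) : Set V :=
  Yi e E i ∪ {x | ∃ D, Conn G D ∧ (∀ y ∈ D, Lo G k e W q E y) ∧ x ∈ D ∧ ∃ y ∈ D, At G e q E y i}

/-- **Clique models**: `T i` touches the letter `i` and no other letter -/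
structure Cm {V : Type} (G : SimpleGraph V) (k : ℕ) (e : Bool → ℕ → V) (W : Set V)
    (T : ℕ → Set V) : Prop where
  R : ∀ i < k, ∀ x ∈ T i, x ∉ W ∧ Lw G k e x
  con : ∀ i < k, Conn G (T i)
  dis : ∀ i < k, ∀ j < k, i ≠ j → Disjoint (T i) (T j)
  tt : ∀ i < k, ∀ j < k, i ≠ j → Tch G (T i) (T j)
  tp : ∀ i < k, ∃ x ∈ T i, Tc G e x i
  tn : ∀ i < k, ∀ j < k, i ≠ j → ∀ x ∈ T i, ¬ Tc G e x j
  np : ∀ i < k, ∀ j < k, ∀ x ∈ T i, ∀ s, x ≠ e s j

/-- **Clique models which contain the letters**: `T i` contains the letter `i` and does not touch the others -/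
structure Cp {V : Type} (G : SimpleGraph V) (k : ℕ) (e : Bool → ℕ → V) (W : Set V)
    (T : ℕ → Set V) : Prop where
  R : ∀ i < k, ∀ x ∈ T i, x ∉ W ∧ Lw G k e x
  con : ∀ i < k, Conn G (T i)
  dis : ∀ i < k, ∀ j < k, i ≠ j → Disjoint (T i) (T j)
  tt : ∀ i < k, ∀ j < k, i ≠ j → Tch G (T i) (T j)
  sub : ∀ i < k, Pr e i ⊆ T i
  tn : ∀ i < k, ∀ j < k, i ≠ j → ∀ x ∈ T i, ¬ Tc G e x j

/-! ### 1. the vertices outside the arms -/

/-- **Qb.** Basic facts on arms.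

Proof. `Yi e E i = E i ∪ Pr e i` is connected: if `E i = ∅` it is the letter (`Lt.conn`); otherwise `E i` is connected and
touches the letter (`tch`, `emp`: `q i` does not touch it).  `q i` touches `Yi e E i`: if `E i = ∅` then `q i` touches the letter
(`tch`), otherwise `emp`.  The other facts: `qE`, `EE`, `qP`, `EP`, `Lt.nadj`, `Lt.ne` (`¬ Tc G e x j` says that `x` has no
neighbour in the letter `j`). -/
def S_Qb : Prop := ∀ (V : Type) (G : SimpleGraph V) (k : ℕ) (e : Bool → ℕ → V) (W : Set V)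
  (q : ℕ → V) (E : ℕ → Set V), Lt G k e → Ar G k e W q E →
    (∀ i < k, Conn G (Yi e E i) ∧ ∃ x ∈ Yi e E i, G.Adj (q i) x) ∧
    (∀ i < k, ∀ j < k, q i ∉ Yi e E j ∧ (i ≠ j → ∀ x ∈ Yi e E j, ¬ G.Adj (q i) x)) ∧
    (∀ i < k, ∀ j < k, i ≠ j → ∀ x ∈ Yi e E i, ∀ y ∈ Yi e E j, x ≠ y ∧ ¬ G.Adj x y) ∧
    ∀ i < k, ∀ x ∈ Yi e E i, Lw G k e x

/-- **Qa.** Proof. Suppose that `v` touches `E i` and `E j` and does not touch the letters `i`, `j`; let `m < k` be a third index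
(`3 ≤ k`).  Model `[v, E_i, q_i | E_j | q_j ; P_i, P_j, q_m]`.  (`E i`, `E j` are not empty, so by `emp` they are connected, `q i ~ E i`,
`q j ~ E j`, and `q j` does not touch `P_j`, so `P_j` is touched only by `E j`; `P_i` is touched by `E i` (`tch`, `emp`).) -/
def S_Qa : Prop := ∀ (V : Type) (G : SimpleGraph V) (k : ℕ) (e : Bool → ℕ → V) (W : Set V)
  (q : ℕ → V) (E : ℕ → Set V), FH G → Lt G k e → Ar G k e W q E → 3 ≤ k →
    ∀ v, Ou G k e W q E v → ∀ i < k, ∀ j < k, i ≠ j → (∃ x ∈ E i, G.Adj v x) →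
      (∃ x ∈ E j, G.Adj v x) → Tc G e v i ∨ Tc G e v j

/-- **Qv.** The vertices outside the arms are low or top.  (Uses `S_Qb`, `S_Qa`.)

Proof. `a = {i < k | v ~ q i}`, `b = {i < k | v` touches `Yi e E i}`, so `At v i` iff `i ∈ a ∪ b`.  (1) `|b| ≤ 2`: `v` touches at most one
letter, so of three indices in `b` two, `i` and `j`, are such that `v` does not touch the letters `i`, `j`; so `v` touches `E i`,
`E j`: against Qa.  (2) If `v` is not low there are `i ≠ j` in `a ∪ b`.  There are no two different indices `m, m' < k` outside `a ∪ b`: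
model `[q_i, q_m | q_m' | q_j ; Y_m, Y_m', v ∪ (Y_i if i ∉ a) ∪ (Y_j if j ∉ a)]` (four cases; if `i ∉ a` then `v` touches `Y_i`, which
touches `q_i`).  So `|a ∪ b| ≥ k - 1`, `|a \ b| ≥ k - 3 ≥ 5`.  (3) Let `i ≠ j` in `a \ b`.  If `m ∈ b` (so `m ≠ i, j`):
model `[v, q_i | q_j | q_m ; Y_i, Y_j, Y_m]`.  So `b = ∅`.  If `m < k` is not in `a`: model `[q_i | q_m | q_j ; Y_i, Y_m, v]`.  So
`a = {0, .., k - 1}`: `Tp`. -/
def S_Qv : Prop := S_Qb → S_Qa → ∀ (V : Type) (G : SimpleGraph V) (k : ℕ) (e : Bool → ℕ → V)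
  (W : Set V) (q : ℕ → V) (E : ℕ → Set V), FH G → Lt G k e → Ar G k e W q E → 8 ≤ k →
    ∀ v, Ou G k e W q E v → Lo G k e W q E v ∨ Tp G k e W q E v

/-- **Qc.** A connected set of low vertices touches at most one arm.  (Uses `S_Qb`.)

Proof. Suppose that `x ∈ D` touches the arm `i` and `y ∈ D` touches the arm `j ≠ i`.  Let `C` = the vertices of `D` which touch
no arm except for `i`, `A` = the component of `x` in `C` (`exists_comp`).  `A ≠ D` (`y ∉ C`), so there are `a ∈ A`, `z ∈ D \ A` with `a ~ z`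
(`Conn`); `z ∉ C`, otherwise `z ∈ A`; so `z` touches an arm `j' ≠ i`, and only this one (`Lo`).  `D' = insert z A` is connected
(`Conn.insert`) and touches exactly the arms `i` and `j'`.  `m ≠ m'` two other indices (`4 ≤ k`).  Model
`[q_i, q_m | q_m' | q_j' ; Y_m, Y_m', D' ∪ (Y_i if D' does not touch q_i) ∪ (Y_j' if D' does not touch q_j')]`. -/
def S_Qc : Prop := S_Qb → ∀ (V : Type) (G : SimpleGraph V) (k : ℕ) (e : Bool → ℕ → V)
  (W : Set V) (q : ℕ → V) (E : ℕ → Set V), FH G → Lt G k e → Ar G k e W q E → 4 ≤ k →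
    ∀ D : Set V, Conn G D → (∀ y ∈ D, Lo G k e W q E y) → ∀ i < k, ∀ j < k,
      (∃ x ∈ D, At G e q E x i) → (∃ y ∈ D, At G e q E y j) → i = j

/-- **Qd.** Top vertices do not touch low connected sets which touch an arm.  (Uses `S_Qb`, `S_Qc`.)

Proof. Suppose `v ~ x ∈ D`.  `D` touches the arm `i` and no other arm (Qc).  `j ≠ m` two other indices (`3 ≤ k`).  Model
`[v, q_j | q_m | q_i ; Y_j, Y_m, D ∪ (Y_i if D does not touch q_i)]` (`4 ≤ k` for Qc). -/
def S_Qd : Prop := S_Qb → S_Qc → ∀ (V : Type) (G : SimpleGraph V) (k : ℕ) (e : Bool → ℕ → V)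
  (W : Set V) (q : ℕ → V) (E : ℕ → Set V), FH G → Lt G k e → Ar G k e W q E → 4 ≤ k →
    ∀ v, Tp G k e W q E v → ∀ D : Set V, Conn G D → (∀ y ∈ D, Lo G k e W q E y) → ∀ i < k,
      (∃ x ∈ D, At G e q E x i) → ∀ x ∈ D, ¬ G.Adj v x

/-- **Qz.** The sets `Zi`.  (Uses `S_Qb`, `S_Qv`, `S_Qc`, `S_Qd`; the hypotheses for them are the conclusions.)

Proof. (1) Elements of `Yi e E i` are `Lw` (Qb) and not in `W`: `ER`; for a vertex of a letter: the elements of `W` are `Hf`, they touch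
all letters, a vertex of a letter touches only one (`Lt.tc`, `8 ≤ k`).  Elements of low sets: `Lo`.  (2) `q j ∉ Zi i`: `Ar.qE`,
`Ar.qP`; `Ou`.  (3) Let `i ≠ j`.  `x ∈ Zi i`, `y ∈ Zi j`: if `x ∈ Yi i`, `y ∈ Yi j`: Qb.  If `x ∈ Yi i`, `y ∈ D'` (a low connected set touching the
arm `j`): `y ∉ Yi i` (`Ou`), and `x ~ y` would give `At y i`, against Qc for `D'`.  If `x ∈ D`, `y ∈ D'` and `x = y` or `x ~ y`: `D ∪ D'` is
connected, low and touches the arms `i` and `j`: against Qc.  `q j ≁ x ∈ Zi i`: for `x ∈ Yi i` Qb, for `x ∈ D`: `At x j`, against Qc.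
(4) `insert (q i) (Zi i)` is connected: every `x ∈ Zi i` is in a connected subset of it which contains `q i`: for `x ∈ Yi i`:
`insert (q i) (Yi i)`; for `x ∈ D`: `insert (q i) (Yi i ∪ D)` or `insert (q i) D`.  (5) Let `x ∈ Zi i`, `x ~ u`, `u ∉ Zi i`, `u ≠ q i`, `u ∉ W` and not
`Fm u`; by `Rg.out` `Lw u`.  `u = q j`, `j ≠ i`: against (3).  `u ∈ Yi j`, `j ≠ i`: against (3).  So `Ou u`; by Qv `Lo u` or `Tp u`.  `Lo u`: if
`x ∈ Yi i` then `{u}` is a low connected set touching the arm `i`, so `u ∈ Zi i`; if `x ∈ D` then `insert u D` is one, so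
`u ∈ Zi i`.  `Tp u`: `x ∈ Yi i` is impossible by `Tp`, `x ∈ D` by Qd. -/
def S_Qz : Prop := S_Qb → S_Qa → S_Qv → S_Qc → S_Qd → ∀ (V : Type) (G : SimpleGraph V) (k : ℕ)
  (e : Bool → ℕ → V) (W : Set V) (q : ℕ → V) (E : ℕ → Set V), FH G → Rg G k e W →
    Ar G k e W q E → 8 ≤ k →
    (∀ i < k, ∀ x ∈ Zi G k e W q E i, x ∉ W ∧ Lw G k e x) ∧
    (∀ i < k, ∀ j < k, q j ∉ Zi G k e W q E i) ∧
    (∀ i < k, ∀ j < k, i ≠ j → (∀ x ∈ Zi G k e W q E i, ∀ y ∈ Zi G k e W q E j,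
      x ≠ y ∧ ¬ G.Adj x y) ∧ ∀ x ∈ Zi G k e W q E i, ¬ G.Adj (q j) x) ∧
    (∀ i < k, Conn G (insert (q i) (Zi G k e W q E i))) ∧
    ∀ i < k, ∀ x ∈ Zi G k e W q E i, ∀ u, G.Adj x u →
      u ∈ Zi G k e W q E i ∨ u = q i ∨ u ∈ W ∨ Fm G k e u

/-! ### 2. the vertices `Fm` -/

/-- **Qf.** The vertices `Fm` are complete to the sets `Zi`.  (The hypothesis for `Zi` is the conclusion of `S_Qz`.)

Proof. Suppose `f ≁ z`, `z ∈ Zi i`.  `f` is complete to all letters but one and `8 ≤ k`: choose `j ≠ m`, both `≠ i`, with `Fu f j`,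
`Fu f m`.  By `RG.gArm` (or `exists_comp`) for the connected set `insert (q i) (Zi i)` and `c = z ≠ q i`: a connected set
`L ⊆ insert (q i) (Zi i)`, `q i ∈ L`, `z ∉ L`, `L` touches `z`.  `tch` for `j`: `x ∈ insert (q j) (E j)` adjacent to `s_j := e r j`,
`t_j := e (!r) j`; the same for `m`.  Model `[f, s_j, q_j, E_j | L | q_m, E_m, s_m ; t_j, z, t_m]`.  (`f` touches `s_j`; `f ∉ insert (q m) (E m)`, `L`,
.. because it is not `Lw` (`8 ≤ k`: it touches two letters).  `L` touches `q_j` and `q_m` in `q_i`; `z` and `L` are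
anticomplete to the arms `j`, `m` except for `q i` (`Qz`).  `f ~ t_m`, `s_m ~ t_m`, `f ~ t_j` in the same bag's pendant is allowed.) -/
def S_Qf : Prop := S_Qb → ∀ (V : Type) (G : SimpleGraph V) (k : ℕ) (e : Bool → ℕ → V)
  (W : Set V) (q : ℕ → V) (E : ℕ → Set V), FH G → Rg G k e W → Ar G k e W q E → 8 ≤ k →
    -- the conclusion of `S_Qz`
    ((∀ i < k, ∀ x ∈ Zi G k e W q E i, x ∉ W ∧ Lw G k e x) ∧
    (∀ i < k, ∀ j < k, q j ∉ Zi G k e W q E i) ∧
    (∀ i < k, ∀ j < k, i ≠ j → (∀ x ∈ Zi G k e W q E i, ∀ y ∈ Zi G k e W q E j,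
      x ≠ y ∧ ¬ G.Adj x y) ∧ ∀ x ∈ Zi G k e W q E i, ¬ G.Adj (q j) x) ∧
    (∀ i < k, Conn G (insert (q i) (Zi G k e W q E i))) ∧
    ∀ i < k, ∀ x ∈ Zi G k e W q E i, ∀ u, G.Adj x u →
      u ∈ Zi G k e W q E i ∨ u = q i ∨ u ∈ W ∨ Fm G k e u) →
    ∀ f, Fm G k e f → ∀ i < k, ∀ z ∈ Zi G k e W q E i, G.Adj f z

/-- **Qw.** If `E i` is empty and `q i` is complete to the letter `i` then `W` is empty.

Proof. Let `w ∈ W`, `Hf w r`; `s_l := e r l`, `t_l := e (!r) l`: `w ~ s_l`, `w ≁ t_l` for all `l`.  `w` is not in the arms and not in a letter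
(it touches all letters).  CASE 1: for some `j ≠ i` some `x ∈ insert (q j) (E j)` is adjacent to `s_j`; let `m` be a third
index.  Model `[q_i, s_j, q_j, E_j | w | s_i ; t_j, s_m, t_i]`.  CASE 2: otherwise; let `j, j', m` be three indices `≠ i`
(different): by `tch` some `x ∈ insert (q j) (E j)` is adjacent to `t_j`, the same for `j'`.  Model
`[q_i, q_j, E_j, t_j, s_j, q_j', E_j' | w | s_i ; t_j', s_m, t_i]`. -/
def S_Qw : Prop := ∀ (V : Type) (G : SimpleGraph V) (k : ℕ) (e : Bool → ℕ → V) (W : Set V)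
  (q : ℕ → V) (E : ℕ → Set V), FH G → Rg G k e W → Ar G k e W q E → 8 ≤ k →
    ∀ i < k, E i = ∅ → Fu G e (q i) i → W = ∅

/-- **Qm.** `q i` is mixed on `Zi i`.  (Uses `S_Qb`, `S_Qw`.)

Proof. (1) `q i` is not complete to `Zi i`.  Suppose it is.  It is complete to the letter `i`, so by `emp` `E i = ∅`, by Qw
`W = ∅`.  `M = Zi i` has at least two elements (the letter) and its complement as well (`q 0, .., q 7`; `Qz`).  By `Pm` there is
`v ∉ M` with `v ~ x`, `v ≁ y`, `x, y ∈ M`; by `Qz` (5) `v = q i` or `v ∈ W` or `Fm v`; the first is impossible since `q i` is complete, the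
second since `W = ∅`, the third by Qf.  (2) So let `v₀ ∈ Zi i`, `q i ≁ v₀`.  By `RG.gArm` for `insert (q i) (Zi i)`, `c = q i`: a connected set
`C ⊆ Zi i`, `v₀ ∈ C`, `C` touches `q i`.  `{x ∈ C | q i ~ x}` is nonempty and `≠ C`, so (`Conn`) there are `u, v ∈ C`, `u ~ v`, `q i ~ u`,
`q i ≁ v`. -/
def S_Qm : Prop := S_Qb → S_Qw → ∀ (V : Type) [Finite V] (G : SimpleGraph V) (k : ℕ)
  (e : Bool → ℕ → V) (W : Set V) (q : ℕ → V) (E : ℕ → Set V), FH G → Pm G → Rg G k e W →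
    Ar G k e W q E → 8 ≤ k →
    -- the conclusion of `S_Qz`
    ((∀ i < k, ∀ x ∈ Zi G k e W q E i, x ∉ W ∧ Lw G k e x) ∧
    (∀ i < k, ∀ j < k, q j ∉ Zi G k e W q E i) ∧
    (∀ i < k, ∀ j < k, i ≠ j → (∀ x ∈ Zi G k e W q E i, ∀ y ∈ Zi G k e W q E j,
      x ≠ y ∧ ¬ G.Adj x y) ∧ ∀ x ∈ Zi G k e W q E i, ¬ G.Adj (q j) x) ∧
    (∀ i < k, Conn G (insert (q i) (Zi G k e W q E i))) ∧
    ∀ i < k, ∀ x ∈ Zi G k e W q E i, ∀ u, G.Adj x u →
      u ∈ Zi G k e W q E i ∨ u = q i ∨ u ∈ W ∨ Fm G k e u) →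
    -- the conclusion of `S_Qf`
    (∀ f, Fm G k e f → ∀ i < k, ∀ z ∈ Zi G k e W q E i, G.Adj f z) →
    ∀ i < k, ∃ u ∈ Zi G k e W q E i, ∃ v ∈ Zi G k e W q E i, G.Adj u v ∧ G.Adj (q i) u ∧
      ¬ G.Adj (q i) v

/-- **Qg.** The vertices `Fm` are complete to the `q i`.

Proof. Suppose `f ≁ q_i`; `j ≠ m` two other indices; `u_j, v_j` and `u_m, v_m` from the last hypothesis (Qm).  `f ~ u`, `f ~ v` for
them (Qf).  Model `[f, u_j | q_m, q_j | u_m ; v_j, q_i, v_m]`: bag `b₀ = {f, u_j}`, `b₁ = {q_m, q_j}`, `b₂ = {u_m}`.  (`b₀ - b₁`: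
`u_j ~ q_j`; `b₀ - b₂`: `f ~ u_m`; `b₁ - b₂`: `q_m ~ u_m`; `v_j ~ u_j`, `q_j ≁ v_j`, `q_m ≁ v_j`, `v_j ≁ u_m`; `q_i ~ q_m`, `q_i ≁ u_j`, `q_i ≁ u_m`,
`q_i ≁ f`; `v_m ~ f`, `v_m ~ u_m`, `v_m ≁ q_m`, `v_m ≁ q_j`.) -/
def S_Qg : Prop := ∀ (V : Type) (G : SimpleGraph V) (k : ℕ) (e : Bool → ℕ → V)
  (W : Set V) (q : ℕ → V) (E : ℕ → Set V), FH G → Rg G k e W → Ar G k e W q E → 8 ≤ k →
    -- the conclusion of `S_Qz`
    ((∀ i < k, ∀ x ∈ Zi G k e W q E i, x ∉ W ∧ Lw G k e x) ∧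
    (∀ i < k, ∀ j < k, q j ∉ Zi G k e W q E i) ∧
    (∀ i < k, ∀ j < k, i ≠ j → (∀ x ∈ Zi G k e W q E i, ∀ y ∈ Zi G k e W q E j,
      x ≠ y ∧ ¬ G.Adj x y) ∧ ∀ x ∈ Zi G k e W q E i, ¬ G.Adj (q j) x) ∧
    (∀ i < k, Conn G (insert (q i) (Zi G k e W q E i))) ∧
    ∀ i < k, ∀ x ∈ Zi G k e W q E i, ∀ u, G.Adj x u →
      u ∈ Zi G k e W q E i ∨ u = q i ∨ u ∈ W ∨ Fm G k e u) →
    (∀ f, Fm G k e f → ∀ i < k, ∀ z ∈ Zi G k e W q E i, G.Adj f z) →
    (∀ i < k, ∃ u ∈ Zi G k e W q E i, ∃ v ∈ Zi G k e W q E i, G.Adj u v ∧ G.Adj (q i) u ∧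
      ¬ G.Adj (q i) v) → ∀ f, Fm G k e f → ∀ i < k, G.Adj f (q i)

/-- **Qx.** There are no large arms.  (Uses the statements `S_Qb`, .., `S_Qg`.)

Proof. `8 ≤ k`.  Let `h = k / 2 > β 4`, `X` = the union of the sets `insert (q i) (Zi i)`, `i < h`.  `X` contains `q 0, .., q (h - 1)` (different by
`qq`), its complement contains `q h, .., q (k - 1)` (Qz (2)): both have more than `β 4` elements.  CLAIM `cr G X ≤ 4`:
`Xᶜ ⊆ (Xᶜ \ W) ∪ W`, `rk G X W ≤ 2` (`rk_union_right`, `rk_card_right`, `Rg.card`).  `X = Z ∪ Q`, `Z` = the union of the `Zi i`, `Q = {q i | i < h}`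
(`rk_union`).  `rk G Z (Xᶜ \ W) ≤ 1` by `rk_one` with `T = {u | Fm u}`: for `x ∈ Zi i` and `u ∈ Xᶜ \ W`: `x ~ u` implies `Fm u` (Qz (5)), and
`Fm u` implies `x ~ u` (Qf).  `rk G Q (Xᶜ \ W) ≤ 1` by `rk_one` with `T = {u | Fm u ∨ (∃ j < k, h ≤ j ∧ u = q j) ∨ Tp u}`: let `i < h`,
`u ∈ Xᶜ \ W`.  `Fm u → q i ~ u` (Qg); `q i ~ q j`; `Tp u → q i ~ u`.  Conversely let `q i ~ u` and not `Fm u`; so `Lw u` (`Rg.out`); if
`u = q j` then `h ≤ j` (`u ∉ X`); if `u ∈ Yi j` then `j = i` (Qb), so `u ∈ X`: contradiction.  So `Ou u`, by Qv `Lo u` or `Tp u`; `Lo u`: `{u}` is a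
low connected set which touches the arm `i`, so `u ∈ Zi i ⊆ X`: contradiction.  So `cr G X ≤ 4`, against `Link β 4 G` with
`c = 4`. -/
def S_Qx : Prop := S_Qb → S_Qa → S_Qv → S_Qc → S_Qd → S_Qz → S_Qf → S_Qw → S_Qm → S_Qg →
  ∀ (β : ℕ → ℕ) (V : Type) [Finite V] (G : SimpleGraph V) (k : ℕ) (e : Bool → ℕ → V) (W : Set V)
    (q : ℕ → V) (E : ℕ → Set V), FH G → Pm G → Link β 4 G → Rg G k e W → Ar G k e W q E →
      ¬ 2 * β 4 + 10 ≤ k

/-! ### 3. clique models -/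

/-- **Mn.** Minimal clique models.

Proof. Among the `T'` with `Cm G k e W T'` choose one with the least `∑ i ∈ range k, (T' i).ncard` (natural numbers, `Nat.find` or
`WellFounded.min`).  If `E ⊂ T' i` is connected, touches the letter `i` and touches all `T' j`, `j ≠ i`, then
`Function.update T' i E` is a smaller one. -/
def S_Mn : Prop := ∀ (V : Type) [Finite V] (G : SimpleGraph V) (k : ℕ) (e : Bool → ℕ → V)
  (W : Set V) (T : ℕ → Set V), Cm G k e W T → ∃ T' : ℕ → Set V, Cm G k e W T' ∧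
    ∀ i < k, ∀ E ⊆ T' i, E ≠ T' i → Conn G E → (∃ x ∈ E, Tc G e x i) →
      ∃ j < k, j ≠ i ∧ ¬ Tch G E (T' j)

/-- **Mv.** One vertex `q` of `T i` touches all other `T j`, the rest touches at most one.

Proof. If `T i` has only one element `q`: `E = ∅`.  Let `T i` have at least two elements.  There is `q ∈ T i` such that
`E' = T i \ {q}` is connected and touches the letter `i`: there are two vertices `y ≠ y'` such that `T i \ {y}`, `T i \ {y'}` are
connected (`exists_connected_induce_compl_singleton..` or the argument of `NK.S_Lea`); if `T i \ {y}` does not touch the letter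
then `y` touches it and `y ∈ T i \ {y'}`.  By the minimality `E'` does not touch `T j₃` for some `j₃ ≠ i`.  (1) `E'` touches at most
one `T j`: if it touches `T j₁`, `T j₂` (`j₁ ≠ j₂`, both `≠ i`, `≠ j₃`): model `[T_j₁ | T_j₃ | T_j₂ ; P_j₁, P_j₃, E']`.  (2) `q` touches all
`T j`, `j ≠ i`: suppose that `q` does not touch `T j₃'`; `T i` touches all the others, and `E'` touches at most one of them, so (`6 ≤ k`)
`q` touches two sets `T j₁`, `T j₂` with `j₁, j₂, j₃'` different: model `[T_j₁ | T_j₃' | T_j₂ ; P_j₁, P_j₃', q]`.  If `q` touches the letter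
`i` take `E = ∅`, otherwise `E = E'` (`q` touches `E'` since `T i` is connected).  In the models `P_j` is touched only by `T j`
(`tn`, `tp`). -/
def S_Mv : Prop := ∀ (V : Type) [Finite V] (G : SimpleGraph V) (k : ℕ) (e : Bool → ℕ → V)
  (W : Set V) (T : ℕ → Set V), FH G → Lt G k e → Cm G k e W T → 6 ≤ k →
    (∀ i < k, ∀ E ⊆ T i, E ≠ T i → Conn G E → (∃ x ∈ E, Tc G e x i) →
      ∃ j < k, j ≠ i ∧ ¬ Tch G E (T j)) →
    ∀ i < k, ∃ q ∈ T i, ∃ E ⊆ T i, q ∉ E ∧ Conn G (insert q E) ∧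
      (∃ x ∈ insert q E, Tc G e x i) ∧
      (E = ∅ ∨ (Conn G E ∧ (∃ x ∈ E, G.Adj q x) ∧ ¬ Tc G e q i)) ∧
      (∀ j < k, j ≠ i → ∃ y ∈ T j, G.Adj q y) ∧
      ∀ j < k, ∀ j' < k, j ≠ i → j' ≠ i → (∃ x ∈ T i, x ≠ q ∧ ∃ y ∈ T j, G.Adj x y) →
        (∃ x ∈ T i, x ≠ q ∧ ∃ y ∈ T j', G.Adj x y) → j = j'

/-- **Ma.** A clique model gives arms.  (Uses `W.S_Dig`, `S_Mn`, `S_Mv`.)

Proof. `K = 3 k + 6`.  Mn, Mv: `q i`, `E i` for `i < K`.  `R i j`: some `x ∈ T i`, `x ≠ q i`, touches `T j`: for every `i` at most one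
`j ≠ i`.  `W.S_Dig` with `τ = 1`: `J` with `k` elements and `¬ R i j` for `i ≠ j` in `J`; `σ` = an injection of `{i < k}` to `J`.  For `i ≠ j` in
`J`: `q i ~ y` for some `y ∈ T j`; `y = q j`, as otherwise `R j i`.  So `q i ~ q j`; `q i ≁ x` for `x ∈ E j` and `x ≁ y` for `x ∈ E i`, `y ∈ E j` by
`¬ R`.  The other fields from `Cm` and Mv; `Lw G k (e ∘ σ)` from `Lw G K e` (`σ` is injective). -/
def S_Ma : Prop := W.S_Dig → S_Mn → S_Mv → ∀ (V : Type) [Finite V] (G : SimpleGraph V) (k : ℕ)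
  (e : Bool → ℕ → V) (W : Set V) (T : ℕ → Set V), FH G → Lt G (3 * k + 6) e →
    Cm G (3 * k + 6) e W T → ∃ (σ : ℕ → ℕ) (q : ℕ → V) (E : ℕ → Set V),
      (∀ i < k, σ i < 3 * k + 6) ∧ (∀ i < k, ∀ j < k, σ i = σ j → i = j) ∧
      Ar G k (fun s i => e s (σ i)) W q E

/-- **Ce.** From `Cp` to `Cm`.

Proof. For `i < k` call a component `D` of `T i \ Pr e i` (`exists_comp`) ACTIVE for `j ≠ i` if it touches `T j`.  Every component
touches the letter `i` (`T i` is connected, and contains the letter).  For every `j ≠ i` there is an active component for `j`: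
`T i` touches `T j`, and the letter `i` does not (`tn`).  CLAIM: if `D ≠ D'` are components for `i`, `D` is active for `a` and `D'` is
active for `b` then `a = b`.  Suppose `a ≠ b`; let `c, l, m` be three further indices (`6 ≤ k`).  `D_l` = a component of
`T l \ Pr e l` which touches `T a`; `D_m` = a component of `T m \ Pr e m` which touches `T c`.  Model
`[D, T_a, D_l | T_c, D_m | D', T_b ; P_l, P_m, P_i]`.  (`b₀ - b₁`: `T_a`, `T_c`; `b₀ - b₂`: `T_a`, `T_b`; `b₁ - b₂`: `T_c`, `T_b`; `P_l` is touched by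
`D_l` only, `P_m` by `D_m` only, `P_i` by `D` and `D'` only: `tn`, and different components do not touch.)  So there is exactly one
component `D i` which is active for some `j`: let `D` be active for `a`, `D'` for some `b ≠ a` (there is one); `D' = D` by the claim; if
`D'' ≠ D` is active for `c`, then `c = a` and `c = b` by the claim: contradiction.  So every active component is `D i`, and `D i` is
active for all `j`.  `T' i = D i`: `D i` touches `T j`; the vertex of `T j` is not in the letter `j` (`tn` for `i`), so it is in a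
component of `T j \ Pr e j`, active for `i`, so in `D j`. -/
def S_Ce : Prop := ∀ (V : Type) [Finite V] (G : SimpleGraph V) (k : ℕ) (e : Bool → ℕ → V)
  (W : Set V) (T : ℕ → Set V), FH G → Lt G k e → 6 ≤ k → Cp G k e W T →
    ∃ T' : ℕ → Set V, Cm G k e W T'

end Pool.Agent.MPd439b2.H1R
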