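import Pool.Agent.Lib.MP_d439b2_co.X3.H1R.SpecQ
import Pool.Agent.Lib.MP_d439b2_co.X3.H1R.SpecC
import Pool.Agent.Lib.MP_d439b2_co.NK.SpecR
import Pool.Agent.Lib.MP_d439b2_co.RG.Spec

/-!
# MP_d439b2_co, X3/H1R, part R: rooted clique models, rails, splitting, Theorem REG (`K3:0,1,02`)

(1) `T1`, `T2`, `T3`, `K1`, `K2`, `K3`, `RK`: LEMMA RK.  A model `B 0, .., B (t - 1)` of a complete graph, `q` disjoint paths from
`x 0, .., x (q - 1)` to different branch sets, `t ≥ q + k q ^ q`, `q ≥ 2 k`: there are `k` disjoint connected pairwise touching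
sets which contain different `x i`.  Paths are sets `L` with the inductive predicate `Tl G B x L y c`: `L` is the vertex set
of a path from `x` to `y` and at most `c` of its edges are not inside a branch set (the COST).
(2) `Lk`, `Wa`: a haven gives a clique model rooted in `S` (grid theorem, Menger).  (3) `Zp`, `Ral`, `Wb`: rails; the sets of
the model touch only their own letters.  (4) `Rf`, `NW`: there are no havens in `G[U]`, `U` = the vertices outside `W` which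
touch at most one letter.  (5) `Hu`, `Sk`, `Cq`, `CK`: splitting and the cell position.  (6) `RE`: Theorem REG.

Every `S_...` is a statement to be proved in its own file; the docstring contains the complete proof; the used
statements are hypotheses of the theorem, in the order given in `(Uses ...)`.  The theorem for `S_X` is called `rX` and
is in the file `X3/H1R/X.lean` (namespace `Pool.Agent.MPd439b2.H1R`).  `x ~ y` means `G.Adj x y`.  MODELS: see `SpecQ.lean`.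
-/

set_option autoImplicit false

namespace Pool.Agent.MPd439b2.H1R

open Pool.Agent.MPd439b2
open Pool.Agent.MPd439b2.Rep
open Pool.Agent.MPd439b2.NK
open Pool.Agent.MPd439b2.H1T

/-! ### 1. rooted clique models -/

/-- **Paths with costs**: `L` is the vertex set of a path from `x` to `y`, at most `c` of its edges are not inside a
branch set -/
inductive Tl {V : Type} {t : ℕ} (G : SimpleGraph V) (B : Fin t → Set V) (x : V) :
    Set V → V → ℕ → Prop
  | base : Tl G B x {x} x 0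
  | same {L : Set V} {y z : V} {c : ℕ} : Tl G B x L y c → G.Adj y z → z ∉ L →
      (∃ j, y ∈ B j ∧ z ∈ B j) → Tl G B x (insert z L) z c
  | diff {L : Set V} {y z : V} {c : ℕ} : Tl G B x L y c → G.Adj y z → z ∉ L →
      Tl G B x (insert z L) z (c + 1)

/-- `q` disjoint paths `L i` from `x i` to `y i ∈ B (m i)`, the `m i` are different, with costs `c i` -/
structure Lg {V : Type} {t q : ℕ} (G : SimpleGraph V) (B : Fin t → Set V) (x : Fin q → V)
    (L : Fin q → Set V) (y : Fin q → V) (c : Fin q → ℕ) (m : Fin q → Fin t) : Prop where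
  tl : ∀ i, Tl G B (x i) (L i) (y i) (c i)
  dis : ∀ i j, i ≠ j → Disjoint (L i) (L j)
  ym : ∀ i, y i ∈ B (m i)
  mi : Function.Injective m

/-- the same with the least sum of the costs -/
def MLg {V : Type} {t q : ℕ} (G : SimpleGraph V) (B : Fin t → Set V) (x : Fin q → V)
    (L : Fin q → Set V) (y : Fin q → V) (c : Fin q → ℕ) (m : Fin q → Fin t) : Prop :=
  Lg G B x L y c m ∧ ∀ (L' : Fin q → Set V) (y' : Fin q → V) (c' : Fin q → ℕ)
    (m' : Fin q → Fin t), Lg G B x L' y' c' m' → ∑ i, c i ≤ ∑ i, c' i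

/-- **T1.** Truncation.

Proof. Induction on `Tl`.  `base`: `w = x`, `L' = {x}`, `c' = 0`; the last claim is empty since `w = y`.  Step to `z`, `L = insert z L₀`:
if `w = z` take `L`, `c` (last claim empty).  If `w ∈ L₀`: the induction hypothesis gives `L'`, `c'` for `(L₀, y₀, c₀)`.  `diff`:
`c' ≤ c₀ < c`.  `same`: `c = c₀`, `y₀, z ∈ B k`; if `w ∈ B j`, `z ∉ B j` then `j ≠ k`, so `y₀ ∉ B j` (the branch sets are disjoint), and the
induction hypothesis gives `c' < c₀`.  Also `Conn G L`, `x ∈ L`, `y ∈ L` by induction (`Conn.insert`). -/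
def S_T1 : Prop := ∀ (V : Type) (t : ℕ) (G : SimpleGraph V) (B : Fin t → Set V),
  (∀ i j, i ≠ j → Disjoint (B i) (B j)) → ∀ (x : V) (L : Set V) (y : V) (c : ℕ), Tl G B x L y c →
    (Conn G L ∧ x ∈ L ∧ y ∈ L) ∧ ∀ w ∈ L, ∃ L' ⊆ L, ∃ c' ≤ c, Tl G B x L' w c' ∧
      ∀ j, w ∈ B j → y ∉ B j → c' < c

/-- **T2.** Truncation before two branch sets.  (Uses `S_T1`.)

Proof. CLAIM (induction on `Tl`): for `w ≠ w'` in `L` there are `L' ⊆ L` and `c' ≤ c` such that (`Tl G B x L' w c'` and `w' ∈ L'`) or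
(`Tl G B x L' w' c'` and `w ∈ L'`), and for the end `v` (`w` resp. `w'`) of `L'`: `∀ j, v ∈ B j → y ∉ B j → c' < c`.  Step: if `w = z` take `L`
itself, as well if `w' = z`; otherwise the induction hypothesis, as in T1.  In the first case T1 for `L'`, its end `w ∈ B i` and
`w' ∈ L'`, `w' ∈ B j`, `w ∉ B j` (disjoint) gives a truncation at `w'` with cost `c'' < c' < c`. -/
def S_T2 : Prop := S_T1 → ∀ (V : Type) (t : ℕ) (G : SimpleGraph V) (B : Fin t → Set V),
  (∀ i j, i ≠ j → Disjoint (B i) (B j)) → ∀ (x : V) (L : Set V) (y : V) (c : ℕ), Tl G B x L y c →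
    ∀ w ∈ L, ∀ w' ∈ L, ∀ i j, i ≠ j → w ∈ B i → w' ∈ B j → y ∉ B i → y ∉ B j →
      ∃ L' ⊆ L, ∃ c', c' + 2 ≤ c ∧ (Tl G B x L' w c' ∨ Tl G B x L' w' c')

/-- **T3.** Extension inside a connected subset of a branch set.  (Uses `S_T1`.)

Proof. `R` = the set of the `u ∈ D` for which there are `L' ⊆ L ∪ D` and `c' ≤ c` with `Tl G B x L' u c'`; `y ∈ R`.  If `R ≠ D` there are
`a ∈ R`, `b ∈ D \ R`, `a ~ b` (`Conn`).  `L'`, `c'` for `a`: if `b ∉ L'` the constructor `same` shows `b ∈ R`; if `b ∈ L'` T1 does. -/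
def S_T3 : Prop := S_T1 → ∀ (V : Type) (t : ℕ) (G : SimpleGraph V) (B : Fin t → Set V),
  (∀ i j, i ≠ j → Disjoint (B i) (B j)) → ∀ (x : V) (L : Set V) (y : V) (c : ℕ), Tl G B x L y c →
    ∀ (j : Fin t) (D : Set V), Conn G D → D ⊆ B j → y ∈ D → ∀ u ∈ D,
      ∃ L' ⊆ L ∪ D, ∃ c' ≤ c, Tl G B x L' u c'

/-- **K1.** Minimal linkages do not meet free branch sets.  (Uses `S_T1`.)

Proof. First claim: `Nat.find` for the set of the sums.  Second claim: suppose `w ∈ L l ∩ B j`, `j` not a value of `m`.  T1: a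
truncation `L'` of `L l` at `w` with cost `c' < c l` (`y l ∈ B (m l)`, so `y l ∉ B j`).  Replace `L l, y l, c l, m l` by `L', w, c', j`
(`Function.update`): the sum is smaller (`Finset.sum_lt_sum`). -/
def S_K1 : Prop := S_T1 → ∀ (V : Type) (t q : ℕ) (G : SimpleGraph V) (B : Fin t → Set V),
  (∀ i j, i ≠ j → Disjoint (B i) (B j)) → ∀ (x : Fin q → V),
    ((∃ L y c m, Lg G B x L y c m) → ∃ L y c m, MLg G B x L y c m) ∧
    ∀ L y c m, MLg G B x L y c m → ∀ l, ∀ j, (∀ i, m i ≠ j) → ∀ w ∈ L l, w ∉ B j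

/-- `D` is a connector in `B (m i)` from the path `l` (the vertex `w`) to the branch set `j` -/
def Cn {V : Type} {t q : ℕ} (G : SimpleGraph V) (B : Fin t → Set V) (L : Fin q → Set V)
    (m : Fin q → Fin t) (i l : Fin q) (j : Fin t) (D : Set V) (w : V) : Prop :=
  D ⊆ B (m i) ∧ Conn G D ∧ w ∈ D ∧ w ∈ L l ∧ (∀ z ∈ D, ∀ l', z ∈ L l' → z = w) ∧
    ∃ u ∈ D, ∃ v ∈ B j, G.Adj u v

/-- **K2.** Connectors.

Proof. `B (m i)` and `B j` touch (`j ≠ m i`): `u ∈ B (m i)`, `v ∈ B j`, `u ~ v`.  If `u ∈ L l` for some `l`: `D = {u}`, `w = u`.  Otherwise let `C` be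
the component of `u` in `B (m i) \ ⋃ L` (`exists_comp`); `C ≠ B (m i)` since `y i ∈ B (m i) ∩ L i` (`S_T1`: `y i ∈ L i`), so there are `a ∈ C`,
`w ∈ B (m i) \ C` with `a ~ w` (`Conn`), and `w ∈ L l` for some `l`.  `D = insert w C`. -/
def S_K2 : Prop := S_T1 → ∀ (V : Type) (t q : ℕ) (G : SimpleGraph V) (B : Fin t → Set V)
  (x : Fin q → V) (L : Fin q → Set V) (y : Fin q → V) (c : Fin q → ℕ) (m : Fin q → Fin t),
    CliqueModel G B → Lg G B x L y c m → ∀ (i : Fin q) (j : Fin t), (∀ i, m i ≠ j) →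
      ∃ (l : Fin q) (D : Set V) (w : V), Cn G B L m i l j D w

/-- **K3.** A path is used by at most two connectors.  (Uses `S_T1`, `S_T2`, `S_T3`, `S_K1`.)

Proof. Suppose `i ≠ i'`, both `≠ l`.  `w ∈ B (m i)`, `w' ∈ B (m i')` are in `L l`; `y l ∈ B (m l)`, so `y l ∉ B (m i)`, `y l ∉ B (m i')`.  T2: a
truncation `L'` of `L l` at `w` or at `w'` with cost `c'`, `c' + 2 ≤ c l`; say at `w` (the other case is the same with `D'`).  T3 with
`D ⊆ B (m i)`: `L'' ⊆ L l ∪ D` ending in `u`, cost `≤ c'`.  `v ∈ B j` is not in `L''` (`B j` is not met by the paths (K1), and disjoint from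
`B (m i) ⊇ D`); `diff`: `insert v L''`, cost `≤ c' + 1 < c l`.  It is disjoint from the other `L i''`: `D` meets the paths only in `w`, `v ∉ L i''`
by K1.  Replace `L l, y l, c l, m l` by `insert v L'', v, c' + 1, j`: a smaller sum. -/
def S_K3 : Prop := S_T1 → S_T2 → S_T3 → S_K1 → ∀ (V : Type) (t q : ℕ) (G : SimpleGraph V)
  (B : Fin t → Set V) (x : Fin q → V) (L : Fin q → Set V) (y : Fin q → V) (c : Fin q → ℕ)
  (m : Fin q → Fin t), CliqueModel G B → MLg G B x L y c m → ∀ (i i' l : Fin q) (j : Fin t)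
    (D D' : Set V) (w w' : V), (∀ i, m i ≠ j) → Cn G B L m i l j D w → Cn G B L m i' l j D' w' →
      i ≠ i' → i ≠ l → i' ≠ l → False

/-- **RK.** Rooted clique models.  (Uses `S_T1`, `S_T2`, `S_T3`, `S_K1`, `S_K2`, `S_K3`.)

Proof. A minimal linkage (K1).  `J₀` = the set of the `j` which are not values of `m`, `|J₀| ≥ t - q ≥ k q ^ q`.  For
`j ∈ J₀`, `i : Fin q` choose `φ j i`, `D i j`, `w i j` by K2.  `φ j : Fin q → Fin q`: there are `q ^ q` functions, so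
(`Finset.exists_le_card_fiber_of_mul_le_card_of_maps_to`) there is `J ⊆ J₀`, `|J| = k`, such that `φ j = ψ` for all `j ∈ J`.  By K3 (for one
`j ∈ J`) every fibre of `ψ` contains at most one `i ≠ l`, so at most two elements, and `q ≤ 2 |range ψ|`: there are `k` different
values `l 0, .., l (k - 1)` of `ψ`; `ψ (i a) = l a`.  `j 0, .., j (k - 1)` = the elements of `J`.
`T a = L (l a) ∪ (⋃ b < k, D (i a) (j b)) ∪ B (j a)`, `σ a = l a`.  Connected: `D (i a) (j b)` contains `w ∈ L (l a)`; `B (j a)` touches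
`D (i a) (j a)`.  Disjoint: the `L`'s; `L (l a)` and `D (i b) (j c)`, `a ≠ b`: `D` meets the paths only in a vertex of `L (l b)`; `D (i a) _` and
`D (i b) _` are in `B (m (i a))`, `B (m (i b))`, `i a ≠ i b`; `B (j b)` is not met by the paths (K1) and disjoint from the `B (m i)`.
Touching: `D (i a) (j b)` touches `B (j b) ⊆ T b`. -/
def S_RK : Prop := S_T1 → S_T2 → S_T3 → S_K1 → S_K2 → S_K3 → ∀ (V : Type) [Finite V]
  (t q k : ℕ) (G : SimpleGraph V) (B : Fin t → Set V) (x : Fin q → V), CliqueModel G B →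
    (∃ L y c m, Lg G B x L y c m) → 1 ≤ k → 2 * k ≤ q → q + k * q ^ q ≤ t →
    ∃ (T : ℕ → Set V) (σ : ℕ → Fin q), (∀ a < k, Conn G (T a) ∧ x (σ a) ∈ T a) ∧
      ∀ a < k, ∀ b < k, a ≠ b → Disjoint (T a) (T b) ∧ Tch G (T a) (T b)

/-! ### 2. havens -/

/-- **Lk.** Paths given by functions.

Proof. For a path `p 0, .., p n` (injective) `Tl G B (p 0) (GT.seg p 0 (s + 1)) (p s) s` for `s ≤ n` by induction (`diff`; `p (s + 1)` is
not one of the earlier vertices).  `x i = p i 0`, `L i = GT.seg (p i) 0 (n i + 1)`, `c i = n i`, `p i (n i) = y (m i)` (image); `m` is injective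
since the paths are disjoint. -/
def S_Lk : Prop := ∀ (V : Type) [Fintype V] [DecidableEq V] (t q : ℕ) (G : SimpleGraph V)
  (B : Fin t → Set V) (y : Fin t → V) (A : Finset V) (n : Fin q → ℕ) (p : Fin q → ℕ → V),
    (∀ j, y j ∈ B j) → GT.Lkg G A (Finset.univ.image y) q n p →
      ∃ (x : Fin q → V), (∀ i, x i ∈ A) ∧ ∃ L y' c m, Lg G B x L y' c m

/-- **Wa.** A haven gives a clique model rooted in `S`.  (Uses `RG.S_GKH`, `GT.SMen`, `S_Lk`; the last hypothesis is the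
conclusion of `S_RK`.)

Proof. `InGrid K302` (`X3.grid1` in `X3/KB.lean`) is the hypothesis `hg`.  `q = 2 K`, `t = q + K q ^ q + 1`; `w` = the number of GKH for `t`,
`r := n` (the grid which contains `K302`), `k := t`; `w' = max w 1`.  A grid model is excluded by `FH` (transitivity of `IMS`: see
`A0/`, `RG/Bc.lean`).  Let `B`, `Deep G S t B`; `y j ∈ B j`; `A` = `S` as a `Finset`.  `GT.SMen` for `A`, `univ.image y`, `q`: let
`GT.Cut G A (univ.image y) L X` and `|X| < q`; `Deep`: `j`, `C` connected, disjoint from `X`, `B j ⊆ C`, `|S| < 2 |S ∩ C|`; so `C` contains an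
element of `S ⊆ L ∪ X`, which is in `L`, and `y j ∉ L` (`Cut.last`); `C` is connected and avoids `X`: against `Cut.far` (`Conn` for
`{v ∈ C | v ∈ L}`).  Lk and RK: `x i ∈ A`.  (`K = 0`: `w = 1` and the haven for `X = ∅` gives a vertex.) -/
def S_Wa : Prop := InGrid K302 → RG.S_GKH → GT.SMen → S_Lk →
  -- the conclusion of `S_RK`
  (∀ (V : Type) [Finite V]
    (t q k : ℕ) (G : SimpleGraph V) (B : Fin t → Set V) (x : Fin q → V), CliqueModel G B →
      (∃ L y c m, Lg G B x L y c m) → 1 ≤ k → 2 * k ≤ q → q + k * q ^ q ≤ t →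
      ∃ (T : ℕ → Set V) (σ : ℕ → Fin q), (∀ a < k, Conn G (T a) ∧ x (σ a) ∈ T a) ∧
        ∀ a < k, ∀ b < k, a ≠ b → Disjoint (T a) (T b) ∧ Tch G (T a) (T b)) →
  ∀ K : ℕ, ∃ w : ℕ, ∀ (V : Type) [Finite V] (G : SimpleGraph V) (S : Set V), FH G →
    (∀ X : Set V, X.ncard < w → ∃ C, Conn G C ∧ Disjoint C X ∧ S.ncard < 2 * (S ∩ C).ncard) →
    ∃ (T : ℕ → Set V) (x : ℕ → V), (∀ a < K, Conn G (T a) ∧ x a ∈ T a ∧ x a ∈ S) ∧
      ∀ a < K, ∀ b < K, a ≠ b → Disjoint (T a) (T b) ∧ Tch G (T a) (T b)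

/-- **Hu.** Havens.

Proof. Let `|X| < w`.  Call `P` closed if it is disjoint from `X` and no edge leaves `P ∪ X` from `P`.  `Xᶜ` is closed and contains at least
`|S| - w ≥ 3 |S| / 4` elements of `S`.  Choose a closed `P` with `|S| ≤ 4 |S ∩ P|` and `|P|` minimal; `R = (P ∪ X)ᶜ`; `(P, X, R)` is a separation
(`RG.Sepa`), so by `Usp` `4 |S ∩ R| < |S|`.  If `P` is connected and contains more than half of `S` we are done.  If it is connected and
does not, then `|S ∩ R| ≥ |S| - |X| - |S| / 2`, so `4 |S ∩ R| ≥ 2 |S| - 4 w ≥ |S|`: contradiction.  `P` is nonempty (`0 < |S|`).  If it is not connected, it is the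
disjoint union of two nonempty closed smaller sets (negation of `Conn`), each with `4 |S ∩ P_i| < |S|`, so `|S ∩ P| < |S| / 2` and the
same contradiction. -/
def S_Hu : Prop := ∀ (V : Type) [Finite V] (G : SimpleGraph V) (S : Set V) (w : ℕ), 0 < S.ncard →
  4 * w ≤ S.ncard → RG.Usp G S w 4 →
    ∀ X : Set V, X.ncard < w → ∃ C, Conn G C ∧ Disjoint C X ∧ S.ncard < 2 * (S ∩ C).ncard

/-! ### 3. rails -/

/-- **Zp.** A piece of a rail.

Proof. `A` = the component of `y'` in `{u ∈ Y | u` touches no letter `l a` with `a ≠ q}` (`exists_comp`; `y'` touches `l q`, so it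
touches no other letter).  `A ≠ Y` by `h3`: there are `a ∈ A`, `z ∈ Y \ A`, `a ~ z` (`Conn`), and `z` touches a letter `l j`, `j ≠ q`.
`Z = insert z A`. -/
def S_Zp : Prop := ∀ (V : Type) (G : SimpleGraph V) (n : ℕ) (e : Bool → ℕ → V) (l : Fin 5 → ℕ)
  (Y : Set V) (y' : V) (q : Fin 5), Function.Injective l → (∀ a, l a < n) → Conn G Y → y' ∈ Y →
    (∀ u ∈ Y, Lw G n e u) → Tc G e y' (l q) → (∃ u ∈ Y, ∃ a, a ≠ q ∧ Tc G e u (l a)) →
    ∃ Z ⊆ Y, Conn G Z ∧ y' ∈ Z ∧ ∃ j, j ≠ q ∧ (∃ u ∈ Z, Tc G e u (l j)) ∧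
      ∀ u ∈ Z, ∀ a, Tc G e u (l a) → a = q ∨ a = j

/-- **Ral.** Five letters and 64 disjoint connected sets which touch all of them.  (Uses `NK.S_Lea`, `S_Zp`.)

Proof. Suppose that all `Y i` touch all five letters.  The ten vertices of the five letters are in at most ten of the `Y i`;
for the other `i` (at least 54 of them) use Lea with `τ u a = Tc G e u (l a)`: `Y' i`, `y i`, `y' i`, `(p i, q i)`.  As `54 > 2 * 25` three
different `i` (call them `1, 2, 3`) have the same `(p, q)`.  Zp for `Y' 2 \ {y 2}` (connected; its elements touch all letters but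
`p`), `y' 2` (it touches `l q`), gives `Z` and `j ≠ q`; `j ≠ p` since only `y 2` touches `l p`.  `k, m` = the other two elements of `Fin 5`.  Model
`[Y'_1 \ {y'_1}, P_m | P_j, Z | Y'_3 \ {y_3, y'_3} ; P_p, P_q, P_k]` (`P_a` = the letter `l a`).  (`b₀ - b₁`: `Y'_1` touches `P_j`; the vertex
is not `y'_1`, which touches only `l q`; `b₀ - b₂`: `P_m` and `Y'_3`; `b₁ - b₂`: `P_j` and `Y'_3`; `P_p` is touched by `y_1` only, `P_q` by
`y'_2 ∈ Z` only, `P_k` by `Y'_1` and `Y'_3`, not by `Z`, `P_j`.) -/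
def S_Ral : Prop := NK.S_Lea → S_Zp → ∀ (V : Type) [Finite V] (G : SimpleGraph V) (n : ℕ)
  (e : Bool → ℕ → V), Lt G n e → FH G → ∀ (l : Fin 5 → ℕ) (Y : Fin 64 → Set V),
    Function.Injective l → (∀ a, l a < n) → (∀ i, Conn G (Y i)) →
    (∀ i j, i ≠ j → Disjoint (Y i) (Y j)) → (∀ i, ∀ u ∈ Y i, Lw G n e u) →
      ¬ ∀ i a, ∃ u ∈ Y i, Tc G e u (l a)

/-- **Wb.** Cleaning.  (Uses `W.S_RamC`, `NK.S_Lea`, `S_Zp`, `S_Ral`.)

Proof. `K'` = the number of `W.S_RamC` (or `H1T.ram`) for the two relations (`T j` touches the letter `l i`), (`T i` touches the letter `l j`),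
`i < j`, and `max K 69`: `s` increasing.  If the first is always true (`i < j`): Ral with the letters `l (s a)`, `a < 5`, and the sets
`T (s (5 + i))`, `i < 64`.  If the second is always true: Ral with the letters `l (s (64 + a))` and the sets `T (s i)`.  (`l` is injective:
`e false (l a) ∈ T a` and the `T a` are disjoint.)  So `T (s j)` does not touch the letter `l (s i)` for `i ≠ j`.
`T' a = T (s a) ∪ Pr e (l (s a))`: `e true (l (s a))` is not in `T (s b)`, `b ≠ a`, otherwise `T (s b)` would touch the letter `l (s a)`.  `Cp` for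
the letters `fun r i => e r (l (s i))`; `Lw` by `lw_comp`. -/
def S_Wb : Prop := W.S_RamC → NK.S_Lea → S_Zp → S_Ral → ∀ K : ℕ, ∃ K' : ℕ, ∀ (V : Type)
  [Finite V] (G : SimpleGraph V) (n : ℕ) (e : Bool → ℕ → V) (W : Set V) (l : ℕ → ℕ)
  (T : ℕ → Set V), FH G → Lt G n e → (∀ i < n, ∀ s, e s i ∉ W) →
    (∀ a < K', l a < n ∧ Conn G (T a) ∧ e false (l a) ∈ T a ∧ ∀ x ∈ T a, x ∉ W ∧ Lw G n e x) →
    (∀ a < K', ∀ b < K', a ≠ b → Disjoint (T a) (T b) ∧ Tch G (T a) (T b)) →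
    ∃ (s : ℕ → ℕ) (T' : ℕ → Set V), (∀ i < K, s i < n) ∧ (∀ i < K, ∀ j < K, s i = s j → i = j) ∧
      Cp G K (fun r i => e r (s i)) W T'

/-- **Rf.** `FH` for the restriction.

Proof. A model of `K302` in `Rs G U`: every branch set touches another one (`K302` has no isolated vertex), so it is contained in
`U` (`rs_sub`).  So the same sets are a model in `G`: `rs_conn`, and `Tch (Rs G U) A B ↔ Tch G A B` for `A, B ⊆ U` (`rs_tch`,
`rs_tch_of`).  (`IMS` is defined in `Defs2.lean`: see `R3.ims_of_sp` for its constructor.) -/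
def S_Rf : Prop := ∀ (V : Type) (G : SimpleGraph V) (U : Set V), FH G → FH (Rs G U)

/-- **NW.** No havens in `G[U]`.  (Uses `S_Rf`; the hypotheses are the conclusions of `S_Wa`, `S_Wb`, `S_Ce`, `S_Ma`, `S_Qx`.)

Proof. `k = 2 β 4 + 10`, `K = 3 k + 6`, `K'` from Wb for `K`, `w` from Wa for `max K' 2`.  Let `Rg G n e W`, `3 ≤ n`, `U = {v | v ∉ W ∧ Lw G n e v}`,
`S ⊆ {e false i | i < n}`, and suppose that `Rs G U` has the haven.  Wa for `Rs G U` (`S_Rf`): `T a`, `x a ∈ T a ∩ S`; `T a` touches another one,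
so `T a ⊆ U` (`rs_sub`); `x a = e false (l a)`.  `rs_conn`, `rs_tch`.  The letters are not in `W`: the elements of `W` are not `Lw`
(`Hf.not_lw`, `Lt.lw`).  Wb: `s`, `T'`, `Cp G K (e ∘ s) W T'`.  `Rg.comp`.  Ce: `Cm`.  Ma: arms for `e ∘ s ∘ σ`, `k` of them; `Rg.comp`; Qx:
contradiction. -/
def S_NW : Prop := S_Rf →
  -- the conclusion of `S_Wa`
  (∀ K : ℕ, ∃ w : ℕ, ∀ (V : Type) [Finite V] (G : SimpleGraph V) (S : Set V), FH G →
    (∀ X : Set V, X.ncard < w → ∃ C, Conn G C ∧ Disjoint C X ∧ S.ncard < 2 * (S ∩ C).ncard) →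
    ∃ (T : ℕ → Set V) (x : ℕ → V), (∀ a < K, Conn G (T a) ∧ x a ∈ T a ∧ x a ∈ S) ∧
      ∀ a < K, ∀ b < K, a ≠ b → Disjoint (T a) (T b) ∧ Tch G (T a) (T b)) →
  -- the conclusion of `S_Wb`
  (∀ K : ℕ, ∃ K' : ℕ, ∀ (V : Type)
    [Finite V] (G : SimpleGraph V) (n : ℕ) (e : Bool → ℕ → V) (W : Set V) (l : ℕ → ℕ)
    (T : ℕ → Set V), FH G → Lt G n e → (∀ i < n, ∀ s, e s i ∉ W) →
    (∀ a < K', l a < n ∧ Conn G (T a) ∧ e false (l a) ∈ T a ∧ ∀ x ∈ T a, x ∉ W ∧ Lw G n e x) →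
    (∀ a < K', ∀ b < K', a ≠ b → Disjoint (T a) (T b) ∧ Tch G (T a) (T b)) →
    ∃ (s : ℕ → ℕ) (T' : ℕ → Set V), (∀ i < K, s i < n) ∧ (∀ i < K, ∀ j < K, s i = s j → i = j) ∧
      Cp G K (fun r i => e r (s i)) W T') →
  -- `S_Ce`
  S_Ce →
  -- the conclusion of `S_Ma`
  (∀ (V : Type) [Finite V] (G : SimpleGraph V) (k : ℕ)
    (e : Bool → ℕ → V) (W : Set V) (T : ℕ → Set V), FH G → Lt G (3 * k + 6) e →
    Cm G (3 * k + 6) e W T → ∃ (σ : ℕ → ℕ) (q : ℕ → V) (E : ℕ → Set V),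
      (∀ i < k, σ i < 3 * k + 6) ∧ (∀ i < k, ∀ j < k, σ i = σ j → i = j) ∧
      Ar G k (fun s i => e s (σ i)) W q E) →
  -- the conclusion of `S_Qx`
  (∀ (β : ℕ → ℕ) (V : Type) [Finite V] (G : SimpleGraph V) (k : ℕ) (e : Bool → ℕ → V) (W : Set V)
    (q : ℕ → V) (E : ℕ → Set V), FH G → Pm G → Link β 4 G → Rg G k e W → Ar G k e W q E →
      ¬ 2 * β 4 + 10 ≤ k) →
  ∀ β : ℕ → ℕ, ∃ w : ℕ, ∀ (V : Type) [Finite V] (G : SimpleGraph V) (n : ℕ) (e : Bool → ℕ → V)
    (W S : Set V), FH G → Pm G → Link β 4 G → Rg G n e W → 3 ≤ n →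
      (∀ s ∈ S, ∃ i < n, s = e false i) →
      ¬ ∀ X : Set V, X.ncard < w → ∃ C, Conn (Rs G {v | v ∉ W ∧ Lw G n e v}) C ∧ Disjoint C X ∧
        S.ncard < 2 * (S ∩ C).ncard

/-! ### 4. splitting -/

/-- **Sk.** Splitting into `k + 1` parts.

Proof. (Copy and adapt `RG/Spl.lean`: `S_Spl` is the case `k = 4`.)  Suppose the first alternative is false.  CLAIM, for `p = 0, .., k`: there are `Q`
with `|Q| ≤ p ρ` and `D : ℕ → Set V` (indices `≤ p`), pairwise disjoint, disjoint from `Q`, CLOSED (a neighbour of an element of `D i` is in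
`D i ∪ Q`), with `|S| ≤ e ^ p * (|S ∩ D i| + p ρ)` for all `i ≤ p` and `|S| ≤ e ^ p * |S ∩ D p|`.  `p = 0`: `Q = ∅`, `D 0 = univ`.  Step: `S₀ = S ∩ D p`,
`|S| ≤ e ^ k * |S₀|`, so `Usp G S₀ ρ e` is false: there is a separation `(P, Z, R)`, `|Z| < ρ`, `|S₀| ≤ e |S₀ ∩ P|`, `|S₀| ≤ e |S₀ ∩ R|`.
`Q' = Q ∪ Z`, `D' i = D i \ Z` for `i < p`, `D' p = D p ∩ P`, `D' (p + 1) = D p ∩ R`.  They are closed: a neighbour of `u ∈ D p ∩ P` is in `D p ∪ Q`
and in `P ∪ Z`.  `|S ∩ D' i| ≥ |S ∩ D i| - ρ` for `i < p`. -/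
def S_Sk : Prop := ∀ (V : Type) [Finite V] (G : SimpleGraph V) (S : Set V) (ρ e k : ℕ), 1 ≤ e →
  (∃ S₀ ⊆ S, S.ncard ≤ e ^ k * S₀.ncard ∧ RG.Usp G S₀ ρ e) ∨
  ∃ (Q : Set V) (D : ℕ → Set V), Q.ncard ≤ k * ρ ∧ (∀ i ≤ k, Disjoint (D i) Q) ∧
    (∀ i ≤ k, ∀ j ≤ k, i ≠ j → Disjoint (D i) (D j)) ∧
    (∀ i ≤ k, ∀ u ∈ D i, ∀ v, G.Adj u v → v ∈ D i ∨ v ∈ Q) ∧
    ∀ i ≤ k, S.ncard ≤ e ^ k * ((S ∩ D i).ncard + k * ρ)

/-- a component of `G - Q` -/
def Cl {V : Type} (G : SimpleGraph V) (Q K : Set V) : Prop :=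
  Conn G K ∧ Disjoint K Q ∧ ∀ u ∈ K, ∀ v, G.Adj u v → v ∈ K ∨ v ∈ Q

/-- **Cq.** Many components with elements of `S`, or a large one.

Proof. Every `x ∈ D` is in a component `K x ⊆ D` of `G - Q` (`exists_comp` for `D`; a neighbour of `K x` outside `K x` is in `Q`, as `D` is
closed).  Two components (`Cl`) are equal or disjoint: if they meet, `Conn` of the union shows that both are equal to it.  Let `𝒦` be the set
of the `K x`, `x ∈ S ∩ D` (finite).  If `n ≤ |𝒦|`: the first alternative (enumerate).  Otherwise, if every `K ∈ 𝒦` has `|S ∩ K| ≤ M` then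
`|S ∩ D| ≤ n M`: contradiction. -/
def S_Cq : Prop := ∀ (V : Type) [Finite V] (G : SimpleGraph V) (S D Q : Set V) (n M : ℕ),
  Disjoint D Q → (∀ u ∈ D, ∀ v, G.Adj u v → v ∈ D ∨ v ∈ Q) → n * M < (S ∩ D).ncard →
    (∃ K : ℕ → Set V, (∀ i < n, Cl G Q (K i) ∧ K i ⊆ D ∧ (S ∩ K i).Nonempty) ∧
      ∀ i < n, ∀ j < n, i ≠ j → Disjoint (K i) (K j)) ∨
    ∃ K, Cl G Q K ∧ K ⊆ D ∧ M < (S ∩ K).ncard

/-- **Cu.** From components of `G[U] - Q` to cells.

Proof. For `i < m` the letter `ι i` is contained in `K i`; so `K i` has two adjacent vertices in `U` (the letters are in `U`: `Lt.lw`, and the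
elements of `W` are not `Lw`, `Hf.not_lw`), `K i ⊆ U` (`rs_sub`), `Conn G (K i)` (`rs_conn`).  `ant`: `x ∈ K i`, `y ∈ K j`, `x ~ y`: an edge of
`Rs G U`, so `y ∈ K i` or `y ∈ Q`: contradiction (disjoint).  `kq`: `K i` is disjoint from `Q` and from `W` (`⊆ U`).  `out`: let `v ∉ Q ∪ W`, `v ∉ K i`
for all `i`.  If `Lw G n e v` then `v ∈ U`; a neighbour `x ∈ K i` of `v` would give an edge of `Rs G U`, so `v ∈ K i ∪ Q`: contradiction; so `Nul`.
Otherwise `Rg.out`: `Fm G n e v`, `Fm.comp`. -/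
def S_Cu : Prop := ∀ (V : Type) (G : SimpleGraph V) (n m : ℕ) (e : Bool → ℕ → V)
  (W Q : Set V) (K : ℕ → Set V) (ι : ℕ → ℕ), Rg G n e W → 3 ≤ n → (∀ i < m, ι i < n) →
    (∀ i < m, ∀ j < m, ι i = ι j → i = j) →
    (∀ i < m, Cl (Rs G {v | v ∉ W ∧ Lw G n e v}) Q (K i) ∧ Pr e (ι i) ⊆ K i) →
    (∀ i < m, ∀ j < m, i ≠ j → Disjoint (K i) (K j)) →
      CP G m (fun s i => e s (ι i)) K (Q ∪ W)

/-- **CK.** The cell position.  (Uses `S_Sk`, `S_Cq`, `S_Cu`, `S_Hu`.)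

Proof. `q = k w`, `n' = n + q + 1`, `M' = M + q`, `N = 4 ^ k * (n' * M' + 4 w + q + 2) + 3`.  `Γ = Rs G U`, `S = {e false i | i < m}`, `|S| = m`.
Sk for `Γ`, `S`, `ρ = w`, `e = 4`.  CASE 1: `S₀`, `m ≤ 4 ^ k |S₀|`, so `|S₀| ≥ 4 w`, `|S₀| > 0`; Hu gives a haven for `S₀`, excluded by the
hypothesis.  CASE 2: `Q`, `D i`, `i ≤ k`; `|S ∩ D i| > n' M'`.  Cq for every `i < k` with `n', M'`.  (2a) For some `i` the first alternative:
components `K 0, .., K (n' - 1)`, `e false (l a) ∈ K a`.  The number of the `a` with `e true (l a) ∈ Q` is at most `|Q| ≤ q` (`l` is injective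
as the `K a` are disjoint); for the other `a` (at least `n` of them) `e true (l a) ∈ K a` (it is a `Γ`-neighbour of `e false (l a)`, not in
`Q`), so the letter `l a` is in `K a`.  Cu with `n` of them.  (2b) Otherwise components `K i ⊆ D i` (`i < k`) with `M' < |S ∩ K i|`: disjoint; the
number of the `j` with `e false j ∈ K i` is more than `M + q`, for one of them `e true j ∉ Q`, so `Pr e j ⊆ K i`.  Cu; `M < |K i|`. -/
def S_CK : Prop := S_Sk → S_Cq → S_Cu → S_Hu → ∀ k w n M : ℕ, ∃ N : ℕ, ∀ (V : Type) [Finite V]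
  (G : SimpleGraph V) (m : ℕ) (e : Bool → ℕ → V) (W : Set V), Rg G m e W → N ≤ m →
    (∀ S : Set V, (∀ s ∈ S, ∃ i < m, s = e false i) →
      ¬ ∀ X : Set V, X.ncard < w → ∃ C, Conn (Rs G {v | v ∉ W ∧ Lw G m e v}) C ∧ Disjoint C X ∧
        S.ncard < 2 * (S ∩ C).ncard) →
    ∃ (Q : Set V) (K : ℕ → Set V) (ι : ℕ → ℕ), Q.ncard ≤ k * w + 2 ∧
      ((CP G k (fun s i => e s (ι i)) K Q ∧ ∀ i < k, M < (K i).ncard) ∨
        CP G n (fun s i => e s (ι i)) K Q)

/-- **RE.** Theorem REG.  (The hypotheses are the conclusions of `S_NW`, `S_CK`, `S_CX`.)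

Proof. `w` from NW for `β`.  `k = (2 * 15 + 1) * (3 t + 7)`, `q = k w + 2`, `M = max (β (q + 1)) (max (β (q + 2)) (β (q + t + 2)))`, `a = M + 1`,
`n = (2 (a + 14) + 1) * (3 t + 2 a + 5) + q (a + 14)`, `c₀ = max 4 (q + t + 2)`, `N` from CK for `k, w, n, M`; the number is `max N 3`.
(`Link` is monotone in `c₀`: `Rep.link_mono` or by definition.)  CK: in the first case CX with `a := 1`, `n := k` (first alternative of its
conclusion; the mass condition: `|I| ≥ 1` and `M < |K i|`); in the second case CX with `a := M + 1`, `n := n`: the mass condition holds because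
the `K i` are nonempty and disjoint, `|⋃ i ∈ I, K i| ≥ |I| > M`. -/
def S_RE : Prop :=
  -- the conclusion of `S_NW`
  (∀ β : ℕ → ℕ, ∃ w : ℕ, ∀ (V : Type) [Finite V] (G : SimpleGraph V) (n : ℕ) (e : Bool → ℕ → V)
    (W S : Set V), FH G → Pm G → Link β 4 G → Rg G n e W → 3 ≤ n →
      (∀ s ∈ S, ∃ i < n, s = e false i) →
      ¬ ∀ X : Set V, X.ncard < w → ∃ C, Conn (Rs G {v | v ∉ W ∧ Lw G n e v}) C ∧ Disjoint C X ∧
        S.ncard < 2 * (S ∩ C).ncard) →
  -- the conclusion of `S_CK`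
  (∀ k w n M : ℕ, ∃ N : ℕ, ∀ (V : Type) [Finite V]
    (G : SimpleGraph V) (m : ℕ) (e : Bool → ℕ → V) (W : Set V), Rg G m e W → N ≤ m →
    (∀ S : Set V, (∀ s ∈ S, ∃ i < m, s = e false i) →
      ¬ ∀ X : Set V, X.ncard < w → ∃ C, Conn (Rs G {v | v ∉ W ∧ Lw G m e v}) C ∧ Disjoint C X ∧
        S.ncard < 2 * (S ∩ C).ncard) →
    ∃ (Q : Set V) (K : ℕ → Set V) (ι : ℕ → ℕ), Q.ncard ≤ k * w + 2 ∧
      ((CP G k (fun s i => e s (ι i)) K Q ∧ ∀ i < k, M < (K i).ncard) ∨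
        CP G n (fun s i => e s (ι i)) K Q)) →
  -- the conclusion of `S_CX`
  (∀ (V : Type) [Finite V] (G : SimpleGraph V) (n t a q M : ℕ) (e : Bool → ℕ → V)
    (K : ℕ → Set V) (Q : Set V) (β : ℕ → ℕ), FH G → FJ t G → Pm G →
    Link β (q + t + 2) G → CP G n e K Q → Q.ncard ≤ q →
    β (q + 1) ≤ M → β (q + 2) ≤ M → β (q + t + 2) ≤ M →
    (∀ I : Finset ℕ, (∀ i ∈ I, i < n) → a ≤ I.card → M < (⋃ i ∈ I, K i).ncard) →
    (2 * (a + 14) + 1) * (3 * t + 2 * a + 5) ≤ n →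
    ¬ ((∀ i < n, M < (K i).ncard) ∨
      (2 * (a + 14) + 1) * (3 * t + 2 * a + 5) + q * (a + 14) ≤ n)) →
  ∀ (t : ℕ) (β : ℕ → ℕ), ∃ c₀ n : ℕ, ∀ (V : Type) [Finite V] (G : SimpleGraph V)
    (e : Bool → ℕ → V) (W : Set V), FH G → FJ t G → Pm G → Link β c₀ G → ¬ Rg G n e W

end Pool.Agent.MPd439b2.H1R
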