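import Pool.Agent.Lib.MP_d439b2_co.X3.H1R.SpecR

/-!
# MP_d439b2_co, X3/H1R, T2: truncation before two branch sets
-/

set_option autoImplicit false

namespace Pool.Agent.MPd439b2.H1R

open Pool.Agent.MPd439b2
open Pool.Agent.MPd439b2.Rep
open Pool.Agent.MPd439b2.NK
open Pool.Agent.MPd439b2.H1T

private theorem t2_claim {V : Type} {t : ℕ} {G : SimpleGraph V} {B : Fin t → Set V}
    (hB : ∀ i j, i ≠ j → Disjoint (B i) (B j)) {x : V} {L : Set V} {y : V} {c : ℕ}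
    (h : Tl G B x L y c) : ∀ w ∈ L, ∀ w' ∈ L, w ≠ w' → ∃ L' ⊆ L, ∃ c' ≤ c,
      (Tl G B x L' w c' ∧ w' ∈ L' ∧ ∀ j, w ∈ B j → y ∉ B j → c' < c) ∨
      (Tl G B x L' w' c' ∧ w ∈ L' ∧ ∀ j, w' ∈ B j → y ∉ B j → c' < c) := by
  induction h with
  | base =>
    intro w hw w' hw' hne
    rw [Set.mem_singleton_iff] at hw hw'
    exact absurd (hw.trans hw'.symm) hne
  | @same L y z c h0 hadj hz hj ih =>
    intro w hw w' hw' hne
    obtain ⟨k, hyk, hzk⟩ := hj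
    have hcon : ∀ (v : V) (c' : ℕ), (∀ j, v ∈ B j → y ∉ B j → c' < c) →
        ∀ j, v ∈ B j → z ∉ B j → c' < c := by
      intro v c' h1 j hv hzj
      refine h1 j hv fun hyj => ?_
      have hjk : k ≠ j := by
        rintro rfl
        exact hzj hzk
      exact Set.disjoint_left.1 (hB k j hjk) hyk hyj
    rcases Set.mem_insert_iff.1 hw with rfl | hwL
    · exact ⟨insert w L, subset_rfl, c, le_rfl, Or.inl ⟨Tl.same h0 hadj hz ⟨k, hyk, hzk⟩, hw',
        fun j h1 h2 => absurd h1 h2⟩⟩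
    · rcases Set.mem_insert_iff.1 hw' with rfl | hwL'
      · exact ⟨insert w' L, subset_rfl, c, le_rfl, Or.inr ⟨Tl.same h0 hadj hz ⟨k, hyk, hzk⟩, hw,
          fun j h1 h2 => absurd h1 h2⟩⟩
      · obtain ⟨L', hL', c', hc', h1⟩ := ih w hwL w' hwL' hne
        refine ⟨L', hL'.trans (Set.subset_insert _ _), c', hc', ?_⟩
        rcases h1 with ⟨h1, h2, h3⟩ | ⟨h1, h2, h3⟩
        · exact Or.inl ⟨h1, h2, hcon w c' h3⟩
        · exact Or.inr ⟨h1, h2, hcon w' c' h3⟩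
  | @diff L y z c h0 hadj hz ih =>
    intro w hw w' hw' hne
    rcases Set.mem_insert_iff.1 hw with rfl | hwL
    · exact ⟨insert w L, subset_rfl, c + 1, le_rfl, Or.inl ⟨Tl.diff h0 hadj hz, hw',
        fun j h1 h2 => absurd h1 h2⟩⟩
    · rcases Set.mem_insert_iff.1 hw' with rfl | hwL'
      · exact ⟨insert w' L, subset_rfl, c + 1, le_rfl, Or.inr ⟨Tl.diff h0 hadj hz, hw,
          fun j h1 h2 => absurd h1 h2⟩⟩
      · obtain ⟨L', hL', c', hc', h1⟩ := ih w hwL w' hwL' hne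
        refine ⟨L', hL'.trans (Set.subset_insert _ _), c', by omega, ?_⟩
        rcases h1 with ⟨h1, h2, _⟩ | ⟨h1, h2, _⟩
        · exact Or.inl ⟨h1, h2, fun _ _ _ => by omega⟩
        · exact Or.inr ⟨h1, h2, fun _ _ _ => by omega⟩

theorem rT2 : S_T2 := by
  intro hT1 V t G B hB x L y c h w hw w' hw' i j hij hwi hwj hyi hyj
  have hne : w ≠ w' := by
    rintro rfl
    exact Set.disjoint_left.1 (hB i j hij) hwi hwj
  have hwj' : w ∉ B j := fun h1 => Set.disjoint_left.1 (hB i j hij) hwi h1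
  have hwi' : w' ∉ B i := fun h1 => Set.disjoint_left.1 (hB i j hij) h1 hwj
  obtain ⟨L', hL', c', _, h1⟩ := t2_claim hB h w hw w' hw' hne
  rcases h1 with ⟨h1, h2, h3⟩ | ⟨h1, h2, h3⟩
  · have h4 := h3 i hwi hyi
    obtain ⟨L'', hL'', c'', _, h5, h6⟩ := (hT1 V t G B hB x L' w c' h1).2 w' h2
    have h7 := h6 j hwj hwj'
    exact ⟨L'', hL''.trans hL', c'', by omega, Or.inr h5⟩
  · have h4 := h3 j hwj hyj
    obtain ⟨L'', hL'', c'', _, h5, h6⟩ := (hT1 V t G B hB x L' w' c' h1).2 w h2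
    have h7 := h6 i hwi hwi'
    exact ⟨L'', hL''.trans hL', c'', by omega, Or.inl h5⟩

end Pool.Agent.MPd439b2.H1R
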